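import Pool.Agent.Lib.MP_47458b_co.DU.Stm

/-!
Project DU, piece ADX: section (8.2).
-/

set_option autoImplicit false

namespace Pool.Agent.Lib.MP_47458b_co.DU

open Finset

section

variable {V W : Type} [Fintype V] [DecidableEq V] [Fintype W] [DecidableEq W]

private lemma adx_symm {D : Digraph V} {s : Bool} {x y : V} (h : y ∈ nb D (!s) x) :
    x ∈ nb D s y := by
  cases s
  · rw [mem_nb_false]
    exact mem_nb_true.mp h
  · rw [mem_nb_true]
    exact mem_nb_false.mp h

/-- a map between finite sets of the same size -/
private lemma adx_map (A : Finset W) (B : Finset V) (v : V) (h : A.card = B.card) :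
    ∃ f : W → V, (∀ a ∈ A, f a ∈ B) ∧ ∀ a ∈ A, ∀ b ∈ A, f a = f b → a = b := by
  classical
  let e := Finset.equivOfCardEq h
  refine ⟨fun a => if ha : a ∈ A then (e ⟨a, ha⟩).1 else v, ?_, ?_⟩
  · intro a ha
    simp only [dif_pos ha]
    exact (e ⟨a, ha⟩).2
  · intro a ha b hb hab
    simp only [dif_pos ha, dif_pos hb] at hab
    have h1 := e.injective (Subtype.ext hab)
    exact congrArg Subtype.val h1

private lemma adx_sign {T : Digraph W} {s : Bool} {a b : W} (hs : (nb T (!s) a).card = 0)
    (hab : (gr T).Adj a b) : sg T a b = s := by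
  classical
  rw [card_eq_zero] at hs
  have hab' : a ≠ b ∧ (T.Adj a b ∨ T.Adj b a) := by
    simpa only [gr, Digraph.toSimpleGraphInclusive, SimpleGraph.fromRel_adj] using hab
  cases s
  · have h1 : ¬ T.Adj a b := by
      intro h
      have : b ∈ nb T (!false) a := mem_nb_true.mpr h
      rw [hs] at this
      exact notMem_empty _ this
    simp [sg, h1]
  · have h1 : ¬ T.Adj b a := by
      intro h
      have : b ∈ nb T (!true) a := mem_nb_false.mpr h
      rw [hs] at this
      exact notMem_empty _ this
    have h2 : T.Adj a b := hab'.2.resolve_right h1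
    simp [sg, h2]

end

theorem p_adx : S_adx := by
  classical
  intro hncl hsel hlow hout V W _ _ _ _ D T k m K Δ σ J v hT hD hκ hΔ hv hnum hJ hvP hP hsnk hbig
  have hk : 1 ≤ k := by omega
  have h1 : ∀ s, (PP D k K both s J \ J).card ≤ 10 * K :=
    fun s => hout V D k m K both s J hk trivial hJ
  have h2 : ∀ s x, x ∈ PP D k K both s J → nb D s x ⊆ PP D k K both (!s) J := by
    intro s x hx y hy
    by_cases hs : s = σ
    · subst hs
      exact (hP x y hy).mp hx
    · have hs' : s = !σ := by
        cases s <;> cases σ <;> simp_all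
      subst hs'
      have hxy : x ∈ nb D σ y := adx_symm hy
      have := (hP y x hxy).mpr hx
      simpa using this
  have h3 : ∀ s, (PP D k K both s J).card ≤ k + 10 * K := by
    intro s
    have ha := card_sdiff_add_card_inter (PP D k K both s J) J
    have hb : (PP D k K both s J ∩ J).card ≤ J.card := card_le_card inter_subset_right
    have hc := h1 s
    have hd := hJ.hi
    omega
  have h4 : ∀ s x, x ∈ PP D k K both s J →
      (PP D k K both (!s) J \ nb D s x).card ≤ 10 * K + m := by
    intro s x hx
    have ha := card_sdiff_add_card_eq_card (h2 s x hx)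
    have hb := h3 (!s)
    have hc := hκ s x
    omega
  have h5' : k ≤ (PP D k K both (!σ) J).card := (hv σ).trans (card_le_card (h2 σ v hvP))
  have h5 : ∀ s, k ≤ (PP D k K both s J).card + m := by
    intro s
    by_cases hs : s = σ
    · subst hs
      obtain ⟨y, hy⟩ := card_pos.mp (show 0 < (PP D k K both (!s) J).card by omega)
      have ha := card_le_card (h2 (!s) y hy)
      rw [Bool.not_not] at ha
      have hb := hκ (!s) y
      omega
    · have hs' : s = !σ := by
        cases s <;> cases σ <;> simp_all
      subst hs'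
      omega
  have h6 : ∀ s, (PP D k K both s J \ PP D k K both (!s) J).card ≤ 20 * K + m := by
    intro s
    have hsub : PP D k K both s J \ PP D k K both (!s) J ⊆
        (PP D k K both s J \ J) ∪ (J \ PP D k K both (!s) J) := by
      intro x hx
      rw [mem_sdiff] at hx
      rw [mem_union, mem_sdiff, mem_sdiff]
      by_cases hxJ : x ∈ J
      · exact Or.inr ⟨hxJ, hx.2⟩
      · exact Or.inl ⟨hx.1, hxJ⟩
    have ha := (card_le_card hsub).trans (card_union_le _ _)
    have hb := card_sdiff_add_card_inter J (PP D k K both (!s) J)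
    have hc := card_sdiff_add_card_inter (PP D k K both (!s) J) J
    rw [inter_comm] at hc
    have hd := h1 (!s)
    have he := h5 (!s)
    have hf := h1 s
    have hg := hJ.hi
    omega
  -- the two sets
  obtain ⟨Pt, hPt⟩ : ∃ Pt, Pt = PP D k K both true J := ⟨_, rfl⟩
  obtain ⟨Pf, hPf⟩ : ∃ Pf, Pf = PP D k K both false J := ⟨_, rfl⟩
  have h6t : (Pt \ Pf).card ≤ 20 * K + m := by
    rw [hPt, hPf]
    exact h6 true
  have h6f : (Pf \ Pt).card ≤ 20 * K + m := by
    rw [hPt, hPf]
    exact h6 false
  have h4t : ∀ x ∈ Pt, (Pf \ nb D true x).card ≤ 10 * K + m := by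
    rw [hPt, hPf]
    exact fun x hx => h4 true x hx
  have h4f : ∀ x ∈ Pf, (Pt \ nb D false x).card ≤ 10 * K + m := by
    rw [hPt, hPf]
    exact fun x hx => h4 false x hx
  have hU : k + 1 ≤ (Pt ∩ Pf).card + ((Pt \ Pf).card + (Pf \ Pt).card) := by
    have ha : insert v (nb D σ v) ⊆ Pt ∪ Pf := by
      rw [insert_subset_iff]
      have hb := h2 σ v hvP
      constructor
      · cases σ
        · exact mem_union_right _ (hPf ▸ hvP)
        · exact mem_union_left _ (hPt ▸ hvP)
      · cases σ
        · refine hb.trans ?_
          rw [hPt]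
          exact subset_union_left
        · refine hb.trans ?_
          rw [hPf]
          exact subset_union_right
    have hb := card_le_card ha
    rw [card_insert_of_notMem (notMem_nb_self hD σ v)] at hb
    have hc := hv σ
    have hd := card_union_add_card_inter Pt Pf
    have he := card_sdiff_add_card_inter Pt Pf
    have hf := card_sdiff_add_card_inter Pf Pt
    rw [inter_comm Pf Pt] at hf
    omega
  -- the choice of the tree vertices
  have hE : 1 ≤ 1 + Δ + Δ * Δ := by omega
  obtain ⟨E, hEd⟩ : ∃ E, E = 1 + Δ + Δ * Δ := ⟨_, rfl⟩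
  obtain ⟨It, hItC, hItn, -, hItS⟩ := hsel W T Δ (Pt \ Pf).card hΔ ∅
    (univ.filter (fun u => (nb T false u).card = 0)) (by
      intro a ha
      exact absurd ha (notMem_empty a)) (by
      refine le_trans ?_ (hsnk false)
      apply Nat.mul_le_mul_right
      rw [card_empty]
      omega)
  rw [empty_union] at hItS
  obtain ⟨If, hIfC, hIfn, hdis, hS2⟩ := hsel W T Δ (Pf \ Pt).card hΔ It
    (univ.filter (fun u => (nb T true u).card = 0)) hItS (by
      refine le_trans ?_ (hsnk true)
      apply Nat.mul_le_mul_right
      rw [hItn]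
      omega)
  have hSWc : (It ∪ If).card = (Pt \ Pf).card + (Pf \ Pt).card := by
    rw [card_union_of_disjoint hdis, hItn, hIfn]
  have hlow' := hlow W T k hT
  obtain ⟨I, hIC, hIn, hdis2, hS3⟩ := hsel W T Δ (4 * (10 * K + m) + 1) hΔ (It ∪ If)
    (univ.filter (fun u => (nbT T u).card ≤ 2)) hS2 (by
      rw [hSWc]
      have ha : (4 * (10 * K + m) + 1 + ((Pt \ Pf).card + (Pf \ Pt).card)) *
          (1 + Δ + Δ * Δ) ≤ 100 * (K + m + 1) * (1 + Δ + Δ * Δ) := by
        apply Nat.mul_le_mul_right
        omega
      have hb : 200 * (K + m + 1) * (1 + Δ + Δ * Δ) =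
          2 * (100 * (K + m + 1) * (1 + Δ + Δ * Δ)) := by ring
      rw [hb] at hbig
      omega)
  -- the images
  obtain ⟨ft, hft, hfti⟩ := adx_map It (Pt \ Pf) v hItn
  obtain ⟨ff, hff, hffi⟩ := adx_map If (Pf \ Pt) v hIfn
  refine hncl V W D T k (10 * K + m) hT hD (Pt ∩ Pf) (It ∪ If) I
    (fun a => if a ∈ It then ft a else ff a) ?_ ?_ ?_ ?_ hdis2 hS3 ?_ ?_ ?_
  · intro x hx s
    rw [mem_inter] at hx
    cases s
    · exact (card_le_card (sdiff_subset_sdiff inter_subset_left (subset_refl _))).trans
        (h4f x hx.2)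
    · exact (card_le_card (sdiff_subset_sdiff inter_subset_right (subset_refl _))).trans
        (h4t x hx.1)
  · intro a ha b hb hab
    rw [mem_union] at ha hb
    by_cases hat : a ∈ It
    · by_cases hbt : b ∈ It
      · rw [if_pos hat, if_pos hbt] at hab
        exact hfti a hat b hbt hab
      · rw [if_pos hat, if_neg hbt] at hab
        have h7 := mem_sdiff.mp (hft a hat)
        have h8 := mem_sdiff.mp (hff b (hb.resolve_left hbt))
        rw [hab] at h7
        exact absurd h7.1 h8.2
    · by_cases hbt : b ∈ It
      · rw [if_neg hat, if_pos hbt] at hab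
        have h7 := mem_sdiff.mp (hft b hbt)
        have h8 := mem_sdiff.mp (hff a (ha.resolve_left hat))
        rw [← hab] at h7
        exact absurd h7.1 h8.2
      · rw [if_neg hat, if_neg hbt] at hab
        exact hffi a (ha.resolve_left hat) b (hb.resolve_left hbt) hab
  · intro a ha
    rw [mem_union] at ha
    rw [mem_inter]
    by_cases hat : a ∈ It
    · simp only [if_pos hat]
      exact fun h => (mem_sdiff.mp (hft a hat)).2 h.2
    · simp only [if_neg hat]
      exact fun h => (mem_sdiff.mp (hff a (ha.resolve_left hat))).2 h.1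
  · intro a ha b hab
    rw [mem_union] at ha
    by_cases hat : a ∈ It
    · simp only [if_pos hat]
      have h7 : sg T a b = true := adx_sign (s := true) (mem_filter.mp (hItC hat)).2 hab
      rw [h7]
      exact (card_le_card (sdiff_subset_sdiff inter_subset_right (subset_refl _))).trans
        (h4t _ (mem_sdiff.mp (hft a hat)).1)
    · simp only [if_neg hat]
      have haf := ha.resolve_left hat
      have h7 : sg T a b = false := adx_sign (s := false) (mem_filter.mp (hIfC haf)).2 hab
      rw [h7]
      exact (card_le_card (sdiff_subset_sdiff inter_subset_left (subset_refl _))).trans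
        (h4f _ (mem_sdiff.mp (hff a haf)).1)
  · intro u hu
    exact (mem_filter.mp (hIC hu)).2
  · rw [hIn]
  · rw [hSWc]
    exact hU

end Pool.Agent.Lib.MP_47458b_co.DU
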