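import Pool.Agent.Lib.MP_47458b_co.DU.Stm2

/-!
[DU CLA] (helper9) Section 9, closedness of `J` in case A.
-/

namespace Pool.Agent.Lib.MP_47458b_co.DU

open Finset

private theorem clA_gr {W : Type} {T : Digraph W} {a b : W} :
    (gr T).Adj a b ↔ a ≠ b ∧ (T.Adj a b ∨ T.Adj b a) := by
  rw [gr, Digraph.toSimpleGraphInclusive, SimpleGraph.fromRel_adj]

private theorem clA_par {W : Type} {T : Digraph W} {r : W} (R : Up.Rooted T r) {x : W}
    (hx : x ≠ r) : (gr T).Adj (R.par x) x := by
  rw [clA_gr]
  refine ⟨fun h => ?_, R.adj_par x hx⟩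
  have := R.dep_par x hx
  rw [h] at this
  exact lt_irrefl _ this

/-- the number of exits does not decrease -/
private theorem clA_mono {V W : Type} [DecidableEq V] [DecidableEq W] {S S' : Finset W}
    {ψ ψ' : W → V} (J : Finset V) (h : S ⊆ S') (he : ∀ x ∈ S, ψ' x = ψ x) :
    (S.image ψ) \ J ⊆ (S'.image ψ') \ J := by
  intro y hy
  rw [mem_sdiff, mem_image] at hy
  obtain ⟨⟨x, hx, rfl⟩, hJ⟩ := hy
  rw [mem_sdiff]
  exact ⟨mem_image.2 ⟨x, h hx, he x hx⟩, hJ⟩

/-- one more exit -/
private theorem clA_add {V W : Type} [Fintype V] [DecidableEq V] [DecidableEq W] {S : Finset W}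
    {ψ : W → V} (J : Finset V) {t : W} (ht : t ∉ S) {y : V} (hy : y ∉ S.image ψ) (hyJ : y ∉ J) :
    ((S.image ψ) \ J).card + 1 ≤ (((insert t S).image (Function.update ψ t y)) \ J).card := by
  rw [image_update ht]
  have h1 : y ∉ (S.image ψ) \ J := fun h => hy (mem_sdiff.1 h).1
  rw [← card_insert_of_notMem h1]
  apply card_le_card
  intro z hz
  rw [mem_insert] at hz
  rw [mem_sdiff, mem_insert]
  rcases hz with rfl | hz
  · exact ⟨Or.inl rfl, hyJ⟩
  · rw [mem_sdiff] at hz
    exact ⟨Or.inr hz.1, hz.2⟩

theorem p_clA : S_clA := by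
  intro hclo hhall V W _ _ _ _ D T k m hT hD hκ hnc hm1 hkm sL L pl hL hL1 hL2 r R A B hA hpl hLd
    hAB hdAB hcard s hAv φ hφ
  classical
  obtain ⟨clo1, clo2, -, -⟩ := hclo W k T hT r R
  have hacy : (gr T).IsAcyclic := hT.2.1.isAcyclic
  set J := Jset D m sL L (fun l => φ (pl l)) with hJ
  have hκ' : ∀ s x, k - m ≤ (nb D s x).card := fun s x => by have := hκ s x; omega
  have hALc : A ∪ B ⊆ Lᶜ := by
    intro x hx
    rw [mem_compl]
    exact fun h => (Finset.disjoint_left.1 hLd h) hx
  have hAS : A ⊆ A ∪ B := subset_union_left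
  -- the complement of `L` is closed
  have hLc : R.Closed Lᶜ := by
    refine ⟨hALc (hAS hA.1), fun x hx hxr => ?_⟩
    rw [mem_compl] at hx ⊢
    intro hpx
    have h1 : x = pl (R.par x) := hL.only _ hpx x (clA_par R hxr).symm
    have h2 : x ∈ A := h1 ▸ hpl _ hpx
    have h3 : R.par x ∈ A := hA.2 x h2 hxr
    exact Finset.disjoint_left.1 hLd hpx (hAS h3)
  have hLcard : (Lᶜ).card ≤ k - m + 1 := by
    rw [card_compl, ← Nat.card_eq_fintype_card, hT.2.2]
    have h1 : m ≤ L.card := le_trans (Nat.le_add_left _ _) hL1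
    omega
  -- the bound for the number of exits
  have hub : ∀ (S : Finset W) (ψ : W → V), R.Closed S → A ⊆ S → S ⊆ A ∪ B → IsEmb T D S ψ →
      (∀ x ∈ A, ψ x = φ x) →
      k ≤ J.card + m ∧ J.card ≤ k ∧ ((S.image ψ) \ J).card + J.card ≤ k := by
    intro S ψ hS hAS' hSB hψ hψA
    obtain ⟨χ, hχ, hχS⟩ := IsEmb.greedy hD hκ' hT.1 hacy (clo1 _ hLc) hLcard _ S ψ rfl ⟨r, hS.1⟩
      (hSB.trans hALc) (clo1 _ hS) hψ
    have h := hhall V W D T k m hT hD hκ hnc (by omega) hm1 sL L pl hL hL1 hL2 χ hχ
    have hJ' : Jset D m sL L (fun l => χ (pl l)) = J := by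
      rw [hJ]
      unfold Jset
      refine filter_congr fun w _ => ?_
      have : L.filter (fun l => w ∈ nb D sL (χ (pl l))) =
          L.filter (fun l => w ∈ nb D sL (φ (pl l))) := by
        refine filter_congr fun l hl => ?_
        rw [hχS _ (hAS' (hpl l hl)), hψA _ (hpl l hl)]
      simp only [this]
    rw [hJ'] at h
    refine ⟨h.1, h.2.1, le_trans (Nat.add_le_add_right (card_le_card ?_) _) h.2.2⟩
    exact clA_mono J (hSB.trans hALc) hχS
  obtain ⟨M, hMB, hMc, hM1, hM2⟩ := hAv
  have hJs := hub A φ hA (subset_refl _) hAS hφ (fun _ _ => rfl)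
  by_contra hcon
  unfold ClS at hcon
  rw [not_le] at hcon
  set Bad := J.filter (fun x => m < ((nb D s x) \ J).card) with hBad
  have hBadJ : Bad ⊆ J := filter_subset _ _
  -- elements of `B` are not the root
  have hBr : ∀ x ∈ B, x ≠ r := fun x hx h => Finset.disjoint_left.1 hdAB hA.1 (h ▸ hx)
  have claim : ∀ j, j ≤ m + 1 → ∃ (S : Finset W) (ψ : W → V), R.Closed S ∧ A ⊆ S ∧ S ⊆ A ∪ B ∧
      IsEmb T D S ψ ∧ (∀ x ∈ A, ψ x = φ x) ∧ j ≤ ((S.image ψ) \ J).card ∧
      m + 1 ≤ (M.filter (fun x => R.par x ∉ S)).card + j := by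
    intro j
    induction j with
    | zero =>
      intro _
      refine ⟨A, φ, hA, subset_refl _, hAS, hφ, fun _ _ => rfl, Nat.zero_le _, ?_⟩
      rw [filter_true_of_mem, hMc, add_zero]
      intro x hx h
      exact Finset.disjoint_left.1 hdAB h (hM1 x hx).1
    | succ j ih =>
      intro hj
      obtain ⟨S, ψ, hS, hAS', hSB, hψ, hψA, hex, hcnt⟩ := ih (by omega)
      -- the element of smallest depth
      have hne : (M.filter (fun x => R.par x ∉ S)).Nonempty := by
        rw [← card_pos]; omega
      obtain ⟨x, hx, hmin⟩ := exists_min_image _ (fun x => R.dep (R.par x)) hne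
      rw [mem_filter] at hx
      obtain ⟨hxM, hxS⟩ := hx
      obtain ⟨htB, hsx⟩ := hM1 x hxM
      have hxB := hMB hxM
      have hxr := hBr x hxB
      set t := R.par x with ht
      have htr : t ≠ r := hBr t htB
      -- the proper ancestors of `t`
      have hbel : Below R ((A ∪ B).erase r) r := by
        refine ⟨notMem_erase _ _, notMem_erase _ _, fun y hy => ?_⟩
        rw [mem_erase] at hy
        rw [mem_insert, mem_erase]
        by_cases h : R.par y = r
        · exact Or.inl h
        · exact Or.inr ⟨h, hAB.2 y hy.2 hy.1⟩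
      obtain ⟨Q, hQ, htQ, hQb, -, hQd⟩ := clo2 ((A ∪ B).erase r) r t hbel
        (mem_erase.2 ⟨htr, mem_union_right _ htB⟩)
      set S1 := S ∪ Q.erase t with hS1
      have hS1c : R.Closed S1 := by
        refine ⟨mem_union_left _ hS.1, fun y hy hyr => ?_⟩
        rw [hS1, mem_union] at hy ⊢
        rcases hy with hy | hy
        · exact Or.inl (hS.2 y hy hyr)
        · rw [mem_erase] at hy
          have h1 := hQb.2.2 y hy.2
          rw [mem_insert] at h1
          rcases h1 with h1 | h1
          · exact Or.inl (by rw [h1]; exact hS.1)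
          · refine Or.inr (mem_erase.2 ⟨fun h => ?_, h1⟩)
            have h2 := R.dep_par y hyr
            have h3 := hQd y hy.2 hy.1
            rw [h] at h2
            omega
      have htS1 : t ∉ S1 := by
        rw [hS1, mem_union, mem_erase]
        rintro (h | h)
        · exact hxS h
        · exact h.1 rfl
      have hpt : R.par t ∈ S1 := by
        have h1 := hQb.2.2 t htQ
        rw [mem_insert] at h1
        rw [hS1, mem_union]
        rcases h1 with h1 | h1
        · exact Or.inl (by rw [h1]; exact hS.1)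
        · refine Or.inr (mem_erase.2 ⟨fun h => ?_, h1⟩)
          have h2 := R.dep_par t htr
          rw [h] at h2
          omega
      have hS1B : S1 ⊆ A ∪ B := by
        refine union_subset hSB fun y hy => ?_
        exact mem_of_mem_erase (hQ (mem_of_mem_erase hy))
      have hSS1 : S ⊆ S1 := subset_union_left
      -- the other elements of `M`
      have hM' : ∀ y ∈ M, R.par y ∉ S → R.par y ∉ S1 := by
        intro y hy hyS h
        rw [hS1, mem_union] at h
        rcases h with h | h
        · exact hyS h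
        · rw [mem_erase] at h
          have h1 := hQd _ h.2 h.1
          have h2 := hmin y (mem_filter.2 ⟨hy, hyS⟩)
          omega
      have hS1card : 400 * S1.card ≤ k :=
        (Nat.mul_le_mul_left _ (card_le_card hS1B)).trans hcard
      -- greedy extension
      obtain ⟨ψ1, hψ1, hψ1S⟩ := IsEmb.greedy hD hκ' hT.1 hacy (clo1 _ hS1c) (by omega) _ S ψ rfl
        ⟨r, hS.1⟩ hSS1 (clo1 _ hS) hψ
      have hψ1A : ∀ y ∈ A, ψ1 y = φ y := fun y hy => (hψ1S y (hAS' hy)).trans (hψA y hy)
      have hex1 : j ≤ ((S1.image ψ1) \ J).card :=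
        hex.trans (card_le_card (clA_mono J hSS1 hψ1S))
      have hcnt1 : m + 1 ≤ (M.filter (fun x => R.par x ∉ S1)).card + j := by
        refine hcnt.trans (Nat.add_le_add_right (card_le_card ?_) _)
        intro y hy
        rw [mem_filter] at hy ⊢
        exact ⟨hy.1, hM' y hy.1 hy.2⟩
      by_cases hjj : j + 1 ≤ ((S1.image ψ1) \ J).card
      · exact ⟨S1, ψ1, hS1c, hAS'.trans hSS1, hS1B, hψ1, hψ1A, hjj, by omega⟩
      -- place `t`
      obtain ⟨z, hz, hzS, hzJ⟩ : ∃ z ∈ nb D (sg T (R.par t) t) (ψ1 (R.par t)),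
          z ∉ S1.image ψ1 ∧ z ∉ J \ Bad := by
        by_contra hno
        push Not at hno
        have h1 : nb D (sg T (R.par t) t) (ψ1 (R.par t)) ⊆ S1.image ψ1 ∪ (J \ Bad) := by
          intro z hz
          rw [mem_union]
          by_cases h : z ∈ S1.image ψ1
          · exact Or.inl h
          · exact Or.inr (hno z hz h)
        have h2 := (card_le_card h1).trans (card_union_le _ _)
        rw [hψ1.card_image, card_sdiff_of_subset hBadJ] at h2
        have h3 := hκ (sg T (R.par t) t) (ψ1 (R.par t))
        have h4 := hJs.2.1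
        have h5 := card_le_card hBadJ
        omega
      set S2 := insert t S1 with hS2
      set ψ2 := Function.update ψ1 t z with hψ2d
      have hψ2 : IsEmb T D S2 ψ2 :=
        hψ1.extend hT.1 hacy (clo1 _ hS1c) hpt htS1 (clA_par R htr) hz hzS
      have hS2c : R.Closed S2 := Up.Closed.insert R hS1c hpt
      have hS2B : S2 ⊆ A ∪ B := insert_subset (mem_union_right _ htB) hS1B
      have hψ2S : ∀ y ∈ S1, ψ2 y = ψ1 y := by
        intro y hy
        refine Function.update_of_ne (fun h => ?_) _ _
        rw [h] at hy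
        exact htS1 hy
      have hψ2t : ψ2 t = z := Function.update_self _ _ _
      have hψ2A : ∀ y ∈ A, ψ2 y = φ y := fun y hy =>
        (hψ2S y (hSS1 (hAS' hy))).trans (hψ1A y hy)
      have herase : ∀ S' : Finset W, (∀ y ∈ M, y ≠ x → R.par y ∉ S1 → R.par y ∉ S') →
          m + 1 ≤ (M.filter (fun x => R.par x ∉ S')).card + (j + 1) := by
        intro S' h
        have h1 : (M.filter (fun x => R.par x ∉ S1)).erase x ⊆
            M.filter (fun x => R.par x ∉ S') := by
          intro y hy
          rw [mem_erase, mem_filter] at hy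
          rw [mem_filter]
          exact ⟨hy.2.1, h y hy.2.1 hy.1 hy.2.2⟩
        have h2 := card_le_card h1
        have h3 := pred_card_le_card_erase (s := M.filter (fun x => R.par x ∉ S1)) (a := x)
        omega
      by_cases hzJ' : z ∈ J
      · -- `z` is not closed: place `x` outside `J`
        have hzB : z ∈ Bad := by
          by_contra h
          exact hzJ (mem_sdiff.2 ⟨hzJ', h⟩)
        have hzc : m < ((nb D s z) \ J).card := (mem_filter.1 hzB).2
        obtain ⟨z', hz', hz'S⟩ : ∃ z' ∈ (nb D s z) \ J, z' ∉ (S1.image ψ1) \ J := by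
          by_contra hno
          push Not at hno
          have h1 := card_le_card (show (nb D s z) \ J ⊆ (S1.image ψ1) \ J from hno)
          omega
        rw [mem_sdiff] at hz'
        have hxt : x ≠ t := by
          intro h
          have h1 := R.dep_par x hxr
          rw [← ht, ← h] at h1
          exact lt_irrefl _ h1
        have hxS1 : x ∉ S1 := fun h => htS1 (hS1c.2 x h hxr)
        have hxS2 : x ∉ S2 := by
          rw [hS2, mem_insert]
          rintro (h | h)
          · exact hxt h
          · exact hxS1 h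
        have hz'2 : z' ∉ S2.image ψ2 := by
          rw [hS2, hψ2d, image_update htS1, mem_insert]
          rintro (h | h)
          · exact hz'.2 (h ▸ hzJ')
          · exact hz'S (mem_sdiff.2 ⟨h, hz'.2⟩)
        have hψ3 : IsEmb T D (insert x S2) (Function.update ψ2 x z') := by
          refine hψ2.extend hT.1 hacy (clo1 _ hS2c) (mem_insert_self t S1) hxS2
            (clA_par R hxr) ?_ hz'2
          rw [hψ2t, hsx]
          exact hz'.1
        refine ⟨insert x S2, Function.update ψ2 x z', Up.Closed.insert R hS2c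
          (mem_insert_self t S1), ?_, insert_subset (mem_union_right _ hxB) hS2B, hψ3, ?_, ?_, ?_⟩
        · exact (hAS'.trans hSS1).trans ((subset_insert _ _).trans (subset_insert _ _))
        · intro y hy
          rw [Function.update_of_ne, hψ2A y hy]
          rintro rfl
          exact Finset.disjoint_left.1 hdAB hy hxB
        · have h1 := clA_add J hxS2 hz'2 hz'.2
          have h2 : ((S1.image ψ1) \ J).card ≤ ((S2.image ψ2) \ J).card :=
            card_le_card (clA_mono J (subset_insert t S1) hψ2S)
          omega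
        · apply herase
          intro y hy hyx hyS
          rw [mem_insert, hS2, mem_insert]
          rintro (h | h | h)
          · exact (hM2 y hy x hxM hyx).2 h
          · exact (hM2 y hy x hxM hyx).1 h
          · exact hyS h
      · refine ⟨S2, ψ2, hS2c, (hAS'.trans hSS1).trans (subset_insert _ _), hS2B, hψ2, hψ2A, ?_, ?_⟩
        · have h1 : ((S1.image ψ1) \ J).card + 1 ≤ ((S2.image ψ2) \ J).card :=
            clA_add J htS1 hzS hzJ'
          omega
        · apply herase
          intro y hy hyx hyS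
          rw [hS2, mem_insert]
          rintro (h | h)
          · exact (hM2 y hy x hxM hyx).1 h
          · exact hyS h
  obtain ⟨S, ψ, hS, hAS', hSB, hψ, hψA, hex, -⟩ := claim (m + 1) le_rfl
  have h := hub S ψ hS hAS' hSB hψ hψA
  omega

end Pool.Agent.Lib.MP_47458b_co.DU
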