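import Pool.Agent.Lib.MP_47458b_co.DU.Stm

/-!
# [DU CLO] Closed sets of a rooted tree
-/

namespace Pool.Agent.Lib.MP_47458b_co.DU

open Finset

private theorem clo_gr_adj {W : Type} {T : Digraph W} (x y : W) :
    (gr T).Adj x y ↔ x ≠ y ∧ (T.Adj x y ∨ T.Adj y x) := by
  rw [gr, Digraph.toSimpleGraphInclusive, SimpleGraph.fromRel_adj]

private theorem clo_par {W : Type} {T : Digraph W} {r : W} (R : Up.Rooted T r) {x : W}
    (hx : x ≠ r) : (gr T).Adj x (R.par x) := by
  rw [clo_gr_adj]
  refine ⟨fun h => ?_, (R.adj_par x hx).symm⟩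
  have h1 := R.dep_par x hx
  rw [← h] at h1
  exact absurd h1 (lt_irrefl _)

private theorem clo_cn {W : Type} [DecidableEq W] {T : Digraph W} {r : W} (R : Up.Rooted T r)
    (S : Finset W) (hS : R.Closed S) : Cn (gr T) S := by
  apply Cn.of_root (r := r)
  have key : ∀ (n : ℕ) (a : W), R.dep a = n → a ∈ S →
      ∃ p : (gr T).Walk a r, ∀ x ∈ p.support, x ∈ S := by
    intro n
    induction n using Nat.strong_induction_on with
    | _ n ih =>
      intro a ha haS
      by_cases har : a = r
      · subst har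
        exact ⟨SimpleGraph.Walk.nil, by simpa using haS⟩
      · have hpS := hS.2 a haS har
        obtain ⟨p, hp⟩ := ih (R.dep (R.par a)) (by rw [← ha]; exact R.dep_par a har)
          (R.par a) rfl hpS
        refine ⟨SimpleGraph.Walk.cons (clo_par R har) p, fun x hx => ?_⟩
        rw [SimpleGraph.Walk.support_cons, List.mem_cons] at hx
        rcases hx with rfl | hx
        · exact haS
        · exact hp x hx
  exact fun a ha => key _ a rfl ha

private theorem clo_desc {W : Type} {T : Digraph W} {r : W} (R : Up.Rooted T r) {x y : W}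
    (h : Desc R x y) : x = y ∨ R.dep x < R.dep y := by
  induction h with
  | refl => exact Or.inl rfl
  | @step y hy _ ih =>
    right
    have h1 := R.dep_par y hy
    rcases ih with h2 | h2
    · rw [h2]; exact h1
    · omega

private theorem clo_desc_par {W : Type} {T : Digraph W} {r : W} (R : Up.Rooted T r) {x y : W}
    (h : Desc R x y) (hx : x ≠ r) : Desc R (R.par x) y := by
  induction h with
  | refl => exact Desc.step hx Desc.refl
  | step hy _ ih => exact Desc.step hy ih

private theorem clo_chain {W : Type} [DecidableEq W] {T : Digraph W} {r : W}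
    (R : Up.Rooted T r) (F : Finset W) (b t : W) (hF : Below R F b) (ht : t ∈ F) :
    ∃ Q ⊆ F, t ∈ Q ∧ Below R Q b ∧ (∀ x ∈ Q, Desc R x t) ∧
      (∀ x ∈ Q, x ≠ t → R.dep x < R.dep t) := by
  classical
  refine ⟨F.filter (fun x => Desc R x t), filter_subset _ _, mem_filter.2 ⟨ht, Desc.refl⟩,
    ⟨fun h => hF.1 (mem_filter.1 h).1, fun h => hF.2.1 (mem_filter.1 h).1, fun x hx => ?_⟩,
    fun x hx => (mem_filter.1 hx).2, fun x hx hxt => ?_⟩
  · rw [mem_filter] at hx
    have hxr : x ≠ r := fun h => hF.2.1 (h ▸ hx.1)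
    rcases mem_insert.1 (hF.2.2 x hx.1) with h | h
    · exact mem_insert.2 (Or.inl h)
    · exact mem_insert_of_mem (mem_filter.2 ⟨h, clo_desc_par R hx.2 hxr⟩)
  · exact (clo_desc R (mem_filter.1 hx).2).resolve_left hxt

private theorem clo_sub {W : Type} [DecidableEq W] {T : Digraph W} {r : W}
    (R : Up.Rooted T r) (b : W) (n : ℕ) : ∀ (i : ℕ) (F : Finset W), Below R F b →
    F.card = n + i → ∃ E ⊆ F, E.card = n ∧ Below R E b := by
  intro i
  induction i with
  | zero => exact fun F hF hc => ⟨F, Subset.refl F, hc, hF⟩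
  | succ i ih =>
    intro F hF hc
    have hne : F.Nonempty := by
      rw [← card_pos, hc]; omega
    obtain ⟨x, hx, hmax⟩ := exists_max_image F R.dep hne
    have hB : Below R (F.erase x) b := by
      refine ⟨fun h => hF.1 (mem_of_mem_erase h), fun h => hF.2.1 (mem_of_mem_erase h),
        fun y hy => ?_⟩
      have hyF := mem_of_mem_erase hy
      have hyr : y ≠ r := fun h => hF.2.1 (h ▸ hyF)
      rcases mem_insert.1 (hF.2.2 y hyF) with h | h
      · exact mem_insert.2 (Or.inl h)
      · refine mem_insert_of_mem (mem_erase.2 ⟨fun h2 => ?_, h⟩)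
        have h3 := R.dep_par y hyr
        have h4 := hmax y hyF
        rw [h2] at h3
        omega
    obtain ⟨E, hE, hEc, hEB⟩ := ih (F.erase x) hB (by rw [card_erase_of_mem hx, hc]; omega)
    exact ⟨E, hE.trans (erase_subset _ _), hEc, hEB⟩

theorem p_clo : S_clo := by
  intro W _ _ k T _ r R
  refine ⟨clo_cn R, clo_chain R, fun F b n hF hn => ?_, fun x y h => clo_desc R h⟩
  obtain ⟨i, hi⟩ := Nat.exists_eq_add_of_le hn
  exact clo_sub R b n i F hF hi

end Pool.Agent.Lib.MP_47458b_co.DU
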