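import Pool.Agent.Lib.MP_47458b_co.DU.Stm2

set_option autoImplicit false

/-!
[DU CNC] A connected set which contains the root is closed under parents.
-/

namespace Pool.Agent.Lib.MP_47458b_co.DU

open Finset

theorem p_cnc : S_cnc := by
  classical
  intro W _ _ k T _ r R S hr hS
  refine ⟨hr, ?_⟩
  intro x hx hxr
  -- the descendants of `x`
  have hrD : ¬ Desc R x r := by
    intro h
    cases h with
    | refl => exact hxr rfl
    | step h _ => exact h rfl
  obtain ⟨u, hu, v, hvS, hvD, _, huv⟩ := Cn.boundary (S := univ.filter (fun y => Desc R x y)) hS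
    (a := x) (b := r) (by rw [mem_filter]; exact ⟨mem_univ _, Desc.refl⟩) hx hr
    (by rw [mem_filter]; exact fun h => hrD h.2)
  rw [mem_filter] at hu hvD
  have hvD' : ¬ Desc R x v := fun h => hvD ⟨mem_univ _, h⟩
  have hadj : T.Adj u v ∨ T.Adj v u := by
    have h1 : (gr T).Adj u v := huv
    rw [gr, Digraph.toSimpleGraphInclusive, SimpleGraph.fromRel_adj] at h1
    exact h1.2
  have key : (u ≠ r ∧ R.par u = v) ∨ (v ≠ r ∧ R.par v = u) := by
    rcases hadj with h | h
    · exact R.edge _ _ h
    · exact (R.edge _ _ h).symm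
  rcases key with ⟨_, h⟩ | ⟨h1, h⟩
  · have hxu : x = u := by
      rcases hu.2 with _ | ⟨_, h3⟩
      · rfl
      · exact absurd (h ▸ h3) hvD'
    rw [hxu, h]
    exact hvS
  · exact absurd (Desc.step h1 (h.symm ▸ hu.2)) hvD'

end Pool.Agent.Lib.MP_47458b_co.DU
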