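import Pool.Agent.Lib.MP_47458b_co.DU.Stm2

/-!
# MP_47458b_co, project DU, piece CNT: weights of a rooted tree
-/

namespace Pool.Agent.Lib.MP_47458b_co.DU

open Finset

theorem cnt_mem {W : Type} [Fintype W] [DecidableEq W] {T : Digraph W} {r : W}
    {R : Up.Rooted T r} {F : Finset W} {u x : W} : x ∈ dsc R F u ↔ x ∈ F ∧ Desc R u x := by
  classical
  unfold dsc
  exact mem_filter

theorem cnt_trans {W : Type} {T : Digraph W} {r : W}
    {R : Up.Rooted T r} {a b c : W} (h1 : Desc R a b) (h2 : Desc R b c) : Desc R a c := by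
  induction h2 with
  | refl => exact h1
  | step hx _ ih => exact Desc.step hx ih

theorem cnt_par {W : Type} [DecidableEq W] {T : Digraph W} {r : W}
    {R : Up.Rooted T r} {X : Finset W} {x0 : W} (hx0 : x0 ∈ X) (hB : Below R (X.erase x0) x0)
    {x : W} (hx : x ∈ X) (hne : x ≠ x0) : R.par x ∈ X ∧ x ≠ r := by
  have h1 : x ∈ X.erase x0 := mem_erase.2 ⟨hne, hx⟩
  refine ⟨?_, fun h => hB.2.1 (h ▸ h1)⟩
  have h2 := hB.2.2 x h1
  rw [insert_erase hx0] at h2
  exact h2

theorem cnt_top {W : Type} [DecidableEq W] {T : Digraph W} {r : W}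
    {R : Up.Rooted T r} {X : Finset W} {x0 : W} (hx0 : x0 ∈ X) (hB : Below R (X.erase x0) x0) :
    ∀ n : ℕ, ∀ x : W, R.dep x = n → x ∈ X → Desc R x0 x := by
  intro n
  induction n using Nat.strong_induction_on with
  | _ n ih =>
    intro x hn hx
    by_cases h : x = x0
    · subst h; exact Desc.refl
    · obtain ⟨h1, h2⟩ := cnt_par hx0 hB hx h
      exact Desc.step h2 (ih _ (by rw [← hn]; exact R.dep_par x h2) (R.par x) rfl h1)

/-- (1) -/
theorem cnt_below {W : Type} [Fintype W] [DecidableEq W] {T : Digraph W} {r : W}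
    {R : Up.Rooted T r} (hd : ∀ x y : W, Desc R x y → x = y ∨ R.dep x < R.dep y)
    {X : Finset W} {x0 : W} (hx0 : x0 ∈ X) (hB : Below R (X.erase x0) x0)
    {x : W} (hx : x ∈ X) : Below R (sdsc R X x) x := by
  refine ⟨by simp [sdsc], ?_, ?_⟩
  · intro h
    rw [sdsc, mem_erase, cnt_mem] at h
    rcases h.2.2 with _ | ⟨h1, _⟩
    · exact h.1 rfl
    · exact h1 rfl
  · intro y hy
    rw [sdsc, mem_erase, cnt_mem] at hy
    obtain ⟨hyx, hyX, hdy⟩ := hy
    have hyx0 : y ≠ x0 := by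
      rintro rfl
      rcases hd _ _ hdy with h | h
      · exact hyx h.symm
      · rcases hd _ _ (cnt_top hx0 hB _ x rfl hx) with h' | h'
        · exact hyx h'
        · omega
    obtain ⟨h1, h2⟩ := cnt_par hx0 hB hyX hyx0
    rcases hdy with _ | ⟨h3, h4⟩
    · exact absurd rfl hyx
    · rw [mem_insert, sdsc, mem_erase, cnt_mem]
      by_cases h5 : R.par y = x
      · exact Or.inl h5
      · exact Or.inr ⟨h5, h1, h4⟩

/-- (2) -/
theorem cnt_two {W : Type} [Fintype W] [DecidableEq W] {T : Digraph W} {r : W}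
    {R : Up.Rooted T r} {Δ : ℕ} (hΔ : DegLe T Δ)
    {X : Finset W} {x0 : W} (hx0 : x0 ∈ X) (hB : Below R (X.erase x0) x0) {c : ℕ} (hc : 1 ≤ c)
    (hcX : c ≤ X.card) :
    X.card ≤ (X.filter (fun x => c ≤ (dsc R X x).card)).card * (1 + Δ * (c - 1)) ∧
    x0 ∈ X.filter (fun x => c ≤ (dsc R X x).card) ∧
    Below R ((X.filter (fun x => c ≤ (dsc R X x).card)).erase x0) x0 := by
  classical
  set H := X.filter (fun x => c ≤ (dsc R X x).card) with hH
  have hmem : ∀ x, x ∈ H ↔ x ∈ X ∧ c ≤ (dsc R X x).card := by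
    intro x
    rw [hH, mem_filter]
  have h0 : x0 ∈ H := by
    rw [hmem]
    refine ⟨hx0, hcX.trans (card_le_card ?_)⟩
    intro x hx
    rw [cnt_mem]
    exact ⟨hx, cnt_top hx0 hB _ x rfl hx⟩
  have hup : ∀ x ∈ H, x ≠ x0 → R.par x ∈ H := by
    intro x hx hne
    rw [hmem] at hx ⊢
    obtain ⟨h1, h2⟩ := cnt_par hx0 hB hx.1 hne
    refine ⟨h1, hx.2.trans (card_le_card ?_)⟩
    intro y hy
    rw [cnt_mem] at hy ⊢
    exact ⟨hy.1, cnt_trans (Desc.step h2 Desc.refl) hy.2⟩
  have hcov : ∀ n : ℕ, ∀ y : W, R.dep y = n → y ∈ X → y ∉ H →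
      ∃ t, t ∈ X ∧ t ∉ H ∧ R.par t ∈ H ∧ t ≠ r ∧ Desc R t y := by
    intro n
    induction n using Nat.strong_induction_on with
    | _ n ih =>
      intro y hn hy hyH
      have hne : y ≠ x0 := fun h => hyH (h ▸ h0)
      obtain ⟨h1, h2⟩ := cnt_par hx0 hB hy hne
      by_cases hp : R.par y ∈ H
      · exact ⟨y, hy, hyH, hp, h2, Desc.refl⟩
      · obtain ⟨t, h3, h4, h5, h6, h7⟩ := ih _ (by rw [← hn]; exact R.dep_par y h2)
          (R.par y) rfl h1 hp
        exact ⟨t, h3, h4, h5, h6, Desc.step h2 h7⟩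
  refine ⟨?_, h0, ?_⟩
  · have hsub : X ⊆ H ∪ H.biUnion (fun h =>
        ((nbT T h).filter (fun t => t ∈ X ∧ t ∉ H)).biUnion (fun t => dsc R X t)) := by
      intro y hy
      rw [mem_union]
      by_cases hyH : y ∈ H
      · exact Or.inl hyH
      · obtain ⟨t, h3, h4, h5, h6, h7⟩ := hcov _ y rfl hy hyH
        refine Or.inr (mem_biUnion.2 ⟨R.par t, h5, mem_biUnion.2 ⟨t, ?_, cnt_mem.2 ⟨hy, h7⟩⟩⟩)
        rw [mem_filter]
        refine ⟨?_, h3, h4⟩
        rw [nbT, mem_filter]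
        refine ⟨mem_univ _, ?_⟩
        simp only [gr, Digraph.toSimpleGraphInclusive, SimpleGraph.fromRel_adj]
        refine ⟨fun h => ?_, R.adj_par t h6⟩
        have h8 := R.dep_par t h6
        rw [h] at h8
        exact lt_irrefl _ h8
    have h1 := card_le_card hsub
    have h2 := card_union_le H (H.biUnion (fun h =>
        ((nbT T h).filter (fun t => t ∈ X ∧ t ∉ H)).biUnion (fun t => dsc R X t)))
    have h3 : (H.biUnion (fun h =>
        ((nbT T h).filter (fun t => t ∈ X ∧ t ∉ H)).biUnion (fun t => dsc R X t))).card ≤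
        H.card * (Δ * (c - 1)) := by
      refine card_biUnion_le_card_mul _ _ _ ?_
      intro h _
      have h4 : (((nbT T h).filter (fun t => t ∈ X ∧ t ∉ H)).biUnion
          (fun t => dsc R X t)).card ≤ ((nbT T h).filter (fun t => t ∈ X ∧ t ∉ H)).card *
          (c - 1) := by
        refine card_biUnion_le_card_mul _ _ _ ?_
        intro t ht
        rw [mem_filter, hmem] at ht
        have h5 : ¬ c ≤ (dsc R X t).card := fun h6 => ht.2.2 ⟨ht.2.1, h6⟩
        omega
      refine h4.trans (Nat.mul_le_mul_right _ ((card_le_card (filter_subset _ _)).trans (hΔ h)))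
    rw [Nat.mul_add, Nat.mul_one]
    omega
  · refine ⟨by simp, ?_, ?_⟩
    · intro h
      rw [mem_erase, hmem] at h
      exact hB.2.1 (mem_erase.2 ⟨h.1, h.2.1⟩)
    · intro x hx
      rw [mem_erase] at hx
      rw [insert_erase h0]
      exact hup x hx.2 hx.1

theorem p_cnt : S_cnt := by
  intro hclo W _ _ k T hT r R Δ hΔ X x0 hx0 hB
  classical
  obtain ⟨-, -, hc3, hd⟩ := hclo W k T hT r R
  have hsub : ∀ x ∈ X, x ∈ dsc R X x := fun x hx => cnt_mem.2 ⟨hx, Desc.refl⟩
  refine ⟨fun x hx => cnt_below hd hx0 hB hx, fun c h1 h2 => cnt_two hΔ hx0 hB h1 h2, ?_, ?_⟩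
  · intro c h1 h2
    obtain ⟨-, h0, -⟩ := cnt_two hΔ hx0 hB h1 h2
    obtain ⟨b, hb, hmax⟩ := exists_max_image (X.filter (fun x => c ≤ (dsc R X x).card)) R.dep
      ⟨x0, h0⟩
    rw [mem_filter] at hb
    refine ⟨b, hb.1, hb.2, ?_⟩
    have hB' : Below R ((dsc R X b).erase b) b := cnt_below hd hx0 hB hb.1
    obtain ⟨h3, -, -⟩ := cnt_two hΔ (hsub b hb.1) hB' h1 hb.2
    have h4 : ((dsc R X b).filter (fun x => c ≤ (dsc R (dsc R X b) x).card)).card ≤ 1 := by
      refine (card_le_card (t := {b}) ?_).trans (card_singleton b).le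
      intro y hy
      rw [mem_filter, cnt_mem] at hy
      have h5 : dsc R (dsc R X b) y ⊆ dsc R X y := by
        intro z hz
        rw [cnt_mem, cnt_mem] at hz
        exact cnt_mem.2 ⟨hz.1.1, hz.2⟩
      have h6 := hmax y (mem_filter.2 ⟨hy.1.1, hy.2.trans (card_le_card h5)⟩)
      rcases hd _ _ hy.1.2 with h | h
      · rw [mem_singleton]; exact h.symm
      · omega
    calc (dsc R X b).card ≤ _ := h3
      _ ≤ 1 * (1 + Δ * (c - 1)) := Nat.mul_le_mul_right _ h4
      _ = 1 + Δ * (c - 1) := one_mul _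
  · intro g x hx hg
    have hB' : Below R ((dsc R X x).erase x) x := cnt_below hd hx0 hB hx
    have hle : g + 1 ≤ (dsc R X x).card := by
      refine le_trans ?_ hg
      nlinarith [Nat.zero_le (g + 1), Nat.zero_le (Δ * g), Nat.zero_le ((g + 1) * (Δ * g))]
    obtain ⟨h3, h4, h5⟩ := cnt_two hΔ (hsub x hx) hB' (by omega : 1 ≤ g + 1) hle
    have h6 : g + 1 ≤ ((dsc R X x).filter
        (fun y => g + 1 ≤ (dsc R (dsc R X x) y).card)).card := by
      have h7 : (g + 1) * (1 + Δ * g) ≤ ((dsc R X x).filter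
        (fun y => g + 1 ≤ (dsc R (dsc R X x) y).card)).card * (1 + Δ * g) := by
        refine hg.trans ?_
        exact h3
      exact Nat.le_of_mul_le_mul_right h7 (by omega)
    refine ⟨((dsc R X x).filter (fun y => g + 1 ≤ (dsc R (dsc R X x) y).card)).erase x, ?_, h5,
      ?_, ?_⟩
    · exact erase_subset_erase _ (filter_subset _ _)
    · rw [card_erase_of_mem h4]
      omega
    · intro t ht
      rw [mem_erase, mem_filter] at ht
      obtain ⟨htx, htX, htg⟩ := ht
      have hBt : Below R (sdsc R (dsc R X x) t) t := cnt_below hd (hsub x hx) hB' htX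
      have hcard : g ≤ (sdsc R (dsc R X x) t).card := by
        rw [sdsc, card_erase_of_mem (cnt_mem.2 ⟨htX, Desc.refl⟩)]
        omega
      obtain ⟨E, hE, hEg, hEB⟩ := hc3 _ t g hBt hcard
      refine ⟨E, ?_, hEg, hEB⟩
      intro y hy
      have h8 := hE hy
      rw [sdsc, mem_erase, cnt_mem] at h8
      rw [sdsc, mem_erase]
      refine ⟨?_, h8.2.1⟩
      rintro rfl
      rcases hd _ _ h8.2.2 with h | h
      · exact htx h
      · rcases hd _ _ (cnt_mem.1 htX).2 with h' | h'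
        · exact htx h'.symm
        · omega

end Pool.Agent.Lib.MP_47458b_co.DU
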