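import Pool.Agent.Lib.MP_47458b_co.DU.Stm2

/-! Piece DICH of project DU: a long descending path outside a small branch, or a vertex with
many leaves in a small subtree below it. -/

namespace Pool.Agent.Lib.MP_47458b_co.DU

open Finset

namespace Dich

variable {W : Type} {T : Digraph W} {r : W}

/-- Levels: number of steps to the root. -/
theorem exists_lev (R : Up.Rooted T r) :
    ∃ lev : W → ℕ, lev r = 0 ∧ ∀ x, x ≠ r → lev x = lev (R.par x) + 1 := by
  classical
  have hex : ∀ n : ℕ, ∀ x, R.dep x ≤ n → ∃ j, R.par^[j] x = r := by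
    intro n
    induction n with
    | zero =>
      intro x hx
      by_cases hxr : x = r
      · exact ⟨0, hxr⟩
      · have := R.dep_par x hxr
        omega
    | succ n ih =>
      intro x hx
      by_cases hxr : x = r
      · exact ⟨0, hxr⟩
      · have := R.dep_par x hxr
        obtain ⟨j, hj⟩ := ih (R.par x) (by omega)
        exact ⟨j + 1, by rw [Function.iterate_succ_apply]; exact hj⟩
  have hex' : ∀ x, ∃ j, R.par^[j] x = r := fun x => hex _ x le_rfl
  refine ⟨fun x => Nat.find (hex' x), ?_, ?_⟩
  · rw [Nat.find_eq_zero]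
    rfl
  · intro x hx
    have h2 : ∃ j, R.par^[j + 1] x = r := by
      obtain ⟨j, hj⟩ := hex' (R.par x)
      exact ⟨j, by rw [Function.iterate_succ_apply]; exact hj⟩
    have h1 := Nat.find_comp_succ (hex' x) h2 (by simpa using hx)
    have h3 : Nat.find h2 = Nat.find (hex' (R.par x)) := by
      apply Nat.find_congr'
      intro n
      rw [Function.iterate_succ_apply]
    show Nat.find (hex' x) = Nat.find (hex' (R.par x)) + 1
    rw [h1, h3]

theorem desc_root (R : Up.Rooted T r) {lev : W → ℕ} (h1 : ∀ x, x ≠ r → lev x = lev (R.par x) + 1)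
    (x : W) : Desc R r x := by
  have key : ∀ n : ℕ, ∀ x, lev x ≤ n → Desc R r x := by
    intro n
    induction n with
    | zero =>
      intro x hx
      by_cases hxr : x = r
      · rw [hxr]; exact Desc.refl
      · have := h1 x hxr
        omega
    | succ n ih =>
      intro x hx
      by_cases hxr : x = r
      · rw [hxr]; exact Desc.refl
      · have := h1 x hxr
        exact Desc.step hxr (ih _ (by omega))
  exact key _ x le_rfl

theorem desc_iter (R : Up.Rooted T r) {lev : W → ℕ} (h1 : ∀ x, x ≠ r → lev x = lev (R.par x) + 1)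
    {x y : W} (h : Desc R x y) : ∃ i, R.par^[i] y = x ∧ lev y = lev x + i := by
  induction h with
  | refl => exact ⟨0, rfl, rfl⟩
  | @step y hy _ ih =>
    obtain ⟨i, hi, hl⟩ := ih
    exact ⟨i + 1, by rw [Function.iterate_succ_apply]; exact hi, by rw [h1 y hy, hl]; ring⟩

theorem desc_trans (R : Up.Rooted T r) {x y z : W} (h : Desc R x y) (h' : Desc R y z) :
    Desc R x z := by
  induction h' with
  | refl => exact h
  | step hy _ ih => exact Desc.step hy ih

/-- First step of a descending chain. -/
theorem desc_first (R : Up.Rooted T r) {u x : W} (h : Desc R u x) :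
    x = u ∨ ∃ c, c ≠ r ∧ R.par c = u ∧ Desc R c x := by
  induction h with
  | refl => exact Or.inl rfl
  | @step x hx _ ih =>
    rcases ih with h | ⟨c, hc, hcu, hcx⟩
    · exact Or.inr ⟨x, hx, h, Desc.refl⟩
    · exact Or.inr ⟨c, hc, hcu, Desc.step hx hcx⟩

theorem desc_last (R : Up.Rooted T r) {u x : W} (h : Desc R u x) (hne : x ≠ u) :
    Desc R u (R.par x) := by
  cases h with
  | refl => exact absurd rfl hne
  | step _ h => exact h

/-- Levels along iterated parents. -/
theorem lev_iter (R : Up.Rooted T r) {lev : W → ℕ} (h0 : lev r = 0)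
    (h1 : ∀ x, x ≠ r → lev x = lev (R.par x) + 1) (x : W) :
    ∀ i, i ≤ lev x → lev (R.par^[i] x) + i = lev x := by
  intro i
  induction i with
  | zero => intro _; simp
  | succ i ih =>
    intro hi
    have h2 := ih (by omega)
    have hne : R.par^[i] x ≠ r := by
      intro h
      rw [h, h0] at h2
      omega
    have h3 := h1 _ hne
    rw [Function.iterate_succ_apply']
    omega

/-- No child. -/
def NoCh (R : Up.Rooted T r) (x : W) : Prop := ∀ y, y ≠ r → R.par y ≠ x

theorem adj_par (R : Up.Rooted T r) {x : W} (hx : x ≠ r) :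
    (gr T).Adj (R.par x) x := by
  rw [gr, Digraph.toSimpleGraphInclusive, SimpleGraph.fromRel_adj]
  refine ⟨?_, R.adj_par x hx⟩
  intro h
  have h2 := R.dep_par x hx
  rw [h] at h2
  omega

theorem adj_cases (R : Up.Rooted T r) {a b : W} (h : (gr T).Adj a b) :
    (a ≠ r ∧ R.par a = b) ∨ (b ≠ r ∧ R.par b = a) := by
  rw [gr, Digraph.toSimpleGraphInclusive, SimpleGraph.fromRel_adj] at h
  rcases h.2 with h | h
  · exact R.edge a b h
  · exact (R.edge b a h).symm

variable [Fintype W]

/-- Descendants. -/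
noncomputable def ds (R : Up.Rooted T r) (u : W) : Finset W :=
  open Classical in univ.filter (fun x => Desc R u x)

/-- Leaves below `u`. -/
noncomputable def lf (R : Up.Rooted T r) (u : W) : Finset W :=
  open Classical in univ.filter (fun x => Desc R u x ∧ NoCh R x)

theorem mem_ds {R : Up.Rooted T r} {u x : W} : x ∈ ds R u ↔ Desc R u x := by
  simp [ds]

theorem mem_lf {R : Up.Rooted T r} {u x : W} : x ∈ lf R u ↔ Desc R u x ∧ NoCh R x := by
  simp [lf]

/-- Below every vertex there is a leaf. -/
theorem exists_leaf (R : Up.Rooted T r) {lev : W → ℕ}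
    (h1 : ∀ x, x ≠ r → lev x = lev (R.par x) + 1) (x : W) : ∃ l, Desc R x l ∧ NoCh R l := by
  obtain ⟨l, hl, hmax⟩ := Finset.exists_max_image (ds R x) lev ⟨x, mem_ds.2 Desc.refl⟩
  rw [mem_ds] at hl
  refine ⟨l, hl, ?_⟩
  rintro y hy rfl
  have h2 := hmax y (mem_ds.2 (Desc.step hy hl))
  have h3 := h1 y hy
  omega

variable [DecidableEq W]

theorem card_ds_le (R : Up.Rooted T r) {lev : W → ℕ}
    (h1 : ∀ x, x ≠ r → lev x = lev (R.par x) + 1) {h : ℕ} (hh : ∀ x, lev x < h) (u : W) :
    (ds R u).card ≤ (lf R u).card * h := by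
  have hsub : ds R u ⊆ (lf R u ×ˢ range h).image (fun p => R.par^[p.2] p.1) := by
    intro x hx
    rw [mem_ds] at hx
    obtain ⟨l, hl, hn⟩ := exists_leaf R h1 x
    obtain ⟨i, hi, hlev⟩ := desc_iter R h1 hl
    rw [mem_image]
    refine ⟨(l, i), ?_, hi⟩
    rw [mem_product]
    refine ⟨mem_lf.2 ⟨desc_trans R hx hl, hn⟩, mem_range.2 ?_⟩
    have := hh l
    show i < h
    omega
  refine (card_le_card hsub).trans (card_image_le.trans ?_)
  rw [card_product, card_range]

/-- The first alternative. -/
theorem long (R : Up.Rooted T r) {lev : W → ℕ} (h0 : lev r = 0)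
    (h1 : ∀ x, x ≠ r → lev x = lev (R.par x) + 1) {Rm : Finset W}
    (hout : ∀ z, z ∉ Rm → z ≠ r → R.par z ∉ Rm) {h : ℕ} {x : W} (hx : x ∉ Rm)
    (hh : h ≤ lev x) : ∃ π : ℕ → W, PathR R Rm h π := by
  have hout' : ∀ i, i ≤ lev x → R.par^[i] x ∉ Rm := by
    intro i
    induction i with
    | zero => intro _; exact hx
    | succ i ih =>
      intro hi
      rw [Function.iterate_succ_apply']
      apply hout _ (ih (by omega))
      intro hc
      have := lev_iter R h0 h1 x i (by omega)
      rw [hc, h0] at this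
      omega
  refine ⟨fun i => R.par^[lev x - i] x, ?_, ?_, ?_⟩
  · show R.par^[lev x - 0] x = r
    by_contra hc
    have := lev_iter R h0 h1 x (lev x) le_rfl
    rw [Nat.sub_zero] at hc
    have h2 := h1 _ hc
    omega
  · intro i hi
    constructor
    · show R.par^[lev x - (i + 1)] x ≠ r
      intro hc
      have := lev_iter R h0 h1 x (lev x - (i + 1)) (by omega)
      rw [hc, h0] at this
      omega
    · show R.par (R.par^[lev x - (i + 1)] x) = R.par^[lev x - i] x
      rw [← Function.iterate_succ_apply' (f := R.par)]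
      congr 1
      omega
  · intro i hi
    exact hout' _ (by omega)

omit [Fintype W] in
/-- Levels inside the branch. -/
theorem lev_branch (R : Up.Rooted T r) {lev : W → ℕ} (h0 : lev r = 0)
    (h1 : ∀ x, x ≠ r → lev x = lev (R.par x) + 1) {Rm : Finset W}
    (hin : ∀ z, z ∈ Rm → z ≠ r → R.par z ∈ insert r Rm) (hr : r ∉ Rm) {x : W} (hx : x ∈ Rm) :
    lev x ≤ Rm.card := by
  have hin' : ∀ i, i < lev x → R.par^[i] x ∈ Rm := by
    intro i
    induction i with
    | zero => intro _; exact hx
    | succ i ih =>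
      intro hi
      rw [Function.iterate_succ_apply']
      have hz := ih (by omega)
      have hne : R.par^[i] x ≠ r := fun hc => hr (hc ▸ hz)
      rcases mem_insert.1 (hin _ hz hne) with h | h
      · exfalso
        have := lev_iter R h0 h1 x (i + 1) (by omega)
        rw [Function.iterate_succ_apply', h, h0] at this
        omega
      · exact h
  have hinj : Set.InjOn (fun i => R.par^[i] x) (range (lev x) : Finset ℕ) := by
    intro i hi j hj hij
    rw [mem_coe, mem_range] at hi hj
    have h2 := lev_iter R h0 h1 x i (by omega)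
    have h3 := lev_iter R h0 h1 x j (by omega)
    have hij' : R.par^[i] x = R.par^[j] x := hij
    rw [hij'] at h2
    omega
  calc lev x = (range (lev x)).card := (card_range _).symm
    _ = ((range (lev x)).image (fun i => R.par^[i] x)).card := (card_image_of_injOn hinj).symm
    _ ≤ Rm.card := by
      apply card_le_card
      intro z hz
      rw [mem_image] at hz
      obtain ⟨i, hi, rfl⟩ := hz
      exact hin' i (mem_range.1 hi)

/-- A vertex with at least `a` and at most `Δ (a - 1)` leaves below it. -/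
theorem exists_u (R : Up.Rooted T r) {lev : W → ℕ}
    (h1 : ∀ x, x ≠ r → lev x = lev (R.par x) + 1) {Δ a : ℕ} (hΔ : DegLe T Δ) (ha : 2 ≤ a)
    (hbig : a ≤ (lf R r).card) :
    ∃ u, a ≤ (lf R u).card ∧ (lf R u).card ≤ Δ * (a - 1) ∧ ∃ c, c ≠ r ∧ R.par c = u := by
  classical
  obtain ⟨u, hu, hmin⟩ := Finset.exists_min_image (univ.filter (fun u => a ≤ (lf R u).card))
    (fun u => (ds R u).card) ⟨r, mem_filter.2 ⟨mem_univ _, hbig⟩⟩
  rw [mem_filter] at hu
  have hu2 := hu.2
  have hch : ∃ c, c ≠ r ∧ R.par c = u := by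
    by_contra hcon
    push Not at hcon
    have hsub : lf R u ⊆ {u} := by
      intro x hx
      rw [mem_lf] at hx
      rw [mem_singleton]
      rcases desc_first R hx.1 with h | ⟨c, hc, hcu, -⟩
      · exact h
      · exact absurd hcu (hcon c hc)
    have := card_le_card hsub
    rw [card_singleton] at this
    omega
  refine ⟨u, hu2, ?_, hch⟩
  have hsub : lf R u ⊆ (univ.filter (fun c => c ≠ r ∧ R.par c = u)).biUnion (lf R) := by
    intro x hx
    rw [mem_lf] at hx
    rw [mem_biUnion]
    rcases desc_first R hx.1 with h | ⟨c, hc, hcu, hcx⟩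
    · obtain ⟨c, hc, hcu⟩ := hch
      rw [h] at hx
      exact absurd hcu (hx.2 c hc)
    · exact ⟨c, mem_filter.2 ⟨mem_univ _, hc, hcu⟩, mem_lf.2 ⟨hcx, hx.2⟩⟩
  have hcard : (univ.filter (fun c => c ≠ r ∧ R.par c = u)).card ≤ Δ := by
    refine (card_le_card ?_).trans (hΔ u)
    intro c hc
    rw [mem_filter] at hc
    rw [nbT, mem_filter]
    refine ⟨mem_univ _, ?_⟩
    have := adj_par R hc.2.1
    rw [hc.2.2] at this
    exact this
  have hc2 : ∀ c ∈ univ.filter (fun c => c ≠ r ∧ R.par c = u), (lf R c).card ≤ a - 1 := by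
    intro c hc
    rw [mem_filter] at hc
    by_contra hcon
    have h2 := hmin c (mem_filter.2 ⟨mem_univ _, by omega⟩)
    have h3 : ds R c ⊂ ds R u := by
      rw [Finset.ssubset_iff_of_subset]
      · refine ⟨u, mem_ds.2 Desc.refl, fun h => ?_⟩
        rw [mem_ds] at h
        obtain ⟨i, -, hi⟩ := desc_iter R h1 h
        have h4 := h1 c hc.2.1
        rw [hc.2.2] at h4
        omega
      · intro x hx
        rw [mem_ds] at hx ⊢
        refine desc_trans R (Desc.step hc.2.1 ?_) hx
        rw [hc.2.2]
        exact Desc.refl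
    have h4 := card_lt_card h3
    omega
  calc (lf R u).card ≤ ((univ.filter (fun c => c ≠ r ∧ R.par c = u)).biUnion (lf R)).card :=
        card_le_card hsub
    _ ≤ (univ.filter (fun c => c ≠ r ∧ R.par c = u)).card * (a - 1) :=
        card_biUnion_le_card_mul _ _ _ hc2
    _ ≤ Δ * (a - 1) := Nat.mul_le_mul_right _ hcard

end Dich

open Dich in
/-- [DU DICH] -/
theorem p_dich : S_dich := by
  classical
  intro _ hcnc W _ _ k m h Δ T hT hΔ hm hh hΔ1 hk
  have hor := hT.1
  have htree := hT.2.1
  have hcardW : Fintype.card W = k + 1 := by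
    rw [← Nat.card_eq_fintype_card]
    exact hT.2.2
  have hq1 : 1 ≤ m * m + m := by nlinarith
  set q := m * m + m with hq
  have hkq : 4 * q * (h + 1) ≤ k := by
    refine le_trans ?_ hk
    have : 4 * q * Δ * (h + 1) = 4 * q * (h + 1) * Δ := by ring
    rw [this]
    exact Nat.le_mul_of_pos_right _ hΔ1
  have hkh : h + 1 ≤ k := by
    refine le_trans ?_ hkq
    exact Nat.le_mul_of_pos_left _ (by omega)
  obtain ⟨r, Rm, hr, hc1, hc2, hlo, hhi⟩ :=
    exists_part htree.connected (m := m) (by rw [hcardW]; omega)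
  obtain ⟨R⟩ := Up.exists_rooted hT r
  obtain ⟨lev, h0, h1⟩ := exists_lev R
  have hcl1 : R.Closed (insert r Rm) := hcnc W k T hT r R _ (mem_insert_self _ _) hc1
  have hcl2 : R.Closed Rmᶜ := hcnc W k T hT r R _ (mem_compl.2 hr) hc2
  have hout : ∀ z, z ∉ Rm → z ≠ r → R.par z ∉ Rm := fun z hz hzr =>
    mem_compl.1 (hcl2.2 z (mem_compl.2 hz) hzr)
  have hin : ∀ z, z ∈ Rm → z ≠ r → R.par z ∈ insert r Rm := fun z hz hzr =>
    hcl1.2 z (mem_insert_of_mem hz) hzr
  by_cases hlong : ∃ x, x ∉ Rm ∧ h ≤ lev x
  · obtain ⟨x, hx, hhx⟩ := hlong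
    obtain ⟨π, hπ⟩ := long R h0 h1 hout hx hhx
    exact Or.inl ⟨r, R, Rm, π, hr, hc1, hc2, hlo, hhi, hπ⟩
  right
  push Not at hlong
  have hlev : ∀ x, lev x < h := by
    intro x
    by_cases hx : x ∈ Rm
    · have := lev_branch R h0 h1 hin hr hx
      omega
    · exact hlong x hx
  have hdr : (ds R r).card = k + 1 := by
    rw [← hcardW, ← card_univ]
    congr 1
    ext x
    simp [mem_ds, desc_root R h1 x]
  have hbig : 2 * q ≤ (lf R r).card := by
    by_contra hcon
    have h2 := card_ds_le R h1 hlev r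
    have h3 : (lf R r).card * h ≤ (2 * q) * h := Nat.mul_le_mul_right _ (by omega)
    have h4 : 4 * q * (h + 1) = 2 * ((2 * q) * h) + 4 * q := by ring
    omega
  obtain ⟨u, hu1, hu2, c0, hc0, hc0u⟩ := exists_u R h1 hΔ (by omega) hbig
  have hdu : (ds R u).card ≤ Δ * (2 * q - 1) * h :=
    (card_ds_le R h1 hlev u).trans (Nat.mul_le_mul_right _ hu2)
  have hdu2 : (ds R u).card ≤ 2 * q * Δ * (h + 1) := by
    refine hdu.trans ?_
    have h3 : Δ * (2 * q - 1) ≤ Δ * (2 * q) := Nat.mul_le_mul_left _ (by omega)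
    calc Δ * (2 * q - 1) * h ≤ Δ * (2 * q) * (h + 1) := Nat.mul_le_mul h3 (by omega)
      _ = 2 * q * Δ * (h + 1) := by ring
  have hdu3 : 2 * (ds R u).card ≤ k := by
    have : 4 * q * Δ * (h + 1) = 2 * (2 * q * Δ * (h + 1)) := by ring
    omega
  have hur : u ≠ r := by
    rintro rfl
    omega
  -- leaves of the same sign
  obtain ⟨sL, hsL⟩ : ∃ sL : Bool, q ≤ ((lf R u).filter (fun l => sg T (R.par l) l = sL)).card := by
    by_contra hcon
    push Not at hcon
    have ht := hcon true
    have hf := hcon false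
    have hsplit : lf R u = (lf R u).filter (fun l => sg T (R.par l) l = true) ∪
        (lf R u).filter (fun l => sg T (R.par l) l = false) := by
      ext l
      simp only [mem_union, mem_filter]
      constructor
      · intro hl
        rcases Bool.eq_false_or_eq_true (sg T (R.par l) l) with h | h
        · exact Or.inl ⟨hl, h⟩
        · exact Or.inr ⟨hl, h⟩
      · rintro (h | h) <;> exact h.1
    have := card_union_le ((lf R u).filter (fun l => sg T (R.par l) l = true))
      ((lf R u).filter (fun l => sg T (R.par l) l = false))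
    rw [← hsplit] at this
    omega
  obtain ⟨L, hLsub, hLcard⟩ := exists_subset_card_eq hsL
  have hL : ∀ l ∈ L, Desc R u l ∧ NoCh R l ∧ sg T (R.par l) l = sL := by
    intro l hl
    have := mem_filter.1 (hLsub hl)
    have h2 := mem_lf.1 this.1
    exact ⟨h2.1, h2.2, this.2⟩
  have hLu : ∀ l ∈ L, l ≠ u := by
    intro l hl hlu
    exact (hL l hl).2.1 c0 hc0 (hc0u.trans hlu.symm)
  have hLr : ∀ l ∈ L, l ≠ r := by
    intro l hl hlr
    obtain ⟨c, hc, hcr⟩ : ∃ c, c ≠ r ∧ R.par c = r := by
      rcases desc_first R (desc_root R h1 u) with h | ⟨c, hc, hcl, -⟩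
      · exact absurd h hur
      · exact ⟨c, hc, hcl⟩
    exact (hL l hl).2.1 c hc (hcr.trans hlr.symm)
  have hLp : ∀ l ∈ L, Desc R u (R.par l) := by
    intro l hl
    exact desc_last R (hL l hl).1 (hLu l hl)
  obtain ⟨R'⟩ := Up.exists_rooted hT u
  set A : Finset W := (ds R u).filter (fun x => ¬ NoCh R x) with hA
  set C : Finset W := (ds R u)ᶜ with hC
  have huA : u ∈ A := by
    rw [hA, mem_filter, mem_ds]
    exact ⟨Desc.refl, fun h => h c0 hc0 hc0u⟩
  have hAcn : Cn (gr T) A := by
    apply Cn.of_root (r := u)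
    intro a ha
    rw [hA, mem_filter, mem_ds] at ha
    obtain ⟨ha1, ha2⟩ := ha
    induction ha1 with
    | refl => exact ⟨SimpleGraph.Walk.nil, by simpa using huA⟩
    | @step x hx hd ih =>
      obtain ⟨p, hp⟩ := ih (fun h => h x hx rfl)
      refine ⟨SimpleGraph.Walk.cons (adj_par R hx).symm p, fun y hy => ?_⟩
      rw [SimpleGraph.Walk.support_cons, List.mem_cons] at hy
      rcases hy with rfl | hy
      · rw [hA, mem_filter, mem_ds]
        exact ⟨Desc.step hx hd, ha2⟩
      · exact hp y hy
  have hrC : r ∈ C := by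
    rw [hC, mem_compl, mem_ds]
    intro h
    obtain ⟨i, hi, hl⟩ := desc_iter R h1 h
    have := h1 u hur
    omega
  have hCpar : ∀ x ∈ C, x ≠ r → R.par x ∈ C := by
    intro x hx hxr
    rw [hC, mem_compl, mem_ds] at hx ⊢
    exact fun h => hx (Desc.step hxr h)
  have hCcn : Cn (gr T) C := by
    apply Cn.of_root (r := r)
    have key : ∀ n : ℕ, ∀ a ∈ C, lev a ≤ n → ∃ p : (gr T).Walk a r, ∀ x ∈ p.support, x ∈ C := by
      intro n
      induction n with
      | zero =>
        intro a ha hl
        by_cases har : a = r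
        · subst har
          exact ⟨SimpleGraph.Walk.nil, by simpa using ha⟩
        · have := h1 a har
          omega
      | succ n ih =>
        intro a ha hl
        by_cases har : a = r
        · subst har
          exact ⟨SimpleGraph.Walk.nil, by simpa using ha⟩
        · have := h1 a har
          obtain ⟨p, hp⟩ := ih (R.par a) (hCpar a ha har) (by omega)
          refine ⟨SimpleGraph.Walk.cons (adj_par R har).symm p, fun y hy => ?_⟩
          rw [SimpleGraph.Walk.support_cons, List.mem_cons] at hy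
          rcases hy with rfl | hy
          · exact ha
          · exact hp y hy
    exact fun a ha => key _ a ha le_rfl
  have hpuC : R.par u ∈ C := by
    rw [hC, mem_compl, mem_ds]
    intro h
    obtain ⟨i, hi, hl⟩ := desc_iter R h1 h
    have := h1 u hur
    omega
  have hCcn' : Cn (gr T) (insert u C) := hCcn.insert hpuC (adj_par R hur)
  have huC : u ∉ C := by
    rw [hC, mem_compl, mem_ds, not_not]
    exact Desc.refl
  refine ⟨u, R', A, C, L, sL, R.par, ⟨?_, ?_, ?_, ?_⟩, hLcard, hcnc W k T hT u R' A huA hAcn, ?_,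
    ⟨huC, huC, ?_⟩, ?_, ?_, ?_, ?_, ?_⟩
  · exact fun l hl => adj_par R (hLr l hl)
  · intro l hl a ha
    rcases adj_cases R ha with ⟨har, h⟩ | ⟨-, h⟩
    · exact absurd h ((hL l hl).2.1 a har)
    · exact h.symm
  · intro l hl hpl
    exact (hL _ hpl).2.1 l (hLr l hl) rfl
  · exact fun l hl => (hL l hl).2.2
  · intro l hl
    rw [hA, mem_filter, mem_ds]
    exact ⟨hLp l hl, fun h => h l (hLr l hl) rfl⟩
  · intro x hx
    exact (hcnc W k T hT u R' _ (mem_insert_self _ _) hCcn').2 x (mem_insert_of_mem hx)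
      (fun h => huC (h ▸ hx))
  · rw [card_le_one]
    have key : ∀ y ∈ C.filter (fun y => R'.par y = u), y = R.par u := by
      intro y hy
      rw [mem_filter] at hy
      have hyu : y ≠ u := fun h => huC (h ▸ hy.1)
      have hadj := adj_par R' hyu
      rw [hy.2] at hadj
      rcases adj_cases R hadj with ⟨-, h⟩ | ⟨hyr, h⟩
      · exact h.symm
      · exfalso
        have hyC := hy.1
        rw [hC, mem_compl, mem_ds] at hyC
        apply hyC
        refine Desc.step hyr ?_
        rw [h]
        exact Desc.refl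
    intro a ha b hb
    rw [key a ha, key b hb]
  · rw [disjoint_left]
    intro x hxA hxC
    rw [hA, mem_filter] at hxA
    rw [hC, mem_compl] at hxC
    exact hxC hxA.1
  · rw [disjoint_left]
    intro x hxL hx
    rcases mem_union.1 hx with hx | hx
    · rw [hA, mem_filter] at hx
      exact hx.2 (hL x hxL).2.1
    · rw [hC, mem_compl, mem_ds] at hx
      exact hx (hL x hxL).1
  · exact (card_le_card (filter_subset _ _)).trans hdu2
  · have hCc : C.card = k + 1 - (ds R u).card := by
      rw [hC, card_compl, hcardW]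
    omega

end Pool.Agent.Lib.MP_47458b_co.DU
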