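import Pool.Agent.Lib.MP_47458b_co.DU.Stm

/-!
Project DU, piece EQ: equivalence of clusters.
-/

namespace Pool.Agent.Lib.MP_47458b_co.DU

open Finset

private theorem eq_core_sub {V : Type} [Fintype V] [DecidableEq V] (D : Digraph V) (K : ℕ)
    (Sg : Bool → Prop) (N : Finset V) : core D K Sg N ⊆ N := by
  classical
  unfold core
  exact Finset.filter_subset _ _

private theorem eq_core_mem {V : Type} [Fintype V] [DecidableEq V] {D : Digraph V} {K : ℕ}
    {Sg : Bool → Prop} {N : Finset V} {x : V} (hx : x ∈ core D K Sg N) {s : Bool} (hs : Sg s) :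
    ((nb D s x) \ N).card ≤ K := by
  classical
  unfold core at hx
  rw [Finset.mem_filter] at hx
  exact hx.2 s hs

private theorem eq_three {V : Type} [DecidableEq V] (A B C : Finset V) :
    A.card ≤ (B ∩ C).card + (A \ B).card + (A \ C).card := by
  have h1 : A ⊆ ((B ∩ C) ∪ (A \ B)) ∪ (A \ C) := by
    intro x hx
    rw [Finset.mem_union, Finset.mem_union, Finset.mem_inter, Finset.mem_sdiff,
      Finset.mem_sdiff]
    by_cases hb : x ∈ B
    · by_cases hc : x ∈ C
      · exact Or.inl (Or.inl ⟨hb, hc⟩)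
      · exact Or.inr ⟨hx, hc⟩
    · exact Or.inl (Or.inr ⟨hx, hb⟩)
  have h2 := Finset.card_le_card h1
  have h3 := Finset.card_union_le ((B ∩ C) ∪ (A \ B)) (A \ C)
  have h4 := Finset.card_union_le (B ∩ C) (A \ B)
  omega

private theorem eq_one {V : Type} [Fintype V] [DecidableEq V] (D : Digraph V) (k m K : ℕ)
    (Sg : Bool → Prop) (hκ : ∀ s x, k ≤ (nb D s x).card + m) (hSg : ∃ s, Sg s)
    (N N' : Finset V) (hN : Clus D k m K Sg N) (hN' : Clus D k m K Sg N')
    (hE : Eqv k N N') : (N \ N').card ≤ m + 2 * K := by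
  unfold Eqv at hE
  have h1 : (core D K Sg N ∩ core D K Sg N').Nonempty := by
    rw [Finset.nonempty_iff_ne_empty]
    intro h0
    have h2 := eq_three (N ∩ N') (core D K Sg N) (core D K Sg N')
    rw [h0, Finset.card_empty] at h2
    have h3 : ((N ∩ N') \ core D K Sg N).card ≤ (N \ core D K Sg N).card :=
      Finset.card_le_card (Finset.sdiff_subset_sdiff Finset.inter_subset_left subset_rfl)
    have h4 : ((N ∩ N') \ core D K Sg N').card ≤ (N' \ core D K Sg N').card :=
      Finset.card_le_card (Finset.sdiff_subset_sdiff Finset.inter_subset_right subset_rfl)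
    have h5 := hN.cr
    have h6 := hN'.cr
    omega
  obtain ⟨x, hx⟩ := h1
  rw [Finset.mem_inter] at hx
  obtain ⟨s, hs⟩ := hSg
  have h2 := eq_core_mem hx.1 hs
  have h3 := eq_core_mem hx.2 hs
  have h4 := eq_three (nb D s x) N N'
  have h5 := hκ s x
  have h6 := Finset.card_sdiff_add_card_inter N N'
  have h7 := hN.hi
  omega

theorem p_eq : S_eq := by
  intro V _ _ D k m K Sg hκ hSg hk
  have hone := eq_one D k m K Sg hκ hSg
  refine ⟨hone, ?_, ?_, ?_⟩
  · intro N hN
    unfold Eqv
    rw [Finset.inter_self]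
    have := hN.lo
    omega
  · intro N N' h
    unfold Eqv at h ⊢
    rw [Finset.inter_comm]
    exact h
  · intro N N' N'' hN hN' hN'' h h'
    have h1 : Eqv k N' N := by
      unfold Eqv at h ⊢
      rw [Finset.inter_comm]
      exact h
    have h2 := hone N' N hN' hN h1
    have h3 := hone N' N'' hN' hN'' h'
    have h4 := eq_three N' N N''
    have h5 := hN'.lo
    unfold Eqv
    omega

end Pool.Agent.Lib.MP_47458b_co.DU
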