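import Pool.Agent.Lib.MP_47458b_co.DU.Stm

/-!
[DU GZ] Greedy extension with prescribed regions.
-/

namespace Pool.Agent.Lib.MP_47458b_co.DU

open Finset

theorem p_gz : S_gz := by
  intro V W _ _ _ _ D T hT hG
  suffices H : ∀ (n : ℕ) (S S' : Finset W) (φ : W → V) (reg : W → Finset V),
      (S' \ S).card = n →
      Cn (gr T) S → Cn (gr T) S' → S.Nonempty → S ⊆ S' → IsEmb T D S φ →
      (∀ p ∈ S, ∀ t ∈ S' \ S, (gr T).Adj p t →
        S'.card ≤ (nb D (sg T p t) (φ p) ∩ reg t).card) →
      (∀ p ∈ S' \ S, ∀ t ∈ S' \ S, (gr T).Adj p t → ∀ x ∈ reg p,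
        S'.card ≤ (nb D (sg T p t) x ∩ reg t).card) →
      ∃ ψ : W → V, IsEmb T D S' ψ ∧ (∀ x ∈ S, ψ x = φ x) ∧ ∀ t ∈ S' \ S, ψ t ∈ reg t by
    intro S S' φ reg
    exact H _ S S' φ reg rfl
  intro n
  induction n with
  | zero =>
    intro S S' φ reg hn hS hS' hne hSS h h1 h2
    rw [card_eq_zero, sdiff_eq_empty_iff_subset] at hn
    obtain rfl := Subset.antisymm hSS hn
    refine ⟨φ, h, fun _ _ => rfl, fun t ht => ?_⟩
    rw [sdiff_self] at ht
    exact absurd ht (notMem_empty _)
  | succ n ih =>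
    intro S S' φ reg hn hS hS' hne hSS h h1 h2
    obtain ⟨b, hb⟩ : (S' \ S).Nonempty := by rw [← card_pos]; omega
    rw [mem_sdiff] at hb
    obtain ⟨a, ha⟩ := hne
    obtain ⟨x, hx, t, ht, htS, -, hadj⟩ := hS'.boundary ha (hSS ha) hb.1 hb.2
    have hlt : S.card < S'.card := by
      apply card_lt_card
      rw [Finset.ssubset_iff_of_subset hSS]
      exact ⟨b, hb.1, hb.2⟩
    have htd : t ∈ S' \ S := mem_sdiff.2 ⟨ht, htS⟩
    obtain ⟨y, hy, hyS⟩ : ∃ y ∈ nb D (sg T x t) (φ x) ∩ reg t, y ∉ S.image φ := by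
      by_contra hcon
      push Not at hcon
      have h3 : nb D (sg T x t) (φ x) ∩ reg t ⊆ S.image φ := fun y hy => hcon y hy
      have h4 := card_le_card h3
      rw [h.card_image] at h4
      have h5 := h1 x hx t htd hadj
      omega
    rw [mem_inter] at hy
    have hext := h.extend hT hG hS hx htS hadj hy.1 hyS
    have hsub : S' \ insert t S ⊆ S' \ S :=
      sdiff_subset_sdiff (Subset.refl _) (subset_insert _ _)
    have hne' : ∀ p ∈ S, p ≠ t := fun p hp h => htS (h ▸ hp)
    obtain ⟨ψ, hψ, hψ', hψ''⟩ := ih (insert t S) S' (Function.update φ t y) reg (by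
        have : S' \ insert t S = (S' \ S).erase t := by
          ext z
          simp only [mem_sdiff, mem_insert, mem_erase]
          tauto
        rw [this, card_erase_of_mem htd]
        omega) (hS.insert hx hadj) hS' ⟨t, mem_insert_self _ _⟩ (insert_subset ht hSS) hext
      (by
        intro p hp u hu hpu
        rw [mem_insert] at hp
        rcases hp with rfl | hp
        · rw [Function.update_self]
          exact h2 p htd u (hsub hu) hpu y hy.2
        · rw [Function.update_of_ne (hne' p hp)]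
          exact h1 p hp u (hsub hu) hpu)
      (by
        intro p hp u hu hpu z hz
        exact h2 p (hsub hp) u (hsub hu) hpu z hz)
    refine ⟨ψ, hψ, fun z hz => ?_, fun z hz => ?_⟩
    · rw [hψ' z (mem_insert_of_mem hz), Function.update_of_ne (hne' z hz)]
    · by_cases hzt : z = t
      · subst hzt
        rw [hψ' z (mem_insert_self _ _), Function.update_self]
        exact hy.2
      · apply hψ''
        rw [mem_sdiff] at hz ⊢
        refine ⟨hz.1, fun hz' => ?_⟩
        rw [mem_insert] at hz'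
        rcases hz' with hz' | hz'
        · exact hzt hz'
        · exact hz.2 hz'

end Pool.Agent.Lib.MP_47458b_co.DU
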