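import Pool.Agent.Lib.MP_47458b_co.DU.Stm

/-!
# MP_47458b_co, project DU, piece HALL: the Hall lemma with the robust set
-/

namespace Pool.Agent.Lib.MP_47458b_co.DU

open Finset

/-- Hall violator. -/
theorem hall_viol {V W : Type} [Fintype V] [DecidableEq V] [Fintype W] [DecidableEq W]
    {D : Digraph V} {T : Digraph W} (hT : IsOrientedGraph T) (hno : ¬ Contains D T)
    {s : Bool} {L : Finset W} {pl : W → W} (hL : Leafs T s L pl) {φ : W → V}
    (hφ : IsEmb T D Lᶜ φ) :
    ∃ S ⊆ L, (S.biUnion (fun l => nb D s (φ (pl l)) \ Lᶜ.image φ)).card < S.card := by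
  classical
  let t : {l // l ∈ L} → Finset V := fun l => nb D s (φ (pl l.1)) \ Lᶜ.image φ
  have hnot : ¬ ∀ s' : Finset {l // l ∈ L}, s'.card ≤ (s'.biUnion t).card := by
    intro hall
    obtain ⟨f, hf, hft⟩ := (Finset.all_card_le_biUnion_card_iff_exists_injective t).1 hall
    apply hno
    let ψ : W → V := fun w => if h : w ∈ L then f ⟨w, h⟩ else φ w
    have hψ1 : ∀ w, w ∉ L → ψ w = φ w := by
      intro w hw
      simp only [ψ, dif_neg hw]
    have hψ2 : ∀ w (h : w ∈ L), ψ w = f ⟨w, h⟩ := by
      intro w h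
      simp only [ψ, dif_pos h]
    have hft1 : ∀ w (h : w ∈ L), f ⟨w, h⟩ ∈ nb D s (φ (pl w)) :=
      fun w h => (mem_sdiff.1 (hft ⟨w, h⟩)).1
    have hft2 : ∀ w (h : w ∈ L), ∀ a, a ∉ L → f ⟨w, h⟩ ≠ φ a := by
      intro w h a ha heq
      exact (mem_sdiff.1 (hft ⟨w, h⟩)).2 (mem_image.2 ⟨a, mem_compl.2 ha, heq.symm⟩)
    refine ⟨ψ, ?_, ?_⟩
    · intro a b hab
      by_cases ha : a ∈ L <;> by_cases hb : b ∈ L
      · rw [hψ2 a ha, hψ2 b hb] at hab
        have := hf hab
        simpa using this
      · rw [hψ2 a ha, hψ1 b hb] at hab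
        exact absurd hab (hft2 a ha b hb)
      · rw [hψ1 a ha, hψ2 b hb] at hab
        exact absurd hab.symm (hft2 b hb a ha)
      · rw [hψ1 a ha, hψ1 b hb] at hab
        exact hφ.inj a (mem_compl.2 ha) b (mem_compl.2 hb) hab
    · intro a b hab
      have hne : a ≠ b := fun h => hT.1 a (by rw [← h] at hab; exact hab)
      have hadj : (gr T).Adj a b := by
        simp only [gr, Digraph.toSimpleGraphInclusive, SimpleGraph.fromRel_adj]
        exact ⟨hne, Or.inl hab⟩
      by_cases ha : a ∈ L <;> by_cases hb : b ∈ L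
      · exfalso
        have h2 := hL.only b hb a hadj
        exact hL.out b hb (h2 ▸ ha)
      · rw [hψ2 a ha, hψ1 b hb]
        have h1 := hft1 a ha
        have h2 := hL.only a ha b hadj.symm
        have h3 := hL.sign a ha
        rw [← h2] at h1 h3
        have h4 : sg T b a = false := by
          simp only [sg, decide_eq_false_iff_not]
          exact hT.2 _ _ hab
        rw [← h3, h4] at h1
        exact mem_nb_false.1 h1
      · rw [hψ1 a ha, hψ2 b hb]
        have h1 := hft1 b hb
        have h2 := hL.only b hb a hadj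
        have h3 := hL.sign b hb
        rw [← h2] at h1 h3
        have h4 : sg T a b = true := by
          simp only [sg, decide_eq_true_eq]
          exact hab
        rw [← h3, h4] at h1
        exact mem_nb_true.1 h1
      · rw [hψ1 a ha, hψ1 b hb]
        exact hφ.hom a (mem_compl.2 ha) b (mem_compl.2 hb) hab
  push Not at hnot
  obtain ⟨s', hs'⟩ := hnot
  refine ⟨s'.map (Function.Embedding.subtype _), ?_, ?_⟩
  · intro x hx
    rw [mem_map] at hx
    obtain ⟨y, -, rfl⟩ := hx
    exact y.2
  · rw [card_map]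
    refine lt_of_le_of_lt (card_le_card ?_) hs'
    intro x hx
    rw [mem_biUnion] at hx ⊢
    obtain ⟨l, hl, hx⟩ := hx
    rw [mem_map] at hl
    obtain ⟨y, hy, rfl⟩ := hl
    exact ⟨y, hy, hx⟩

theorem p_hall : S_hall := by
  intro V W _ _ _ _ D T k m hT hD hκ hno hmk hm1 s L pl hL hq hqk φ hφ
  classical
  have hW : Fintype.card W = k + 1 := by rw [← Nat.card_eq_fintype_card]; exact hT.2.2
  obtain ⟨S, hSL, hS⟩ := hall_viol hT.1 hno hL hφ
  set N : W → Finset V := fun l => nb D s (φ (pl l)) with hN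
  set I : Finset V := Lᶜ.image φ with hI
  set J : Finset V := Jset D m s L (fun l => φ (pl l)) with hJ
  have hS' : (S.biUnion (fun l => N l \ I)).card < S.card := hS
  have hIc : I.card + L.card = k + 1 := by
    rw [hI, hφ.card_image, card_compl, hW]
    omega
  have hScL : S.card ≤ L.card := card_le_card hSL
  have hNk : ∀ l, k ≤ (N l).card + m := fun l => hκ s _
  have hSne : S.Nonempty := by rw [← card_pos]; omega
  -- size of `N l` outside the image
  have hout : ∀ l ∈ L, L.card ≤ (N l \ I).card + m := by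
    intro l hl
    have hx : φ (pl l) ∈ I := mem_image_of_mem φ (mem_compl.2 (hL.out l hl))
    have h1 : N l ∩ I ⊆ I.erase (φ (pl l)) := by
      intro y hy
      rw [mem_inter] at hy
      rw [mem_erase]
      refine ⟨fun h => ?_, hy.2⟩
      have := hy.1
      rw [h] at this
      exact notMem_nb_self hD s _ this
    have h2 := card_le_card h1
    rw [card_erase_of_mem hx] at h2
    have h3 := card_sdiff_add_card_inter (N l) I
    have h4 := hNk l
    have h5 : 0 < I.card := card_pos.2 ⟨_, hx⟩
    omega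
  have hSbig : L.card + 1 ≤ S.card + m := by
    obtain ⟨l, hl⟩ := hSne
    have h1 : N l \ I ⊆ S.biUnion (fun l => N l \ I) := subset_biUnion_of_mem (fun l => N l \ I) hl
    have h2 := card_le_card h1
    have h3 := hout l (hSL hl)
    omega
  set J' : Finset V := I ∪ S.biUnion (fun l => N l \ I) with hJ'
  have hJ'k : J'.card ≤ k := by
    have h1 := card_union_le I (S.biUnion (fun l => N l \ I))
    rw [← hJ'] at h1
    omega
  have hNJ' : ∀ l ∈ S, N l ⊆ J' := by
    intro l hl x hx
    rw [hJ', mem_union]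
    by_cases hxI : x ∈ I
    · exact Or.inl hxI
    · exact Or.inr (mem_biUnion.2 ⟨l, hl, mem_sdiff.2 ⟨hx, hxI⟩⟩)
  have memJ : ∀ w, w ∈ J ↔ m ≤ (L.filter (fun l => w ∈ N l)).card := by
    intro w
    rw [hJ, Jset, mem_filter, filter_congr_decidable]
    exact ⟨fun h => h.2, fun h => ⟨mem_univ _, h⟩⟩
  have hJJ' : J ⊆ J' := by
    intro w hw
    by_contra hwJ'
    rw [memJ] at hw
    have h1 : L.filter (fun l => w ∈ N l) ⊆ L \ S := by
      intro l hl
      rw [mem_filter] at hl
      rw [mem_sdiff]
      exact ⟨hl.1, fun hlS => hwJ' (hNJ' l hlS hl.2)⟩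
    have h2 := card_le_card h1
    rw [card_sdiff_of_subset hSL] at h2
    omega
  have hIJ' : I ⊆ J' := subset_union_left
  have hJ'lo : k ≤ J'.card + m := by
    obtain ⟨l, hl⟩ := hSne
    have h1 := card_le_card (hNJ' l hl)
    have h2 := hNk l
    omega
  obtain ⟨a, ha⟩ : ∃ a, J'.card + m = k + a := ⟨J'.card + m - k, by omega⟩
  have ham : a ≤ m := by omega
  -- double counting
  have hdc : (J' \ J).card * (S.card + 1 - m) ≤ S.card * a := by
    refine card_mul_le_card_mul (fun (w : V) (l : W) => w ∉ N l) ?_ ?_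
    · intro w hw
      rw [mem_sdiff, memJ] at hw
      have h1 : (S.filter (fun l => w ∈ N l)).card ≤ (L.filter (fun l => w ∈ N l)).card :=
        card_le_card (filter_subset_filter _ hSL)
      have h2 := card_filter_add_card_filter_not (s := S) (fun l => w ∈ N l)
      rw [bipartiteAbove]
      omega
    · intro l hl
      have h1 : bipartiteBelow (fun (w : V) (l : W) => w ∉ N l) (J' \ J) l ⊆ J' \ N l := by
        intro w hw
        rw [bipartiteBelow, mem_filter, mem_sdiff] at hw
        rw [mem_sdiff]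
        exact ⟨hw.1.1, hw.2⟩
      have h2 := card_le_card h1
      rw [card_sdiff_of_subset (hNJ' l hl)] at h2
      have h3 := hNk l
      omega
  have hdiff : (J' \ J).card ≤ a := by
    by_contra hcon
    push Not at hcon
    have hmm : m ≤ m * m := Nat.le_mul_self m
    obtain ⟨c, hc⟩ : ∃ c, S.card + 1 = m + c := ⟨S.card + 1 - m, by omega⟩
    have hc' : S.card + 1 - m = c := by omega
    rw [hc'] at hdc
    have h1 : (a + 1) * c ≤ S.card * a := le_trans (Nat.mul_le_mul_right c hcon) hdc
    have h2 : S.card = m + c - 1 := by omega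
    obtain ⟨m', rfl⟩ : ∃ m', m = m' + 1 := ⟨m - 1, by omega⟩
    have h3 : S.card = m' + c := by omega
    rw [h3] at h1
    have h4 : c ≤ m' * a := by nlinarith
    have h5 : m' * a ≤ m' * (m' + 1) := Nat.mul_le_mul_left _ ham
    have h6 : (m' + 1) * (m' + 1) + (m' + 1) ≤ L.card := hq
    nlinarith
  have hsd := card_sdiff_add_card_inter J' J
  rw [inter_eq_right.2 hJJ'] at hsd
  change k ≤ J.card + m ∧ J.card ≤ k ∧ (I \ J).card + J.card ≤ k
  refine ⟨by omega, (card_le_card hJJ').trans hJ'k, ?_⟩
  have h1 : I \ J ∪ J ⊆ J' := union_subset (sdiff_subset.trans hIJ') hJJ'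
  have h2 := card_le_card h1
  rw [card_union_of_disjoint sdiff_disjoint] at h2
  omega

end Pool.Agent.Lib.MP_47458b_co.DU
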