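import Pool.Agent.Lib.MP_47458b_co.DU.Stm

/-!
Piece LOW of project DU: more than half of the vertices of a tree have degree at most two.
-/

namespace Pool.Agent.Lib.MP_47458b_co.DU

open Finset

theorem p_low : S_low := by
  classical
  intro W _ _ T k hT
  obtain ⟨_, hG, hc⟩ := hT
  rw [Nat.card_eq_fintype_card] at hc
  have hdeg : ∀ u, (nbT T u).card = (gr T).degree u := by
    intro u
    unfold nbT
    rw [← SimpleGraph.card_neighborFinset_eq_degree]
    apply congrArg Finset.card
    ext y
    simp
  have hsum : ∑ u, (nbT T u).card = 2 * k := by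
    have h1 := (gr T).sum_degrees_eq_twice_card_edges
    have h2 := hG.card_edgeFinset
    rw [hc] at h2
    have h3 : (gr T).edgeFinset.card = k := by
      have : (gr T).edgeFinset.card + 1 = k + 1 := h2
      omega
    rw [h3] at h1
    rw [← h1]
    exact Finset.sum_congr rfl (fun u _ => hdeg u)
  set A := univ.filter (fun u => (nbT T u).card ≤ 2) with hA
  have hAc : A.card ≤ k + 1 := by
    rw [← hc, ← Finset.card_univ]
    exact Finset.card_le_card (Finset.filter_subset _ _)
  rcases Nat.eq_zero_or_pos k with hk | hk
  · subst hk
    have hAu : A = univ := by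
      rw [hA]
      apply Finset.filter_true_of_mem
      intro u _
      have : (nbT T u).card ≤ Fintype.card W := Finset.card_le_univ _
      omega
    rw [hAu, Finset.card_univ, hc]
    omega
  · have : Nontrivial W := Fintype.one_lt_card_iff_nontrivial.1 (by omega)
    have hpos : ∀ u, 1 ≤ (nbT T u).card := by
      intro u
      rw [hdeg]
      exact hG.connected.preconnected.degree_pos_of_nontrivial u
    have hlow : ∑ u, (if u ∈ A then 1 else 3) ≤ ∑ u, (nbT T u).card := by
      apply Finset.sum_le_sum
      intro u _
      split_ifs with hu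
      · exact hpos u
      · have : ¬ (nbT T u).card ≤ 2 := fun h => hu (by simp [hA, h])
        omega
    have hval : ∑ u, (if u ∈ A then 1 else 3) = A.card + 3 * (k + 1 - A.card) := by
      rw [← Finset.sum_filter_add_sum_filter_not univ (fun u => u ∈ A)]
      have h1 : ∑ u ∈ univ.filter (fun u => u ∈ A), (if u ∈ A then 1 else 3) = A.card := by
        rw [Finset.sum_congr rfl (g := fun _ => 1) (fun u hu => if_pos (Finset.mem_filter.1 hu).2)]
        simp
      have h2 : ∑ u ∈ univ.filter (fun u => ¬ u ∈ A), (if u ∈ A then 1 else 3)
          = 3 * (k + 1 - A.card) := by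
        rw [Finset.sum_congr rfl (g := fun _ => 3) (fun u hu => if_neg (Finset.mem_filter.1 hu).2)]
        rw [Finset.sum_const, smul_eq_mul]
        have h3 : (univ.filter (fun u => ¬ u ∈ A)).card = k + 1 - A.card := by
          rw [Finset.filter_not, Finset.card_sdiff, Finset.card_univ, hc]
          congr 1
          simp
        rw [h3, mul_comm]
      rw [h1, h2]
    omega

end Pool.Agent.Lib.MP_47458b_co.DU
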