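import Pool.Agent.Lib.MP_47458b_co.DU.Stm

/-!
[DU NC] (8.1): a slightly larger host.
-/

namespace Pool.Agent.Lib.MP_47458b_co.DU

open Finset

theorem p_nc : S_nc := by
  intro hncl hsel hlow V W _ _ _ _ D T k m K Δ hT hD hκ hΔ h1 h2 h3
  have hC := hlow W T k hT
  set C : Finset W := univ.filter (fun u => (nbT T u).card ≤ 2) with hCdef
  have hsep : Sep T (∅ : Finset W) := by
    intro a ha
    simp at ha
  have hbig : (4 * (20 * K + m) + 1 + (∅ : Finset W).card) * (1 + Δ + Δ * Δ) ≤ C.card := by
    rw [card_empty, Nat.add_zero]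
    have h4 : 2 * ((4 * (20 * K + m) + 1) * (1 + Δ + Δ * Δ)) ≤ k := by
      rw [← mul_assoc]; exact h3
    omega
  obtain ⟨I, hIC, hIn, _, hIs⟩ := hsel W T Δ (4 * (20 * K + m) + 1) hΔ ∅ C hsep hbig
  have hVn : 0 < Fintype.card V := by omega
  have : Nonempty V := Fintype.card_pos_iff.mp hVn
  refine hncl V W D T k (20 * K + m) hT hD univ ∅ I (fun _ => Classical.arbitrary V)
    ?_ ?_ ?_ ?_ ?_ hIs ?_ ?_ ?_
  · intro x _ s
    have h5 := hκ s x
    have h6 : (univ \ nb D s x).card = Fintype.card V - (nb D s x).card := by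
      rw [card_sdiff_of_subset (subset_univ _), card_univ]
    omega
  · intro a ha; simp at ha
  · intro a ha; simp at ha
  · intro a ha; simp at ha
  · exact disjoint_empty_left _
  · intro u hu
    have := hIC hu
    rw [hCdef, mem_filter] at this
    exact this.2
  · omega
  · rw [card_univ, card_empty]; omega

end Pool.Agent.Lib.MP_47458b_co.DU
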