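import Pool.Agent.Lib.MP_47458b_co.DU.Stm2

/-!
Project DU, piece NUM: choice of the parameters.
-/

namespace Pool.Agent.Lib.MP_47458b_co.DU

open Finset Filter

/-- `(t + 1) ^ n ≤ t ^ n (1 + 2 n / t)` -/
lemma num_pow_succ (t n : ℕ) (h : 2 * n ≤ t) : (t + 1) ^ n * t ≤ t ^ n * (t + 2 * n) := by
  induction n with
  | zero => simp
  | succ n ih =>
    have ih' := ih (by omega)
    calc (t + 1) ^ (n + 1) * t = (t + 1) ^ n * t * (t + 1) := by ring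
      _ ≤ t ^ n * (t + 2 * n) * (t + 1) := Nat.mul_le_mul_right _ ih'
      _ = t ^ n * ((t + 2 * n) * (t + 1)) := by ring
      _ ≤ t ^ n * (t * (t + 2 * (n + 1))) := by
          apply Nat.mul_le_mul_left
          nlinarith
      _ = t ^ (n + 1) * (t + 2 * (n + 1)) := by ring

lemma num_pow_two (t n : ℕ) (h : 2 * n ≤ t) (ht : 0 < t) : (t + 1) ^ n ≤ 2 * t ^ n := by
  have h1 := num_pow_succ t n h
  have h2 : (t + 1) ^ n * t ≤ 2 * t ^ n * t := by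
    calc (t + 1) ^ n * t ≤ t ^ n * (t + 2 * n) := h1
      _ ≤ t ^ n * (2 * t) := by
          apply Nat.mul_le_mul_left
          omega
      _ = _ := by ring
  exact Nat.le_of_mul_le_mul_right h2 ht

lemma num_bern (a n : ℕ) : a ^ (n + 1) + (n + 1) * a ^ n ≤ (a + 1) ^ (n + 1) := by
  induction n with
  | zero => simp
  | succ n ih =>
    calc a ^ (n + 1 + 1) + (n + 1 + 1) * a ^ (n + 1)
        ≤ (a ^ (n + 1) + (n + 1) * a ^ n) * (a + 1) := by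
          have : (a ^ (n + 1) + (n + 1) * a ^ n) * (a + 1) =
            a ^ (n + 1 + 1) + (n + 1 + 1) * a ^ (n + 1) + (n + 1) * a ^ n := by ring
          rw [this]
          exact Nat.le_add_right _ _
      _ ≤ (a + 1) ^ (n + 1) * (a + 1) := Nat.mul_le_mul_right _ ih
      _ = _ := by ring

lemma num_two_lt (E : ℕ) (hE : 1 ≤ E) : 2 * (2 * E - 1) ^ (2 * E) < (2 * E) ^ (2 * E) := by
  obtain ⟨a, ha, ha1⟩ : ∃ a, 2 * E = a + 1 ∧ 1 ≤ a := ⟨2 * E - 1, by omega, by omega⟩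
  rw [ha, Nat.add_sub_cancel]
  have h1 := num_bern a a
  have h2 : 0 < a ^ a := by positivity
  calc 2 * a ^ (a + 1) < a ^ (a + 1) + (a + 1) * a ^ a := by
        have : a ^ (a + 1) + (a + 1) * a ^ a = 2 * a ^ (a + 1) + a ^ a := by ring
        omega
    _ ≤ _ := h1

lemma num_exp {X L A B : ℕ} (c : ℕ) (hX : X ≤ 2 ^ L) (hL : L ≠ 0) (h : 2 * A ^ c < B ^ c) :
    X * A ^ (c * L) < B ^ (c * L) := by
  calc X * A ^ (c * L) ≤ 2 ^ L * A ^ (c * L) := Nat.mul_le_mul_right _ hX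
    _ = (2 * A ^ c) ^ L := by rw [mul_pow, pow_mul]
    _ < (B ^ c) ^ L := Nat.pow_lt_pow_left h hL
    _ = B ^ (c * L) := by rw [pow_mul]

lemma num_tg {X L : ℕ} (hX : X ≤ 2 ^ L) (hL : L ≠ 0) :
    X * 399 ^ (400 * L) < 400 ^ (400 * L) := by
  have h := num_exp (2 * 200) hX hL (num_two_lt 200 (by norm_num))
  have e1 : 2 * 200 = 400 := by norm_num
  have e2 : 400 - 1 = 399 := by norm_num
  rw [e1, e2] at h
  exact h

lemma num_tab {s y Δ g n M1 : ℕ} (hs : 100 ≤ s) (hy : 1 ≤ y) (hΔ : Δ ≤ s ^ 2) (hg : g ≤ s ^ 2)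
    (hn : n ≤ s ^ 2 * y) (hM : M1 ≤ s ^ 8 * y) : tabN Δ g n M1 ≤ s ^ 29 * y := by
  have hs1 : 1 ≤ s := by omega
  have hp : ∀ a b : ℕ, a ≤ b → s ^ a ≤ s ^ b := fun a b h => Nat.pow_le_pow_right hs1 h
  have hp1 : ∀ a : ℕ, 1 ≤ s ^ a := fun a => Nat.one_le_pow _ _ hs1
  have hq : ∀ a b : ℕ, a + 1 = b → 100 * s ^ a ≤ s ^ b := fun a b hab => by
    rw [← hab, pow_succ, mul_comm]
    exact Nat.mul_le_mul_left _ hs
  have e1 : Δ + 1 ≤ s ^ 3 := by
    have := hq 2 3 rfl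
    have := hp1 2
    omega
  have e2 : Δ * (Δ + 1) ≤ s ^ 5 * y := by
    calc Δ * (Δ + 1) ≤ s ^ 2 * s ^ 3 := Nat.mul_le_mul hΔ e1
      _ = s ^ 5 * 1 := by ring
      _ ≤ s ^ 5 * y := Nat.mul_le_mul_left _ hy
  have e3 : M1 * (Δ + 1) + 1 ≤ s ^ 12 * y := by
    have h1 : M1 * (Δ + 1) ≤ s ^ 11 * y := by
      calc M1 * (Δ + 1) ≤ (s ^ 8 * y) * s ^ 3 := Nat.mul_le_mul hM e1
        _ = _ := by ring
    have h2 : 1 ≤ s ^ 11 * y := Nat.one_le_iff_ne_zero.2 (by positivity)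
    have h3 : 100 * (s ^ 11 * y) ≤ s ^ 12 * y := by
      rw [← mul_assoc]
      exact Nat.mul_le_mul_right _ (hq 11 12 rfl)
    omega
  have e4 : Δ * (M1 * (Δ + 1) + 1) ≤ s ^ 14 * y := by
    calc Δ * (M1 * (Δ + 1) + 1) ≤ s ^ 2 * (s ^ 12 * y) := Nat.mul_le_mul hΔ e3
      _ = _ := by ring
  have hy' : ∀ a b : ℕ, a ≤ b → s ^ a * y ≤ s ^ b * y := fun a b h =>
    Nat.mul_le_mul_right _ (hp a b h)
  have hqy : ∀ a b : ℕ, a + 1 = b → 100 * (s ^ a * y) ≤ s ^ b * y := fun a b hab => by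
    rw [← mul_assoc]
    exact Nat.mul_le_mul_right _ (hq a b hab)
  have hy1 : ∀ a : ℕ, 1 ≤ s ^ a * y := fun a => Nat.one_le_iff_ne_zero.2 (by positivity)
  have e5 : n + 2 + Δ * (Δ + 1) + Δ * (M1 * (Δ + 1) + 1) ≤ s ^ 15 * y := by
    have h1 := hqy 14 15 rfl
    have h2 := hy' 2 14 (by norm_num)
    have h3 := hy' 5 14 (by norm_num)
    have h4 := hy1 14
    omega
  have e6 : 1 + Δ * ((g + 1) * (1 + Δ * g)) ≤ s ^ 11 := by
    have h1 : g + 1 ≤ s ^ 3 := by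
      have := hq 2 3 rfl
      have := hp1 2
      omega
    have h2 : 1 + Δ * g ≤ s ^ 5 := by
      have h3 : Δ * g ≤ s ^ 2 * s ^ 2 := Nat.mul_le_mul hΔ hg
      have h4 : s ^ 2 * s ^ 2 = s ^ 4 := by ring
      have h5 := hq 4 5 rfl
      have h6 := hp1 4
      omega
    have h3 : Δ * ((g + 1) * (1 + Δ * g)) ≤ s ^ 2 * (s ^ 3 * s ^ 5) :=
      Nat.mul_le_mul hΔ (Nat.mul_le_mul h1 h2)
    have h4 : s ^ 2 * (s ^ 3 * s ^ 5) = s ^ 10 := by ring
    have h5 := hq 10 11 rfl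
    have h6 := hp1 10
    omega
  have e7 : ((n + 2 + Δ * (Δ + 1) + Δ * (M1 * (Δ + 1) + 1)) *
      (1 + Δ * ((g + 1) * (1 + Δ * g)))) * Δ ≤ s ^ 28 * y := by
    calc ((n + 2 + Δ * (Δ + 1) + Δ * (M1 * (Δ + 1) + 1)) *
      (1 + Δ * ((g + 1) * (1 + Δ * g)))) * Δ ≤ ((s ^ 15 * y) * s ^ 11) * s ^ 2 :=
          Nat.mul_le_mul (Nat.mul_le_mul e5 e6) hΔ
      _ = _ := by ring
  unfold tabN
  have h1 := hqy 28 29 rfl
  have h2 := hy' 2 28 (by norm_num)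
  have h3 := hy1 28
  omega

/-- Everything from the sizes. -/
lemma num_main {k m l t : ℕ} (hm1 : 1 ≤ m) (hml : m ≤ l) (hst : (100 * l) ^ 40 ≤ t)
    (hk1 : t ^ 20 ≤ k) (hk3 : k ≤ 2 * t ^ 20)
    (hX : 2 ^ m * (2 * (2 * k + 3) ^ (2 * m + 1)) ≤ 2 ^ (10 * l ^ 2))
    (hex : Real.exp ((4 * m : ℕ) : ℝ) < (2 * t ^ 16 : ℕ)) :
    NumB k m (2 * (m * m + m) + 2 * m) (400 * (10 * l ^ 2)) (t ^ 19) (t ^ 18) (t ^ 14)
      (m + 2000 * t ^ 2) (m + 2000 * t ^ 6) (2 * t ^ 14 * (10 * l ^ 2))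
      (2 * t ^ 18 * (10 * l ^ 2)) ∧
    NumA k m (2 * (m * m + m) + 2 * m) (t ^ 19) (2 * t ^ 16) := by
  have hl : 1 ≤ l := hm1.trans hml
  set s : ℕ := 100 * l with hs
  have hs100 : 100 ≤ s := by omega
  have hs1 : 1 ≤ s := by omega
  have hp : ∀ a b : ℕ, a ≤ b → s ^ a ≤ s ^ b := fun a b h => Nat.pow_le_pow_right hs1 h
  have hp1 : ∀ a : ℕ, 1 ≤ s ^ a := fun a => Nat.one_le_pow _ _ hs1
  have hq : ∀ a b : ℕ, a + 1 = b → 100 * s ^ a ≤ s ^ b := fun a b hab => by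
    rw [← hab, pow_succ, mul_comm]
    exact Nat.mul_le_mul_left _ hs100
  have hpt : ∀ a : ℕ, a ≤ 40 → s ^ a ≤ t := fun a h => (hp a 40 h).trans hst
  have ht1 : 1 ≤ t := (hp1 40).trans hst
  have htp : ∀ a : ℕ, 1 ≤ t ^ a := fun a => Nat.one_le_pow _ _ ht1
  have htm : ∀ a b : ℕ, a ≤ b → t ^ a ≤ t ^ b := fun a b h => Nat.pow_le_pow_right ht1 h
  have hst' : ∀ a j : ℕ, a ≤ 40 → s ^ a * t ^ j ≤ t ^ (j + 1) := fun a j h => by
    rw [pow_succ, mul_comm]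
    exact Nat.mul_le_mul_left _ (hpt a h)
  have hstk : ∀ a j : ℕ, a ≤ 40 → j ≤ 19 → s ^ a * t ^ j ≤ k := fun a j h hj =>
    ((hst' a j h).trans (htm _ 20 (by omega))).trans hk1
  have hst19 : ∀ a j : ℕ, a ≤ 40 → j ≤ 18 → s ^ a * t ^ j ≤ t ^ 19 := fun a j h hj =>
    (hst' a j h).trans (htm _ 19 (by omega))
  -- small quantities
  have hl2 : 1 ≤ l ^ 2 := Nat.one_le_pow _ _ hl
  have hll : l ≤ l ^ 2 := Nat.le_self_pow (by norm_num) l
  have hs2 : s ^ 2 = 10000 * l ^ 2 := by rw [hs]; ring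
  have hmm : m * m ≤ l ^ 2 := by rw [pow_two]; exact Nat.mul_le_mul hml hml
  set Δ : ℕ := 2 * (m * m + m) + 2 * m with hΔdef
  have hΔ6 : Δ ≤ 6 * l ^ 2 := by omega
  have hΔ : Δ ≤ s ^ 2 := by omega
  have hD : 1 + Δ + Δ * Δ ≤ s ^ 5 := by
    have h1 : Δ * Δ ≤ s ^ 2 * s ^ 2 := Nat.mul_le_mul hΔ hΔ
    have h2 : s ^ 2 * s ^ 2 = s ^ 4 := by ring
    have h3 := hq 4 5 rfl
    have h4 := hp 2 4 (by norm_num)
    have h5 := hp1 4
    omega
  have hmq : m * m + m ≤ s ^ 2 := by omega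
  have hm2 : 100 * m ≤ s := by omega
  have hms : m ≤ s := by omega
  have hss : s ≤ s ^ 2 := by
    have := hp 1 2 (by norm_num)
    rwa [pow_one] at this
  have hs3 := hq 2 3 rfl
  have hs4 := hq 3 4 rfl
  have hs5 := hq 4 5 rfl
  have hs6 := hq 5 6 rfl
  -- a tool: `c t^j ≤ ...`
  have hL : 10 * l ^ 2 ≠ 0 := by positivity
  have hE1 : 1 ≤ t ^ 18 := htp 18
  have hE2 : 1 ≤ t ^ 14 := htp 14
  have h1000 : 1000 ≤ t := by
    have h1 := hpt 2 (by norm_num)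
    omega
  have hbig : ∀ j : ℕ, 1 ≤ j → 1000 ≤ t ^ j := fun j hj => h1000.trans (by
    have := htm 1 j hj
    rwa [pow_one] at this)
  have hB : 2 * m + 2 * (m + 2000 * t ^ 2) + 3 * (400 * (10 * l ^ 2)) ≤ s ^ 3 * t ^ 2 := by
    have h1 : 4 * m + 12000 * l ^ 2 ≤ 12004 * l ^ 2 := by omega
    have h2 : 12004 * l ^ 2 * 1 ≤ 12004 * l ^ 2 * t ^ 2 := Nat.mul_le_mul_left _ (htp 2)
    have h3 : 4000 * 1 * t ^ 2 ≤ 4000 * l ^ 2 * t ^ 2 := by gcongr
    have h4 : 16004 * l ^ 2 * t ^ 2 ≤ s ^ 3 * t ^ 2 := by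
      apply Nat.mul_le_mul_right
      omega
    have h5 : 16004 * l ^ 2 * t ^ 2 = 12004 * l ^ 2 * t ^ 2 + 4000 * l ^ 2 * t ^ 2 := by ring
    omega
  have hK2 : 8 * m + 10 + 8000 * t ^ 6 ≤ s ^ 2 * t ^ 6 := by
    have h1 : (8 * m + 10) * 1 ≤ (18 * l ^ 2) * t ^ 6 := by
      apply Nat.mul_le_mul _ (htp 6)
      omega
    have h2 : 8000 * 1 * t ^ 6 ≤ 8000 * l ^ 2 * t ^ 6 := by gcongr
    have h3 : s ^ 2 * t ^ 6 = 10000 * l ^ 2 * t ^ 6 := by rw [hs2]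
    have h4 : 10000 * l ^ 2 * t ^ 6 = 18 * l ^ 2 * t ^ 6 + 8000 * l ^ 2 * t ^ 6 +
      1982 * l ^ 2 * t ^ 6 := by ring
    omega
  have hK1 : 8 * m + 10 + 8000 * t ^ 2 ≤ s ^ 2 * t ^ 2 := by
    have h1 : (8 * m + 10) * 1 ≤ (18 * l ^ 2) * t ^ 2 := by
      apply Nat.mul_le_mul _ (htp 2)
      omega
    have h2 : 8000 * 1 * t ^ 2 ≤ 8000 * l ^ 2 * t ^ 2 := by gcongr
    have h3 : s ^ 2 * t ^ 2 = 10000 * l ^ 2 * t ^ 2 := by rw [hs2]
    have h4 : 10000 * l ^ 2 * t ^ 2 = 18 * l ^ 2 * t ^ 2 + 8000 * l ^ 2 * t ^ 2 +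
      1982 * l ^ 2 * t ^ 2 := by ring
    omega
  have hsq : ∀ a b j : ℕ, a + 1 = b → 100 * (s ^ a * t ^ j) ≤ s ^ b * t ^ j :=
    fun a b j hab => by
      rw [← mul_assoc]
      exact Nat.mul_le_mul_right _ (hq a b hab)
  have hone : ∀ a j : ℕ, 1 ≤ s ^ a * t ^ j := fun a j =>
    Nat.one_le_iff_ne_zero.2 (by positivity)
  have hsa : ∀ a j : ℕ, s ^ a ≤ s ^ a * t ^ j := fun a j => Nat.le_mul_of_pos_right _ (htp j)
  refine ⟨?_, ?_⟩
  · constructor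
    · -- g1
      omega
    · -- tg
      exact num_tg hX hL
    · -- t1
      exact num_exp (2 * t ^ 18) hX hL (num_two_lt _ hE1)
    · -- t2
      exact num_exp (2 * t ^ 14) hX hL (num_two_lt _ hE2)
    · exact hbig 18 (by norm_num)
    · exact hbig 14 (by norm_num)
    · omega
    · omega
    · -- c1
      rw [Nat.add_sub_cancel_left]
      calc 1000 * k ≤ 1000 * (2 * t ^ 20) := Nat.mul_le_mul_left _ hk3
        _ = 2000 * t ^ 2 * t ^ 18 := by ring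
    · -- c2
      rw [Nat.add_sub_cancel_left]
      calc 1000 * k ≤ 1000 * (2 * t ^ 20) := Nat.mul_le_mul_left _ hk3
        _ = 2000 * t ^ 6 * t ^ 14 := by ring
    · -- hk
      have h1 := hstk 3 19 (by norm_num) (by norm_num)
      have h2 : 500 * (m + 3) * 1 ≤ 500 * (m + 3) * t ^ 19 := Nat.mul_le_mul_left _ (htp 19)
      have h0 : 500 * (m + 3) + 1500 ≤ s ^ 3 := by
        clear h1 h2
        omega
      have h3 : (500 * (m + 3) + 1500) * t ^ 19 ≤ s ^ 3 * t ^ 19 := Nat.mul_le_mul_right _ h0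
      calc 500 * (m + 3 * t ^ 19 + 3) = 500 * (m + 3) * 1 + 1500 * t ^ 19 := by ring
        _ ≤ 500 * (m + 3) * t ^ 19 + 1500 * t ^ 19 := Nat.add_le_add_right h2 _
        _ = (500 * (m + 3) + 1500) * t ^ 19 := by ring
        _ ≤ s ^ 3 * t ^ 19 := h3
        _ ≤ k := h1
    · -- n1p
      have : 0 < 2 * t ^ 14 * (10 * l ^ 2) := by positivity
      omega
    · -- sel1
      have h1 : 4 * (2 * t ^ 14 * (10 * l ^ 2)) ≤ s ^ 2 * t ^ 14 := by
        rw [hs2]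
        have : 4 * (2 * t ^ 14 * (10 * l ^ 2)) = 80 * l ^ 2 * t ^ 14 := by ring
        rw [this]
        apply Nat.mul_le_mul_right
        omega
      have h2 : 4 * (2 * t ^ 14 * (10 * l ^ 2)) *
          (2 * m + 2 * (m + 2000 * t ^ 2) + 3 * (400 * (10 * l ^ 2))) ≤ s ^ 5 * t ^ 16 := by
        calc _ ≤ (s ^ 2 * t ^ 14) * (s ^ 3 * t ^ 2) := Nat.mul_le_mul h1 hB
          _ = _ := by ring
      have h3 : s ^ 3 * t ^ 2 ≤ s ^ 5 * t ^ 16 :=
        Nat.mul_le_mul (hp 3 5 (by norm_num)) (htm 2 16 (by norm_num))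
      have h4 := hsq 5 6 16 rfl
      have h5 := hst19 6 16 (by norm_num) (by norm_num)
      have h6 := hone 5 16
      omega
    · -- sel2
      have h1 : 4 * (2 * t ^ 14 * (10 * l ^ 2)) + 2 * (2 * t ^ 18 * (10 * l ^ 2)) + 1 ≤
          s ^ 2 * t ^ 18 := by
        have h2 : 4 * (2 * t ^ 14 * (10 * l ^ 2)) ≤ 80 * l ^ 2 * t ^ 18 := by
          have : 4 * (2 * t ^ 14 * (10 * l ^ 2)) = 80 * l ^ 2 * t ^ 14 := by ring
          rw [this]
          exact Nat.mul_le_mul_left _ (htm 14 18 (by norm_num))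
        have h3 : 2 * (2 * t ^ 18 * (10 * l ^ 2)) = 40 * l ^ 2 * t ^ 18 := by ring
        have h4 : 1 * 1 ≤ l ^ 2 * t ^ 18 := Nat.mul_le_mul hl2 (htp 18)
        have h5 : s ^ 2 * t ^ 18 = 80 * l ^ 2 * t ^ 18 + 40 * l ^ 2 * t ^ 18 +
          9880 * (l ^ 2 * t ^ 18) := by rw [hs2]; ring
        omega
      exact h1.trans (hst19 2 18 (by norm_num) (by norm_num))
    · -- tab
      refine (num_tab (s := s) (y := t ^ 6) hs100 (htp 6) hΔ ?_ ?_ ?_).trans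
        (hst19 29 6 (by norm_num) (by norm_num))
      · omega
      · calc 4 * m + 4 * (m + 2000 * t ^ 6) + 10 = 8 * m + 10 + 8000 * t ^ 6 := by ring
          _ ≤ _ := hK2
      · have h1 : 50 * (m + 2000 * t ^ 6 + m) + 10 ≤ s ^ 3 * t ^ 6 := by
          have h2 : 50 * (m + 2000 * t ^ 6 + m) + 10 ≤ 100 * (8 * m + 10 + 8000 * t ^ 6) := by
            omega
          have h3 := hsq 2 3 6 rfl
          omega
        calc (50 * (m + 2000 * t ^ 6 + m) + 10) * (1 + Δ + Δ * Δ) ≤ (s ^ 3 * t ^ 6) * s ^ 5 :=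
              Nat.mul_le_mul h1 hD
          _ = _ := by ring
    · -- b1
      have h1 : 1000 * (m + 30 * (m + 2000 * t ^ 2) + 1) ≤ 100 * (100 * (s ^ 2 * t ^ 2)) := by
        omega
      have h2 := hsq 2 3 2 rfl
      have h3 := hsq 3 4 2 rfl
      have h4 := hstk 4 2 (by norm_num) (by norm_num)
      omega
    · -- b2
      have h1 : 1000 * (m + 30 * (m + 2000 * t ^ 6) + 1) ≤ 100 * (100 * (s ^ 2 * t ^ 6)) := by
        omega
      have h2 := hsq 2 3 6 rfl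
      have h3 := hsq 3 4 6 rfl
      have h4 := hstk 4 6 (by norm_num) (by norm_num)
      omega
    · -- p1
      have h1 := hst19 2 2 (by norm_num) (by norm_num)
      omega
    · -- sp
      have h1 : 2 * m + 2 * (m + 2000 * t ^ 2) + 1 ≤ s ^ 2 * t ^ 2 := by omega
      have h2 : 2 * m + 2 * (m + 2000 * t ^ 2) ≤ s ^ 2 * t ^ 2 := by omega
      have h3 : (2 * m + 2 * (m + 2000 * t ^ 2)) * (2 * m + 2 * (m + 2000 * t ^ 2)) ≤
          s ^ 4 * t ^ 4 := by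
        calc _ ≤ (s ^ 2 * t ^ 2) * (s ^ 2 * t ^ 2) := Nat.mul_le_mul h2 h2
          _ = _ := by ring
      have h4 : (2 * m + 2 * (m + 2000 * t ^ 2) + 1) ^ 2 ≤ s ^ 4 * t ^ 4 := by
        calc _ ≤ (s ^ 2 * t ^ 2) ^ 2 := Nat.pow_le_pow_left h1 2
          _ = _ := by ring
      have h5 := hsq 4 5 4 rfl
      have h6 := hstk 5 4 (by norm_num) (by norm_num)
      have h7 := hone 4 4
      have h8 : 2 * 1 * (2 * m + 2 * (m + 2000 * t ^ 2)) * (2 * m + 2 * (m + 2000 * t ^ 2)) =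
        2 * ((2 * m + 2 * (m + 2000 * t ^ 2)) * (2 * m + 2 * (m + 2000 * t ^ 2))) := by ring
      omega
    · -- nc1
      have h1 : 2 * (4 * (20 * (m + 2000 * t ^ 2) + m) + 1) ≤ s ^ 4 * t ^ 2 := by
        have h2 : 2 * (4 * (20 * (m + 2000 * t ^ 2) + m) + 1) ≤ 100 * (s ^ 2 * t ^ 2) := by omega
        have h3 := hsq 2 3 2 rfl
        have h4 := hsq 3 4 2 rfl
        omega
      calc _ ≤ (s ^ 4 * t ^ 2) * s ^ 5 := Nat.mul_le_mul h1 hD
        _ = s ^ 9 * t ^ 2 := by ring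
        _ ≤ k := hstk 9 2 (by norm_num) (by norm_num)
    · -- nc2
      have h1 : 2 * (4 * (20 * (m + 2000 * t ^ 6) + m) + 1) ≤ s ^ 4 * t ^ 6 := by
        have h2 : 2 * (4 * (20 * (m + 2000 * t ^ 6) + m) + 1) ≤ 100 * (s ^ 2 * t ^ 6) := by omega
        have h3 := hsq 2 3 6 rfl
        have h4 := hsq 3 4 6 rfl
        omega
      calc _ ≤ (s ^ 4 * t ^ 6) * s ^ 5 := Nat.mul_le_mul h1 hD
        _ = s ^ 9 * t ^ 6 := by ring
        _ ≤ k := hstk 9 6 (by norm_num) (by norm_num)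
    · -- ad2
      have h1 : 200 * (m + 2000 * t ^ 6 + m + 1) ≤ s ^ 4 * t ^ 6 := by
        have h2 : 200 * (m + 2000 * t ^ 6 + m + 1) ≤ 100 * (s ^ 2 * t ^ 6) := by omega
        have h3 := hsq 2 3 6 rfl
        have h4 := hsq 3 4 6 rfl
        omega
      calc _ ≤ (s ^ 4 * t ^ 6) * s ^ 5 := Nat.mul_le_mul h1 hD
        _ = s ^ 9 * t ^ 6 := by ring
        _ ≤ k := hstk 9 6 (by norm_num) (by norm_num)
  · -- case A
    have hk4 := hstk 4 0 (by norm_num) (by norm_num)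
    rw [pow_zero, mul_one] at hk4
    have h800 : ∀ Y : ℕ, 800 * Y ≤ k → Y ≤ k / 800 := fun Y hY => by
      rw [Nat.le_div_iff_mul_le (by norm_num)]
      omega
    constructor
    · exact hm1
    · omega
    · omega
    · -- hm
      have h1 := hst19 2 2 (by norm_num) (by norm_num)
      have h2 := hsa 2 2
      omega
    · -- dich
      have h1 : 4 * (m * m + m) ≤ s ^ 3 := by omega
      have h2 : 3 * t ^ 19 + 1 ≤ s * t ^ 19 := by
        have h3 := htp 19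
        have h4 : 4 * t ^ 19 ≤ s * t ^ 19 := Nat.mul_le_mul_right _ (by omega)
        omega
      calc 4 * (m * m + m) * Δ * (3 * t ^ 19 + 1) ≤ s ^ 3 * s ^ 2 * (s * t ^ 19) :=
            Nat.mul_le_mul (Nat.mul_le_mul h1 hΔ) h2
        _ = s ^ 6 * t ^ 19 := by ring
        _ ≤ k := hstk 6 19 (by norm_num) (by norm_num)
    · -- szA
      apply h800
      have h1 : 2 * (m * m + m) ≤ s ^ 3 := by omega
      have h2 : 3 * t ^ 19 + 1 ≤ s * t ^ 19 := by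
        have h3 := htp 19
        have h4 : 4 * t ^ 19 ≤ s * t ^ 19 := Nat.mul_le_mul_right _ (by omega)
        omega
      calc 800 * (2 * (m * m + m) * Δ * (3 * t ^ 19 + 1)) ≤
            s ^ 2 * (s ^ 3 * s ^ 2 * (s * t ^ 19)) :=
            Nat.mul_le_mul (by omega) (Nat.mul_le_mul (Nat.mul_le_mul h1 hΔ) h2)
        _ = s ^ 8 * t ^ 19 := by ring
        _ ≤ k := hstk 8 19 (by norm_num) (by norm_num)
    · -- tab
      apply h800
      have h1 : tabN Δ (m + 1) (4 * m + 4 * m + 10)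
          ((50 * (m + m) + 10) * (1 + Δ + Δ * Δ)) ≤ s ^ 29 * 1 := by
        refine num_tab hs100 le_rfl hΔ (by omega) (by omega) ?_
        calc (50 * (m + m) + 10) * (1 + Δ + Δ * Δ) ≤ s ^ 3 * s ^ 5 :=
              Nat.mul_le_mul (by omega) hD
          _ = s ^ 8 * 1 := by ring
      have h2 := hstk 31 0 (by norm_num) (by norm_num)
      have h3 : 100 * s ^ 30 ≤ s ^ 31 := hq 30 31 rfl
      have h4 : 100 * s ^ 29 ≤ s ^ 30 := hq 29 30 rfl
      rw [pow_zero, mul_one] at h2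
      omega
    · -- tr1
      have h1 : 1 + Δ * (m + 1) ≤ s ^ 4 := by
        have h2 : Δ * (m + 1) ≤ s ^ 2 * s := Nat.mul_le_mul hΔ (by omega)
        have h3 : s ^ 2 * s = s ^ 3 := by ring
        have := hp1 3
        omega
      have h2 : 1 + Δ * ((m + 1 + 1) * (1 + Δ * (m + 1))) ≤ s ^ 8 := by
        have h3 : Δ * ((m + 1 + 1) * (1 + Δ * (m + 1))) ≤ s ^ 2 * (s * s ^ 4) :=
          Nat.mul_le_mul hΔ (Nat.mul_le_mul (by omega) h1)
        have h4 : s ^ 2 * (s * s ^ 4) = s ^ 7 := by ring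
        have h5 := hq 7 8 rfl
        have h6 := hp1 7
        omega
      have h3 : Δ * ((m + 1 + 1) * (1 + Δ * ((m + 1 + 1) * (1 + Δ * (m + 1))))) ≤ s ^ 11 := by
        calc _ ≤ s ^ 2 * (s * s ^ 8) := Nat.mul_le_mul hΔ (Nat.mul_le_mul (by omega) h2)
          _ = _ := by ring
      have h4 : 2 * t ^ 16 + 1 + Δ * ((m + 1 + 1) *
          (1 + Δ * ((m + 1 + 1) * (1 + Δ * (m + 1))))) ≤ s ^ 12 * t ^ 16 := by
        have h5 := hsa 11 16
        have h6 : 2 * t ^ 16 ≤ 2 * (s ^ 11 * t ^ 16) := by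
          apply Nat.mul_le_mul_left
          exact Nat.le_mul_of_pos_left _ (hp1 11)
        have h7 := hsq 11 12 16 rfl
        have h8 := hone 11 16
        omega
      have h5 : 1 + 2 * m * Δ ≤ s ^ 4 := by
        have h6 : 2 * m * Δ ≤ s * s ^ 2 := Nat.mul_le_mul (by omega) hΔ
        have h7 : s * s ^ 2 = s ^ 3 := by ring
        have := hp1 3
        omega
      have h6 : (2 * t ^ 16 + 1 + Δ * ((m + 1 + 1) *
          (1 + Δ * ((m + 1 + 1) * (1 + Δ * (m + 1)))))) * (1 + 2 * m * Δ) ≤ s ^ 16 * t ^ 16 := by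
        calc _ ≤ (s ^ 12 * t ^ 16) * s ^ 4 := Nat.mul_le_mul h4 h5
          _ = _ := by ring
      have h7 : s ^ 17 * t ^ 16 ≤ k / 800 := by
        apply h800
        calc 800 * (s ^ 17 * t ^ 16) ≤ s ^ 2 * (s ^ 17 * t ^ 16) :=
              Nat.mul_le_mul_right _ (by omega)
          _ = s ^ 19 * t ^ 16 := by ring
          _ ≤ k := hstk 19 16 (by norm_num) (by norm_num)
      have h8 := hsq 16 17 16 rfl
      have h9 := hone 16 16
      omega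
    · exact hex
    · -- pN
      have h1 := hst' 2 15 (by norm_num)
      have h2 := hsa 2 15
      have h3 : t ^ (15 + 1) = t ^ 16 := by norm_num
      rw [h3] at h1
      omega
    · -- sp
      have h1 : 4 * m ≤ s := by omega
      have h2 : 2 * (4 * m) * (4 * m) * (4 * m) ≤ 2 * s ^ 3 := by
        calc 2 * (4 * m) * (4 * m) * (4 * m) ≤ 2 * s * s * s := by gcongr
          _ = _ := by ring
      have h3 : (4 * m + 1) ^ 2 ≤ s ^ 2 := Nat.pow_le_pow_left (by omega) 2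
      have h4 := hp1 2
      omega
    · omega
    · -- nc
      have h1 : 2 * (4 * (20 * m + m) + 1) ≤ s ^ 2 := by omega
      have h2 := hstk 7 0 (by norm_num) (by norm_num)
      rw [pow_zero, mul_one] at h2
      calc _ ≤ s ^ 2 * s ^ 5 := Nat.mul_le_mul h1 hD
        _ = s ^ 7 := by ring
        _ ≤ k := h2
    · -- ad
      have h1 : 200 * (m + m + 1) ≤ s ^ 2 := by omega
      have h2 := hstk 7 0 (by norm_num) (by norm_num)
      rw [pow_zero, mul_one] at h2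
      calc _ ≤ s ^ 2 * s ^ 5 := Nat.mul_le_mul h1 hD
        _ = s ^ 7 := by ring
        _ ≤ k := h2

lemma num_aux1 {l x y z w : ℕ} (h5 : x * (2 * y) < w) (h6 : w = 2 * z) (hv : l ≤ x * y) :
    l ≤ z := by
  have h10 : x * (2 * y) = 2 * (x * y) := by ring
  omega

lemma num_aux2 (l : ℕ) (hl1 : 1 ≤ l) : ((100 * l) ^ 40 + 1) ^ 20 ≤ l ^ 800 * 200 ^ 800 := by
  have h7 : (100 * l) ^ 40 + 1 ≤ (200 * l) ^ 40 := by
    have h8 : (200 * l) ^ 40 = 2 ^ 40 * (100 * l) ^ 40 := by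
      rw [← mul_pow]
      congr 1
      ring
    have h9 : 1 ≤ (100 * l) ^ 40 := Nat.one_le_pow _ _ (by omega)
    rw [h8]
    generalize (100 * l) ^ 40 = x at h9 ⊢
    norm_num
    omega
  calc ((100 * l) ^ 40 + 1) ^ 20 ≤ ((200 * l) ^ 40) ^ 20 := Nat.pow_le_pow_left h7 20
    _ = (200 * l) ^ 800 := by rw [← pow_mul]
    _ = l ^ 800 * 200 ^ 800 := by rw [mul_pow, mul_comm]

lemma num_large : ∃ l0 : ℕ, ∀ l : ℕ, l0 ≤ l → 1 ≤ l ∧ ((100 * l) ^ 40 + 1) ^ 20 ≤ 2 ^ (l - 1) := by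
  obtain ⟨c, hc⟩ : ∃ c : ℕ, c = 800 := ⟨800, rfl⟩
  have h1 : Tendsto (fun n : ℕ => (n : ℝ) ^ c / 2 ^ n) atTop (nhds 0) :=
    tendsto_pow_const_div_const_pow_of_one_lt c (by norm_num)
  have h2 : ∀ᶠ n : ℕ in atTop, (n : ℝ) ^ c / 2 ^ n < 1 / (2 * 200 ^ c) :=
    (tendsto_order.1 h1).2 _ (by positivity)
  obtain ⟨l0, hl0⟩ := eventually_atTop.1 h2
  refine ⟨max l0 1, fun l hl => ?_⟩
  have hl1 : 1 ≤ l := (le_max_right _ _).trans hl
  refine ⟨hl1, ?_⟩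
  have h3 := hl0 l ((le_max_left _ _).trans hl)
  have h4 : ((l : ℝ) ^ c) * (2 * 200 ^ c) < 2 ^ l := by
    rw [div_lt_div_iff₀ (by positivity) (by positivity)] at h3
    linarith
  have h5 : (l ^ c) * (2 * 200 ^ c) < 2 ^ l := by exact_mod_cast h4
  have h6 : 2 ^ l = 2 * 2 ^ (l - 1) := by
    rw [← pow_succ']
    congr 1
    omega
  have h8 := num_aux2 l hl1
  rw [← hc] at h8
  exact num_aux1 h5 h6 h8

lemma num_exp_lt {k m t : ℕ} (hk : 0 < k) (hm : (m : ℝ) ≤ Real.log k / 5)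
    (ht2 : k < (t + 1) ^ 20) : Real.exp ((4 * m : ℕ) : ℝ) < ((t + 1) ^ 16 : ℕ) := by
  have hkpos : (0 : ℝ) < k := by exact_mod_cast hk
  have h1 : (Real.exp ((4 * m : ℕ) : ℝ)) ^ 5 < (((t + 1) ^ 16 : ℕ) : ℝ) ^ 5 := by
    calc (Real.exp ((4 * m : ℕ) : ℝ)) ^ 5 = Real.exp (5 * ((4 * m : ℕ) : ℝ)) := by
          rw [← Real.exp_nat_mul]
          norm_num
      _ ≤ Real.exp (4 * Real.log k) := by
          apply Real.exp_le_exp.2
          push_cast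
          linarith
      _ = (k : ℝ) ^ 4 := by
          rw [show (4 : ℝ) * Real.log k = ((4 : ℕ) : ℝ) * Real.log k by norm_num,
            Real.exp_nat_mul, Real.exp_log hkpos]
      _ < (((t + 1) ^ 20 : ℕ) : ℝ) ^ 4 := by
          have h2 : (k : ℝ) < (((t + 1) ^ 20 : ℕ) : ℝ) := by exact_mod_cast ht2
          exact pow_lt_pow_left₀ h2 hkpos.le (by norm_num)
      _ = (((t + 1) ^ 16 : ℕ) : ℝ) ^ 5 := by
          push_cast
          rw [← pow_mul, ← pow_mul]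
  exact lt_of_pow_lt_pow_left₀ 5 (Nat.cast_nonneg _) h1

lemma num_root (k : ℕ) : ∃ t : ℕ, t ^ 20 ≤ k ∧ k < (t + 1) ^ 20 := by
  have hex : ∃ t : ℕ, k < (t + 1) ^ 20 := ⟨k, by
    calc k < k + 1 := Nat.lt_succ_self k
      _ = (k + 1) ^ 1 := (pow_one _).symm
      _ ≤ (k + 1) ^ 20 := Nat.pow_le_pow_right (by omega) (by norm_num)⟩
  classical
  refine ⟨Nat.find hex, ?_, Nat.find_spec hex⟩
  rcases Nat.eq_zero_or_pos (Nat.find hex) with h | h
  · rw [h, zero_pow (by norm_num)]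
    exact Nat.zero_le _
  · have h2 := Nat.find_min hex (m := Nat.find hex - 1) (Nat.sub_lt h Nat.one_pos)
    rw [Nat.sub_add_cancel h] at h2
    exact Nat.le_of_not_lt h2

lemma num_get {k m l : ℕ} (hk : 0 < k) (hm : (m : ℝ) ≤ Real.log k / 5) (hl1 : 1 ≤ l)
    (hbig : ((100 * l) ^ 40 + 1) ^ 20 ≤ k) : ∃ t : ℕ, t ^ 20 ≤ k ∧ k ≤ 2 * t ^ 20 ∧
      (100 * l) ^ 40 ≤ t ∧ Real.exp ((4 * m : ℕ) : ℝ) < (2 * t ^ 16 : ℕ) := by
  obtain ⟨t, ht1, ht2⟩ := num_root k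
  have hst : (100 * l) ^ 40 ≤ t := by
    by_contra hcon
    have h0 : t + 1 ≤ (100 * l) ^ 40 + 1 := (Nat.lt_of_not_le hcon).trans_le (Nat.le_succ _)
    have h1 : (t + 1) ^ 20 ≤ ((100 * l) ^ 40 + 1) ^ 20 := Nat.pow_le_pow_left h0 20
    exact absurd (h1.trans hbig) (Nat.not_le_of_lt ht2)
  have h100 : 100 ≤ t := by
    refine le_trans ?_ hst
    calc 100 ≤ 100 * l := Nat.le_mul_of_pos_right _ hl1
      _ ≤ (100 * l) ^ 40 := Nat.le_self_pow (by norm_num) _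
  have h20 : (t + 1) ^ 20 ≤ 2 * t ^ 20 :=
    num_pow_two t 20 (le_trans (by norm_num) h100) (lt_of_lt_of_le (by norm_num) h100)
  have h16 : (t + 1) ^ 16 ≤ 2 * t ^ 16 :=
    num_pow_two t 16 (le_trans (by norm_num) h100) (lt_of_lt_of_le (by norm_num) h100)
  refine ⟨t, ht1, ht2.le.trans h20, hst, ?_⟩
  exact (num_exp_lt hk hm ht2).trans_le (Nat.cast_le.2 h16)

theorem p_num : S_num := by
  obtain ⟨l0, hl0⟩ := num_large
  refine ⟨2 ^ l0 + 2, fun k m hk hm1 hm => ?_⟩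
  obtain ⟨l, hl⟩ : ∃ l, l = Nat.log 2 k + 1 := ⟨_, rfl⟩
  have hk0 : k ≠ 0 := by
    have : 0 < 2 ^ l0 := by positivity
    omega
  have hkl : k < 2 ^ l := by
    rw [hl]
    exact Nat.lt_pow_succ_log_self (by norm_num) k
  have hkl' : 2 ^ (l - 1) ≤ k := by
    rw [hl, Nat.add_sub_cancel]
    exact Nat.pow_log_le_self 2 hk0
  have hl0l : l0 ≤ l := by
    have h1 : 2 ^ l0 < 2 ^ l := by omega
    exact ((Nat.pow_lt_pow_iff_right (by norm_num)).1 h1).le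
  have hkpos : (0 : ℝ) < k := by exact_mod_cast Nat.pos_of_ne_zero hk0
  have hlogk : Real.log k ≤ l := by
    have h1 : Real.log k ≤ Real.log ((2 : ℝ) ^ l) := by
      apply Real.log_le_log hkpos
      exact_mod_cast hkl.le
    rw [Real.log_pow] at h1
    have h2 : Real.log 2 ≤ 1 := by linarith [Real.log_two_lt_d9]
    have h3 : (l : ℝ) * Real.log 2 ≤ l * 1 := by
      apply mul_le_mul_of_nonneg_left h2 (Nat.cast_nonneg _)
    linarith
  have hml : m ≤ l := by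
    have h1 : (m : ℝ) ≤ l := by
      have h0 : (0 : ℝ) ≤ l := Nat.cast_nonneg _
      linarith
    exact_mod_cast h1
  have hX : 2 ^ m * (2 * (2 * k + 3) ^ (2 * m + 1)) ≤ 2 ^ (10 * l ^ 2) := by
    have h1 : 2 * k + 3 ≤ 2 ^ (l + 2) := by
      have h2 : 2 ^ (l + 2) = 4 * 2 ^ l := by ring
      omega
    have hl2 : 2 ≤ l := by
      have h2 : 2 ≤ k := by
        have : 0 < 2 ^ l0 := by positivity
        omega
      by_contra hcon
      have h3 : l = 1 := by omega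
      rw [h3] at hkl
      omega
    calc 2 ^ m * (2 * (2 * k + 3) ^ (2 * m + 1))
        ≤ 2 ^ m * (2 * (2 ^ (l + 2)) ^ (2 * m + 1)) := by gcongr
      _ = 2 ^ (m + 1 + (l + 2) * (2 * m + 1)) := by
          rw [← pow_mul, pow_add, pow_add, pow_one, mul_assoc]
      _ ≤ 2 ^ (10 * l ^ 2) := by
          apply Nat.pow_le_pow_right (by norm_num)
          have h3 : (l + 2) * (2 * m + 1) ≤ (l + 2) * (2 * l + 1) :=
            Nat.mul_le_mul_left _ (by omega)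
          nlinarith
  obtain ⟨hl1, hbig⟩ := hl0 l hl0l
  obtain ⟨t, ht1, ht3, hst, hex⟩ := num_get (Nat.pos_of_ne_zero hk0) hm hl1 (hbig.trans hkl')
  obtain ⟨hB, hA⟩ := num_main hm1 hml hst ht1 ht3 hX hex
  exact ⟨_, _, _, _, _, _, _, _, _, hB, hA⟩

end Pool.Agent.Lib.MP_47458b_co.DU
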