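import Pool.Agent.Lib.MP_47458b_co.DU.Stm

/-!
Piece OUT of project DU: few vertices outside a cluster have many neighbours in its core.
-/

namespace Pool.Agent.Lib.MP_47458b_co.DU

open Finset

theorem out_symm {V : Type} [Fintype V] [DecidableEq V] (D : Digraph V) (s : Bool) (x y : V) :
    x ∈ nb D s y ↔ y ∈ nb D (!s) x := by
  cases s
  · rw [Bool.not_false, mem_nb_false, mem_nb_true]
  · rw [Bool.not_true, mem_nb_false, mem_nb_true]

theorem p_out : S_out := by
  intro V _ _ D k m K Sg s J hk hs hJ
  classical
  have hC : core D K Sg J ⊆ J := by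
    unfold core
    exact filter_subset _ _
  have hK : ∀ x ∈ core D K Sg J, ((nb D (!s) x) \ J).card ≤ K := by
    intro x hx
    unfold core at hx
    rw [mem_filter] at hx
    exact hx.2 _ hs
  have hP : ∀ y ∈ PP D k K Sg s J \ J, k ≤ 10 * (nb D s y ∩ core D K Sg J).card := by
    intro y hy
    rw [mem_sdiff] at hy
    have h := hy.1
    unfold PP at h
    rw [mem_filter] at h
    exact h.2
  have hsum : ∑ y ∈ PP D k K Sg s J \ J, (nb D s y ∩ core D K Sg J).card =
      ∑ x ∈ core D K Sg J, ((PP D k K Sg s J \ J).filter (fun y => x ∈ nb D s y)).card := by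
    have h := Finset.sum_card_bipartiteAbove_eq_sum_card_bipartiteBelow
      (s := PP D k K Sg s J \ J) (t := core D K Sg J) (fun y x => x ∈ nb D s y)
    simp only [Finset.bipartiteAbove, Finset.bipartiteBelow] at h
    rw [← h]
    refine Finset.sum_congr rfl fun y _ => ?_
    congr 1
    ext x
    simp only [mem_inter, mem_filter]
    tauto
  have hle : ∑ x ∈ core D K Sg J, ((PP D k K Sg s J \ J).filter (fun y => x ∈ nb D s y)).card ≤
      (core D K Sg J).card * K := by
    rw [← smul_eq_mul]
    refine Finset.sum_le_card_nsmul _ _ _ fun x hx => ?_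
    refine le_trans (card_le_card fun y hy => ?_) (hK x hx)
    rw [mem_filter, mem_sdiff] at hy
    rw [mem_sdiff]
    exact ⟨(out_symm D s x y).1 hy.2, hy.1.2⟩
  have hlow : (PP D k K Sg s J \ J).card * k ≤
      10 * ∑ y ∈ PP D k K Sg s J \ J, (nb D s y ∩ core D K Sg J).card := by
    rw [Finset.mul_sum, ← smul_eq_mul]
    exact Finset.card_nsmul_le_sum _ _ _ hP
  have hcard : (core D K Sg J).card ≤ k := le_trans (card_le_card hC) hJ.hi
  have hfin : (PP D k K Sg s J \ J).card * k ≤ (10 * K) * k := by
    calc (PP D k K Sg s J \ J).card * k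
        ≤ 10 * ((core D K Sg J).card * K) := by
          refine le_trans hlow ?_
          rw [hsum]
          exact Nat.mul_le_mul_left _ hle
      _ ≤ 10 * (k * K) := by
          exact Nat.mul_le_mul_left _ (Nat.mul_le_mul_right _ hcard)
      _ = (10 * K) * k := by ring
  exact Nat.le_of_mul_le_mul_right hfin hk

end Pool.Agent.Lib.MP_47458b_co.DU
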