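import Pool.Agent.Lib.MP_47458b_co.DU.Stm2

/-!
Project DU, piece PAR: one pair step (averaging over pairs).
-/

namespace Pool.Agent.Lib.MP_47458b_co.DU

open Finset

section

variable {V : Type} [Fintype V] [DecidableEq V]

/-- the average of the factor over `y ∈ C` -/
theorem par_avg (C N : Finset V) (hC : 0 < C.card) (x : V) (E : ℕ) (hE : 1000 ≤ E) :
    ∑ y ∈ C, (1 / (C.card : ℝ)) * (if x ∈ N ∧ y ∈ N then (1 : ℝ) else 1 / 2) ≤ 1 ∧
    ((x ∉ N ∨ 400 * C.card < E * (C \ N).card) →
      ∑ y ∈ C, (1 / (C.card : ℝ)) * (if x ∈ N ∧ y ∈ N then (1 : ℝ) else 1 / 2) ≤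
        1 - 200 / E) := by
  have hc : (0 : ℝ) < C.card := by exact_mod_cast hC
  have hE' : (1000 : ℝ) ≤ E := by exact_mod_cast hE
  rw [← Finset.mul_sum, one_div_mul_eq_div, div_le_one hc, div_le_iff₀ hc]
  refine ⟨?_, ?_⟩
  · have h1 : ∑ y ∈ C, (if x ∈ N ∧ y ∈ N then (1 : ℝ) else 1 / 2) ≤ ∑ _y ∈ C, (1 : ℝ) := by
      apply Finset.sum_le_sum
      intro y _
      split_ifs <;> norm_num
    simpa using h1
  · intro h
    rcases h with h | h
    · have h1 : ∑ y ∈ C, (if x ∈ N ∧ y ∈ N then (1 : ℝ) else 1 / 2) = ∑ _y ∈ C, (1 / 2 : ℝ) := by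
        apply Finset.sum_congr rfl
        intro y _
        rw [if_neg (fun h2 => h h2.1)]
      rw [h1, Finset.sum_const, nsmul_eq_mul]
      have h2 : (200 : ℝ) / E ≤ 1 / 2 := by
        rw [div_le_div_iff₀ (by linarith) (by norm_num)]
        linarith
      nlinarith
    · have h1 : ∑ y ∈ C, (if x ∈ N ∧ y ∈ N then (1 : ℝ) else 1 / 2) ≤
          ∑ y ∈ C, (1 - 1 / 2 * (if y ∈ N then (0 : ℝ) else 1)) := by
        apply Finset.sum_le_sum
        intro y _
        by_cases h2 : x ∈ N
        · by_cases h3 : y ∈ N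
          · simp [h2, h3]
          · simp [h2, h3]; norm_num
        · by_cases h3 : y ∈ N
          · simp [h2, h3]; norm_num
          · simp [h2, h3]; norm_num
      have h2 : ∑ y ∈ C, (if y ∈ N then (0 : ℝ) else 1) = ((C \ N).card : ℝ) := by
        have h3 : ∀ y ∈ C, (if y ∈ N then (0 : ℝ) else 1) = if y ∉ N then (1 : ℝ) else 0 := by
          intro y _
          by_cases h4 : y ∈ N <;> simp [h4]
        rw [Finset.sum_congr rfl h3, Finset.sum_boole]
        congr 2
        ext y
        simp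
      rw [Finset.sum_sub_distrib, ← Finset.mul_sum, h2, Finset.sum_const, nsmul_eq_mul,
        mul_one] at h1
      refine h1.trans ?_
      have h5 : (400 : ℝ) * C.card < E * (C \ N).card := by exact_mod_cast h
      have h6 : 200 / (E : ℝ) * C.card ≤ 1 / 2 * ((C \ N).card : ℝ) := by
        rw [div_mul_eq_mul_div, div_le_iff₀ (by linarith)]
        nlinarith
      nlinarith

/-- few bad `x` imply that `N` is almost closed -/
theorem par_cl (D : Digraph V) (k m K E : ℕ) (hκ : ∀ s x, k ≤ (nb D s x).card + m)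
    (hE : 1000 ≤ E) (hmK : m ≤ K) (hKE : 1000 * k ≤ (K - m) * E) (U : Finset V) (q : V)
    (s1 s : Bool) (hU : 500 * (U.card + m + 2) ≤ k) (N : Finset V) (hN : N.card ≤ k)
    (hUN : (U \ N).card ≤ m)
    (hbad : 400 * ((nb D s1 q \ U).filter (fun x => x ∉ N ∨
      400 * (nb D s x \ U).card < E * ((nb D s x \ U) \ N).card)).card < (nb D s1 q \ U).card) :
    ClS D k K s N := by
  classical
  set C1 := nb D s1 q \ U with hC1
  set Bad := C1.filter (fun x => x ∉ N ∨
      400 * (nb D s x \ U).card < E * ((nb D s x \ U) \ N).card) with hBad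
  -- the good elements
  have hgood : C1 \ Bad ⊆ N.filter (fun x => ((nb D s x) \ N).card ≤ K) := by
    intro x hx
    rw [mem_sdiff, hBad, mem_filter, not_and, not_or, not_not, not_lt] at hx
    obtain ⟨hx1, hx2⟩ := hx
    obtain ⟨hx3, hx4⟩ := hx2 hx1
    rw [mem_filter]
    refine ⟨hx3, ?_⟩
    set C := nb D s x \ U with hC
    have h1 : (nb D s x) \ N ⊆ (C \ N) ∪ (U \ N) := by
      intro y hy
      rw [mem_sdiff] at hy
      simp only [mem_union, mem_sdiff, hC]
      by_cases hyU : y ∈ U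
      · right; exact ⟨hyU, hy.2⟩
      · left; exact ⟨⟨hy.1, hyU⟩, hy.2⟩
    have h2 := (card_le_card h1).trans (card_union_le _ _)
    have h3 : C.card ≤ k + (C \ N).card := by
      have h4 : C ⊆ N ∪ (C \ N) := by
        intro y hy
        rw [mem_union, mem_sdiff]
        by_cases hyN : y ∈ N
        · left; exact hyN
        · right; exact ⟨hy, hyN⟩
      exact (card_le_card h4).trans ((card_union_le _ _).trans (by omega))
    -- `E c ≤ 400 (k + c)`
    have h5 : (C \ N).card ≤ K - m := by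
      by_contra hcon
      push Not at hcon
      have h6 : E * (C \ N).card ≤ 400 * (k + (C \ N).card) := hx4.trans (by omega)
      have h7 : (K - m + 1) * E ≤ (C \ N).card * E := Nat.mul_le_mul_right _ hcon
      have h8 : 1000 * (C \ N).card ≤ E * (C \ N).card := Nat.mul_le_mul_right _ hE
      have h9 : (K - m + 1) * E = (K - m) * E + E := by ring
      have h10 : (C \ N).card * E = E * (C \ N).card := by ring
      omega
    omega
  have h1 : N.filter (fun x => K < ((nb D s x) \ N).card) ⊆ N \ (C1 \ Bad) := by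
    intro x hx
    rw [mem_filter] at hx
    rw [mem_sdiff]
    refine ⟨hx.1, fun h2 => ?_⟩
    have h3 := hgood h2
    rw [mem_filter] at h3
    omega
  have h2 : (N \ (C1 \ Bad)).card = N.card - (C1 \ Bad).card :=
    card_sdiff_of_subset (hgood.trans (filter_subset _ _))
  have h3 : (C1 \ Bad).card = C1.card - Bad.card := card_sdiff_of_subset (filter_subset _ _)
  have h4 := card_le_card h1
  have h5 : k ≤ C1.card + m + U.card := by
    have h6 := hκ s1 q
    have h7 : (nb D s1 q).card ≤ C1.card + U.card := by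
      have h8 : nb D s1 q ⊆ C1 ∪ U := by
        intro y hy
        rw [mem_union, hC1, mem_sdiff]
        by_cases hyU : y ∈ U
        · right; exact hyU
        · left; exact ⟨hy, hyU⟩
      exact (card_le_card h8).trans (card_union_le _ _)
    omega
  unfold ClS
  have h6 : (C1 \ Bad).card ≤ N.card := card_le_card (hgood.trans (filter_subset _ _))
  omega

end

theorem p_par : S_par := by
  intro V _ _ D k m K E hD hκ hE hmK hKE U q s1 s F w hU hF
  classical
  have hE' : (1000 : ℝ) ≤ E := by exact_mod_cast hE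
  have hcard : ∀ s x, k ≤ (nb D s x \ U).card + m + U.card := by
    intro s x
    have h6 := hκ s x
    have h8 : nb D s x ⊆ (nb D s x \ U) ∪ U := by
      intro y hy
      rw [mem_union, mem_sdiff]
      by_cases hyU : y ∈ U
      · right; exact hyU
      · left; exact ⟨hy, hyU⟩
    have h9 := (card_le_card h8).trans (card_union_le _ _)
    omega
  have hpos : ∀ s x, 0 < (nb D s x \ U).card := by
    intro s x
    have := hcard s x
    omega
  set C1 := nb D s1 q \ U with hC1
  set cf : Finset V → ℝ := fun N => open Classical in if (U \ N).card ≤ m ∧ ¬ ClS D k K s N then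
        (2 * E / (2 * E - 1) : ℝ) else 1 with hcf
  set Wt := ∑ N ∈ F, w N with hWt
  -- the average of each term
  have hav : ∀ N ∈ F, cf N * (∑ x ∈ C1, (1 / (C1.card : ℝ)) * ∑ y ∈ nb D s x \ U,
      (1 / ((nb D s x \ U).card : ℝ)) * (if x ∈ N ∧ y ∈ N then (1 : ℝ) else 1 / 2)) ≤ 1 := by
    intro N hN
    have hc1 : (0 : ℝ) < C1.card := by exact_mod_cast hpos s1 q
    rw [← Finset.mul_sum, one_div_mul_eq_div]
    have hone : ∑ x ∈ C1, ∑ y ∈ nb D s x \ U, (1 / ((nb D s x \ U).card : ℝ)) *
        (if x ∈ N ∧ y ∈ N then (1 : ℝ) else 1 / 2) ≤ C1.card := by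
      have h1 := Finset.sum_le_sum (fun x (_ : x ∈ C1) =>
        (par_avg (nb D s x \ U) N (hpos s x) x E hE).1)
      simpa using h1
    by_cases hb : (U \ N).card ≤ m ∧ ¬ ClS D k K s N
    · have hcfN : cf N = 2 * E / (2 * E - 1) := by
        rw [hcf]
        exact if_pos hb
      rw [hcfN]
      set Bad := C1.filter (fun x => x ∉ N ∨
        400 * (nb D s x \ U).card < E * ((nb D s x \ U) \ N).card) with hBad
      have hBadc : C1.card ≤ 400 * Bad.card := by
        by_contra hcon
        push Not at hcon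
        exact hb.2 (par_cl D k m K E hκ hE hmK hKE U q s1 s hU N (hF N hN).1 hb.1 hcon)
      have h2 : ∑ x ∈ C1, ∑ y ∈ nb D s x \ U, (1 / ((nb D s x \ U).card : ℝ)) *
          (if x ∈ N ∧ y ∈ N then (1 : ℝ) else 1 / 2) ≤
          ∑ x ∈ C1, (1 - 200 / (E : ℝ) * (if x ∈ Bad then 1 else 0)) := by
        apply Finset.sum_le_sum
        intro x hx
        by_cases hxB : x ∈ Bad
        · rw [if_pos hxB, mul_one]
          exact (par_avg (nb D s x \ U) N (hpos s x) x E hE).2 (by
            rw [hBad, mem_filter] at hxB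
            exact hxB.2)
        · rw [if_neg hxB, mul_zero, sub_zero]
          exact (par_avg (nb D s x \ U) N (hpos s x) x E hE).1
      have h3 : ∑ x ∈ C1, (1 - 200 / (E : ℝ) * (if x ∈ Bad then (1 : ℝ) else 0)) =
          C1.card - 200 / (E : ℝ) * Bad.card := by
        rw [Finset.sum_sub_distrib, ← Finset.mul_sum, Finset.sum_const, nsmul_eq_mul, mul_one,
          Finset.sum_boole]
        congr 3
        rw [hBad]
        congr 1
        ext x
        simp only [mem_filter]
        tauto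
      rw [h3] at h2
      have h4 : (C1.card : ℝ) ≤ 400 * Bad.card := by exact_mod_cast hBadc
      have h5 : 200 / (E : ℝ) * Bad.card ≥ C1.card / (2 * E) := by
        rw [ge_iff_le, div_mul_eq_mul_div, div_le_div_iff₀ (by linarith) (by linarith)]
        nlinarith
      have h6 : (∑ x ∈ C1, ∑ y ∈ nb D s x \ U, (1 / ((nb D s x \ U).card : ℝ)) *
          (if x ∈ N ∧ y ∈ N then (1 : ℝ) else 1 / 2)) / C1.card ≤ (2 * E - 1) / (2 * E) := by
        rw [div_le_div_iff₀ hc1 (by linarith)]
        have h7 : C1.card / (2 * (E : ℝ)) * (2 * E) = C1.card := by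
          rw [div_mul_cancel₀]
          linarith
        nlinarith
      have h8 : (0 : ℝ) < 2 * E - 1 := by linarith
      have h9 : (0 : ℝ) < 2 * E := by linarith
      calc 2 * (E : ℝ) / (2 * E - 1) * ((∑ x ∈ C1, ∑ y ∈ nb D s x \ U,
          (1 / ((nb D s x \ U).card : ℝ)) *
          (if x ∈ N ∧ y ∈ N then (1 : ℝ) else 1 / 2)) / C1.card)
          ≤ 2 * (E : ℝ) / (2 * E - 1) * ((2 * E - 1) / (2 * E)) :=
            mul_le_mul_of_nonneg_left h6 (div_nonneg h9.le h8.le)
        _ = 1 := by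
            rw [div_mul_div_comm, mul_comm, div_self]
            exact (mul_pos h8 h9).ne'
    · have hcfN : cf N = 1 := by
        rw [hcf]
        exact if_neg hb
      rw [hcfN, one_mul, div_le_one hc1]
      exact hone
  -- the average of the sum
  have htot : ∑ x ∈ C1, (1 / (C1.card : ℝ)) * ∑ y ∈ nb D s x \ U,
      (1 / ((nb D s x \ U).card : ℝ)) * (∑ N ∈ F, w N * cf N *
        (if x ∈ N ∧ y ∈ N then (1 : ℝ) else 1 / 2)) ≤ Wt := by
    have h1 : ∑ x ∈ C1, (1 / (C1.card : ℝ)) * ∑ y ∈ nb D s x \ U,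
        (1 / ((nb D s x \ U).card : ℝ)) * (∑ N ∈ F, w N * cf N *
          (if x ∈ N ∧ y ∈ N then (1 : ℝ) else 1 / 2)) =
        ∑ N ∈ F, w N * (cf N * (∑ x ∈ C1, (1 / (C1.card : ℝ)) * ∑ y ∈ nb D s x \ U,
          (1 / ((nb D s x \ U).card : ℝ)) * (if x ∈ N ∧ y ∈ N then (1 : ℝ) else 1 / 2))) := by
      simp only [Finset.mul_sum]
      rw [Finset.sum_congr rfl (fun x _ => Finset.sum_comm)]
      rw [Finset.sum_comm]
      apply Finset.sum_congr rfl
      intro N _
      apply Finset.sum_congr rfl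
      intro x _
      apply Finset.sum_congr rfl
      intro y _
      ring
    rw [h1, hWt]
    apply Finset.sum_le_sum
    intro N hN
    have h2 := mul_le_mul_of_nonneg_left (hav N hN) (hF N hN).2
    rwa [mul_one] at h2
  by_contra hno
  push Not at hno
  have hgt : ∀ x ∈ C1, ∀ y ∈ nb D s x \ U, Wt < ∑ N ∈ F, w N * cf N *
        (if x ∈ N ∧ y ∈ N then (1 : ℝ) else 1 / 2) := by
    intro x hx y hy
    rw [hC1, mem_sdiff] at hx
    rw [mem_sdiff] at hy
    exact hno x hx.1 hx.2 y hy.1 hy.2 (fun h => notMem_nb_self hD s x (h ▸ hy.1))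
  have hin : ∀ x ∈ C1, Wt < ∑ y ∈ nb D s x \ U,
      (1 / ((nb D s x \ U).card : ℝ)) * (∑ N ∈ F, w N * cf N *
        (if x ∈ N ∧ y ∈ N then (1 : ℝ) else 1 / 2)) := by
    intro x hx
    have hc : (0 : ℝ) < (nb D s x \ U).card := by exact_mod_cast hpos s x
    have h1 : ∑ y ∈ nb D s x \ U, (1 / ((nb D s x \ U).card : ℝ)) * Wt = Wt := by
      rw [Finset.sum_const, nsmul_eq_mul, ← mul_assoc, mul_one_div_cancel hc.ne', one_mul]
    rw [← h1]
    apply Finset.sum_lt_sum_of_nonempty (card_pos.1 (hpos s x))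
    intro y hy
    exact mul_lt_mul_of_pos_left (hgt x hx y hy) (by positivity)
  have hc : (0 : ℝ) < C1.card := by exact_mod_cast hpos s1 q
  have h1 : ∑ _x ∈ C1, (1 / (C1.card : ℝ)) * Wt = Wt := by
    rw [Finset.sum_const, nsmul_eq_mul, ← mul_assoc, mul_one_div_cancel hc.ne', one_mul]
  have h2 : ∑ _x ∈ C1, (1 / (C1.card : ℝ)) * Wt < ∑ x ∈ C1, (1 / (C1.card : ℝ)) *
      ∑ y ∈ nb D s x \ U, (1 / ((nb D s x \ U).card : ℝ)) * (∑ N ∈ F, w N * cf N *
        (if x ∈ N ∧ y ∈ N then (1 : ℝ) else 1 / 2)) := by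
    apply Finset.sum_lt_sum_of_nonempty (card_pos.1 (hpos s1 q))
    intro x hx
    exact mul_lt_mul_of_pos_left (hin x hx) (by positivity)
  rw [h1] at h2
  linarith

end Pool.Agent.Lib.MP_47458b_co.DU
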