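import Pool.Agent.Lib.MP_47458b_co.DU.Stm2

/-!
Project DU, piece PHA: section 10, the potential along the steps of `Trap`.
-/

namespace Pool.Agent.Lib.MP_47458b_co.DU

open Finset

/-- The averaging step for one set `N`. -/
private theorem phA_avg {V : Type} [DecidableEq V] {k u : ℕ} {C0 U N : Finset V}
    (hU : U.card ≤ u) (hu : 500 * u ≤ k) (hN : N.card ≤ k) (hC : (C0 \ U).Nonempty) :
    ∑ c ∈ C0 \ U, (1 / 2 : ℝ) ^ (if c ∈ N then 0 else 1) *
      (if k < 100 * (C0 \ N).card then (400 / 399 : ℝ) else 1) ≤ ((C0 \ U).card : ℝ) := by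
  classical
  set C := C0 \ U with hCdef
  have hle1 : ∀ c ∈ C, (1 / 2 : ℝ) ^ (if c ∈ N then 0 else 1) ≤ 1 := by
    intro c _
    exact pow_le_one₀ (by norm_num) (by norm_num)
  by_cases hb : k < 100 * (C0 \ N).card
  · simp only [hb, if_true]
    rw [← sum_mul]
    have hsplit : ∑ c ∈ C, (1 / 2 : ℝ) ^ (if c ∈ N then 0 else 1) =
        ((C ∩ N).card : ℝ) + ((C \ N).card : ℝ) * (1 / 2) := by
      have h1 : C = (C ∩ N) ∪ (C \ N) := by
        ext x
        simp only [mem_union, mem_inter, mem_sdiff]
        tauto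
      have hd : Disjoint (C ∩ N) (C \ N) := by
        rw [disjoint_left]
        intro x hx hx'
        exact (mem_sdiff.1 hx').2 (mem_inter.1 hx).2
      conv_lhs => rw [h1]
      rw [sum_union hd]
      have h2 : ∑ c ∈ C ∩ N, (1 / 2 : ℝ) ^ (if c ∈ N then 0 else 1) = ((C ∩ N).card : ℝ) := by
        rw [sum_congr rfl (fun c hc => by rw [if_pos (mem_inter.1 hc).2, pow_zero])]
        simp
      have h3 : ∑ c ∈ C \ N, (1 / 2 : ℝ) ^ (if c ∈ N then 0 else 1) =
          ((C \ N).card : ℝ) * (1 / 2) := by
        rw [sum_congr rfl (fun c hc => by rw [if_neg (mem_sdiff.1 hc).2, pow_one])]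
        simp
      rw [h2, h3]
    have hcard : (C ∩ N).card + (C \ N).card = C.card := card_inter_add_card_sdiff C N
    have h4 : (C ∩ N).card ≤ k := (card_le_card inter_subset_right).trans hN
    have h5 : (C0 \ N).card ≤ (C \ N).card + U.card := by
      have : C0 \ N ⊆ (C \ N) ∪ U := by
        intro x hx
        rw [mem_sdiff] at hx
        by_cases hxU : x ∈ U
        · exact mem_union_right _ hxU
        · exact mem_union_left _ (mem_sdiff.2 ⟨mem_sdiff.2 ⟨hx.1, hxU⟩, hx.2⟩)
      exact (card_le_card this).trans (card_union_le _ _)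
    have h6 : C.card ≤ 200 * (C \ N).card := by omega
    rw [hsplit]
    have h6' : (C.card : ℝ) ≤ 200 * ((C \ N).card : ℝ) := by exact_mod_cast h6
    have hcard' : ((C ∩ N).card : ℝ) + ((C \ N).card : ℝ) = (C.card : ℝ) := by
      exact_mod_cast hcard
    nlinarith
  · simp only [hb, if_false, mul_one]
    calc ∑ c ∈ C, (1 / 2 : ℝ) ^ (if c ∈ N then 0 else 1) ≤ ∑ _c ∈ C, (1 : ℝ) := sum_le_sum hle1
      _ = (C.card : ℝ) := by simp

private theorem phA_aux {V W : Type} [Fintype V] [DecidableEq V] [Fintype W] [DecidableEq W]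
    {D : Digraph V} {T : Digraph W} {k : ℕ} (hT : IsOrientedTree k T) {r : W}
    (R : Up.Rooted T r) (hcn : ∀ S : Finset W, R.Closed S → Cn (gr T) S)
    {Z : Finset V} {S' : Finset W} (hS' : R.Closed S') (hk : 500 * S'.card ≤ k)
    {F : Finset (Finset V)} (hF : ∀ N ∈ F, N.card ≤ k) :
    ∀ (n : ℕ) (S : Finset W) (φ : W → V), (S' \ S).card = n → R.Closed S → S ⊆ S' →
      IsEmb T D S φ →
      (∀ t ∈ S' \ S, R.par t ∈ S →
        S'.card ≤ (nb D (sg T (R.par t) t) (φ (R.par t)) ∩ Z).card) →
      (∀ t ∈ S' \ S, R.par t ∉ S → ∀ x ∈ Z, S'.card ≤ (nb D (sg T (R.par t) t) x ∩ Z).card) →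
      ∀ w : Finset V → ℝ, (∀ N ∈ F, 0 ≤ w N) →
      ∃ ψ : W → V, IsEmb T D S' ψ ∧ (∀ x ∈ S, ψ x = φ x) ∧ (∀ x ∈ S' \ S, ψ x ∈ Z) ∧
        ∑ N ∈ F, w N * ((1 / 2 : ℝ) ^ ((S'.image ψ) \ N).card *
          (400 / 399 : ℝ) ^ ((S' \ S).filter (fun t =>
            k < 100 * ((nb D (sg T (R.par t) t) (ψ (R.par t)) ∩ Z) \ N).card)).card) ≤
        ∑ N ∈ F, w N * (1 / 2 : ℝ) ^ ((S.image φ) \ N).card := by
  classical
  intro n
  induction n with
  | zero =>
    intro S φ hn hS hSS' hφ _ _ w hw
    have hsub : S' ⊆ S := by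
      rw [card_eq_zero, sdiff_eq_empty_iff_subset] at hn
      exact hn
    have heq : S' = S := subset_antisymm hsub hSS'
    refine ⟨φ, by rw [heq]; exact hφ, fun _ _ => rfl, ?_, ?_⟩
    · intro x hx
      rw [mem_sdiff] at hx
      exact absurd (hsub hx.1) hx.2
    · have he : S' \ S = ∅ := by rw [sdiff_eq_empty_iff_subset]; exact hsub
      rw [he, heq]
      simp
  | succ n ih =>
    intro S φ hn hS hSS' hφ h1 h2 w hw
    have hnot : ¬ S' ⊆ S := by
      intro h
      rw [← sdiff_eq_empty_iff_subset] at h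
      rw [h, card_empty] at hn
      omega
    obtain ⟨t, htS', htS, hpt⟩ := Up.Closed.next R hS hS' hnot
    have htr : t ≠ r := fun h => htS (h ▸ hS.1)
    have htm : t ∈ S' \ S := mem_sdiff.2 ⟨htS', htS⟩
    set C0 : Finset V := nb D (sg T (R.par t) t) (φ (R.par t)) ∩ Z with hC0
    have hC0c : S'.card ≤ C0.card := h1 t htm hpt
    set U : Finset V := S.image φ with hU
    have hUc : U.card = S.card := hφ.card_image
    have hScard : S.card + 1 ≤ S'.card := by
      have := card_le_card (insert_subset htS' hSS')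
      rwa [card_insert_of_notMem htS] at this
    have hCne : (C0 \ U).Nonempty := by
      rw [← card_pos]
      have := le_card_sdiff U C0
      omega
    -- averaging
    have havg : ∃ c ∈ C0 \ U, ∑ N ∈ F, (w N * (1 / 2 : ℝ) ^ (U \ N).card) *
        ((1 / 2 : ℝ) ^ (if c ∈ N then 0 else 1) *
          (if k < 100 * (C0 \ N).card then (400 / 399 : ℝ) else 1)) ≤
        ∑ N ∈ F, w N * (1 / 2 : ℝ) ^ (U \ N).card := by
      apply exists_le_of_sum_le hCne
      rw [sum_comm]
      have hR : ∑ _c ∈ C0 \ U, ∑ N ∈ F, w N * (1 / 2 : ℝ) ^ (U \ N).card =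
          ∑ N ∈ F, (w N * (1 / 2 : ℝ) ^ (U \ N).card) * ((C0 \ U).card : ℝ) := by
        rw [sum_const, nsmul_eq_mul, mul_sum]
        exact sum_congr rfl (fun N _ => mul_comm _ _)
      rw [hR]
      apply sum_le_sum
      intro N hN
      rw [← mul_sum]
      apply mul_le_mul_of_nonneg_left _ (mul_nonneg (hw N hN) (by positivity))
      exact phA_avg (u := S'.card) (by omega) hk (hF N hN) hCne
    obtain ⟨c, hc, hcle⟩ := havg
    obtain ⟨hcC0, hcU⟩ := mem_sdiff.1 hc
    obtain ⟨hcnb, hcZ⟩ := mem_inter.1 (hC0 ▸ hcC0)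
    have hadj : (gr T).Adj (R.par t) t := by
      simp only [gr, Digraph.toSimpleGraphInclusive, SimpleGraph.fromRel_adj]
      exact ⟨fun h => by have := R.dep_par t htr; rw [h] at this; omega, R.adj_par t htr⟩
    have hext := IsEmb.extend hT.1 hT.2.1.isAcyclic (hcn S hS) hφ hpt htS hadj hcnb hcU
    set φ' := Function.update φ t c with hφ'
    have hφ'S : ∀ x ∈ S, φ' x = φ x := by
      intro x hx
      have hxt : x ≠ t := by
        rintro rfl
        exact htS hx
      rw [hφ', Function.update_of_ne hxt]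
    have hφ't : φ' t = c := Function.update_self _ _ _
    have hclos := Up.Closed.insert R hS hpt
    have hsub' : insert t S ⊆ S' := insert_subset htS' hSS'
    have hsd : S' \ S = insert t (S' \ insert t S) := by
      ext x
      simp only [mem_sdiff, mem_insert, not_or]
      constructor
      · rintro ⟨hx1, hx2⟩
        by_cases hxt : x = t
        · exact Or.inl hxt
        · exact Or.inr ⟨hx1, hxt, hx2⟩
      · rintro (h | ⟨hx1, -, hx2⟩)
        · rw [h]; exact ⟨htS', htS⟩
        · exact ⟨hx1, hx2⟩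
    have htn : t ∉ S' \ insert t S := fun h => (mem_sdiff.1 h).2 (mem_insert_self _ _)
    have hn' : (S' \ insert t S).card = n := by
      rw [hsd, card_insert_of_notMem htn] at hn
      omega
    have himg : (insert t S).image φ' = insert c U := by
      rw [image_insert, hφ't, hU]
      congr 1
      exact image_congr (fun x hx => hφ'S x hx)
    obtain ⟨ψ, hψ, hψS, hψZ, hψle⟩ := ih (insert t S) φ' hn' hclos hsub' hext
      (by
        intro x hx hpx
        rcases mem_insert.1 hpx with h | h
        · rw [h, hφ't]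
          have hx' : x ∈ S' \ S := by rw [hsd]; exact mem_insert_of_mem hx
          have hpS : R.par x ∉ S := by rw [h]; exact htS
          have := h2 x hx' hpS c hcZ
          rwa [h] at this
        · rw [hφ'S _ h]
          exact h1 x (by rw [hsd]; exact mem_insert_of_mem hx) h)
      (by
        intro x hx hpx
        exact h2 x (by rw [hsd]; exact mem_insert_of_mem hx)
          (fun h => hpx (mem_insert_of_mem h)))
      (fun N => w N * (if k < 100 * (C0 \ N).card then (400 / 399 : ℝ) else 1))
      (fun N hN => mul_nonneg (hw N hN) (by split_ifs <;> norm_num))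
    refine ⟨ψ, hψ, ?_, ?_, ?_⟩
    · intro x hx
      rw [hψS x (mem_insert_of_mem hx), hφ'S x hx]
    · intro x hx
      rw [hsd] at hx
      rcases mem_insert.1 hx with h | h
      · rw [h, hψS t (mem_insert_self _ _), hφ't]; exact hcZ
      · exact hψZ x h
    · have hψp : ψ (R.par t) = φ (R.par t) := by
        rw [hψS _ (mem_insert_of_mem hpt), hφ'S _ hpt]
      refine le_trans (le_of_eq ?_) (hψle.trans (le_trans (le_of_eq ?_) hcle))
      · apply sum_congr rfl
        intro N _
        have hfil : ((S' \ S).filter (fun t =>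
            k < 100 * ((nb D (sg T (R.par t) t) (ψ (R.par t)) ∩ Z) \ N).card)).card =
            (if k < 100 * (C0 \ N).card then 1 else 0) +
            ((S' \ insert t S).filter (fun t =>
            k < 100 * ((nb D (sg T (R.par t) t) (ψ (R.par t)) ∩ Z) \ N).card)).card := by
          rw [hsd, filter_insert, hψp, ← hC0]
          have hsd2 : insert t (S' \ insert t S) \ insert t S = S' \ insert t S := by
            ext x
            simp only [mem_sdiff, mem_insert, not_or]
            constructor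
            · rintro ⟨h | h, hx1, hx2⟩
              · exact absurd h hx1
              · exact h
            · rintro ⟨hx, hx1, hx2⟩
              exact ⟨Or.inr ⟨hx, hx1, hx2⟩, hx1, hx2⟩
          split_ifs with h
          · rw [card_insert_of_notMem (fun h' => htn (mem_of_mem_filter _ h'))]
            omega
          · omega
        rw [hfil, pow_add]
        split_ifs with h
        · ring
        · ring
      · apply sum_congr rfl
        intro N _
        have hcard : (((insert t S).image φ') \ N).card =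
            (if c ∈ N then 0 else 1) + (U \ N).card := by
          rw [himg]
          split_ifs with h
          · rw [insert_sdiff_of_mem _ h, zero_add]
          · rw [insert_sdiff_of_notMem _ h, card_insert_of_notMem
              (fun h' => hcU (mem_sdiff.1 h').1)]
            omega
        rw [hcard, pow_add]
        ring

/-- **PHA.** -/
theorem p_phA : S_phA := by
  intro hclo V W _ _ _ _ D T k hT _ r R Z S S' φ hS hS' hSS' hk hφ h1 h2 F hF
  classical
  obtain ⟨ψ, hψ, hψS, hψZ, hle⟩ := phA_aux hT R (hclo W k T hT r R).1 hS' hk hF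
    (S' \ S).card S φ rfl hS hSS' hφ h1 h2 (fun _ => 1) (fun _ _ => zero_le_one)
  refine ⟨ψ, hψ, hψS, hψZ, ?_⟩
  calc ∑ N ∈ F, (1 / 2 : ℝ) ^ ((S'.image ψ) \ N).card *
      (400 / 399 : ℝ) ^ ((S' \ S).filter (fun t =>
        k < 100 * ((nb D (sg T (R.par t) t) (ψ (R.par t)) ∩ Z) \ N).card)).card
      = ∑ N ∈ F, 1 * ((1 / 2 : ℝ) ^ ((S'.image ψ) \ N).card *
      (400 / 399 : ℝ) ^ ((S' \ S).filter (fun t =>
        k < 100 * ((nb D (sg T (R.par t) t) (ψ (R.par t)) ∩ Z) \ N).card)).card) := by
        apply sum_congr rfl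
        intro N _
        ring
    _ ≤ ∑ N ∈ F, 1 * (1 / 2 : ℝ) ^ ((S.image φ) \ N).card := hle
    _ ≤ ∑ _N ∈ F, (1 : ℝ) := by
        apply sum_le_sum
        intro N _
        rw [one_mul]
        exact pow_le_one₀ (by norm_num) (by norm_num)
    _ = F.card := by simp

end Pool.Agent.Lib.MP_47458b_co.DU
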