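import Pool.Agent.Lib.MP_47458b_co.DU.Stm2

/-!
Project DU, piece PSEL: choice of the pair positions.
-/

namespace Pool.Agent.Lib.MP_47458b_co.DU

open Finset

/-- Elements of the same parity. -/
theorem psel_par (X : Finset ℕ) (n : ℕ) (h : 2 * n ≤ X.card) :
    ∃ Y ⊆ X, n ≤ Y.card ∧ ∀ i ∈ Y, ∀ j ∈ Y, i < j → i + 2 ≤ j := by
  have h1 : (X.filter (fun i => i % 2 = 0)).card + (X.filter (fun i => ¬ i % 2 = 0)).card =
      X.card := card_filter_add_card_filter_not (s := X) (fun i => i % 2 = 0)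
  rcases le_total n (X.filter (fun i => i % 2 = 0)).card with h2 | h2
  · refine ⟨_, filter_subset _ _, h2, ?_⟩
    intro i hi j hj hij
    have h3 := (mem_filter.1 hi).2
    have h4 := (mem_filter.1 hj).2
    omega
  · refine ⟨X.filter (fun i => ¬ i % 2 = 0), filter_subset _ _, by omega, ?_⟩
    intro i hi j hj hij
    have h3 := (mem_filter.1 hi).2
    have h4 := (mem_filter.1 hj).2
    omega

/-- The first alternative. -/
theorem psel_one (σ : ℕ → Bool) (n : ℕ) (X : Finset ℕ)
    (h1 : 4 * n ≤ (X.filter (fun i => σ i = true)).card)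
    (h2 : 4 * n ≤ (X.filter (fun i => σ i = false)).card) :
    ∃ Y ⊆ X, (∀ i ∈ Y, ∀ j ∈ Y, i < j → i + 2 ≤ j) ∧
      ∀ s, n ≤ (Y.filter (fun i => σ i = s)).card := by
  obtain ⟨A0, hA0, hA1, hA2⟩ := psel_par (X.filter (fun i => σ i = true)) (2 * n) (by omega)
  obtain ⟨A, hA, hAc⟩ := exists_subset_card_eq (show n ≤ A0.card by omega)
  have hnb : (A.image (fun i => i + 1) ∪ A.image (fun i => i - 1)).card ≤ 2 * n := by
    refine (card_union_le _ _).trans ?_
    have e1 := card_image_le (s := A) (f := fun i : ℕ => i + 1)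
    have e2 := card_image_le (s := A) (f := fun i : ℕ => i - 1)
    omega
  have hsd : 2 * n ≤ ((X.filter (fun i => σ i = false)) \
      (A.image (fun i => i + 1) ∪ A.image (fun i => i - 1))).card := by
    have := le_card_sdiff (A.image (fun i => i + 1) ∪ A.image (fun i => i - 1))
      (X.filter (fun i => σ i = false))
    omega
  obtain ⟨B, hB, hB1, hB2⟩ := psel_par _ n hsd
  have hAX : ∀ i ∈ A, i ∈ X ∧ σ i = true := fun i hi => mem_filter.1 (hA0 (hA hi))
  have hBX : ∀ i ∈ B, i ∈ X ∧ σ i = false := fun i hi =>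
    mem_filter.1 (mem_sdiff.1 (hB hi)).1
  have hBn : ∀ i ∈ B, ∀ a ∈ A, i ≠ a + 1 ∧ i ≠ a - 1 := by
    intro i hi a ha
    have h3 := (mem_sdiff.1 (hB hi)).2
    rw [mem_union, not_or] at h3
    refine ⟨fun h => h3.1 (mem_image.2 ⟨a, ha, h.symm⟩), fun h => h3.2 (mem_image.2 ⟨a, ha, h.symm⟩)⟩
  refine ⟨A ∪ B, ?_, ?_, ?_⟩
  · intro i hi
    rcases mem_union.1 hi with h | h
    · exact (hAX i h).1
    · exact (hBX i h).1
  · intro i hi j hj hij
    rcases mem_union.1 hi with h | h <;> rcases mem_union.1 hj with h' | h'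
    · exact hA2 i (hA h) j (hA h') hij
    · have := (hBn j h' i h).1
      omega
    · have := (hBn i h j h').2
      omega
    · exact hB2 i h j h' hij
  · intro s
    cases s
    · refine hB1.trans (card_le_card fun i hi => ?_)
      exact mem_filter.2 ⟨mem_union_right _ hi, (hBX i hi).2⟩
    · rw [← hAc]
      refine card_le_card fun i hi => ?_
      exact mem_filter.2 ⟨mem_union_left _ hi, (hAX i hi).2⟩

/-- The second alternative, the sign `!s0` is rare. -/
theorem psel_two (σ : ℕ → Bool) (s0 : Bool) (h0 n1 n2 len : ℕ) (hl : 4 * n1 * len + len + 1 ≤ h0)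
    (hn : 4 * n1 + 2 * n2 + 1 ≤ h0) (hn1 : 1 ≤ n1)
    (hr : ((Ioo h0 (3 * h0)).filter (fun i => σ i = !s0)).card < 4 * n1) :
    ∃ (i1 : ℕ) (pr : Finset ℕ), h0 < i1 ∧ i1 + len ≤ 2 * h0 ∧
      (∀ i, i1 ≤ i → i < i1 + len → σ i = s0) ∧ (∀ i ∈ pr, 2 * h0 < i ∧ i < 3 * h0) ∧
      (∀ i ∈ pr, ∀ j ∈ pr, i < j → i + 2 ≤ j) ∧
      n2 ≤ (pr.filter (fun i => σ i = s0)).card := by
  -- the window
  have hw : ∃ j < 4 * n1, ∀ i, h0 + 1 + j * len ≤ i → i < h0 + 1 + j * len + len → σ i = s0 := by
    by_contra hcon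
    push Not at hcon
    choose! f hf using hcon
    have hle : (range (4 * n1)).card ≤ ((Ioo h0 (3 * h0)).filter (fun i => σ i = !s0)).card := by
      refine card_le_card_of_injOn f ?_ ?_
      · intro j hj
        have hj' : j < 4 * n1 := by simpa using hj
        obtain ⟨a1, a2, a3⟩ := hf j hj'
        have a4 : j * len + len ≤ 4 * n1 * len := by
          have := Nat.mul_le_mul_right len (show j + 1 ≤ 4 * n1 by omega)
          linarith
        have a5 : σ (f j) = !s0 := by
          revert a3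
          cases σ (f j) <;> cases s0 <;> simp
        simp only [coe_filter, mem_Ioo, Set.mem_setOf_eq]
        exact ⟨⟨by omega, by omega⟩, a5⟩
      · intro j hj j' hj' hjj
        have hj1 : j < 4 * n1 := by simpa using hj
        have hj2 : j' < 4 * n1 := by simpa using hj'
        obtain ⟨a1, a2, -⟩ := hf j hj1
        obtain ⟨b1, b2, -⟩ := hf j' hj2
        rcases lt_trichotomy j j' with h | h | h
        · have := Nat.mul_le_mul_right len (show j + 1 ≤ j' from h)
          have e : (j + 1) * len = j * len + len := by ring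
          omega
        · exact h
        · have := Nat.mul_le_mul_right len (show j' + 1 ≤ j from h)
          have e : (j' + 1) * len = j' * len + len := by ring
          omega
    rw [card_range] at hle
    omega
  obtain ⟨j, hj, hwin⟩ := hw
  have hj4 : j * len + len ≤ 4 * n1 * len := by
    have := Nat.mul_le_mul_right len (show j + 1 ≤ 4 * n1 by omega)
    linarith
  -- the pairs
  have hc : 2 * n2 ≤ ((Ioo (2 * h0) (3 * h0)).filter (fun i => σ i = s0)).card := by
    have e1 : ((Ioo (2 * h0) (3 * h0)).filter (fun i => σ i = s0)).card +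
        ((Ioo (2 * h0) (3 * h0)).filter (fun i => ¬ σ i = s0)).card =
        (Ioo (2 * h0) (3 * h0)).card :=
      card_filter_add_card_filter_not (s := Ioo (2 * h0) (3 * h0)) (fun i => σ i = s0)
    have e2 : ((Ioo (2 * h0) (3 * h0)).filter (fun i => ¬ σ i = s0)).card ≤
        ((Ioo h0 (3 * h0)).filter (fun i => σ i = !s0)).card := by
      refine card_le_card fun i hi => ?_
      obtain ⟨a1, a2⟩ := mem_filter.1 hi
      rw [mem_Ioo] at a1
      rw [mem_filter, mem_Ioo]
      refine ⟨⟨by omega, a1.2⟩, ?_⟩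
      revert a2
      cases σ i <;> cases s0 <;> simp
    rw [Nat.card_Ioo] at e1
    omega
  obtain ⟨pr, hp, hp1, hp2⟩ := psel_par _ n2 hc
  refine ⟨h0 + 1 + j * len, pr, by omega, by omega, hwin, ?_, hp2, ?_⟩
  · intro i hi
    exact mem_Ioo.1 (mem_filter.1 (hp hi)).1
  · refine hp1.trans (card_le_card fun i hi => ?_)
    exact mem_filter.2 ⟨hi, (mem_filter.1 (hp hi)).2⟩

/-- [DU PSEL] -/
theorem p_psel : S_psel := by
  intro σ h0 n1 n2 len hl hn hn1
  by_cases h1 : 4 * n1 ≤ ((Ioo h0 (3 * h0)).filter (fun i => σ i = true)).card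
  · by_cases h2 : 4 * n1 ≤ ((Ioo h0 (3 * h0)).filter (fun i => σ i = false)).card
    · left
      obtain ⟨Y, hY, hY1, hY2⟩ := psel_one σ n1 _ h1 h2
      exact ⟨Y, fun i hi => mem_Ioo.1 (hY hi), hY1, hY2⟩
    · right
      exact ⟨true, psel_two σ true h0 n1 n2 len hl hn hn1 (by simpa using h2)⟩
  · right
    exact ⟨false, psel_two σ false h0 n1 n2 len hl hn hn1 (by simpa using h1)⟩

end Pool.Agent.Lib.MP_47458b_co.DU
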