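import Pool.Agent.Lib.MP_47458b_co.DU.Stm2

/-! [DU PTB] path data, both signs. -/

namespace Pool.Agent.Lib.MP_47458b_co.DU

open Finset

theorem p_ptb : S_ptb := by
  intro W _ _ k T _hT r R Rm π h h1 hπ hh
  set F : Finset W := (range h1).image (fun i => π (i + 1)) with hF
  have hrF : r ∉ F := by
    intro hr
    obtain ⟨i, hi, hir⟩ := Finset.mem_image.mp hr
    exact (hπ.par i (lt_of_lt_of_le (Finset.mem_range.mp hi) hh)).1 hir
  have hdep : ∀ i < h, R.dep (π i) < R.dep (π (i + 1)) := by
    intro i hi
    obtain ⟨h2, h3⟩ := hπ.par i hi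
    have h4 := R.dep_par _ h2
    rw [h3] at h4
    exact h4
  have hmono : ∀ d i, i + (d + 1) ≤ h → R.dep (π i) < R.dep (π (i + (d + 1))) := by
    intro d
    induction d with
    | zero => intro i hi; exact hdep i (by omega)
    | succ d ih =>
      intro i hi
      exact (ih i (by omega)).trans (hdep (i + (d + 1)) (by omega))
  have hinj : Set.InjOn (fun i => π (i + 1)) (range h1 : Set ℕ) := by
    intro i hi j hj hij
    rw [Finset.coe_range, Set.mem_Iio] at hi hj
    by_contra hne
    have hij' : π (i + 1) = π (j + 1) := hij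
    rcases Nat.lt_or_gt_of_ne hne with hlt | hlt
    · have h5 := hmono (j - i - 1) (i + 1) (by omega)
      have h6 : i + 1 + (j - i - 1 + 1) = j + 1 := by omega
      rw [h6, hij'] at h5
      exact lt_irrefl _ h5
    · have h5 := hmono (i - j - 1) (j + 1) (by omega)
      have h6 : j + 1 + (i - j - 1 + 1) = i + 1 := by omega
      rw [h6, hij'] at h5
      exact lt_irrefl _ h5
  refine ⟨⟨Finset.mem_singleton_self r, ?_⟩, ⟨hrF, hrF, ?_⟩, ?_, ?_, ?_⟩
  · intro x hx hxr
    exact absurd (Finset.mem_singleton.mp hx) hxr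
  · intro x hx
    obtain ⟨i, hi, rfl⟩ := Finset.mem_image.mp hx
    have hi' := Finset.mem_range.mp hi
    rw [(hπ.par i (lt_of_lt_of_le hi' hh)).2]
    rcases Nat.eq_zero_or_pos i with h0 | h0
    · rw [h0, hπ.zero]
      exact Finset.mem_insert_self _ _
    · apply Finset.mem_insert_of_mem
      refine Finset.mem_image.mpr ⟨i - 1, Finset.mem_range.mpr (by omega), ?_⟩
      have h7 : i - 1 + 1 = i := by omega
      show π (i - 1 + 1) = π i
      rw [h7]
  · exact Finset.disjoint_singleton_left.mpr hrF
  · ext x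
    simp only [hF, Finset.mem_union, Finset.mem_singleton, Finset.mem_image, Finset.mem_range]
    constructor
    · rintro (rfl | ⟨i, hi, rfl⟩)
      · exact ⟨0, by omega, hπ.zero⟩
      · exact ⟨i + 1, by omega, rfl⟩
    · rintro ⟨i, hi, rfl⟩
      rcases Nat.eq_zero_or_pos i with h0 | h0
      · left
        rw [h0, hπ.zero]
      · right
        refine ⟨i - 1, by omega, ?_⟩
        have h7 : i - 1 + 1 = i := by omega
        rw [h7]
  · rw [hF, Finset.card_image_of_injOn hinj, Finset.card_range]

end Pool.Agent.Lib.MP_47458b_co.DU
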