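import Pool.Agent.Lib.MP_47458b_co.DU.Stm2

/-!
# MP_47458b_co, project DU, piece PTH: position data on a path, one sign
-/

set_option autoImplicit false

namespace Pool.Agent.Lib.MP_47458b_co.DU

open Finset

section

variable {W : Type} [Fintype W] [DecidableEq W] {T : Digraph W} {r : W}

private theorem pth_dep (R : Up.Rooted T r) {Rm : Finset W} {h : ℕ} {π : ℕ → W}
    (hp : PathR R Rm h π) : ∀ i j, i < j → j ≤ h → R.dep (π i) < R.dep (π j) := by
  intro i j hij
  induction j with
  | zero => omega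
  | succ j ih =>
    intro hj
    obtain ⟨h1, h2⟩ := hp.par j (by omega)
    have h3 := R.dep_par (π (j + 1)) h1
    rw [h2] at h3
    rcases Nat.lt_or_ge i j with h4 | h4
    · exact (ih h4 (by omega)).trans h3
    · have : i = j := by omega
      rw [this]
      exact h3

private theorem pth_inj (R : Up.Rooted T r) {Rm : Finset W} {h : ℕ} {π : ℕ → W}
    (hp : PathR R Rm h π) {i j : ℕ} (hi : i ≤ h) (hj : j ≤ h) (hij : π i = π j) : i = j := by
  rcases Nat.lt_trichotomy i j with h1 | h1 | h1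
  · have := pth_dep R hp i j h1 hj
    rw [hij] at this
    exact absurd this (lt_irrefl _)
  · exact h1
  · have := pth_dep R hp j i h1 hi
    rw [hij] at this
    exact absurd this (lt_irrefl _)

private theorem pth_mem (R : Up.Rooted T r) {Rm : Finset W} {h : ℕ} {π : ℕ → W}
    (hp : PathR R Rm h π) {a c j : ℕ} (hc : c ≤ h + 1) (hj : j ≤ h) :
    π j ∈ (Finset.Ico a c).image π ↔ a ≤ j ∧ j < c := by
  constructor
  · intro h1
    obtain ⟨i, hi, hij⟩ := Finset.mem_image.1 h1
    rw [Finset.mem_Ico] at hi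
    have := pth_inj R hp (by omega) hj hij
    omega
  · intro h1
    exact Finset.mem_image.2 ⟨j, Finset.mem_Ico.2 h1, rfl⟩

private theorem pth_below (R : Up.Rooted T r) {Rm : Finset W} {h : ℕ} {π : ℕ → W}
    (hp : PathR R Rm h π) {a c : ℕ} (ha : a ≤ h) (hc : c ≤ h + 1) :
    Below R ((Finset.Ico (a + 1) c).image π) (π a) := by
  refine ⟨?_, ?_, ?_⟩
  · rw [pth_mem R hp hc ha]
    omega
  · rw [← hp.zero, pth_mem R hp hc (Nat.zero_le _)]
    omega
  · intro x hx
    obtain ⟨i, hi, rfl⟩ := Finset.mem_image.1 hx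
    rw [Finset.mem_Ico] at hi
    obtain ⟨j, rfl⟩ : ∃ j, i = j + 1 := ⟨i - 1, by omega⟩
    rw [(hp.par j (by omega)).2, Finset.mem_insert]
    rcases Nat.eq_or_lt_of_le (by omega : a ≤ j) with h1 | h1
    · left; rw [h1]
    · right
      exact Finset.mem_image.2 ⟨j, Finset.mem_Ico.2 ⟨h1, by omega⟩, rfl⟩

private theorem pth_card (R : Up.Rooted T r) {Rm : Finset W} {h : ℕ} {π : ℕ → W}
    (hp : PathR R Rm h π) {a c : ℕ} (hc : c ≤ h + 1) :
    ((Finset.Ico a c).image π).card = c - a := by
  rw [Finset.card_image_of_injOn, Nat.card_Ico]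
  intro i hi j hj hij
  rw [Finset.coe_Ico, Set.mem_Ico] at hi hj
  exact pth_inj R hp (by omega) (by omega) hij

private theorem pth_desc (R : Up.Rooted T r) {Rm : Finset W} {h : ℕ} {π : ℕ → W}
    (hp : PathR R Rm h π) (i : ℕ) : ∀ j, i ≤ j → j ≤ h → Desc R (π i) (π j) := by
  intro j hij
  induction j with
  | zero =>
    intro _
    have : i = 0 := by omega
    rw [this]
    exact Desc.refl
  | succ j ih =>
    intro hj
    rcases Nat.eq_or_lt_of_le hij with h1 | h1
    · rw [h1]
      exact Desc.refl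
    · obtain ⟨h2, h3⟩ := hp.par j (by omega)
      exact Desc.step h2 (by rw [h3]; exact ih (by omega) (by omega))

private theorem pth_sub (R : Up.Rooted T r) {Rm : Finset W} {h : ℕ} {π : ℕ → W}
    (hp : PathR R Rm h π) {a c i a' c' : ℕ} (hc : c ≤ h + 1) (hi : i < a') (ha : a ≤ a')
    (hc' : c' ≤ c) :
    (Finset.Ico a' c').image π ⊆ sdsc R ((Finset.Ico a c).image π) (π i) := by
  classical
  intro x hx
  obtain ⟨j, hj, rfl⟩ := Finset.mem_image.1 hx
  rw [Finset.mem_Ico] at hj
  unfold sdsc dsc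
  rw [Finset.mem_erase, Finset.mem_filter]
  refine ⟨?_, ?_, ?_⟩
  · intro h1
    have := pth_inj R hp (by omega) (by omega) h1
    omega
  · exact Finset.mem_image.2 ⟨j, Finset.mem_Ico.2 ⟨by omega, by omega⟩, rfl⟩
  · exact pth_desc R hp i j (by omega) (by omega)

end

/-- [DU PTH] position data on a path, one sign -/
theorem p_pth : S_pth := by
  intro W _ _ k T _hT r R Rm π h h1 i1 N g s0 hp hh1 hi1 hsg
  set I := i1 + N with hI
  have hr0 : (Finset.range (I + 1)).image π = (Finset.Ico 0 (I + 1)).image π := by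
    rw [Finset.range_eq_Ico]
  refine ⟨(Finset.Ico 0 (I + 1)).image π, π I, (Finset.Ico (I + 1) (I + 3 * g + 1)).image π,
    fun _ j => π (i1 + j), ?_, ?_, ?_, ?_, ?_⟩
  · refine ⟨⟨?_, ?_⟩, ?_, ?_, ?_, ?_, ?_, ?_⟩
    · rw [← hp.zero]
      exact Finset.mem_image.2 ⟨0, Finset.mem_Ico.2 ⟨le_rfl, by omega⟩, rfl⟩
    · intro x hx hxr
      obtain ⟨i, hi, rfl⟩ := Finset.mem_image.1 hx
      rw [Finset.mem_Ico] at hi
      have hi0 : i ≠ 0 := by
        rintro rfl
        exact hxr hp.zero
      obtain ⟨j, rfl⟩ : ∃ j, i = j + 1 := ⟨i - 1, by omega⟩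
      rw [(hp.par j (by omega)).2]
      exact Finset.mem_image.2 ⟨j, Finset.mem_Ico.2 ⟨by omega, by omega⟩, rfl⟩
    · intro x hx
      rw [Finset.mem_singleton] at hx
      rw [hx, ← hp.zero]
      exact Finset.mem_image.2 ⟨0, Finset.mem_Ico.2 ⟨le_rfl, by omega⟩, rfl⟩
    · exact Finset.mem_image.2 ⟨I, Finset.mem_Ico.2 ⟨by omega, by omega⟩, rfl⟩
    · rw [Finset.disjoint_left]
      intro x hx hx'
      obtain ⟨i, hi, rfl⟩ := Finset.mem_image.1 hx
      rw [Finset.mem_Ico] at hi
      rw [pth_mem R hp (by omega) (by omega)] at hx'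
      omega
    · intro x hx
      rw [Finset.mem_union] at hx
      rcases hx with hx | hx
      · obtain ⟨i, hi, rfl⟩ := Finset.mem_image.1 hx
        rw [Finset.mem_Ico] at hi
        exact Finset.mem_image.2 ⟨i, Finset.mem_range.2 (by omega), rfl⟩
      · obtain ⟨i, hi, rfl⟩ := Finset.mem_image.1 hx
        rw [Finset.mem_Ico] at hi
        exact Finset.mem_image.2 ⟨i, Finset.mem_range.2 (by omega), rfl⟩
    · exact pth_below R hp (by omega) (by omega)
    · intro x hx
      obtain ⟨i, hi, rfl⟩ := Finset.mem_image.1 hx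
      rw [Finset.mem_Ico] at hi
      obtain ⟨j, rfl⟩ : ∃ j, i = j + 1 := ⟨i - 1, by omega⟩
      rw [(hp.par j (by omega)).2]
      exact hsg j (by omega) (by omega)
  · refine ⟨(Finset.Ico (I + 1) (I + 1 + g)).image π, ?_, pth_below R hp (by omega) (by omega),
      ?_, ?_⟩
    · exact Finset.image_subset_image (Finset.Ico_subset_Ico le_rfl (by omega))
    · rw [pth_card R hp (by omega)]
      omega
    · intro t ht
      obtain ⟨i, hi, rfl⟩ := Finset.mem_image.1 ht
      rw [Finset.mem_Ico] at hi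
      refine ⟨(Finset.Ico (i + 1) (i + 1 + g)).image π, ?_, pth_below R hp (by omega) (by omega),
        ?_, ?_⟩
      · exact pth_sub R hp (by omega) (by omega) (by omega) (by omega)
      · rw [pth_card R hp (by omega)]
        omega
      · intro t' ht'
        obtain ⟨i', hi', rfl⟩ := Finset.mem_image.1 ht'
        rw [Finset.mem_Ico] at hi'
        refine ⟨(Finset.Ico (i' + 1) (i' + 1 + g)).image π, ?_, ?_,
          pth_below R hp (by omega) (by omega)⟩
        · exact pth_sub R hp (by omega) (by omega) (by omega) (by omega)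
        · rw [pth_card R hp (by omega)]
          omega
  · refine ⟨?_, ?_, ?_, ?_, ?_⟩
    · intro i _
      rfl
    · intro i _ j hj
      exact Finset.mem_image.2 ⟨i1 + j, Finset.mem_Ico.2 ⟨by omega, by omega⟩, rfl⟩
    · exact Finset.mem_image.2 ⟨i1, Finset.mem_Ico.2 ⟨by omega, by omega⟩, rfl⟩
    · intro i _ j hj
      have := hp.par (i1 + j) (by omega)
      exact this
    · intro i hi i' hi' j hj j' hj' hij
      have := pth_inj R hp (by omega) (by omega) hij
      omega
  · intro j hj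
    exact hsg (i1 + j) (by omega) (by omega)
  · rw [pth_card R hp (by omega)]
    omega

end Pool.Agent.Lib.MP_47458b_co.DU
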