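import Pool.Agent.Lib.MP_47458b_co.DU.P_sl0

/-!
Project DU, piece S1: one sign, one cluster for all vertices.
-/

namespace Pool.Agent.Lib.MP_47458b_co.DU

open Finset

theorem p_s1 : S_s1 := by
  intro hclo hgz heq hsh hsl1 hsl2 hsl3 hsl4 V W _ _ _ _ D T k m K g s0 r R A Nr P b F hB hconn
    hVne hPos hSR hP
  have hsl0 : S_sl0 := p_sl0
  have hNr := hB.hNr
  have hnum := hB.hnum
  have hT := hB.hT
  have hac : (gr T).IsAcyclic := hT.2.1.isAcyclic
  have hcl := hclo W k T hT r R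
  have hEQ := heq V D k m K (fun s => s = s0) hB.hκ hB.hSg hnum
  obtain ⟨hE1, hE2, hE3, hE4⟩ := hEQ
  -- degrees
  have hdeg : ∀ S : Finset W, S ⊆ Nr → ∀ s x, S.card ≤ (nb D s x ∩ univ).card := by
    intro S hS s x
    have h1 := card_le_card hS
    have h2 := hB.hκ s x
    rw [inter_univ]
    omega
  have hPN : P ⊆ Nr := fun x hx => hPos.near (mem_union_left _ hx)
  -- richness
  have hR : Rich R F b g := by
    obtain ⟨F', hF'F, hbel, hc, hrich⟩ := hSR
    refine ⟨F', hF'F, hbel, hc, fun t ht => ?_⟩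
    obtain ⟨F'', hF'', hbel'', hc'', -⟩ := hrich t ht
    obtain ⟨E, hE, hEc, hEb⟩ := hcl.2.2.1 F'' t g hbel'' hc''
    refine ⟨E, fun x hx => ?_, hEc, hEb⟩
    have hx' := hF'' (hE hx)
    simp only [sdsc, dsc, mem_erase, mem_filter] at hx'
    exact hx'.2.1
  -- embeddings of `P` through a given vertex
  have hemb : ∀ y : V, ∃ φ : W → V, IsEmb T D P φ ∧ φ b = y := by
    intro y
    obtain ⟨φ, hφ, hφb, -⟩ := hgz V W D T hT.1 hac {b} P (fun _ => y) (fun _ => univ)
      (Cn.single b) (hcl.1 P hPos.closed) ⟨b, mem_singleton_self b⟩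
      (singleton_subset_iff.2 hPos.mem) (IsEmb.single hT.1.1 b y)
      (fun p _ t _ _ => hdeg P hPN _ _) (fun p _ t _ _ x _ => hdeg P hPN _ _)
    exact ⟨φ, hφ, hφb b (mem_singleton_self b)⟩
  -- every vertex sees something
  have hsees : ∀ y : V, ∃ (N : Finset V) (Q : Finset W) (ψ : W → V),
      Clus D k m K (fun s => s = s0) N ∧ Sees T D K g (fun s => s = s0) R F b y N Q ψ := by
    intro y
    obtain ⟨φ, hφ, hφb⟩ := hemb y
    obtain ⟨N, Q, ψ, hN, hS, -, -⟩ := hsl1 hclo hsl0 V W D T k m K g (fun s => s = s0) r R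
      A Nr P b F hB hPos hR φ hφ
    exact ⟨N, Q, ψ, hN, hφb ▸ hS⟩
  -- uniqueness
  have huniq : ∀ (y : V) (N N' : Finset V) (Q Q' : Finset W) (ψ ψ' : W → V),
      Clus D k m K (fun s => s = s0) N → Clus D k m K (fun s => s = s0) N' →
      Sees T D K g (fun s => s = s0) R F b y N Q ψ →
      Sees T D K g (fun s => s = s0) R F b y N' Q' ψ' → Eqv k N N' :=
    hsl3 hclo hgz hsl2 heq V W D T k m K g (fun s => s = s0) r R A Nr P b F hB hPos (by omega)
  -- an arc
  have harc : ∀ y z : V, z ∈ nb D s0 y → ∃ (N N' : Finset V) (Q Q' : Finset W) (ψ ψ' : W → V),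
      Clus D k m K (fun s => s = s0) N ∧ Clus D k m K (fun s => s = s0) N' ∧
      Sees T D K g (fun s => s = s0) R F b z N Q ψ ∧
      Sees T D K g (fun s => s = s0) R F b y N' Q' ψ' ∧ Eqv k N N' := by
    intro y z hyz
    obtain ⟨φ, hφ, hφb⟩ := hemb z
    obtain ⟨N, u, Q, Q1, ψ, ψ1, hN, huF, hub, hS, hS1, hR1, hPos1⟩ :=
      hsh hclo hsl0 V W D T k m K g s0 r R A Nr P b F hB hPos hSR φ hφ
    rw [hφb] at hS hS1
    have hbelF := hPos.below
    have hbu : b ≠ u := fun h => hbelF.1 (h ▸ huF)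
    have hur : u ≠ r := fun h => hbelF.2.1 (h ▸ huF)
    have hadj : (gr T).Adj b u := by
      have h := R.adj_par u hur
      rw [hub] at h
      simp only [gr, Digraph.toSimpleGraphInclusive, SimpleGraph.fromRel_adj]
      exact ⟨hbu, h⟩
    have hsg : sg T b u = s0 := by
      have := hPos.sgn u huF
      rw [hub] at this
      exact this
    have hzy : z ≠ y := by
      rintro rfl
      exact notMem_nb_self hB.hD s0 z hyz
    have hub' : u ∉ ({b} : Finset W) := fun h => hbu (mem_singleton.1 h).symm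
    have hex : IsEmb T D (insert u {b}) (Function.update (fun _ => y) u z) := by
      refine (IsEmb.single hT.1.1 b y).extend hT.1 hac (Cn.single b) (mem_singleton_self b) hub'
        hadj ?_ ?_
      · rw [hsg]; exact hyz
      · intro h
        obtain ⟨q, -, hq⟩ := mem_image.1 h
        exact hzy hq.symm
    have hP1N : insert u P ⊆ Nr := fun x hx => hPos1.near (mem_union_left _ hx)
    obtain ⟨φ2, hφ2, hφ2b, -⟩ := hgz V W D T hT.1 hac (insert u {b}) (insert u P)
      (Function.update (fun _ => y) u z) (fun _ => univ)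
      ((Cn.single b).insert (mem_singleton_self b) hadj) (hcl.1 _ hPos1.closed)
      ⟨u, mem_insert_self _ _⟩
      (insert_subset_insert _ (singleton_subset_iff.2 hPos.mem)) hex
      (fun p _ t _ _ => hdeg _ hP1N _ _) (fun p _ t _ _ x _ => hdeg _ hP1N _ _)
    have hφ2u : φ2 u = z := by
      rw [hφ2b u (mem_insert_self _ _), Function.update_self]
    have hφ2y : φ2 b = y := by
      rw [hφ2b b (mem_insert_of_mem (mem_singleton_self b)), Function.update_of_ne hbu]
    obtain ⟨N', Q2, ψ2, hN', hS2, hdis, -⟩ := hsl1 hclo hsl0 V W D T k m K g (fun s => s = s0) r R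
      A Nr (insert u P) u (sdsc R F u) hB hPos1 hR1 φ2 hφ2
    rw [hφ2u] at hS2
    have hcard1 : 4 * m + 4 * K + 4 ≤ (insert u P).card := by
      have := card_le_card (subset_insert u P)
      omega
    have hEq : Eqv k N N' :=
      hsl3 hclo hgz hsl2 heq V W D T k m K g (fun s => s = s0) r R A Nr (insert u P) u
        (sdsc R F u) hB hPos1 hcard1 z N N' Q1 Q2 ψ1 ψ2 hN hN' hS1 hS2
    have hsub : sdsc R F u ⊆ F := by
      intro x hx
      simp only [sdsc, dsc, mem_erase, mem_filter] at hx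
      exact hx.2.1
    obtain ⟨Q3, ψ3, hS3, -⟩ := hsl4 V W D T k m K g (fun s => s = s0) r R F (sdsc R F u) b u hT
      hbelF huF hub hsub hPos1.below y z N' Q2 ψ2 (by rw [hsg]; exact hyz) hzy hS2 (by
        intro x hx hxy
        rw [disjoint_left] at hdis
        exact hdis (mem_image.2 ⟨b, mem_insert_of_mem hPos.mem, hφ2y⟩)
          (mem_image.2 ⟨x, hx, hxy⟩))
    exact ⟨N, N', Q, Q3, ψ, ψ3, hN, hN', hS, hS3, hEq⟩
  -- one class
  obtain ⟨y0⟩ := hVne
  obtain ⟨J, QJ, ψJ, hJ, hSJ⟩ := hsees y0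
  refine ⟨J, hJ, ?_⟩
  have hall : ∀ x : V, ∃ (N : Finset V) (Q : Finset W) (ψ : W → V),
      Clus D k m K (fun s => s = s0) N ∧ Sees T D K g (fun s => s = s0) R F b x N Q ψ ∧
      Eqv k N J := by
    classical
    set S : Finset V := univ.filter (fun x => ∃ (N : Finset V) (Q : Finset W) (ψ : W → V),
      Clus D k m K (fun s => s = s0) N ∧ Sees T D K g (fun s => s = s0) R F b x N Q ψ ∧
      Eqv k N J) with hSdef
    have hSu : S = univ := by
      refine hconn S ⟨y0, ?_⟩ ?_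
      · rw [hSdef, mem_filter]
        exact ⟨mem_univ _, J, QJ, ψJ, hJ, hSJ, hE2 J hJ⟩
      · intro x hx e y hy
        rw [hSdef, mem_filter] at hx ⊢
        obtain ⟨-, N, Q, ψ, hN, hS, hNJ⟩ := hx
        refine ⟨mem_univ _, ?_⟩
        by_cases he : e = s0
        · subst he
          obtain ⟨N1, N2, Q1, Q2, ψ1, ψ2, hN1, hN2, hS1, hS2, h12⟩ := harc x y hy
          have h3 : Eqv k N N2 := huniq x N N2 Q Q2 ψ ψ2 hN hN2 hS hS2
          have h4 : Eqv k N1 N := hE4 N1 N2 N hN1 hN2 hN h12 (hE3 _ _ h3)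
          exact ⟨N1, Q1, ψ1, hN1, hS1, hE4 N1 N J hN1 hN hJ h4 hNJ⟩
        · have hxy : x ∈ nb D s0 y := by
            cases e <;> cases s0
            · exact absurd rfl he
            · rw [mem_nb_false] at hy
              rw [mem_nb_true]
              exact hy
            · rw [mem_nb_true] at hy
              rw [mem_nb_false]
              exact hy
            · exact absurd rfl he
          obtain ⟨N1, N2, Q1, Q2, ψ1, ψ2, hN1, hN2, hS1, hS2, h12⟩ := harc y x hxy
          have h3 : Eqv k N N1 := huniq x N N1 Q Q1 ψ ψ1 hN hN1 hS hS1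
          have h4 : Eqv k N2 N := hE4 N2 N1 N hN2 hN1 hN (hE3 _ _ h12) (hE3 _ _ h3)
          exact ⟨N2, Q2, ψ2, hN2, hS2, hE4 N2 N J hN2 hN hJ h4 hNJ⟩
    intro x
    have hx : x ∈ S := hSu ▸ mem_univ x
    rw [hSdef, mem_filter] at hx
    exact hx.2
  intro φ hφ
  obtain ⟨N, Q, ψ, hN, hS, -, hc⟩ := hsl1 hclo hsl0 V W D T k m K g (fun s => s = s0) r R
    A Nr P b F hB hPos hR φ hφ
  obtain ⟨N1, Q1, ψ1, hN1, hS1, hNJ⟩ := hall (φ b)
  have h1 : Eqv k N N1 := huniq (φ b) N N1 Q Q1 ψ ψ1 hN hN1 hS hS1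
  have h2 : Eqv k N J := hE4 N N1 J hN hN1 hJ h1 hNJ
  have h3 := hE1 N J hN hJ h2
  have h4 : (P.image φ) \ J ⊆ ((P.image φ) \ N) ∪ (N \ J) := by
    intro x hx
    rw [mem_sdiff] at hx
    by_cases hxN : x ∈ N
    · exact mem_union_right _ (mem_sdiff.2 ⟨hxN, hx.2⟩)
    · exact mem_union_left _ (mem_sdiff.2 ⟨hx.1, hxN⟩)
  have h5 := (card_le_card h4).trans (card_union_le _ _)
  omega

end Pool.Agent.Lib.MP_47458b_co.DU
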