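import Pool.Agent.Lib.MP_47458b_co.DU.Stm

/-!
Project DU, piece S1F: (7.4), a spider in `P` and the cluster `J` of `S_s1` give `|V| ≤ k + 10 K`.
-/

namespace Pool.Agent.Lib.MP_47458b_co.DU

open Finset

lemma s1f_mem_nb {V : Type} [Fintype V] [DecidableEq V] {D : Digraph V} {s : Bool} {u w : V} :
    u ∈ nb D (!s) w ↔ w ∈ nb D s u := by
  cases s
  · rw [Bool.not_false, mem_nb_true, mem_nb_false]
  · rw [Bool.not_true, mem_nb_true, mem_nb_false]

theorem p_s1f : S_s1f := by
  intro hclo hgz hout hwalk V W _ _ _ _ D T k m K g s0 r R A Nr P X c b h leg J hB hP hPN hXP hSp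
    hsgn hbh hk hJ hcon
  classical
  by_contra hV
  push Not at hV
  obtain ⟨hT, hD, hκ, hNr, hnum, -, -, -⟩ := hB
  obtain ⟨hor, htree, hcW⟩ := id hT
  set Sg : Bool → Prop := fun s => s = s0 with hSg
  set PM : Finset V := PP D k K Sg (!s0) J with hPM
  have hPMJ : (PM \ J).card ≤ 10 * K :=
    hout V D k m K Sg (!s0) J (by omega) (by simp [hSg]) hJ
  set O : Finset V := univ \ (J ∪ PM) with hO
  have hJk := hJ.hi
  have hOne : O.Nonempty := by
    rw [hO, Finset.sdiff_nonempty]
    intro hsub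
    have h1 : (univ : Finset V).card ≤ J.card + (PM \ J).card := by
      calc (univ : Finset V).card ≤ (J ∪ PM).card := card_le_card hsub
        _ = (J ∪ (PM \ J)).card := by rw [Finset.union_sdiff_self_eq_union]
        _ ≤ _ := card_union_le _ _
    rw [card_univ] at h1
    omega
  -- large in-degrees
  have hdeg : ∀ w ∈ O, 2 * b * h * h + (h + 1) ^ 2 + 1 ≤
      (O.filter (fun u => w ∈ nb D s0 u)).card := by
    intro w hw
    rw [hO, mem_sdiff, mem_union, not_or] at hw
    obtain ⟨-, hwJ, hwP⟩ := hw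
    have h1 : 10 * (nb D (!s0) w ∩ core D K Sg J).card < k := by
      rw [hPM, PP, mem_filter] at hwP
      by_contra hcon'
      exact hwP ⟨mem_univ _, by omega⟩
    have h2 : nb D (!s0) w ⊆ (O.filter (fun u => w ∈ nb D s0 u)) ∪
        ((nb D (!s0) w ∩ core D K Sg J) ∪ ((J \ core D K Sg J) ∪ (PM \ J))) := by
      intro u hu
      by_cases hu1 : u ∈ J
      · by_cases hu2 : u ∈ core D K Sg J
        · exact mem_union_right _ (mem_union_left _ (mem_inter.2 ⟨hu, hu2⟩))
        · exact mem_union_right _ (mem_union_right _ (mem_union_left _ (mem_sdiff.2 ⟨hu1, hu2⟩)))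
      · by_cases hu3 : u ∈ PM
        · exact mem_union_right _ (mem_union_right _ (mem_union_right _ (mem_sdiff.2 ⟨hu3, hu1⟩)))
        · apply mem_union_left
          rw [mem_filter, hO, mem_sdiff, mem_union, not_or]
          exact ⟨⟨mem_univ _, hu1, hu3⟩, s1f_mem_nb.1 hu⟩
    have h3 := card_le_card h2
    have h4 := card_union_le (O.filter (fun u => w ∈ nb D s0 u))
      ((nb D (!s0) w ∩ core D K Sg J) ∪ ((J \ core D K Sg J) ∪ (PM \ J)))
    have h5 := card_union_le (nb D (!s0) w ∩ core D K Sg J) ((J \ core D K Sg J) ∪ (PM \ J))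
    have h6 := card_union_le (J \ core D K Sg J) (PM \ J)
    have h7 := hκ (!s0) w
    have h8 := hJ.cr
    generalize 2 * b * h * h + (h + 1) ^ 2 = x at hk ⊢
    omega
  obtain ⟨z, hzO, lv, hlv0, hlvO, hlvr, hlvz, hlvi⟩ :=
    hwalk V (fun u w => w ∈ nb D s0 u) O (2 * b * h * h + (h + 1) ^ 2 + 1) b h hOne hdeg
      (by omega)
  -- depths in the spider
  have hdep : ∀ i < b, ∀ j < h, R.dep c < R.dep (leg i (j + 1)) := by
    intro i hi j
    induction j with
    | zero =>
      intro hj
      obtain ⟨h1, h2⟩ := hSp.par i hi 0 hj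
      have h3 := R.dep_par _ h1
      rw [h2, hSp.zero i hi] at h3
      exact h3
    | succ j ih =>
      intro hj
      obtain ⟨h1, h2⟩ := hSp.par i hi (j + 1) hj
      have h3 := R.dep_par _ h1
      rw [h2] at h3
      exact (ih (by omega)).trans h3
  have hnc : ∀ i < b, ∀ j < h, leg i (j + 1) ≠ c := by
    intro i hi j hj heq
    have := hdep i hi j hj
    rw [heq] at this
    exact lt_irrefl _ this
  -- the embedding of the spider
  set φ : W → V := fun x => if hx : ∃ p : ℕ × ℕ, p.1 < b ∧ p.2 < h ∧ leg p.1 (p.2 + 1) = x then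
    lv hx.choose.1 (hx.choose.2 + 1) else z with hφ
  have hφ1 : ∀ i < b, ∀ j < h, φ (leg i (j + 1)) = lv i (j + 1) := by
    intro i hi j hj
    have hx : ∃ p : ℕ × ℕ, p.1 < b ∧ p.2 < h ∧ leg p.1 (p.2 + 1) = leg i (j + 1) :=
      ⟨(i, j), hi, hj, rfl⟩
    have h1 : φ (leg i (j + 1)) = lv hx.choose.1 (hx.choose.2 + 1) := by
      rw [hφ]
      exact dif_pos hx
    obtain ⟨h2, h3, h4⟩ := hx.choose_spec
    obtain ⟨h5, h6⟩ := hSp.inj _ h2 i hi _ h3 j hj h4
    rw [h1, h5, h6]
  have hφ0 : φ c = z := by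
    rw [hφ]
    apply dif_neg
    rintro ⟨p, h1, h2, h3⟩
    exact hnc _ h1 _ h2 h3
  have hφ2 : ∀ i < b, ∀ j ≤ h, φ (leg i j) = lv i j := by
    intro i hi j hj
    cases j with
    | zero => rw [hSp.zero i hi, hφ0, hlv0 i hi]
    | succ j => exact hφ1 i hi j (by omega)
  set S : Finset W := insert c ((range b ×ˢ range h).image (fun p => leg p.1 (p.2 + 1))) with hS
  have hmemS : ∀ x, x ∈ S ↔ x = c ∨ ∃ i < b, ∃ j < h, leg i (j + 1) = x := by
    intro x
    rw [hS, mem_insert, mem_image]
    constructor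
    · rintro (h1 | ⟨p, hp, h1⟩)
      · exact Or.inl h1
      · rw [mem_product, mem_range, mem_range] at hp
        exact Or.inr ⟨p.1, hp.1, p.2, hp.2, h1⟩
    · rintro (h1 | ⟨i, hi, j, hj, h1⟩)
      · exact Or.inl h1
      · exact Or.inr ⟨(i, j), by rw [mem_product, mem_range, mem_range]; exact ⟨hi, hj⟩, h1⟩
  have hlegS : ∀ i < b, ∀ j ≤ h, leg i j ∈ S := by
    intro i hi j hj
    rw [hmemS]
    cases j with
    | zero => exact Or.inl (hSp.zero i hi)
    | succ j => exact Or.inr ⟨i, hi, j, by omega, rfl⟩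
  have hScard : S.card = 1 + b * h := by
    rw [hS, card_insert_of_notMem, card_image_of_injOn, card_product, card_range, card_range,
      add_comm]
    · rintro ⟨i, j⟩ hp ⟨i', j'⟩ hp' heq
      rw [mem_coe, mem_product, mem_range, mem_range] at hp hp'
      obtain ⟨h1, h2⟩ := hSp.inj i hp.1 i' hp'.1 j hp.2 j' hp'.2 heq
      rw [h1, h2]
    · intro hmem
      rw [mem_image] at hmem
      obtain ⟨p, hp, h1⟩ := hmem
      rw [mem_product, mem_range, mem_range] at hp
      exact hnc _ hp.1 _ hp.2 h1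
  have hSX : S ⊆ X := by
    intro x hx
    rw [hmemS] at hx
    rcases hx with rfl | ⟨i, hi, j, hj, rfl⟩
    · exact hSp.ctr
    · exact hSp.mem i hi (j + 1) (by omega)
  have hSP : S ⊆ P := hSX.trans hXP
  -- the spider is connected
  have hadj : ∀ i < b, ∀ j < h, (gr T).Adj (leg i (j + 1)) (leg i j) := by
    intro i hi j hj
    obtain ⟨h1, h2⟩ := hSp.par i hi j hj
    have h3 := R.adj_par _ h1
    rw [h2] at h3
    have hne : leg i (j + 1) ≠ leg i j := by
      intro heq
      have h4 := R.dep_par _ h1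
      rw [h2, heq] at h4
      exact lt_irrefl _ h4
    rw [gr, Digraph.toSimpleGraphInclusive, SimpleGraph.fromRel_adj]
    exact ⟨hne, h3.symm⟩
  have hCnS : Cn (gr T) S := by
    apply Cn.of_root (r := c)
    have hleg : ∀ i < b, ∀ j ≤ h, ∃ p : (gr T).Walk (leg i j) c, ∀ x ∈ p.support, x ∈ S := by
      intro i hi j
      induction j with
      | zero =>
        intro _
        rw [hSp.zero i hi]
        refine ⟨SimpleGraph.Walk.nil, fun x hx => ?_⟩
        rw [SimpleGraph.Walk.support_nil, List.mem_singleton] at hx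
        rw [hx]
        exact (hmemS c).2 (Or.inl rfl)
      | succ j ih =>
        intro hj
        obtain ⟨p, hp⟩ := ih (by omega)
        refine ⟨SimpleGraph.Walk.cons (hadj i hi j (by omega)) p, fun x hx => ?_⟩
        rw [SimpleGraph.Walk.support_cons, List.mem_cons] at hx
        rcases hx with rfl | hx
        · exact hlegS i hi (j + 1) hj
        · exact hp x hx
    intro a ha
    rw [hmemS] at ha
    rcases ha with rfl | ⟨i, hi, j, hj, rfl⟩
    · refine ⟨SimpleGraph.Walk.nil, fun x hx => ?_⟩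
      rw [SimpleGraph.Walk.support_nil, List.mem_singleton] at hx
      rw [hx]
      exact (hmemS a).2 (Or.inl rfl)
    · exact hleg i hi (j + 1) (by omega)
  -- it is embedded
  have harc : ∀ i < b, ∀ j < h, lv i (j + 1) ∈ nb D s0 (lv i j) := hlvr
  have hemb : IsEmb T D S φ := by
    constructor
    · intro x hx y hy hxy
      rw [hmemS] at hx hy
      rcases hx with rfl | ⟨i, hi, j, hj, rfl⟩ <;> rcases hy with rfl | ⟨i', hi', j', hj', rfl⟩
      · rfl
      · rw [hφ0, hφ1 i' hi' j' hj'] at hxy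
        exact absurd hxy.symm (hlvz i' hi' j' hj')
      · rw [hφ0, hφ1 i hi j hj] at hxy
        exact absurd hxy (hlvz i hi j hj)
      · rw [hφ1 i hi j hj, hφ1 i' hi' j' hj'] at hxy
        obtain ⟨h1, h2⟩ := hlvi i hi i' hi' j hj j' hj' hxy
        rw [h1, h2]
    · -- all elements of `S` except `c` are deeper than `c`
      have hdS : ∀ x ∈ S, R.dep c ≤ R.dep x := by
        intro x hx
        rw [hmemS] at hx
        rcases hx with rfl | ⟨i, hi, j, hj, rfl⟩
        · exact le_rfl
        · exact (hdep i hi j hj).le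
      -- a child in `S`
      have hchild : ∀ y ∈ S, y ≠ r → R.par y ∈ S → ∃ i < b, ∃ j < h, y = leg i (j + 1) ∧
          R.par y = leg i j := by
        intro y hy hyr hpy
        rw [hmemS] at hy
        rcases hy with rfl | ⟨i, hi, j, hj, rfl⟩
        · have h1 := hdS _ hpy
          have h2 := R.dep_par _ hyr
          omega
        · exact ⟨i, hi, j, hj, rfl, (hSp.par i hi j hj).2⟩
      intro x hx y hy hxy
      rcases R.edge x y hxy with ⟨hxr, hp⟩ | ⟨hyr, hp⟩
      · obtain ⟨i, hi, j, hj, h1, h2⟩ := hchild x hx hxr (hp ▸ hy)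
        rw [hp] at h2
        have h3 := hsgn i hi j hj
        have h4 : s0 = false := by
          rw [← h3, ← h1, ← h2, sg]
          simp only [decide_eq_false_iff_not]
          exact hor.2 _ _ hxy
        rw [h1, h2, hφ1 i hi j hj, hφ2 i hi j (by omega)]
        have h5 := harc i hi j hj
        rw [h4, mem_nb_false] at h5
        exact h5
      · obtain ⟨i, hi, j, hj, h1, h2⟩ := hchild y hy hyr (hp ▸ hx)
        rw [hp] at h2
        have h3 := hsgn i hi j hj
        have h4 : s0 = true := by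
          rw [← h3, ← h1, ← h2, sg]
          simp only [decide_eq_true_eq]
          exact hxy
        rw [h1, h2, hφ1 i hi j hj, hφ2 i hi j (by omega)]
        have h5 := harc i hi j hj
        rw [h4, mem_nb_true] at h5
        exact h5
  -- extension to `P`
  have hPcard : P.card + m ≤ k := by
    have := card_le_card hPN
    omega
  obtain ⟨ψ, hψ1, hψ2, -⟩ := hgz V W D T hor htree.isAcyclic S P φ (fun _ => univ) hCnS
    ((hclo W k T hT r R).1 P hP) ⟨c, (hmemS c).2 (Or.inl rfl)⟩ hSP hemb
    (by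
      intro p _ t _ _
      rw [inter_univ]
      have := hκ (sg T p t) (φ p)
      omega)
    (by
      intro p _ t _ _ x _
      rw [inter_univ]
      have := hκ (sg T p t) x
      omega)
  have hfin := hcon ψ hψ1
  have hsub : S.image ψ ⊆ (P.image ψ) \ J := by
    intro y hy
    rw [mem_image] at hy
    obtain ⟨x, hx, rfl⟩ := hy
    rw [mem_sdiff]
    refine ⟨mem_image_of_mem ψ (hSP hx), ?_⟩
    rw [hψ2 x hx]
    have hOJ : ∀ w ∈ O, w ∉ J := by
      intro w hw
      rw [hO, mem_sdiff, mem_union, not_or] at hw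
      exact hw.2.1
    apply hOJ
    rw [hmemS] at hx
    rcases hx with rfl | ⟨i, hi, j, hj, rfl⟩
    · rw [hφ0]; exact hzO
    · rw [hφ1 i hi j hj]; exact hlvO i hi (j + 1) (by omega)
  have h1 := card_le_card hsub
  have h2 : (S.image ψ).card = S.card :=
    card_image_of_injOn fun x hx y hy hxy => hψ1.inj x (hSP hx) y (hSP hy) hxy
  rw [h2, hScard] at h1
  omega

end Pool.Agent.Lib.MP_47458b_co.DU
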