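import Pool.Agent.Lib.MP_47458b_co.DU.Stm

/-!
Project DU, piece SL0: section 4, the proof of (SL1).
-/

namespace Pool.Agent.Lib.MP_47458b_co.DU

open Finset

/-- Placing one more vertex whose only neighbour in `S` is `a`. -/
private theorem sl0_update {V W : Type} [Fintype V] [DecidableEq V] [DecidableEq W]
    {D : Digraph V} {T : Digraph W} (hT : IsOrientedGraph T) {S : Finset W} {φ : W → V}
    (h : IsEmb T D S φ) {a t : W} (ht : t ∉ S)
    (hadj : ∀ b ∈ S, T.Adj b t ∨ T.Adj t b → b = a) {y : V}
    (hy : y ∈ nb D (sg T a t) (φ a)) (hyS : y ∉ S.image φ) :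
    IsEmb T D (insert t S) (Function.update φ t y) := by
  have hne : ∀ b ∈ S, b ≠ t := fun b hb h => ht (h ▸ hb)
  have hup : ∀ b ∈ S, Function.update φ t y b = φ b := fun b hb =>
    Function.update_of_ne (hne b hb) _ _
  have hyb : ∀ b ∈ S, φ b ≠ y := fun b hb h => hyS (mem_image.2 ⟨b, hb, h⟩)
  constructor
  · intro b hb c hc hbc
    rw [mem_insert] at hb hc
    rcases hb with rfl | hb <;> rcases hc with rfl | hc
    · rfl
    · rw [Function.update_self, hup c hc] at hbc
      exact absurd hbc.symm (hyb c hc)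
    · rw [Function.update_self, hup b hb] at hbc
      exact absurd hbc (hyb b hb)
    · rw [hup b hb, hup c hc] at hbc
      exact h.inj b hb c hc hbc
  · intro b hb c hc hbc
    rw [mem_insert] at hb hc
    rcases hb with rfl | hb <;> rcases hc with rfl | hc
    · exact absurd hbc (hT.1 _)
    · rw [Function.update_self, hup c hc]
      have hca := hadj c hc (Or.inr hbc)
      subst hca
      have hs : sg T c b = false := by
        simp only [sg, decide_eq_false_iff_not]
        exact fun h' => hT.2 _ _ h' hbc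
      rw [hs, mem_nb_false] at hy
      exact hy
    · rw [Function.update_self, hup b hb]
      have hba := hadj b hb (Or.inl hbc)
      subst hba
      have hs : sg T b c = true := by
        simp only [sg, decide_eq_true_eq]
        exact hbc
      rw [hs, mem_nb_true] at hy
      exact hy
    · rw [hup b hb, hup c hc]
      exact h.hom b hb c hc hbc

/-- **SL0.** -/
theorem p_sl0 : S_sl0 := by
  intro hclo V W _ _ _ _ D T k m K g Sg r R A Nr P b F hB hP F' hF' hbel hg φ hφ
  classical
  have hor : IsOrientedGraph T := hB.hT.1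
  obtain ⟨hbF', hrF', hparF'⟩ := hbel
  have hsub : P ∪ F' ⊆ Nr := (union_subset_union_right hF').trans hP.near
  have hdisj : Disjoint P F' := hP.disj.mono_right hF'
  have hcl : R.Closed (P ∪ F') := by
    refine ⟨mem_union_left _ hP.closed.1, ?_⟩
    intro x hx hxr
    rcases mem_union.1 hx with hx | hx
    · exact mem_union_left _ (hP.closed.2 x hx hxr)
    · rcases mem_insert.1 (hparF' x hx) with h | h
      · rw [h]; exact mem_union_left _ hP.mem
      · exact mem_union_right _ h
  have hsd : (P ∪ F') \ P = F' := by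
    rw [union_sdiff_left]
    exact sdiff_eq_self_of_disjoint hdisj.symm
  have hcard : (P ∪ F').card ≤ Nr.card := card_le_card hsub
  have hNr := hB.hNr
  have hnum := hB.hnum
  have hκ := hB.hκ
  have hnb : ∀ s x, (P ∪ F').card ≤ (nb D s x ∩ univ).card := by
    intro s x
    rw [inter_univ]
    have := hκ s x
    omega
  obtain ⟨ψ, N, hψ, hψP, -, hN, hex, t, ht, htN⟩ := hB.trap univ P (P ∪ F') φ hP.sub
    subset_union_left hsub hP.closed hcl (by rw [hsd]; exact hg) hφ
    (fun t _ _ => hnb _ _) (fun t _ _ x _ => hnb _ _)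
  rw [hsd] at ht
  rw [inter_univ] at htN
  obtain ⟨Q, hQF, htQ, hQb, hQd, hQdep⟩ := (hclo W k T hB.hT r R).2.1 F' b t
    ⟨hbF', hrF', hparF'⟩ ht
  have htP : t ∉ P := fun h => disjoint_left.1 hdisj h ht
  have htr : t ≠ r := fun h => hrF' (h ▸ ht)
  have hbt : b ≠ t := fun h => hbF' (h ▸ ht)
  -- a free core vertex
  obtain ⟨z, hz, hzc, hzi⟩ : ∃ z ∈ nb D (sg T (R.par t) t) (ψ (R.par t)), z ∈ core D K Sg N ∧
      z ∉ (P ∪ F').image ψ := by
    by_contra hcon
    push Not at hcon
    have h1 : nb D (sg T (R.par t) t) (ψ (R.par t)) ⊆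
        (nb D (sg T (R.par t) t) (ψ (R.par t)) \ N) ∪ ((N \ core D K Sg N) ∪
          (P ∪ F').image ψ) := by
      intro y hy
      by_cases hyN : y ∈ N
      · by_cases hyc : y ∈ core D K Sg N
        · exact mem_union_right _ (mem_union_right _ (hcon y hy hyc))
        · exact mem_union_right _ (mem_union_left _ (mem_sdiff.2 ⟨hyN, hyc⟩))
      · exact mem_union_left _ (mem_sdiff.2 ⟨hy, hyN⟩)
    have h2 := card_le_card h1
    have h3 := card_union_le (nb D (sg T (R.par t) t) (ψ (R.par t)) \ N) ((N \ core D K Sg N) ∪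
          (P ∪ F').image ψ)
    have h4 := card_union_le (N \ core D K Sg N) ((P ∪ F').image ψ)
    have h5 : ((P ∪ F').image ψ).card ≤ (P ∪ F').card := card_image_le
    have h6 := hN.cr
    have h7 := hκ (sg T (R.par t) t) (ψ (R.par t))
    omega
  set S0 : Finset W := (insert b Q).erase t with hS0
  have hS0sub : S0 ⊆ P ∪ F' := by
    intro x hx
    rw [hS0, mem_erase, mem_insert] at hx
    rcases hx.2 with h | h
    · rw [h]; exact mem_union_left _ hP.mem
    · exact mem_union_right _ (hQF h)
  have hembS0 : IsEmb T D S0 ψ :=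
    ⟨fun x hx y hy => hψ.inj x (hS0sub hx) y (hS0sub hy),
      fun x hx y hy => hψ.hom x (hS0sub hx) y (hS0sub hy)⟩
  have htS0 : t ∉ S0 := by rw [hS0]; exact notMem_erase _ _
  have hins : insert t S0 = insert b Q := by
    rw [hS0]
    exact insert_erase (mem_insert_of_mem htQ)
  have huniq : ∀ x ∈ S0, T.Adj x t ∨ T.Adj t x → x = R.par t := by
    intro x hx hadj
    rw [hS0, mem_erase, mem_insert] at hx
    have hpar : ¬ (x ≠ r ∧ R.par x = t) := by
      rintro ⟨hxr, hxt⟩
      rcases hx.2 with h | h
      · rw [h] at hxt hxr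
        exact htP (hxt ▸ hP.closed.2 b hP.mem hxr)
      · have h1 := hQdep x h hx.1
        have h2 := R.dep_par x hxr
        rw [hxt] at h2
        omega
    rcases hadj with h | h
    · rcases R.edge x t h with h' | h'
      · exact absurd h' hpar
      · exact h'.2.symm
    · rcases R.edge t x h with h' | h'
      · exact h'.2.symm
      · exact absurd h' hpar
  have hzS0 : z ∉ S0.image ψ := fun h => hzi (image_subset_image hS0sub h)
  have hemb := sl0_update hor hembS0 htS0 huniq hz hzS0
  rw [hins] at hemb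
  have hψb : Function.update ψ t z b = φ b := by
    rw [Function.update_of_ne hbt]
    exact hψP b hP.mem
  refine ⟨N, Q, Function.update ψ t z, t, hN, hQF, hQb, htQ, hQd, hQdep, hemb, hψb, ?_, ?_, ?_⟩
  · rw [Function.update_self]; exact hzc
  · rw [disjoint_left]
    intro y hy1 hy2
    obtain ⟨x, hx, hxy⟩ := mem_image.1 hy1
    obtain ⟨w, hw, hwy⟩ := mem_image.1 hy2
    rw [← hψP x hx] at hxy
    by_cases hwt : w = t
    · rw [hwt, Function.update_self] at hwy
      exact hzi (mem_image.2 ⟨x, mem_union_left _ hx, hxy.trans hwy.symm⟩)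
    · rw [Function.update_of_ne hwt] at hwy
      have := hψ.inj x (mem_union_left _ hx) w (mem_union_right _ (hQF hw)) (hxy.trans hwy.symm)
      rw [this] at hx
      exact disjoint_left.1 hdisj hx (hQF hw)
  · refine le_trans (card_le_card (sdiff_subset_sdiff ?_ Subset.rfl)) hex
    intro y hy
    obtain ⟨x, hx, hxy⟩ := mem_image.1 hy
    rw [← hψP x hx] at hxy
    exact mem_image.2 ⟨x, mem_union_left _ hx, hxy⟩

end Pool.Agent.Lib.MP_47458b_co.DU
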