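import Pool.Agent.Lib.MP_47458b_co.DU.Stm
import Pool.Agent.Lib.MP_47458b_co.DU.P_sl0

/-!
Project DU, piece S2 (section 5): the directed path case.
-/

namespace Pool.Agent.Lib.MP_47458b_co.DU

open Finset

variable {V W : Type} [Fintype V] [DecidableEq V] [Fintype W] [DecidableEq W]

private lemma s2_grAdj {T : Digraph W} {a b : W} :
    (gr T).Adj a b ↔ a ≠ b ∧ (T.Adj a b ∨ T.Adj b a) := by
  rw [gr, Digraph.toSimpleGraphInclusive, SimpleGraph.fromRel_adj]

private lemma s2_par {T : Digraph W} {r : W} (R : Up.Rooted T r) {x : W} (hx : x ≠ r) :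
    (gr T).Adj (R.par x) x := by
  rw [s2_grAdj]
  refine ⟨fun h => ?_, R.adj_par x hx⟩
  have := R.dep_par x hx
  rw [h] at this
  omega

private lemma s2_edge {T : Digraph W} {r : W} (R : Up.Rooted T r) {a b : W}
    (h : (gr T).Adj a b) : (a ≠ r ∧ R.par a = b) ∨ (b ≠ r ∧ R.par b = a) := by
  rw [s2_grAdj] at h
  rcases h.2 with h | h
  · exact R.edge a b h
  · exact (R.edge b a h).symm

private lemma s2_flip {T : Digraph W} (hT : IsOrientedGraph T) {a b : W}
    (h : (gr T).Adj a b) : sg T b a = !(sg T a b) := by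
  rw [s2_grAdj] at h
  unfold sg
  rcases h.2 with h1 | h1
  · have h2 := hT.2 _ _ h1
    simp [h1, h2]
  · have h2 := hT.2 _ _ h1
    simp [h1, h2]

private lemma s2_pair {T : Digraph W} {D : Digraph V} (hT : IsOrientedGraph T)
    (hG : (gr T).IsAcyclic) (hD : Loopless D) {p t : W} (h : (gr T).Adj p t) {y y' : V}
    (hy : y' ∈ nb D (sg T p t) y) :
    IsEmb T D (insert t {p}) (Function.update (fun _ => y) t y') := by
  have hne : t ≠ p := h.ne.symm
  have hyy : y' ≠ y := by
    rintro rfl
    exact notMem_nb_self hD _ _ hy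
  refine IsEmb.extend hT hG (Cn.single p) (IsEmb.single hT.1 p y) (a := p) (t := t)
    (mem_singleton_self p) ?_ h hy ?_
  · rw [mem_singleton]; exact hne
  · simpa using hyy

private lemma s2_greedy (hclo : S_clo) {T : Digraph W} {D : Digraph V} {k m K g : ℕ} {r : W}
    {Sg : Bool → Prop} {R : Up.Rooted T r} {A Nr : Finset W} (hB : Base T D k m K g Sg R A Nr)
    {P' S : Finset W} (hP' : R.Closed P') (hN : P' ⊆ Nr) (hS : Cn (gr T) S) (hne : S.Nonempty)
    (hSP : S ⊆ P') {φ0 : W → V} (h0 : IsEmb T D S φ0) :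
    ∃ φ : W → V, IsEmb T D P' φ ∧ ∀ x ∈ S, φ x = φ0 x := by
  have hκ : ∀ s x, k - m ≤ (nb D s x).card := fun s x => by
    have := hB.hκ s x
    omega
  have hc : P'.card ≤ k - m + 1 := by
    have h1 := card_le_card hN
    have h2 := hB.hNr
    have h3 := hB.hnum
    omega
  have hCn := (hclo W k T hB.hT r R).1 P' hP'
  exact IsEmb.greedy hB.hD hκ hB.hT.1 hB.hT.2.1.isAcyclic hCn hc _ S φ0 rfl hne hSP hS h0

private lemma s2_Cpair {T : Digraph W} {p t : W} (h : (gr T).Adj p t) :
    Cn (gr T) (insert t {p}) := Cn.insert (Cn.single p) (mem_singleton_self p) h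

private lemma s2_mem_core {D : Digraph V} {K : ℕ} {J : Finset V} {x : V} :
    x ∈ core D K both J ↔ x ∈ J ∧ ∀ s, ((nb D s x) \ J).card ≤ K := by
  classical
  unfold core
  rw [mem_filter]
  exact ⟨fun h => ⟨h.1, fun s => h.2 s trivial⟩, fun h => ⟨h.1, fun s _ => h.2 s⟩⟩

private lemma s2_mem_PP {D : Digraph V} {k K : ℕ} {Sg : Bool → Prop} {s : Bool} {J : Finset V}
    {y : V} : y ∈ PP D k K Sg s J ↔ k ≤ 10 * (nb D s y ∩ core D K Sg J).card := by
  unfold PP
  rw [mem_filter]
  simp

/-- counting in the core -/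
private lemma s2_cntCore {D : Digraph V} {k m K : ℕ} (hκ : ∀ s x, k ≤ (nb D s x).card + m)
    {J : Finset V} {x : V} (hx : x ∈ core D K both J) (s : Bool) :
    k ≤ (nb D s x ∩ core D K both J).card + m + K + (J \ core D K both J).card := by
  have h1 : nb D s x ⊆ ((nb D s x) \ J ∪ (nb D s x ∩ core D K both J)) ∪
      (J \ core D K both J) := by
    intro w hw
    by_cases hJ : w ∈ J
    · by_cases hc : w ∈ core D K both J
      · exact mem_union_left _ (mem_union_right _ (mem_inter.2 ⟨hw, hc⟩))
      · exact mem_union_right _ (mem_sdiff.2 ⟨hJ, hc⟩)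
    · exact mem_union_left _ (mem_union_left _ (mem_sdiff.2 ⟨hw, hJ⟩))
  have h2 := card_le_card h1
  have h3 := card_union_le ((nb D s x) \ J ∪ (nb D s x ∩ core D K both J))
    (J \ core D K both J)
  have h4 := card_union_le ((nb D s x) \ J) (nb D s x ∩ core D K both J)
  have h5 := (s2_mem_core.1 hx).2 s
  have h6 := hκ s x
  omega

/-- R1: what is seen from a vertex with many neighbours in the core is the same cluster -/
private lemma s2_R1 (hclo : S_clo) (hgz : S_gz) (hsl2 : S_sl2) (heq : S_eq)
    {T : Digraph W} {D : Digraph V} {k m K g : ℕ} {r : W}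
    {R : Up.Rooted T r} {A Nr P : Finset W} {b : W} {F : Finset W}
    (hB : Base T D k m K g both R A Nr) (hP : Pos T both R A Nr P b F) (hbr : b ≠ r)
    (hPb : R.Closed (P.erase b)) (hcard : 4 * m + 4 * K + 10 ≤ P.card)
    {J N : Finset V} (hJ : Clus D k m K both J) (hN : Clus D k m K both N) {y : V}
    (hy : y ∈ PP D k K both (sg T b (R.par b)) J) {Q : Finset W} {ψ : W → V}
    (hs : Sees T D K g both R F b y N Q ψ) : Eqv k N J := by
  by_contra hcon
  unfold Eqv at hcon
  obtain ⟨hQF, hQb, hψ, hψb, -⟩ := id hs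
  have hyψ : y ∉ Q.image ψ := by
    intro h
    obtain ⟨x, hx, hxy⟩ := mem_image.1 h
    rw [← hψb] at hxy
    have := hψ.inj x (mem_insert_of_mem hx) b (mem_insert_self _ _) hxy
    exact hQb.1 (this ▸ hx)
  have hPN : P.card ≤ Nr.card := card_le_card (subset_union_left.trans hP.near)
  have hQN : (Q.image ψ).card ≤ Nr.card :=
    card_image_le.trans (card_le_card (hQF.trans (subset_union_right.trans hP.near)))
  have hNr := hB.hNr
  have hnum := hB.hnum
  have hcr := hJ.cr
  -- the region
  set O : Finset V := (core D K both J \ N) \ Q.image ψ with hO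
  have hcov : ∀ X : Finset V, (X ∩ core D K both J).card ≤ (X ∩ O).card + (N ∩ J).card +
      (Q.image ψ).card := by
    intro X
    have h1 : X ∩ core D K both J ⊆ (X ∩ O) ∪ (N ∩ J) ∪ Q.image ψ := by
      intro w hw
      rw [mem_inter] at hw
      by_cases hwN : w ∈ N
      · exact mem_union_left _ (mem_union_right _
          (mem_inter.2 ⟨hwN, (s2_mem_core.1 hw.2).1⟩))
      · by_cases hwQ : w ∈ Q.image ψ
        · exact mem_union_right _ hwQ
        · exact mem_union_left _ (mem_union_left _ (mem_inter.2 ⟨hw.1,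
            mem_sdiff.2 ⟨mem_sdiff.2 ⟨hw.2, hwN⟩, hwQ⟩⟩))
    have h2 := card_le_card h1
    have h3 := card_union_le ((X ∩ O) ∪ (N ∩ J)) (Q.image ψ)
    have h4 := card_union_le (X ∩ O) (N ∩ J)
    omega
  have hin : ∀ x ∈ O, ∀ s, P.card ≤ (nb D s x ∩ O).card := by
    intro x hx s
    have hx' : x ∈ core D K both J := (mem_sdiff.1 (mem_sdiff.1 hx).1).1
    have h1 := s2_cntCore hB.hκ hx' s
    have h2 := hcov (nb D s x)
    omega
  have hCnP := (hclo W k T hB.hT r R).1 P hP.closed
  obtain ⟨φ, hφ, hφb, hφO⟩ := hgz V W D T hB.hT.1 hB.hT.2.1.isAcyclic {b} P (fun _ => y)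
    (fun _ => O) (Cn.single b) hCnP (singleton_nonempty b) (singleton_subset_iff.2 hP.mem)
    (IsEmb.single hB.hT.1.1 b y) (by
      intro p hp t ht hadj
      rw [mem_singleton] at hp
      subst hp
      rw [mem_sdiff, mem_singleton] at ht
      rcases s2_edge R hadj with ⟨-, h⟩ | ⟨h1, h2⟩
      · rw [← h]
        have h3 := s2_mem_PP.1 hy
        have h4 := hcov (nb D (sg T p (R.par p)) y)
        omega
      · exfalso
        have h3 := hPb.2 t (mem_erase.2 ⟨ht.2, ht.1⟩) h1
        rw [h2] at h3
        exact notMem_erase _ _ h3) (by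
      intro p _ t _ _ x hx
      exact hin x hx _)
  have hφy : φ b = y := hφb b (mem_singleton_self b)
  have hdis : Disjoint (P.image φ) (Q.image ψ) := by
    rw [Finset.disjoint_left]
    intro w hw
    obtain ⟨x, hx, rfl⟩ := mem_image.1 hw
    by_cases hxb : x = b
    · rw [hxb, hφy]; exact hyψ
    · exact (mem_sdiff.1 (hφO x (mem_sdiff.2 ⟨hx, by rwa [mem_singleton]⟩))).2
  have h1 := hsl2 heq V W D T k m K g both r R A Nr P b F hB hP φ N Q ψ hφ hN (by rw [hφy]; exact hs)
    hdis
  have h2 : (P.erase b).image φ ⊆ (P.image φ) \ N := by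
    intro w hw
    obtain ⟨x, hx, rfl⟩ := mem_image.1 hw
    rw [mem_erase] at hx
    refine mem_sdiff.2 ⟨mem_image_of_mem φ hx.2, ?_⟩
    exact (mem_sdiff.1 (mem_sdiff.1 (hφO x (mem_sdiff.2 ⟨hx.2, by
      rw [mem_singleton]; exact hx.1⟩))).1).2
  have h3 := card_le_card h2
  have h4 : ((P.erase b).image φ).card = P.card - 1 := by
    rw [card_image_of_injOn, card_erase_of_mem hP.mem]
    intro x hx x' hx' hxx
    exact hφ.inj x (mem_of_mem_erase hx) x' (mem_of_mem_erase hx') hxx
  omega

/-- The general form of R3: an embedding that starts outside makes too many exits. -/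
private lemma s2_key (hclo : S_clo) (hgz : S_gz) (hsl2 : S_sl2) (heq : S_eq) (hout : S_out)
    {T : Digraph W} {D : Digraph V} {k m K g : ℕ} {r : W}
    {R : Up.Rooted T r} {A Nr P : Finset W} {b : W} {F : Finset W}
    (hB : Base T D k m K g both R A Nr) (hP : Pos T both R A Nr P b F)
    {J N : Finset V} (hJ : Clus D k m K both J) (hN : Clus D k m K both N) (hNJ : Eqv k N J)
    {S : Finset W} (hSP : S ⊆ P) (hbS : b ∈ S) (hS : Cn (gr T) S) {φ0 : W → V}
    (h0 : IsEmb T D S φ0) {Q : Finset W} {ψ : W → V}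
    (hs : Sees T D K g both R F b (φ0 b) N Q ψ) (hdis0 : ∀ x ∈ S, φ0 x ∉ Q.image ψ)
    (hst : ∀ p ∈ S, ∀ t ∈ P \ S, (gr T).Adj p t → ∀ s, φ0 p ∉ PP D k K both s J) :
    P.card ≤ S.card + 3 * m + 4 * K := by
  obtain ⟨hQF, hQb, hψ, hψb, -⟩ := id hs
  have hPN : P.card ≤ Nr.card := card_le_card (subset_union_left.trans hP.near)
  have hQN : (Q.image ψ).card ≤ Nr.card :=
    card_image_le.trans (card_le_card (hQF.trans (subset_union_right.trans hP.near)))
  have hNr := hB.hNr
  have hnum := hB.hnum
  have hcr := hJ.cr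
  have hk1 : 1 ≤ k := by omega
  have hot := hout V D k m K both true J hk1 trivial hJ
  have hof := hout V D k m K both false J hk1 trivial hJ
  set O : Finset V := ((univ \ J) \ (PP D k K both true J ∪ PP D k K both false J)) \
    Q.image ψ with hO
  have hin : ∀ x, (∀ s, x ∉ PP D k K both s J) → ∀ s, P.card ≤ (nb D s x ∩ O).card := by
    intro x hx s
    have h1 : nb D s x ⊆ ((((nb D s x ∩ O) ∪ (nb D s x ∩ core D K both J)) ∪
        (J \ core D K both J)) ∪ ((PP D k K both true J \ J) ∪
        (PP D k K both false J \ J))) ∪ Q.image ψ := by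
      intro w hw
      by_cases hwQ : w ∈ Q.image ψ
      · exact mem_union_right _ hwQ
      refine mem_union_left _ ?_
      by_cases hwJ : w ∈ J
      · refine mem_union_left _ ?_
        by_cases hwc : w ∈ core D K both J
        · exact mem_union_left _ (mem_union_right _ (mem_inter.2 ⟨hw, hwc⟩))
        · exact mem_union_right _ (mem_sdiff.2 ⟨hwJ, hwc⟩)
      · by_cases hwt : w ∈ PP D k K both true J
        · exact mem_union_right _ (mem_union_left _ (mem_sdiff.2 ⟨hwt, hwJ⟩))
        · by_cases hwf : w ∈ PP D k K both false J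
          · exact mem_union_right _ (mem_union_right _ (mem_sdiff.2 ⟨hwf, hwJ⟩))
          · refine mem_union_left _ (mem_union_left _ (mem_union_left _ (mem_inter.2 ⟨hw, ?_⟩)))
            rw [hO, mem_sdiff, mem_sdiff, mem_sdiff, mem_union]
            exact ⟨⟨⟨mem_univ _, hwJ⟩, fun h => h.elim hwt hwf⟩, hwQ⟩
    have h2 := card_le_card h1
    have h3 := card_union_le ((((nb D s x ∩ O) ∪ (nb D s x ∩ core D K both J)) ∪
        (J \ core D K both J)) ∪ ((PP D k K both true J \ J) ∪
        (PP D k K both false J \ J))) (Q.image ψ)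
    have h4 := card_union_le (((nb D s x ∩ O) ∪ (nb D s x ∩ core D K both J)) ∪
        (J \ core D K both J)) ((PP D k K both true J \ J) ∪
        (PP D k K both false J \ J))
    have h5 := card_union_le ((nb D s x ∩ O) ∪ (nb D s x ∩ core D K both J))
        (J \ core D K both J)
    have h6 := card_union_le (nb D s x ∩ O) (nb D s x ∩ core D K both J)
    have h7 := card_union_le (PP D k K both true J \ J) (PP D k K both false J \ J)
    have h8 := hB.hκ s x
    have h9 : ¬ k ≤ 10 * (nb D s x ∩ core D K both J).card := fun h => hx s (s2_mem_PP.2 h)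
    omega
  have hOP : ∀ x ∈ O, ∀ s, x ∉ PP D k K both s J := by
    intro x hx s
    rw [hO, mem_sdiff, mem_sdiff, mem_union, not_or] at hx
    cases s
    · exact hx.1.2.2
    · exact hx.1.2.1
  have hCnP := (hclo W k T hB.hT r R).1 P hP.closed
  obtain ⟨φ, hφ, hφS, hφO⟩ := hgz V W D T hB.hT.1 hB.hT.2.1.isAcyclic S P φ0
    (fun _ => O) hS hCnP ⟨b, hbS⟩ hSP h0 (by
      intro p hp t ht hadj
      exact hin _ (hst p hp t ht hadj) _) (by
      intro p _ t _ _ x hx
      exact hin x (hOP x hx) _)
  have hdis : Disjoint (P.image φ) (Q.image ψ) := by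
    rw [Finset.disjoint_left]
    intro w hw
    obtain ⟨x, hx, rfl⟩ := mem_image.1 hw
    by_cases hxS : x ∈ S
    · rw [hφS x hxS]; exact hdis0 x hxS
    · exact (mem_sdiff.1 (hφO x (mem_sdiff.2 ⟨hx, hxS⟩))).2
  have h1 := hsl2 heq V W D T k m K g both r R A Nr P b F hB hP φ N Q ψ hφ hN
    (by rw [hφS b hbS]; exact hs) hdis
  have h2 := (heq V D k m K both hB.hκ hB.hSg hB.hnum).1 N J hN hJ hNJ
  have h3 : (P \ S).image φ ⊆ ((P.image φ) \ N) ∪ (N \ J) := by
    intro w hw
    obtain ⟨x, hx, rfl⟩ := mem_image.1 hw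
    have h4 := hφO x hx
    rw [hO, mem_sdiff, mem_sdiff, mem_sdiff] at h4
    by_cases h5 : φ x ∈ N
    · exact mem_union_right _ (mem_sdiff.2 ⟨h5, h4.1.1.2⟩)
    · exact mem_union_left _ (mem_sdiff.2 ⟨mem_image_of_mem φ (mem_sdiff.1 hx).1, h5⟩)
  have h4 := card_le_card h3
  have h5 := card_union_le ((P.image φ) \ N) (N \ J)
  have h6 : ((P \ S).image φ).card = (P \ S).card := by
    refine card_image_of_injOn ?_
    intro x hx x' hx' hxx
    exact hφ.inj x (mem_sdiff.1 hx).1 x' (mem_sdiff.1 hx').1 hxx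
  have h7 : P.card - S.card ≤ (P \ S).card := le_card_sdiff S P
  omega

theorem p_s2 : S_s2 := by
  intro hclo hgz heq hsl1 hsl2 hsl3 hsl4 hout V W _ _ _ _ D T k m K g r R A Nr P b f F2 hB hConn
    hne hP1 hP2 hfb hbr hPb hsg hRich hcard
  classical
  set F : Finset W := insert f F2 with hF
  set a : W := R.par b with ha
  have hT := hB.hT
  have hG := hT.2.1.isAcyclic
  have hNr := hB.hNr
  have hnum := hB.hnum
  have hk1 : 1 ≤ k := by omega
  have hfP : f ∉ P := fun h => (Finset.disjoint_left.1 hP1.disj) h (mem_insert_self _ _)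
  have hrP : r ∈ P := hP1.closed.1
  have hfr : f ≠ r := fun h => hfP (h ▸ hrP)
  have hfb' : f ≠ b := fun h => hfP (h ▸ hP1.mem)
  have haP : a ∈ P := hP1.closed.2 b hP1.mem hbr
  have hadjab : (gr T).Adj a b := s2_par R hbr
  have hadjbf : (gr T).Adj b f := by
    have := s2_par R hfr
    rwa [hfb] at this
  have hflip : sg T b a = !(sg T b f) := by
    rw [s2_flip hT.1 hadjab, hsg]
  -- richness
  obtain ⟨F', hF'F, hF'b, hF'g, hF'r⟩ := id hRich
  obtain ⟨E0, hE0F', hE0g, hE0b⟩ := (hclo W k T hT r R).2.2.1 F' f g hF'b hF'g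
  have hRoomf : ∃ E ⊆ F, E.card = g ∧ Below R E f ∧ f ∉ E :=
    ⟨E0, hE0F'.trans (hF'F.trans (subset_insert _ _)), hE0g, hE0b, hE0b.1⟩
  have hRichb : Rich R F b g := by
    refine ⟨insert f F', insert_subset_insert _ hF'F, ⟨?_, ?_, ?_⟩, ?_, ?_⟩
    · intro h
      exact hP1.below.1 (insert_subset_insert _ hF'F h)
    · intro h
      exact hP1.below.2.1 (insert_subset_insert _ hF'F h)
    · intro x hx
      rcases mem_insert.1 hx with rfl | hx
      · rw [hfb]; exact mem_insert_self _ _
      · exact mem_insert_of_mem (hF'b.2.2 x hx)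
    · exact hF'g.trans (card_le_card (subset_insert _ _))
    · intro t ht
      rcases mem_insert.1 ht with rfl | ht
      · obtain ⟨E, h1, h2, h3, -⟩ := hRoomf
        exact ⟨E, h1, h2, h3⟩
      · obtain ⟨E, h1, h2, h3⟩ := hF'r t ht
        exact ⟨E, h1.trans (subset_insert _ _), h2, h3⟩
  -- SL1 at `b` for embeddings that start with `S`
  have hsee : ∀ (S : Finset W) (φ0 : W → V), Cn (gr T) S → b ∈ S → S ⊆ P → IsEmb T D S φ0 →
      ∃ (N : Finset V) (Q : Finset W) (ψ : W → V), Clus D k m K both N ∧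
        Sees T D K g both R F b (φ0 b) N Q ψ ∧ ∀ x ∈ S, φ0 x ∉ Q.image ψ := by
    intro S φ0 hS hbS hSP h0
    obtain ⟨φ, hφ, hφS⟩ := s2_greedy hclo hB hP1.closed (subset_union_left.trans hP1.near) hS
      ⟨b, hbS⟩ hSP h0
    obtain ⟨N, Q, ψ, h1, h2, h3, -⟩ := hsl1 hclo p_sl0 V W D T k m K g both r R A Nr P b F hB hP1 hRichb φ hφ
    rw [hφS b hbS] at h2
    refine ⟨N, Q, ψ, h1, h2, fun x hx h => ?_⟩
    rw [← hφS x hx] at h
    exact (Finset.disjoint_left.1 h3) (mem_image_of_mem φ (hSP hx)) h
  -- the cluster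
  obtain ⟨v⟩ := hne
  obtain ⟨J, -, -, hJ, -, -⟩ := hsee {b} (fun _ => v) (Cn.single b) (mem_singleton_self b)
    (singleton_subset_iff.2 hP1.mem) (IsEmb.single hT.1.1 b v)
  have hcr := hJ.cr
  have hlo := hJ.lo
  have hhi := hJ.hi
  -- R1 and R2: vertices of `P_J` see a cluster equivalent to `J`, avoiding a given vertex if it is
  -- a neighbour in the direction of `a`
  have hR1 : ∀ y y', y' ∈ nb D (sg T b a) y → y ∈ PP D k K both (sg T b a) J →
      ∃ (N : Finset V) (Q : Finset W) (ψ : W → V), Clus D k m K both N ∧ Eqv k N J ∧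
        Sees T D K g both R F b y N Q ψ ∧ y' ∉ Q.image ψ := by
    intro y y' hy' hy
    have h0 := s2_pair hT.1 hG hB.hD hadjab.symm hy'
    have hval : (Function.update (fun _ : W => y) a y') b = y := by
      rw [Function.update_of_ne hadjab.ne.symm]
    obtain ⟨N, Q, ψ, h1, h2, h3⟩ := hsee (insert a {b}) _ (s2_Cpair hadjab.symm)
      (mem_insert_of_mem (mem_singleton_self b))
      (insert_subset haP (singleton_subset_iff.2 hP1.mem)) h0
    rw [hval] at h2
    have h4 := h3 a (mem_insert_self _ _)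
    rw [Function.update_self] at h4
    exact ⟨N, Q, ψ, h1, s2_R1 hclo hgz hsl2 heq hB hP1 hbr hPb hcard hJ h1 hy h2, h2, h4⟩
  have hR2 : ∀ y y', y ∈ PP D k K both (sg T b f) J →
      ∃ (Q : Finset W) (ψ : W → V), Sees T D K g both R F b y J Q ψ ∧ y' ∉ Q.image ψ := by
    intro y y' hy
    have h1 := s2_mem_PP.1 hy
    have h2 : 1 < (nb D (sg T b f) y ∩ core D K both J).card := by omega
    obtain ⟨z, hz, hzy⟩ := exists_mem_ne h2 y'
    rw [mem_inter] at hz
    have h0 := s2_pair hT.1 hG hB.hD hadjbf hz.1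
    obtain ⟨E, hE1, hE2, hE3, hE4⟩ := hRoomf
    refine ⟨{f}, Function.update (fun _ => y) f z, ⟨?_, ⟨?_, ?_, ?_⟩, ?_, ?_, f, ?_, ?_, E, hE1,
      hE2, hE3, ?_⟩, ?_⟩
    · exact singleton_subset_iff.2 (mem_insert_self _ _)
    · rw [mem_singleton]; exact fun h => hfb' h.symm
    · rw [mem_singleton]; exact fun h => hfr h.symm
    · intro x hx
      rw [mem_singleton] at hx
      rw [hx, hfb]
      exact mem_insert_self _ _
    · have e : (insert b {f} : Finset W) = insert f {b} := by
        ext x
        simp only [mem_insert, mem_singleton]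
        tauto
      rw [e]
      exact h0
    · rw [Function.update_of_ne hfb'.symm]
    · exact mem_insert_of_mem (mem_singleton_self f)
    · rw [Function.update_self]; exact hz.2
    · rw [Finset.disjoint_singleton_right]; exact hE4
    · rw [image_singleton, Function.update_self, mem_singleton]
      exact fun h => hzy h.symm
  -- every vertex has a neighbour in every direction
  have hnbne : ∀ s y, ∃ z, z ∈ nb D s y := by
    intro s y
    have h1 := hB.hκ s y
    have h2 : 0 < (nb D s y).card := by omega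
    exact card_pos.1 h2
  -- closedness
  have hclosed : ∀ y, (∃ s, y ∈ PP D k K both s J) → ∀ e, ∀ y' ∈ nb D e y,
      ∃ s, y' ∈ PP D k K both s J := by
    intro y hy e y' hy'
    by_contra hcon
    push Not at hcon
    have hyy : y' ≠ y := by
      rintro rfl
      exact notMem_nb_self hB.hD _ _ hy'
    by_cases hef : e = sg T b f
    · -- direction of `f`
      subst hef
      -- `y` sees a cluster equivalent to `J`
      have hyN : ∃ (N : Finset V) (Q : Finset W) (ψ : W → V), Clus D k m K both N ∧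
          Eqv k N J ∧ Sees T D K g both R F b y N Q ψ := by
        obtain ⟨s, hs⟩ := hy
        by_cases hsf : s = sg T b f
        · subst hsf
          obtain ⟨Q, ψ, h1, -⟩ := hR2 y y hs
          exact ⟨J, Q, ψ, hJ, (heq V D k m K both hB.hκ hB.hSg hB.hnum).2.1 J hJ, h1⟩
        · have hsa : s = sg T b a := by
            rw [hflip]
            cases s <;> cases h : sg T b f <;> simp_all
          subst hsa
          obtain ⟨z, hz⟩ := hnbne (sg T b a) y
          obtain ⟨N, Q, ψ, h1, h2, h3, -⟩ := hR1 y z hz hs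
          exact ⟨N, Q, ψ, h1, h2, h3⟩
      obtain ⟨N, Q, ψ, hN, hNJ, hsN⟩ := hyN
      -- an embedding of `P ∪ {f}`
      have h0 := s2_pair hT.1 hG hB.hD hadjbf hy'
      obtain ⟨φ, hφ, hφS⟩ := s2_greedy hclo hB hP2.closed (subset_union_left.trans hP2.near)
        (s2_Cpair hadjbf) ⟨f, mem_insert_self _ _⟩
        (insert_subset (mem_insert_self _ _) (singleton_subset_iff.2
          (mem_insert_of_mem hP1.mem))) h0
      have hφf : φ f = y' := by
        rw [hφS f (mem_insert_self _ _), Function.update_self]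
      have hφb : φ b = y := by
        rw [hφS b (mem_insert_of_mem (mem_singleton_self b)), Function.update_of_ne hfb'.symm]
      obtain ⟨N', Q', ψ', hN', hs', hd', -⟩ := hsl1 hclo p_sl0 V W D T k m K g both r R A Nr (insert f P) f
        F2 hB hP2 hRich φ hφ
      rw [hφf] at hs'
      have hyQ' : ∀ x ∈ Q', ψ' x ≠ y := by
        intro x hx h
        refine (Finset.disjoint_left.1 hd') (mem_image_of_mem φ (mem_insert_of_mem hP1.mem)) ?_
        rw [hφb, ← h]
        exact mem_image_of_mem ψ' hx
      obtain ⟨Q2, ψ2, hs2, -⟩ := hsl4 V W D T k m K g both r R F F2 b f hT hP1.below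
        (mem_insert_self _ _) hfb (subset_insert _ _) hP2.below y y' N' Q' ψ' hy' hyy hs' hyQ'
      have hNN' := hsl3 hclo hgz hsl2 heq V W D T k m K g both r R A Nr P b F hB hP1 (by omega)
        y N' N Q2 Q ψ2 ψ hN' hN hs2 hsN
      have hN'J : Eqv k N' J :=
        (heq V D k m K both hB.hκ hB.hSg hB.hnum).2.2.2 N' N J hN' hN hJ hNN' hNJ
      have hfin := s2_key hclo hgz hsl2 heq hout hB hP2 hJ hN' hN'J (S := {f})
        (φ0 := fun _ => y') (singleton_subset_iff.2 (mem_insert_self _ _))
        (mem_singleton_self f) (Cn.single f) (IsEmb.single hT.1.1 f y') hs' (by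
          intro x _ h
          obtain ⟨w, hw, hwy⟩ := mem_image.1 h
          have hψ' := hs'.2.2.1
          have hψf := hs'.2.2.2.1
          rw [← hψf] at hwy
          have := hψ'.inj w (mem_insert_of_mem hw) f (mem_insert_self _ _) hwy
          exact hs'.2.1.1 (this ▸ hw)) (fun _ _ _ _ _ s => hcon s)
      rw [card_insert_of_notMem hfP, card_singleton] at hfin
      omega
    · -- direction of `a`
      have hea : e = sg T b a := by
        rw [hflip]
        cases e <;> cases h : sg T b f <;> simp_all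
      subst hea
      have hyN : ∃ (N : Finset V) (Q : Finset W) (ψ : W → V), Clus D k m K both N ∧
          Eqv k N J ∧ Sees T D K g both R F b y N Q ψ ∧ y' ∉ Q.image ψ := by
        obtain ⟨s, hs⟩ := hy
        by_cases hsf : s = sg T b f
        · subst hsf
          obtain ⟨Q, ψ, h1, h2⟩ := hR2 y y' hs
          exact ⟨J, Q, ψ, hJ, (heq V D k m K both hB.hκ hB.hSg hB.hnum).2.1 J hJ, h1, h2⟩
        · have hsa : s = sg T b a := by
            rw [hflip]
            cases s <;> cases h : sg T b f <;> simp_all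
          subst hsa
          exact hR1 y y' hy' hs
      obtain ⟨N, Q, ψ, hN, hNJ, hsN, hy'Q⟩ := hyN
      have h0 := s2_pair hT.1 hG hB.hD hadjab.symm hy'
      have hval : (Function.update (fun _ : W => y) a y') b = y := by
        rw [Function.update_of_ne hadjab.ne.symm]
      have hvala : (Function.update (fun _ : W => y) a y') a = y' := Function.update_self _ _ _
      have hyQ : y ∉ Q.image ψ := by
        intro h
        obtain ⟨w, hw, hwy⟩ := mem_image.1 h
        rw [← hsN.2.2.2.1] at hwy
        have := hsN.2.2.1.inj w (mem_insert_of_mem hw) b (mem_insert_self _ _) hwy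
        exact hsN.2.1.1 (this ▸ hw)
      have hfin := s2_key hclo hgz hsl2 heq hout hB hP1 hJ hN hNJ (S := insert a {b})
        (φ0 := Function.update (fun _ : W => y) a y')
        (insert_subset haP (singleton_subset_iff.2 hP1.mem))
        (mem_insert_of_mem (mem_singleton_self b)) (s2_Cpair hadjab.symm) h0
        (by rw [hval]; exact hsN) (by
          intro x hx
          rcases mem_insert.1 hx with rfl | hx
          · rw [hvala]; exact hy'Q
          · rw [mem_singleton] at hx
            rw [hx, hval]; exact hyQ) (by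
          intro p hp t ht hadj s
          rcases mem_insert.1 hp with rfl | hp
          · rw [hvala]; exact hcon s
          · exfalso
            rw [mem_singleton] at hp
            subst hp
            rw [mem_sdiff, mem_insert, mem_singleton, not_or] at ht
            rcases s2_edge R hadj with ⟨-, h⟩ | ⟨h1, h2⟩
            · exact ht.2.1 h.symm
            · have h3 := hPb.2 t (mem_erase.2 ⟨ht.2.2, ht.1⟩) h1
              rw [h2] at h3
              exact notMem_erase _ _ h3)
      have h9 : (insert a {b} : Finset W).card ≤ 2 := by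
        have := card_insert_le a ({b} : Finset W)
        rw [card_singleton] at this
        omega
      omega
  -- everything is in `P_J`
  set PJ : Finset V := PP D k K both true J ∪ PP D k K both false J with hPJ
  have hmemPJ : ∀ y, y ∈ PJ ↔ ∃ s, y ∈ PP D k K both s J := by
    intro y
    rw [hPJ, mem_union]
    constructor
    · rintro (h | h)
      · exact ⟨_, h⟩
      · exact ⟨_, h⟩
    · rintro ⟨s, h⟩
      cases s
      · exact Or.inr h
      · exact Or.inl h
  have hcore : (core D K both J).Nonempty := by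
    rw [nonempty_iff_ne_empty]
    intro h
    rw [h, sdiff_empty] at hcr
    omega
  obtain ⟨x0, hx0⟩ := hcore
  have hx0P : x0 ∈ PJ := by
    rw [hmemPJ]
    refine ⟨true, s2_mem_PP.2 ?_⟩
    have h1 := s2_cntCore hB.hκ hx0 true
    omega
  have huniv : PJ = univ := by
    refine hConn PJ ⟨x0, hx0P⟩ ?_
    intro x hx e y hy
    rw [hmemPJ] at hx ⊢
    exact hclosed x hx e y hy
  have hot := hout V D k m K both true J hk1 trivial hJ
  have hof := hout V D k m K both false J hk1 trivial hJ
  have h1 : (univ : Finset V) ⊆ J ∪ ((PP D k K both true J \ J) ∪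
      (PP D k K both false J \ J)) := by
    intro w hw
    rw [← huniv, hPJ, mem_union] at hw
    by_cases hwJ : w ∈ J
    · exact mem_union_left _ hwJ
    · refine mem_union_right _ ?_
      rcases hw with h | h
      · exact mem_union_left _ (mem_sdiff.2 ⟨h, hwJ⟩)
      · exact mem_union_right _ (mem_sdiff.2 ⟨h, hwJ⟩)
  have h2 := card_le_card h1
  have h3 := card_union_le J ((PP D k K both true J \ J) ∪ (PP D k K both false J \ J))
  have h4 := card_union_le (PP D k K both true J \ J) (PP D k K both false J \ J)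
  rw [card_univ] at h2
  omega

end Pool.Agent.Lib.MP_47458b_co.DU
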