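import Pool.Agent.Lib.MP_47458b_co.DU.P_sl0

/-!
Project DU, piece S3 (helper19): Section 6, the antidirected part.
-/

namespace Pool.Agent.Lib.MP_47458b_co.DU

set_option linter.unusedSectionVars false

open Finset

section S3

variable {V W : Type} [Fintype V] [DecidableEq V] [Fintype W] [DecidableEq W]

private theorem s3_sg_symm {T : Digraph W} (hT : IsOrientedGraph T) {a b : W}
    (h : (gr T).Adj a b) : sg T b a = !(sg T a b) := by
  simp only [gr, Digraph.toSimpleGraphInclusive, SimpleGraph.fromRel_adj] at h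
  obtain ⟨hne, h | h⟩ := h
  · have h1 : ¬ T.Adj b a := hT.2 _ _ h
    simp [sg, h, h1]
  · have h1 : ¬ T.Adj a b := hT.2 _ _ h
    simp [sg, h, h1]

/-- Embedding of an edge. -/
private theorem s3_edge {D : Digraph V} {T : Digraph W} (hT : IsOrientedGraph T) {b c : W}
    (hcb : c ≠ b) {y z : V} (hz : z ∈ nb D (sg T b c) y) (hzy : z ≠ y) :
    IsEmb T D (insert b {c}) (Function.update (fun _ => y) c z) := by
  have h1 : Function.update (fun _ : W => y) c z c = z := Function.update_self _ _ _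
  have h2 : Function.update (fun _ : W => y) c z b = y := Function.update_of_ne hcb.symm _ _
  constructor
  · intro a ha d hd had
    rw [mem_insert, mem_singleton] at ha hd
    rcases ha with rfl | rfl <;> rcases hd with rfl | rfl
    · rfl
    · rw [h1, h2] at had; exact absurd had.symm hzy
    · rw [h1, h2] at had; exact absurd had hzy
    · rfl
  · intro a ha d hd had
    rw [mem_insert, mem_singleton] at ha hd
    rcases ha with rfl | rfl <;> rcases hd with rfl | rfl
    · exact absurd had (hT.1 _)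
    · rw [h1, h2]
      have hs : sg T a d = true := by simp only [sg, decide_eq_true_eq]; exact had
      rw [hs, mem_nb_true] at hz
      exact hz
    · rw [h1, h2]
      have hs : sg T d a = false := by
        simp only [sg, decide_eq_false_iff_not]
        exact fun h' => hT.2 _ _ h' had
      rw [hs, mem_nb_false] at hz
      exact hz
    · exact absurd had (hT.1 _)

/-- (a) -/
private theorem s3_see {D : Digraph V} {T : Digraph W} {K g : ℕ} {Sg : Bool → Prop} {r : W}
    {R : Up.Rooted T r} {F E : Finset W} {b c : W} {J : Finset V} {y z : V}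
    (hT : IsOrientedGraph T) (hF : Below R F b) (hc : c ∈ F) (hpc : R.par c = b)
    (hz : z ∈ nb D (sg T b c) y) (hzJ : z ∈ core D K Sg J) (hzy : z ≠ y)
    (hE : E ⊆ F) (hEc : E.card = g) (hEb : Below R E c) :
    Sees T D K g Sg R F b y J {c} (Function.update (fun _ => y) c z) := by
  have hcb : c ≠ b := fun h => hF.1 (h ▸ hc)
  refine ⟨singleton_subset_iff.2 hc, ⟨?_, ?_, ?_⟩, s3_edge hT hcb hz hzy,
    Function.update_of_ne hcb.symm _ _, c, mem_insert_of_mem (mem_singleton_self c), ?_, E, hE,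
    hEc, hEb, ?_⟩
  · rw [mem_singleton]; exact hcb.symm
  · rw [mem_singleton]; rintro rfl; exact hF.2.1 hc
  · intro x hx
    rw [mem_singleton] at hx
    rw [hx, hpc]; exact mem_insert_self _ _
  · rw [Function.update_self]; exact hzJ
  · rw [disjoint_singleton_right]; exact hEb.1

/-- The choice sets in (b). -/
private theorem s3_deg {D : Digraph V} {k m K q n : ℕ} (hout : S_out)
    (hκ : ∀ s x, k ≤ (nb D s x).card + m) (hnum : 1000 * (m + 30 * K + 1) ≤ k)
    {J X : Finset V} (hJ : Clus D k m K both J) (hX : X.card ≤ q) (hq : 200 * q ≤ k)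
    (hn : 200 * n ≤ k) {s s' : Bool} {x : V} (hx : x ∉ PP D k K both s J) :
    n ≤ (nb D s x ∩ (univ \ (PP D k K both s' J ∪ J ∪ X))).card := by
  classical
  have h1 : 10 * (nb D s x ∩ core D K both J).card < k := by
    rw [PP, mem_filter] at hx
    by_contra hcon
    exact hx ⟨mem_univ _, by omega⟩
  have h2 : nb D s x ⊆ (nb D s x ∩ (univ \ (PP D k K both s' J ∪ J ∪ X))) ∪
      ((nb D s x ∩ core D K both J) ∪ ((J \ core D K both J) ∪
        ((PP D k K both s' J \ J) ∪ X))) := by
    intro z hz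
    by_cases hzJ : z ∈ J
    · by_cases hzc : z ∈ core D K both J
      · exact mem_union_right _ (mem_union_left _ (mem_inter.2 ⟨hz, hzc⟩))
      · exact mem_union_right _ (mem_union_right _ (mem_union_left _ (mem_sdiff.2 ⟨hzJ, hzc⟩)))
    · by_cases hzX : z ∈ X
      · exact mem_union_right _ (mem_union_right _ (mem_union_right _ (mem_union_right _ hzX)))
      · by_cases hzP : z ∈ PP D k K both s' J
        · exact mem_union_right _ (mem_union_right _ (mem_union_right _
            (mem_union_left _ (mem_sdiff.2 ⟨hzP, hzJ⟩))))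
        · refine mem_union_left _ (mem_inter.2 ⟨hz, mem_sdiff.2 ⟨mem_univ _, ?_⟩⟩)
          intro h
          rcases mem_union.1 h with h | h
          · rcases mem_union.1 h with h | h
            · exact hzP h
            · exact hzJ h
          · exact hzX h
  have h3 := card_le_card h2
  have h4 := card_union_le (nb D s x ∩ (univ \ (PP D k K both s' J ∪ J ∪ X)))
    ((nb D s x ∩ core D K both J) ∪ ((J \ core D K both J) ∪ ((PP D k K both s' J \ J) ∪ X)))
  have h5 := card_union_le (nb D s x ∩ core D K both J)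
    ((J \ core D K both J) ∪ ((PP D k K both s' J \ J) ∪ X))
  have h6 := card_union_le (J \ core D K both J) ((PP D k K both s' J \ J) ∪ X)
  have h7 := card_union_le (PP D k K both s' J \ J) X
  have h8 := hκ s x
  have h9 := hJ.cr
  have h10 : (PP D k K both s' J \ J).card ≤ 10 * K :=
    hout V D k m K both s' J (by omega) trivial hJ
  omega

/-- (b) -/
private theorem s3_b (hclo : S_clo) (hgz : S_gz) (heq : S_eq) (hsl2 : S_sl2) (hout : S_out)
    {D : Digraph V} {T : Digraph W} {k m K g : ℕ} {r : W}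
    {R : Up.Rooted T r} {A Nr P M : Finset W} {b : W} {F : Finset W} {ty : W → Bool}
    (hB : Base T D k m K g both R A Nr) (hPos : Pos T both R A Nr P b F)
    (hMP : M ⊆ P) (hbM : b ∈ M) (hM : Cn (gr T) M) (hMc : 4 * m + 4 * K + 10 ≤ M.card)
    (hty : ∀ x ∈ M, ∀ x' ∈ M, (gr T).Adj x x' → sg T x x' = ty x)
    {J N : Finset V} (hJ : Clus D k m K both J) (hN : Clus D k m K both N) {y : V}
    {Q : Finset W} {ψ : W → V} (hS : Sees T D K g both R F b y N Q ψ)
    (hy : y ∉ PP D k K both (ty b) J) : ¬ Eqv k N J := by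
  intro hE
  have hSees := hS
  obtain ⟨hQF, hQb, hQe, hQy, -⟩ := hS
  have hNr := hB.hNr
  have hnum := hB.hnum
  have hPN : P ⊆ Nr := fun x hx => hPos.near (mem_union_left _ hx)
  have hFN : F ⊆ Nr := fun x hx => hPos.near (mem_union_right _ hx)
  have hPc : P.card ≤ Nr.card := card_le_card hPN
  have hQc : Q.card ≤ Nr.card := card_le_card (hQF.trans hFN)
  have hMPc : M.card ≤ P.card := card_le_card hMP
  have hT := hB.hT
  have hac : (gr T).IsAcyclic := hT.2.1.isAcyclic
  have hCn := (hclo W k T hT r R).1 P hPos.closed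
  have hQi : (Q.image ψ).card ≤ Nr.card := card_image_le.trans hQc
  obtain ⟨φ1, hφ1, hφ1b, hφ1r⟩ := hgz V W D T hT.1 hac {b} M (fun _ => y)
    (fun t => univ \ (PP D k K both (ty t) J ∪ J ∪ Q.image ψ))
    (Cn.single b) hM ⟨b, mem_singleton_self b⟩ (singleton_subset_iff.2 hbM)
    (IsEmb.single hT.1.1 b y)
    (by
      intro p hp t ht hadj
      rw [mem_singleton] at hp
      subst hp
      rw [hty p hbM t (mem_sdiff.1 ht).1 hadj]
      exact s3_deg hout hB.hκ hnum hJ hQi hNr (by omega) hy)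
    (by
      intro p hp t ht hadj x hx
      rw [hty p (mem_sdiff.1 hp).1 t (mem_sdiff.1 ht).1 hadj]
      refine s3_deg hout hB.hκ hnum hJ hQi hNr (by omega) ?_
      intro h
      exact (mem_sdiff.1 hx).2 (mem_union_left _ (mem_union_left _ h)))
  have hdeg : ∀ s x, P.card ≤ (nb D s x ∩ (univ \ Q.image ψ)).card := by
    intro s x
    have h1 : (nb D s x).card ≤ (nb D s x ∩ (univ \ Q.image ψ)).card + (Q.image ψ).card := by
      have : nb D s x ⊆ (nb D s x ∩ (univ \ Q.image ψ)) ∪ Q.image ψ := by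
        intro z hz
        by_cases hzB : z ∈ Q.image ψ
        · exact mem_union_right _ hzB
        · exact mem_union_left _ (mem_inter.2 ⟨hz, mem_sdiff.2 ⟨mem_univ _, hzB⟩⟩)
      exact (card_le_card this).trans (card_union_le _ _)
    have h2 := hB.hκ s x
    omega
  obtain ⟨φ, hφ, hφM, hφr⟩ := hgz V W D T hT.1 hac M P φ1 (fun _ => univ \ Q.image ψ)
    hM hCn ⟨b, hbM⟩ hMP hφ1 (fun p _ t _ _ => hdeg _ _) (fun p _ t _ _ x _ => hdeg _ _)
  have hφy : φ b = y := by rw [hφM b hbM, hφ1b b (mem_singleton_self b)]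
  have hMout : ∀ x ∈ M, x ≠ b → φ x ∉ J ∧ φ x ∉ Q.image ψ := by
    intro x hx hxb
    have h1 := hφ1r x (mem_sdiff.2 ⟨hx, fun h => hxb (mem_singleton.1 h)⟩)
    rw [← hφM x hx] at h1
    have h2 := (mem_sdiff.1 h1).2
    exact ⟨fun h => h2 (mem_union_left _ (mem_union_right _ h)),
      fun h => h2 (mem_union_right _ h)⟩
  have hdis : Disjoint (P.image φ) (Q.image ψ) := by
    rw [disjoint_left]
    intro z hz hzQ
    obtain ⟨x, hx, rfl⟩ := mem_image.1 hz
    by_cases hxb : x = b
    · obtain ⟨q, hq, hqe⟩ := mem_image.1 hzQ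
      rw [hxb, hφy, ← hQy] at hqe
      have := hQe.inj q (mem_insert_of_mem hq) b (mem_insert_self _ _) hqe
      exact hQb.1 (this ▸ hq)
    · by_cases hxM : x ∈ M
      · exact (hMout x hxM hxb).2 hzQ
      · have := hφr x (mem_sdiff.2 ⟨hx, hxM⟩)
        exact (mem_sdiff.1 this).2 hzQ
  have h1 := hsl2 heq V W D T k m K g both r R A Nr P b F hB hPos φ N Q ψ hφ hN
    (by rw [hφy]; exact hSees) hdis
  have h2 := (heq V D k m K both hB.hκ hB.hSg hnum).1 N J hN hJ hE
  have h3 : (M.image φ).erase y ⊆ ((P.image φ) \ N) ∪ (N \ J) := by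
    intro z hz
    obtain ⟨hzy, hz⟩ := mem_erase.1 hz
    obtain ⟨x, hx, rfl⟩ := mem_image.1 hz
    have hxb : x ≠ b := fun h => hzy (by rw [h, hφy])
    have hnJ := (hMout x hx hxb).1
    by_cases hzN : φ x ∈ N
    · exact mem_union_right _ (mem_sdiff.2 ⟨hzN, hnJ⟩)
    · exact mem_union_left _ (mem_sdiff.2 ⟨mem_image_of_mem φ (hMP hx), hzN⟩)
  have h4 := (card_le_card h3).trans (card_union_le _ _)
  have h5 : (M.image φ).card = M.card := by
    apply card_image_of_injOn
    intro a ha c hc hac'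
    exact hφ.inj a (hMP ha) c (hMP hc) hac'
  have h6 : y ∈ M.image φ := mem_image.2 ⟨b, hbM, hφy⟩
  rw [card_erase_of_mem h6, h5] at h4
  omega

end S3

theorem p_s3 : S_s3 := by
  intro hclo hgz heq hsl1 hsl2 hsl3 hsl4 hout V W _ _ _ _ D T k m K g r R A Nr P M b f f2 F2 ty
    hB hPos hPos2 hpf hf2 hpf2 hRich hRoom hMP hbM hM hMc hty htb htf htn v
  classical
  have hNr := hB.hNr
  have hnum := hB.hnum
  have hT := hB.hT
  have hor := hT.1
  have hac : (gr T).IsAcyclic := hT.2.1.isAcyclic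
  have hD := hB.hD
  set F : Finset W := insert f F2 with hF
  have hfP : f ∉ P := fun h => disjoint_left.1 hPos.disj h (mem_insert_self _ _)
  have hfb : f ≠ b := fun h => hfP (h ▸ hPos.mem)
  have hF2F : F2 ⊆ F := subset_insert _ _
  have hfF : f ∈ F := mem_insert_self _ _
  have hfr : f ≠ r := fun h => hPos.below.2.1 (h ▸ hfF)
  have hadj : (gr T).Adj b f := by
    simp only [gr, Digraph.toSimpleGraphInclusive, SimpleGraph.fromRel_adj]
    have := R.adj_par f hfr
    rw [hpf] at this
    exact ⟨hfb.symm, this⟩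
  have hPc2 : (insert f P).card ≤ Nr.card :=
    card_le_card fun x hx => hPos2.near (mem_union_left _ hx)
  have hPc : P.card ≤ Nr.card := (card_le_card (subset_insert _ _)).trans hPc2
  have hMPc : M.card ≤ P.card := card_le_card hMP
  have hCn := (hclo W k T hT r R).1 P hPos.closed
  have hCn2 := (hclo W k T hT r R).1 (insert f P) hPos2.closed
  have hdeg : ∀ n, 200 * n ≤ k → ∀ s x, n ≤ (nb D s x ∩ univ).card := by
    intro n hn s x
    have := hB.hκ s x
    rw [inter_univ]
    omega
  -- embeddings with prescribed images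
  have hembP : ∀ y, ∃ φ : W → V, IsEmb T D P φ ∧ φ b = y := by
    intro y
    obtain ⟨φ, hφ, hφb, -⟩ := hgz V W D T hT.1 hac {b} P (fun _ => y) (fun _ => univ)
      (Cn.single b) hCn ⟨b, mem_singleton_self b⟩ (singleton_subset_iff.2 hPos.mem)
      (IsEmb.single hT.1.1 b y) (fun p _ t _ _ => hdeg _ (by omega) _ _)
      (fun p _ t _ _ x _ => hdeg _ (by omega) _ _)
    exact ⟨φ, hφ, hφb b (mem_singleton_self b)⟩
  have hembP2 : ∀ y y', y' ∈ nb D (ty b) y → ∃ φ : W → V, IsEmb T D (insert f P) φ ∧ φ b = y ∧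
      φ f = y' := by
    intro y y' hy'
    have hne : y' ≠ y := fun h => notMem_nb_self hD (ty b) y (h ▸ hy')
    have he := s3_edge hor hfb (D := D) (y := y) (z := y') (by rw [htb]; exact hy') hne
    obtain ⟨φ, hφ, hφb, -⟩ := hgz V W D T hT.1 hac (insert b {f}) (insert f P)
      (Function.update (fun _ => y) f y') (fun _ => univ)
      ((Cn.single f).insert (mem_singleton_self f) hadj.symm) hCn2 ⟨b, mem_insert_self _ _⟩
      (insert_subset (mem_insert_of_mem hPos.mem)
        (singleton_subset_iff.2 (mem_insert_self _ _))) he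
      (fun p _ t _ _ => hdeg _ (by omega) _ _)
      (fun p _ t _ _ x _ => hdeg _ (by omega) _ _)
    refine ⟨φ, hφ, ?_, ?_⟩
    · rw [hφb b (mem_insert_self _ _)]; exact Function.update_of_ne hfb.symm _ _
    · rw [hφb f (mem_insert_of_mem (mem_singleton_self f))]; exact Function.update_self _ _ _
  -- richness of `F`
  obtain ⟨F', hF'F2, hF'b, hF'c, hF'r⟩ := id hRich
  obtain ⟨E0, hE0F', hE0c, hE0b⟩ := (hclo W k T hT r R).2.2.1 F' f g hF'b hF'c
  have hRichF : Rich R F b g := by
    refine ⟨insert f F', insert_subset_insert _ hF'F2, ⟨?_, ?_, ?_⟩, ?_, ?_⟩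
    · intro h
      exact hPos.below.1 (insert_subset_insert _ hF'F2 h)
    · intro h
      exact hPos.below.2.1 (insert_subset_insert _ hF'F2 h)
    · intro x hx
      rcases mem_insert.1 hx with rfl | hx
      · rw [hpf]; exact mem_insert_self _ _
      · exact mem_insert_of_mem (hF'b.2.2 x hx)
    · exact hF'c.trans (card_le_card (subset_insert _ _))
    · intro t ht
      rcases mem_insert.1 ht with rfl | ht
      · exact ⟨E0, (hE0F'.trans hF'F2).trans hF2F, hE0c, hE0b⟩
      · obtain ⟨E, h1, h2, h3⟩ := hF'r t ht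
        exact ⟨E, h1.trans hF2F, h2, h3⟩
  -- (a)
  have ha1 : ∀ J, ∀ y ∈ PP D k K both (ty b) J, ∃ (Q : Finset W) (ψ : W → V),
      Sees T D K g both R F b y J Q ψ := by
    intro J y hy
    rw [PP, mem_filter] at hy
    obtain ⟨z, hz⟩ : (nb D (ty b) y ∩ core D K both J).Nonempty := by
      rw [← card_pos]; have := hy.2; omega
    rw [mem_inter] at hz
    have hne : z ≠ y := fun h => notMem_nb_self hD (ty b) y (h ▸ hz.1)
    exact ⟨_, _, s3_see hor hPos.below hfF hpf (by rw [htb]; exact hz.1) hz.2 hne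
      ((hE0F'.trans hF'F2).trans hF2F) hE0c hE0b⟩
  have ha2 : ∀ J, ∀ y ∈ PP D k K both (ty f) J, ∃ (Q : Finset W) (ψ : W → V),
      Sees T D K g both R F2 f y J Q ψ := by
    intro J y hy
    rw [PP, mem_filter] at hy
    obtain ⟨z, hz⟩ : (nb D (ty f) y ∩ core D K both J).Nonempty := by
      rw [← card_pos]; have := hy.2; omega
    rw [mem_inter] at hz
    have hne : z ≠ y := fun h => notMem_nb_self hD (ty f) y (h ▸ hz.1)
    obtain ⟨E, h1, h2, h3⟩ := hRoom
    exact ⟨_, _, s3_see hor hPos2.below hf2 hpf2 (by rw [htf]; exact hz.1) hz.2 hne h1 h2 h3⟩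
  -- (b)
  have hb1 : ∀ J N, Clus D k m K both J → Clus D k m K both N → ∀ y Q ψ,
      Sees T D K g both R F b y N Q ψ → y ∉ PP D k K both (ty b) J → ¬ Eqv k N J :=
    fun J N hJ hN y Q ψ hS hy =>
      s3_b hclo hgz heq hsl2 hout hB hPos hMP hbM hM hMc hty hJ hN hS hy
  have hMf : ∀ x ∈ M, (gr T).Adj x f → x = b := fun x hx hxf =>
    Cn.unique hac hCn (hMP hx) hPos.mem hfP hxf hadj
  have hty2 : ∀ x ∈ insert f M, ∀ x' ∈ insert f M, (gr T).Adj x x' → sg T x x' = ty x := by
    intro x hx x' hx' hxx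
    rcases mem_insert.1 hx with h2 | h2 <;> rcases mem_insert.1 hx' with h3 | h3
    · exact absurd (h2.trans h3.symm) hxx.ne
    · rw [h2] at hxx ⊢
      have h1 := hMf x' h3 hxx.symm
      rw [h1] at hxx ⊢
      rw [s3_sg_symm hor hxx.symm, htb, htn]
    · rw [h3] at hxx ⊢
      rw [hMf x h2 hxx]
      exact htb
    · exact hty x h2 x' h3 hxx
  have hb2 : ∀ J N, Clus D k m K both J → Clus D k m K both N → ∀ y Q ψ,
      Sees T D K g both R F2 f y N Q ψ → y ∉ PP D k K both (ty f) J → ¬ Eqv k N J :=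
    fun J N hJ hN y Q ψ hS hy =>
      s3_b hclo hgz heq hsl2 hout hB hPos2 (insert_subset_insert _ hMP) (mem_insert_self _ _)
        (hM.insert hbM hadj) (hMc.trans (card_le_card (subset_insert _ _))) hty2 hJ hN hS hy
  -- (c)
  have hc : ∀ J, Clus D k m K both J → ∀ y y', y' ∈ nb D (ty b) y →
      (y ∈ PP D k K both (ty b) J ↔ y' ∈ PP D k K both (!(ty b)) J) := by
    intro J hJ y y' hy'
    rw [← htn]
    have hne : y' ≠ y := fun h => notMem_nb_self hD (ty b) y (h ▸ hy')
    obtain ⟨φ, hφ, hφb, hφf⟩ := hembP2 y y' hy'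
    obtain ⟨N', Q, ψ, hN', hS', hdis, -⟩ := hsl1 hclo p_sl0 V W D T k m K g both r R A Nr
      (insert f P) f F2 hB hPos2 hRich φ hφ
    rw [hφf] at hS'
    have hyQ : ∀ x ∈ Q, ψ x ≠ y := by
      intro x hx h
      refine disjoint_left.1 hdis (mem_image.2 ⟨b, mem_insert_of_mem hPos.mem, hφb⟩) ?_
      rw [← h]; exact mem_image_of_mem ψ hx
    obtain ⟨Q', ψ', hS'', -⟩ := hsl4 V W D T k m K g both r R F F2 b f hT hPos.below hfF hpf
      hF2F hPos2.below y y' N' Q ψ (by rw [htb]; exact hy') hne hS' hyQ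
    constructor
    · intro hy
      by_contra hcon
      obtain ⟨Q1, ψ1, hS1⟩ := ha1 J y hy
      have h1 := hsl3 hclo hgz hsl2 heq V W D T k m K g both r R A Nr P b F hB hPos (by omega)
        y N' J Q' Q1 ψ' ψ1 hN' hJ hS'' hS1
      exact hb2 J N' hJ hN' y' Q ψ hS' hcon h1
    · intro hy1
      by_contra hcon
      obtain ⟨Q1, ψ1, hS1⟩ := ha2 J y' hy1
      have h1 := hsl3 hclo hgz hsl2 heq V W D T k m K g both r R A Nr (insert f P) f F2 hB hPos2
        ((by omega : 4 * m + 4 * K + 4 ≤ P.card).trans (card_le_card (subset_insert _ _)))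
        y' N' J Q Q1 ψ ψ1 hN' hJ hS' hS1
      exact hb1 J N' hJ hN' y Q' ψ' hS'' hcon h1
  -- the vertex `v`
  obtain ⟨φ, hφ, hφb⟩ := hembP v
  obtain ⟨J, Q, ψ, hJ, hS, -, -⟩ := hsl1 hclo p_sl0 V W D T k m K g both r R A Nr P b F hB hPos
    hRichF φ hφ
  rw [hφb] at hS
  refine ⟨J, hJ, ?_, hc J hJ⟩
  by_contra hcon
  exact hb1 J J hJ hJ v Q ψ hS hcon ((heq V D k m K both hB.hκ hB.hSg hnum).2.1 J hJ)

end Pool.Agent.Lib.MP_47458b_co.DU
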