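import Pool.Agent.Lib.MP_47458b_co.DU.Stm

namespace Pool.Agent.Lib.MP_47458b_co.DU

open Finset

theorem p_sel : S_sel := by
  classical
  intro W _ _ T Δ n hΔ S C hS hC
  induction n with
  | zero =>
    refine ⟨∅, empty_subset _, rfl, disjoint_empty_right _, ?_⟩
    rwa [union_empty]
  | succ n ih =>
    obtain ⟨I, hIC, hIc, hSI, hsep⟩ := ih (by nlinarith [Nat.zero_le (1 + Δ + Δ * Δ)])
    set U := S ∪ I with hU
    have hUc : U.card = n + S.card := by
      rw [hU, card_union_of_disjoint hSI, hIc]; ring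
    set bad : Finset W := U.biUnion (fun a => {a} ∪ nbT T a ∪ (nbT T a).biUnion (nbT T)) with hbad
    have hbc : bad.card ≤ (n + S.card) * (1 + Δ + Δ * Δ) := by
      rw [← hUc]
      refine (card_biUnion_le_card_mul _ _ _ fun a _ => ?_)
      have h1 := card_union_le ({a} ∪ nbT T a) ((nbT T a).biUnion (nbT T))
      have h2 := card_union_le ({a} : Finset W) (nbT T a)
      have h3 : ((nbT T a).biUnion (nbT T)).card ≤ (nbT T a).card * Δ :=
        card_biUnion_le_card_mul _ _ _ fun c _ => hΔ c
      have h4 := hΔ a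
      have h5 : (nbT T a).card * Δ ≤ Δ * Δ := Nat.mul_le_mul_right _ h4
      rw [card_singleton] at h2
      omega
    obtain ⟨x, hx, hxb⟩ : ∃ x ∈ C, x ∉ bad := by
      by_contra hcon
      push Not at hcon
      have h1 := card_le_card (show C ⊆ bad from hcon)
      have h2 : (n + 1 + S.card) * (1 + Δ + Δ * Δ) =
          (n + S.card) * (1 + Δ + Δ * Δ) + (1 + Δ + Δ * Δ) := by ring
      omega
    have hxb' : ∀ a ∈ U, a ≠ x ∧ ¬ (gr T).Adj a x ∧ ∀ c, (gr T).Adj a c → ¬ (gr T).Adj c x := by
      intro a ha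
      refine ⟨?_, ?_, ?_⟩
      · rintro rfl
        exact hxb (mem_biUnion.2 ⟨a, ha, mem_union_left _ (mem_union_left _
          (mem_singleton_self _))⟩)
      · intro h
        refine hxb (mem_biUnion.2 ⟨a, ha, mem_union_left _ (mem_union_right _ ?_)⟩)
        rw [nbT, mem_filter]
        exact ⟨mem_univ _, h⟩
      · intro c hc h
        refine hxb (mem_biUnion.2 ⟨a, ha, mem_union_right _ (mem_biUnion.2 ⟨c, ?_, ?_⟩)⟩)
        · rw [nbT, mem_filter]
          exact ⟨mem_univ _, hc⟩
        · rw [nbT, mem_filter]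
          exact ⟨mem_univ _, h⟩
    have hxU : x ∉ U := fun h => (hxb' x h).1 rfl
    refine ⟨insert x I, insert_subset hx hIC, ?_, ?_, ?_⟩
    · rw [card_insert_of_notMem (fun h => hxU (mem_union_right _ h)), hIc]
    · rw [disjoint_insert_right]
      exact ⟨fun h => hxU (mem_union_left _ h), hSI⟩
    · rw [union_insert]
      intro a ha b hb hab
      rw [mem_insert] at ha hb
      rcases ha with rfl | ha <;> rcases hb with rfl | hb
      · exact absurd rfl hab
      · obtain ⟨h1, h2, h3⟩ := hxb' b hb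
        exact ⟨fun h => h2 h.symm, fun c hc hbc => h3 c hbc hc.symm⟩
      · obtain ⟨h1, h2, h3⟩ := hxb' a ha
        exact ⟨h2, fun c hc hbc => h3 c hc hbc.symm⟩
      · exact hsep a ha b hb hab

end Pool.Agent.Lib.MP_47458b_co.DU
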