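import Pool.Agent.Lib.MP_47458b_co.DU.Stm

/-!
Project DU, piece SH: (7.1), the shifted path.
-/

namespace Pool.Agent.Lib.MP_47458b_co.DU

open Finset

private theorem sh_trans {W : Type} {T : Digraph W} {r : W} {R : Up.Rooted T r} {a b c : W}
    (h1 : Desc R a b) (h2 : Desc R b c) : Desc R a c := by
  induction h2 with
  | refl => exact h1
  | step hx _ ih => exact Desc.step hx ih

private theorem sh_dep {W : Type} {T : Digraph W} {r : W} {R : Up.Rooted T r} {a c : W}
    (h : Desc R a c) : R.dep a ≤ R.dep c := by
  induction h with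
  | refl => exact le_rfl
  | @step x hx _ ih => exact ih.trans (R.dep_par x hx).le

private theorem sh_dep_lt {W : Type} {T : Digraph W} {r : W} {R : Up.Rooted T r} {a c : W}
    (h : Desc R a c) (hne : c ≠ a) : c ≠ r ∧ Desc R a (R.par c) := by
  cases h with
  | refl => exact absurd rfl hne
  | step hx h' => exact ⟨hx, h'⟩

/-- Two ancestors of the same vertex are comparable. -/
private theorem sh_chain {W : Type} {T : Digraph W} {r : W} {R : Up.Rooted T r} {a b c : W}
    (h1 : Desc R a c) (h2 : Desc R b c) : Desc R a b ∨ Desc R b a := by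
  induction h1 with
  | refl => exact Or.inr h2
  | @step x hx h1' ih =>
    cases h2 with
    | refl => exact Or.inl (Desc.step hx h1')
    | step _ h2' => exact ih h2'

/-- Two different ancestors of the same vertex have different parents. -/
private theorem sh_par_inj {W : Type} {T : Digraph W} {r : W} {R : Up.Rooted T r} {a b c : W}
    (h1 : Desc R a c) (h2 : Desc R b c) (har : a ≠ r) (hbr : b ≠ r) (hp : R.par a = R.par b) :
    a = b := by
  by_contra hne
  rcases sh_chain h1 h2 with h | h
  · have h3 := sh_dep (sh_dep_lt h (Ne.symm hne)).2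
    have h4 := R.dep_par a har
    rw [← hp] at h3
    omega
  · have h3 := sh_dep (sh_dep_lt h hne).2
    have h4 := R.dep_par b hbr
    rw [hp] at h3
    omega

/-- Elements below `b` are deeper than `b`. -/
private theorem sh_below_dep {W : Type} [DecidableEq W] {T : Digraph W} {r : W}
    {R : Up.Rooted T r} {F : Finset W} {b : W} (h : Below R F b) :
    ∀ n : ℕ, ∀ x ∈ F, R.dep x ≤ n → R.dep b < R.dep x := by
  intro n
  induction n with
  | zero =>
    intro x hx hd
    have h1 := R.dep_par x (fun h' => h.2.1 (h' ▸ hx))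
    omega
  | succ n ih =>
    intro x hx hd
    have h1 := R.dep_par x (fun h' => h.2.1 (h' ▸ hx))
    rcases mem_insert.1 (h.2.2 x hx) with h2 | h2
    · rw [h2] at h1; exact h1
    · have := ih (R.par x) h2 (by omega)
      omega

/-- In a nonempty set below `b` there is a child of `b`. -/
private theorem sh_child {W : Type} [DecidableEq W] {T : Digraph W} {r : W}
    {R : Up.Rooted T r} {F : Finset W} {b : W} (h : Below R F b) (hne : F.Nonempty) :
    ∃ x ∈ F, R.par x = b := by
  obtain ⟨x, hx, hmin⟩ := exists_min_image F R.dep hne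
  refine ⟨x, hx, ?_⟩
  rcases mem_insert.1 (h.2.2 x hx) with h2 | h2
  · exact h2
  · have h1 := R.dep_par x (fun h' => h.2.1 (h' ▸ hx))
    have h3 := hmin _ h2
    omega

/-- **SH.** -/
theorem p_sh : S_sh := by
  intro hclo hsl0 V W _ _ _ _ D T k m K g s0 r R A Nr P b F hB hP hS φ hφ
  classical
  obtain ⟨F', hF', hbel, hgF', hrich⟩ := hS
  obtain ⟨N, Q, ψ, t, hN, hQF', hQb, htQ, hQd, hQdep, hemb, hψb, hψt, hdisj, -⟩ :=
    hsl0 hclo V W D T k m K g (fun s => s = s0) r R A Nr P b F hB hP F' hF' hbel hgF' φ hφ
  have hbelF := hP.below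
  have hQF : Q ⊆ F := hQF'.trans hF'
  have hQr : ∀ x ∈ Q, x ≠ r := fun x hx h => hQb.2.1 (h ▸ hx)
  have hFr : ∀ x ∈ F, x ≠ r := fun x hx h => hbelF.2.1 (h ▸ hx)
  -- the child `u` of `b`
  obtain ⟨u, huQ, hub⟩ := sh_child hQb ⟨t, htQ⟩
  have hub' : R.dep b < R.dep u := by
    have := R.dep_par u (hQr u huQ)
    rw [hub] at this
    exact this
  -- the child `t'` of `t`
  obtain ⟨F2, hF2, hF2b, hgF2, hroom⟩ := hrich t (hQF' htQ)
  have hg := hB.hg
  have hF2ne : F2.Nonempty := card_pos.1 (by omega)
  obtain ⟨t', ht'F2, ht't⟩ := sh_child hF2b hF2ne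
  have hsd : ∀ w x, x ∈ sdsc R F w ↔ x ≠ w ∧ x ∈ F ∧ Desc R w x := by
    intro w x
    rw [sdsc, dsc, mem_erase, mem_filter]
  obtain ⟨ht'ne, ht'F, ht'd⟩ := (hsd t t').1 (hF2 ht'F2)
  have ht'r : t' ≠ r := hFr t' ht'F
  have htt' : R.dep t < R.dep t' := by
    have := R.dep_par t' ht'r
    rw [ht't] at this
    exact this
  have hQle : ∀ x ∈ Q, R.dep x ≤ R.dep t := by
    intro x hx
    by_cases h : x = t
    · rw [h]
    · exact (hQdep x hx h).le
  have ht'Q : t' ∉ Q := fun h => by have := hQle t' h; omega
  -- everything in `Q` is a descendant of `u`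
  have hQu : ∀ n : ℕ, ∀ x ∈ Q, R.dep x ≤ n → Desc R u x := by
    intro n
    induction n with
    | zero =>
      intro x hx hd
      have := R.dep_par x (hQr x hx)
      omega
    | succ n ih =>
      intro x hx hd
      have h1 := R.dep_par x (hQr x hx)
      rcases mem_insert.1 (hQb.2.2 x hx) with h2 | h2
      · have h3 := sh_par_inj (hQd x hx) (hQd u huQ) (hQr x hx) (hQr u huQ) (h2.trans hub.symm)
        rw [h3]
        exact Desc.refl
      · exact Desc.step (hQr x hx) (ih _ h2 (by omega))
  have hQu' : ∀ x ∈ Q, Desc R u x := fun x hx => hQu _ x hx le_rfl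
  set X : Finset W := insert t' Q with hX
  have hXd : ∀ x ∈ X, Desc R x t' := by
    intro x hx
    rcases mem_insert.1 hx with h | h
    · rw [h]; exact Desc.refl
    · exact sh_trans (hQd x h) ht'd
  have hXr : ∀ x ∈ X, x ≠ r := by
    intro x hx
    rcases mem_insert.1 hx with h | h
    · rw [h]; exact ht'r
    · exact hQr x h
  have hXF : ∀ x ∈ X, x ∈ F := by
    intro x hx
    rcases mem_insert.1 hx with h | h
    · rw [h]; exact ht'F
    · exact hQF h
  have hXu : ∀ x ∈ X, Desc R u x := by
    intro x hx
    rcases mem_insert.1 hx with h | h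
    · rw [h]; exact sh_trans (hQu' t htQ) ht'd
    · exact hQu' x h
  have hXpar : ∀ x ∈ X, R.par x ∈ insert b Q := by
    intro x hx
    rcases mem_insert.1 hx with h | h
    · rw [h, ht't]; exact mem_insert_of_mem htQ
    · exact hQb.2.2 x h
  have hXdep : ∀ x ∈ X, R.dep x ≤ R.dep t' := fun x hx => sh_dep (hXd x hx)
  have hsgn : ∀ x ∈ F, sg T (R.par x) x = s0 := fun x hx => hP.sgn x hx
  have huX : u ∈ X := mem_insert_of_mem huQ
  have hinsX : insert u (X.erase u) = X := insert_erase huX
  have hut' : u ≠ t' := fun h => ht'Q (h ▸ huQ)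
  refine ⟨N, u, Q, X.erase u, ψ, fun x => ψ (R.par x), hN, hQF huQ, hub, ?_, ?_, ?_, ?_⟩
  · -- the first path
    refine ⟨hQF, hQb, hemb, hψb, t, mem_insert_of_mem htQ, hψt, ?_⟩
    obtain ⟨E, hE, hEc, hEb⟩ := (hclo W k T hB.hT r R).2.2.1 F2 t g hF2b hgF2
    refine ⟨E, fun x hx => ((hsd t x).1 (hF2 (hE hx))).2.1, hEc, hEb, ?_⟩
    rw [disjoint_left]
    intro x hx hxQ
    have h1 := sh_below_dep hEb _ x hx le_rfl
    have h2 := hQle x hxQ
    omega
  · -- the shifted path
    refine ⟨?_, ⟨notMem_erase _ _, ?_, ?_⟩, ?_, ?_, t', ?_, ?_, ?_⟩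
    · intro x hx
      rw [mem_erase] at hx
      exact (hsd u x).2 ⟨hx.1, hXF x hx.2, hXu x hx.2⟩
    · intro h
      exact hXr r (mem_of_mem_erase h) rfl
    · intro x hx
      rw [mem_erase] at hx
      rw [hinsX]
      rcases mem_insert.1 (hXpar x hx.2) with h | h
      · have h3 := sh_par_inj (hXd x hx.2) (hXd u huX) (hXr x hx.2) (hXr u huX)
          (h.trans hub.symm)
        exact absurd h3 hx.1
      · exact mem_insert_of_mem h
    · rw [hinsX]
      constructor
      · intro x hx y hy hxy
        have h1 := hemb.inj _ (hXpar x hx) _ (hXpar y hy) hxy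
        exact sh_par_inj (hXd x hx) (hXd y hy) (hXr x hx) (hXr y hy) h1
      · intro x hx y hy hxy
        rcases R.edge x y hxy with ⟨hxr, hpx⟩ | ⟨hyr, hpy⟩
        · -- `y = par x`
          have hyQ : y ∈ Q := by
            rcases mem_insert.1 hy with h | h
            · have h1 := R.dep_par x hxr
              have h2 := hXdep x hx
              rw [hpx, h] at h1
              omega
            · exact h
          have hs : s0 = false := by
            rw [← hsgn x (hXF x hx), hpx]
            simp only [sg, decide_eq_false_iff_not]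
            exact fun h' => hB.hT.1.2 _ _ h' hxy
          have hy2 : T.Adj y (R.par y) := by
            rcases R.adj_par y (hQr y hyQ) with h | h
            · have h1 := hsgn y (hQF hyQ)
              rw [hs] at h1
              simp only [sg, decide_eq_false_iff_not] at h1
              exact absurd h h1
            · exact h
          change D.Adj (ψ (R.par x)) (ψ (R.par y))
          rw [hpx]
          exact hemb.hom y (mem_insert_of_mem hyQ) _ (hQb.2.2 y hyQ) hy2
        · -- `x = par y`
          have hxQ : x ∈ Q := by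
            rcases mem_insert.1 hx with h | h
            · have h1 := R.dep_par y hyr
              have h2 := hXdep y hy
              rw [hpy, h] at h1
              omega
            · exact h
          have hs : s0 = true := by
            rw [← hsgn y (hXF y hy), hpy]
            simp only [sg, decide_eq_true_eq]
            exact hxy
          have hx2 : T.Adj (R.par x) x := by
            have h1 := hsgn x (hQF hxQ)
            rw [hs] at h1
            simp only [sg, decide_eq_true_eq] at h1
            exact h1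
          change D.Adj (ψ (R.par x)) (ψ (R.par y))
          rw [hpy]
          exact hemb.hom _ (hQb.2.2 x hxQ) x (mem_insert_of_mem hxQ) hx2
    · change ψ (R.par u) = φ b
      rw [hub]; exact hψb
    · rw [hinsX]; exact mem_insert_self _ _
    · change ψ (R.par t') ∈ _
      rw [ht't]; exact hψt
    · obtain ⟨E, hE, hEc, hEb⟩ := hroom t' ht'F2
      refine ⟨E, ?_, hEc, hEb, ?_⟩
      · intro x hx
        obtain ⟨hx1, hx2, hx3⟩ := (hsd t x).1 (hE hx)
        refine (hsd u x).2 ⟨?_, hx2, sh_trans (hQu' t htQ) hx3⟩
        intro h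
        have h1 := sh_below_dep hEb _ x hx le_rfl
        have h2 := hXdep u huX
        rw [h] at h1
        omega
      · rw [disjoint_left]
        intro x hx hxQ
        have h1 := sh_below_dep hEb _ x hx le_rfl
        have h2 := hXdep x (mem_of_mem_erase hxQ)
        omega
  · exact hrich u (hQF' huQ)
  · refine ⟨Up.Closed.insert R hP.closed (by rw [hub]; exact hP.mem),
      hP.sub.trans (subset_insert _ _), mem_insert_self _ _, ?_, ?_, ⟨?_, ?_, ?_⟩, ?_⟩
    · rw [disjoint_left]
      intro x hx hx'
      obtain ⟨hx1, hx2, -⟩ := (hsd u x).1 hx'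
      rcases mem_insert.1 hx with h | h
      · exact hx1 h
      · exact disjoint_left.1 hP.disj h hx2
    · intro x hx
      rcases mem_union.1 hx with h | h
      · rcases mem_insert.1 h with h' | h'
        · rw [h']; exact hP.near (mem_union_right _ (hQF huQ))
        · exact hP.near (mem_union_left _ h')
      · exact hP.near (mem_union_right _ ((hsd u x).1 h).2.1)
    · intro h
      exact ((hsd u u).1 h).1 rfl
    · intro h
      exact hFr r ((hsd u r).1 h).2.1 rfl
    · intro x hx
      obtain ⟨hx1, hx2, hx3⟩ := (hsd u x).1 hx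
      obtain ⟨hxr, hx4⟩ := sh_dep_lt hx3 hx1
      rcases mem_insert.1 (hbelF.2.2 x hx2) with h | h
      · rw [h] at hx4
        have := sh_dep hx4
        omega
      · by_cases hpu : R.par x = u
        · rw [hpu]; exact mem_insert_self _ _
        · exact mem_insert_of_mem ((hsd u _).2 ⟨hpu, h, hx4⟩)
    · intro x hx
      exact hP.sgn x ((hsd u x).1 hx).2.1

end Pool.Agent.Lib.MP_47458b_co.DU
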