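import Pool.Agent.Lib.MP_47458b_co.DU.Stm

/-!
Project DU, piece SL1: from `S_sl0` to `S_sl1`.
-/

namespace Pool.Agent.Lib.MP_47458b_co.DU

open Finset

private theorem sl1_deep {W : Type} [DecidableEq W] {T : Digraph W} {r : W} (R : Up.Rooted T r)
    {E : Finset W} {t : W} (h : Below R E t) : ∀ n : ℕ, ∀ x ∈ E, R.dep x = n → R.dep t < n := by
  intro n
  induction n using Nat.strong_induction_on with
  | _ n ih =>
    intro x hx hn
    have hxr : x ≠ r := fun hh => h.2.1 (hh ▸ hx)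
    have h1 : R.dep (R.par x) < R.dep x := R.dep_par x hxr
    have h2 := h.2.2 x hx
    rw [Finset.mem_insert] at h2
    rcases h2 with h2 | h2
    · rw [h2] at h1
      omega
    · have h3 := ih (R.dep (R.par x)) (by omega) (R.par x) h2 rfl
      omega

theorem p_sl1 : S_sl1 := by
  intro hclo hsl0 V W _ _ _ _ D T k m K g Sg r R A Nr P b F hB hP hR φ hφ
  obtain ⟨F', hF', hbel, hcard, hroom⟩ := hR
  obtain ⟨N, Q, ψ, t, hN, hQF', hQb, htQ, -, hdep, hemb, hψb, hcore, hdis, hm⟩ :=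
    hsl0 hclo V W D T k m K g Sg r R A Nr P b F hB hP F' hF' hbel hcard φ hφ
  obtain ⟨E, hEF, hEc, hEb⟩ := hroom t (hQF' htQ)
  refine ⟨N, Q, ψ, hN, ⟨hQF'.trans hF', hQb, hemb, hψb, t, Finset.mem_insert_of_mem htQ, hcore,
    E, hEF, hEc, hEb, ?_⟩, hdis, hm⟩
  rw [Finset.disjoint_left]
  intro x hxE hxQ
  have h1 := sl1_deep R hEb (R.dep x) x hxE rfl
  by_cases hxt : x = t
  · exact hEb.1 (hxt ▸ hxE)
  · have h2 := hdep x hxQ hxt
    omega

end Pool.Agent.Lib.MP_47458b_co.DU
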