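import Pool.Agent.Lib.MP_47458b_co.DU.Stm

/-! Piece [DU SL2]. -/

namespace Pool.Agent.Lib.MP_47458b_co.DU

open Finset

/-- Vertices of the core have many neighbours in the core. -/
theorem sl2_core_many {V : Type} [Fintype V] [DecidableEq V] {D : Digraph V} {k m K : ℕ}
    {Sg : Bool → Prop} (hκ : ∀ s x, k ≤ (nb D s x).card + m) {N : Finset V}
    (hN : Clus D k m K Sg N) {x : V} (hx : x ∈ core D K Sg N) {s : Bool} (hs : Sg s) :
    99 * k ≤ 100 * (nb D s x ∩ core D K Sg N).card + 100 * K + 100 * m := by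
  classical
  have h1 : ((nb D s x) \ N).card ≤ K := by
    rw [core, mem_filter] at hx
    exact hx.2 s hs
  have h2 : nb D s x ⊆ (nb D s x ∩ core D K Sg N) ∪ ((nb D s x \ N) ∪ (N \ core D K Sg N)) := by
    intro y hy
    by_cases hyN : y ∈ N
    · by_cases hyc : y ∈ core D K Sg N
      · exact mem_union_left _ (mem_inter.2 ⟨hy, hyc⟩)
      · exact mem_union_right _ (mem_union_right _ (mem_sdiff.2 ⟨hyN, hyc⟩))
    · exact mem_union_right _ (mem_union_left _ (mem_sdiff.2 ⟨hy, hyN⟩))
  have h3 := card_le_card h2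
  have h4 := card_union_le (nb D s x ∩ core D K Sg N) ((nb D s x \ N) ∪ (N \ core D K Sg N))
  have h5 := card_union_le (nb D s x \ N) (N \ core D K Sg N)
  have h6 := hN.cr
  have h7 := hκ s x
  omega

/-- Gluing at `b`. -/
theorem sl2_glue_emb {V W : Type} [Fintype V] [DecidableEq V] [Fintype W] [DecidableEq W]
    {D : Digraph V} {T : Digraph W} {r : W} (R : Up.Rooted T r) {P Q : Finset W} {b : W}
    (hP : R.Closed P) (hb : b ∈ P) (hPQ : Disjoint P Q) (hQ : Below R Q b) {φ ψ χ : W → V}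
    (hφ : IsEmb T D P φ) (hψ : IsEmb T D (insert b Q) ψ) (hbb : ψ b = φ b)
    (hdis : Disjoint (P.image φ) (Q.image ψ)) (h1 : ∀ x ∈ P, χ x = φ x)
    (h2 : ∀ x ∈ insert b Q, χ x = ψ x) : IsEmb T D (P ∪ Q) χ := by
  have hne : ∀ a ∈ P, ∀ c ∈ Q, φ a ≠ ψ c := fun a ha c hc h =>
    disjoint_left.1 hdis (mem_image_of_mem φ ha) (h ▸ mem_image_of_mem ψ hc)
  have h2' : ∀ x ∈ Q, χ x = ψ x := fun x hx => h2 x (mem_insert_of_mem hx)
  have hcr : ∀ a ∈ P, ∀ c ∈ Q, T.Adj a c ∨ T.Adj c a → a = b := by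
    intro a ha c hc hac
    have key : (a ≠ r ∧ R.par a = c) ∨ (c ≠ r ∧ R.par c = a) := by
      rcases hac with h | h
      · exact R.edge a c h
      · rcases R.edge c a h with h | h
        · exact Or.inr h
        · exact Or.inl h
    rcases key with ⟨har, h⟩ | ⟨hcr, h⟩
    · exact absurd hc (disjoint_left.1 hPQ (h ▸ hP.2 a ha har))
    · have h3 := hQ.2.2 c hc
      rw [h, mem_insert] at h3
      rcases h3 with h3 | h3
      · exact h3
      · exact absurd h3 (disjoint_left.1 hPQ ha)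
  constructor
  · intro a ha c hc hac
    rw [mem_union] at ha hc
    rcases ha with ha | ha <;> rcases hc with hc | hc
    · rw [h1 a ha, h1 c hc] at hac
      exact hφ.inj a ha c hc hac
    · rw [h1 a ha, h2' c hc] at hac
      exact absurd hac (hne a ha c hc)
    · rw [h2' a ha, h1 c hc] at hac
      exact absurd hac.symm (hne c hc a ha)
    · rw [h2' a ha, h2' c hc] at hac
      exact hψ.inj a (mem_insert_of_mem ha) c (mem_insert_of_mem hc) hac
  · intro a ha c hc hac
    rw [mem_union] at ha hc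
    rcases ha with ha | ha <;> rcases hc with hc | hc
    · rw [h1 a ha, h1 c hc]
      exact hφ.hom a ha c hc hac
    · have hab := hcr a ha c hc (Or.inl hac)
      subst hab
      rw [h1 a ha, h2' c hc, ← hbb]
      exact hψ.hom a (mem_insert_self _ _) c (mem_insert_of_mem hc) hac
    · have hcb := hcr c hc a ha (Or.inr hac)
      subst hcb
      rw [h2' a ha, h1 c hc, ← hbb]
      exact hψ.hom a (mem_insert_of_mem ha) c (mem_insert_self _ _) hac
    · rw [h2' a ha, h2' c hc]
      exact hψ.hom a (mem_insert_of_mem ha) c (mem_insert_of_mem hc) hac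

/-- Adding a set below `t ∈ S` to a closed set. -/
theorem sl2_closed_union {W : Type} [DecidableEq W]
    {T : Digraph W} {r : W} (R : Up.Rooted T r) {S E : Finset W} {t : W}
    (hS : R.Closed S) (ht : t ∈ S) (hE : Below R E t) : R.Closed (S ∪ E) := by
  refine ⟨mem_union_left _ hS.1, fun x hx hxr => ?_⟩
  rw [mem_union] at hx
  rcases hx with hx | hx
  · exact mem_union_left _ (hS.2 x hx hxr)
  · have h := hE.2.2 x hx
    rw [mem_insert] at h
    rcases h with h | h
    · rw [h]; exact mem_union_left _ ht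
    · exact mem_union_right _ h

theorem p_sl2 : S_sl2 := by
  intro hEq V W _ _ _ _ D T k m K g Sg r R A Nr P b F hB hP φ N Q ψ hφ hN hS hdis
  classical
  obtain ⟨hQF, hQb, hψ, hbb, t0, ht0, ht0c, E, hEF, hEc, hEt, hEQ⟩ := hS
  have hPF := hP.disj
  have hPQ : Disjoint P Q := hPF.mono_right hQF
  have hPE : Disjoint P E := hPF.mono_right hEF
  set χ : W → V := fun x => if x ∈ Q then ψ x else φ x with hχ
  have h1 : ∀ x ∈ P, χ x = φ x := by
    intro x hx
    have : x ∉ Q := disjoint_left.1 hPQ hx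
    simp only [hχ, this, if_false]
  have h2 : ∀ x ∈ insert b Q, χ x = ψ x := by
    intro x hx
    rw [mem_insert] at hx
    rcases hx with hx | hx
    · rw [hx, h1 b hP.mem, hbb]
    · simp only [hχ, hx, if_true]
  have hemb : IsEmb T D (P ∪ Q) χ :=
    sl2_glue_emb R hP.closed hP.mem hPQ hQb hφ hψ hbb hdis h1 h2
  have hCS : R.Closed (P ∪ Q) := sl2_closed_union R hP.closed hP.mem hQb
  have ht0S : t0 ∈ P ∪ Q := by
    rw [mem_insert] at ht0
    rcases ht0 with h | h
    · rw [h]; exact mem_union_left _ hP.mem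
    · exact mem_union_right _ h
  have hCS' : R.Closed ((P ∪ Q) ∪ E) := sl2_closed_union R hCS ht0S hEt
  have hdE : Disjoint (P ∪ Q) E := by
    rw [disjoint_union_left]
    exact ⟨hPE, hEQ.symm⟩
  have hsd : ((P ∪ Q) ∪ E) \ (P ∪ Q) = E := by
    rw [union_sdiff_left]
    exact sdiff_eq_self_of_disjoint hdE.symm
  have hsub : (P ∪ Q) ∪ E ⊆ Nr := by
    refine Subset.trans ?_ hP.near
    refine union_subset (union_subset subset_union_left ?_) ?_
    · exact hQF.trans subset_union_right
    · exact hEF.trans subset_union_right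
  have hcard : 200 * ((P ∪ Q) ∪ E).card ≤ k := by
    have h3 := card_le_card hsub
    have h4 := hB.hNr
    omega
  have hnum := hB.hnum
  have hcm : ∀ x ∈ core D K Sg N, ∀ s, Sg s →
      99 * k ≤ 100 * (nb D s x ∩ core D K Sg N).card + 100 * K + 100 * m :=
    fun x hx s hs => sl2_core_many hB.hκ hN hx hs
  have hχ0 : χ t0 ∈ core D K Sg N := by
    rw [h2 t0 ht0]; exact ht0c
  have hsgn : ∀ x ∈ E, Sg (sg T (R.par x) x) := fun x hx => hP.sgn x (hEF hx)
  have hpar : ∀ t ∈ E, R.par t ∈ P ∪ Q → R.par t = t0 := by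
    intro t ht hpt
    have h := hEt.2.2 t ht
    rw [mem_insert] at h
    rcases h with h | h
    · exact h
    · exact absurd h (disjoint_left.1 hdE hpt)
  obtain ⟨ψ', N', hemb', hagr, hreg, hN', hout, t, htE, ht100⟩ := hB.trap (core D K Sg N)
    (P ∪ Q) ((P ∪ Q) ∪ E) χ (hP.sub.trans subset_union_left) subset_union_left hsub hCS hCS'
    (by rw [hsd, hEc]) hemb
    (by
      intro t ht hpt
      rw [hsd] at ht
      rw [hpar t ht hpt]
      have hs := hsgn t ht
      rw [hpar t ht hpt] at hs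
      have := hcm _ hχ0 _ hs
      omega)
    (by
      intro t ht _ x hx
      rw [hsd] at ht
      have := hcm _ hx _ (hsgn t ht)
      omega)
  rw [hsd] at htE hreg
  have hpc : ψ' (R.par t) ∈ core D K Sg N := by
    have h := hEt.2.2 t htE
    rw [mem_insert] at h
    rcases h with h | h
    · rw [h, hagr t0 ht0S]; exact hχ0
    · exact hreg _ h
  have hbig := hcm _ hpc _ (hsgn t htE)
  set X := nb D (sg T (R.par t) t) (ψ' (R.par t)) ∩ core D K Sg N with hX
  have hXN : X ∩ N' ⊆ N ∩ N' := by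
    intro y hy
    rw [mem_inter] at hy ⊢
    refine ⟨?_, hy.2⟩
    have h3 := (mem_inter.1 hy.1).2
    rw [core, mem_filter] at h3
    exact h3.1
  have hXc : (X ∩ N').card + (X \ N').card = X.card := card_inter_add_card_sdiff X N'
  have hXle := card_le_card hXN
  have heqv : Eqv k N N' := by
    rw [Eqv]
    omega
  obtain ⟨q1, -, q3, -⟩ := hEq V D k m K Sg hB.hκ hB.hSg hnum
  have hdiff := q1 N' N hN' hN (q3 N N' heqv)
  have hfin : (P.image φ) \ N ⊆ (((P ∪ Q) ∪ E).image ψ' \ N') ∪ (N' \ N) := by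
    intro y hy
    rw [mem_sdiff, mem_image] at hy
    obtain ⟨⟨x, hx, rfl⟩, hyN⟩ := hy
    by_cases hyN' : φ x ∈ N'
    · exact mem_union_right _ (mem_sdiff.2 ⟨hyN', hyN⟩)
    · refine mem_union_left _ (mem_sdiff.2 ⟨mem_image.2 ⟨x, ?_, ?_⟩, hyN'⟩)
      · exact mem_union_left _ (mem_union_left _ hx)
      · rw [hagr x (mem_union_left _ hx), h1 x hx]
  have hfc := card_le_card hfin
  have hfu := card_union_le (((P ∪ Q) ∪ E).image ψ' \ N') (N' \ N)
  omega

end Pool.Agent.Lib.MP_47458b_co.DU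

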