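import Pool.Agent.Lib.MP_47458b_co.DU.Stm

set_option autoImplicit false

/-!
Project DU, piece SL4 (helper68): prepend `b ↦ y`.
-/

namespace Pool.Agent.Lib.MP_47458b_co.DU

open Finset

private theorem sl4_dep {W : Type} {T : Digraph W} [DecidableEq W] {r : W} (R : Up.Rooted T r)
    {F : Finset W} {b : W} (h : Below R F b) : ∀ n, ∀ c ∈ F, R.dep c ≤ n → R.dep b < R.dep c := by
  intro n
  induction n with
  | zero =>
    intro c hc hn
    have h1 : c ≠ r := fun hh => h.2.1 (hh ▸ hc)
    have h2 := R.dep_par c h1
    omega
  | succ n ih =>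
    intro c hc hn
    have h1 : c ≠ r := fun hh => h.2.1 (hh ▸ hc)
    have h2 := R.dep_par c h1
    rcases mem_insert.1 (h.2.2 c hc) with h3 | h3
    · rw [← h3]; exact h2
    · have h4 := ih _ h3 (by omega)
      omega

theorem p_sl4 : S_sl4 := by
  classical
  intro V W _ _ _ _ D T k m K g Sg r R F F2 b f hT hF hf hpf hF2 hB2 y z N Q ψ hz hzy hS hQy
  obtain ⟨hQF, hBQ, hE, hψf, t, ht, htN, E, hEF, hEg, hBE, hEQ⟩ := hS
  have hbF : b ∉ F := hF.1
  have hQF' : insert f Q ⊆ F := by
    intro x hx
    rcases mem_insert.1 hx with rfl | hx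
    · exact hf
    · exact hF2 (hQF hx)
  have hbQ : b ∉ insert f Q := fun h => hbF (hQF' h)
  have hup : ∀ x ∈ insert f Q, Function.update ψ b y x = ψ x := by
    intro x hx
    refine Function.update_of_ne ?_ _ _
    intro h
    rw [h] at hx
    exact hbQ hx
  have hTo : IsOrientedGraph T := hT.1
  -- the only neighbour of `b` in `insert f Q` is `f`
  have honly : ∀ c ∈ insert f Q, T.Adj b c ∨ T.Adj c b → c = f := by
    intro c hc hadj
    have hcF : c ∈ F := hQF' hc
    have hd := sl4_dep R hF (R.dep c) c hcF le_rfl
    have key : (c ≠ r ∧ R.par c = b) ∨ (b ≠ r ∧ R.par b = c) := by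
      rcases hadj with h | h
      · rcases R.edge _ _ h with h | h
        · exact Or.inr h
        · exact Or.inl h
      · rcases R.edge _ _ h with h | h
        · exact Or.inl h
        · exact Or.inr h
    rcases key with ⟨_, h⟩ | ⟨h0, h⟩
    · rcases mem_insert.1 hc with h1 | h1
      · exact h1
      · exfalso
        have h2 := hBQ.2.2 c h1
        rw [h] at h2
        exact hbQ h2
    · exfalso
      have h2 := R.dep_par b h0
      rw [h] at h2
      omega
  have hyQ : ∀ x ∈ insert f Q, ψ x ≠ y := by
    intro x hx
    rcases mem_insert.1 hx with rfl | hx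
    · rw [hψf]; exact hzy
    · exact hQy x hx
  refine ⟨insert f Q, Function.update ψ b y, ⟨hQF', ?_, ?_, Function.update_self _ _ _,
    t, mem_insert_of_mem ht, ?_, E, hEF.trans hF2, hEg, hBE, ?_⟩, ?_⟩
  · refine ⟨hbQ, fun h => hF.2.1 (hQF' h), ?_⟩
    intro x hx
    rcases mem_insert.1 hx with rfl | hx
    · rw [hpf]; exact mem_insert_self _ _
    · exact mem_insert_of_mem (hBQ.2.2 x hx)
  · constructor
    · intro c hc d hd hcd
      rcases mem_insert.1 hc with hcb | hc <;> rcases mem_insert.1 hd with hdb | hd
      · rw [hcb, hdb]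
      · rw [hcb, Function.update_self, hup d hd] at hcd
        exact absurd hcd.symm (hyQ d hd)
      · rw [hdb, Function.update_self, hup c hc] at hcd
        exact absurd hcd (hyQ c hc)
      · rw [hup c hc, hup d hd] at hcd
        exact hE.inj c hc d hd hcd
    · intro c hc d hd hcd
      rcases mem_insert.1 hc with hcb | hc <;> rcases mem_insert.1 hd with hdb | hd
      · rw [hcb, hdb] at hcd
        exact absurd hcd (hTo.1 _)
      · rw [hcb] at hcd ⊢
        have h1 := honly d hd (Or.inl hcd)
        rw [Function.update_self, hup d hd, h1, hψf]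
        rw [h1] at hcd
        have hs : sg T b f = true := by
          simp only [sg, decide_eq_true_eq]
          exact hcd
        rw [hs, mem_nb_true] at hz
        exact hz
      · rw [hdb] at hcd ⊢
        have h1 := honly c hc (Or.inr hcd)
        rw [Function.update_self, hup c hc, h1, hψf]
        rw [h1] at hcd
        have hs : sg T b f = false := by
          simp only [sg, decide_eq_false_iff_not]
          exact fun h' => hTo.2 _ _ h' hcd
        rw [hs, mem_nb_false] at hz
        exact hz
      · rw [hup c hc, hup d hd]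
        exact hE.hom c hc d hd hcd
  · rw [hup t ht]; exact htN
  · rw [disjoint_insert_right]
    exact ⟨fun h => hB2.1 (hEF h), hEQ⟩
  · rw [image_insert, hup f (mem_insert_self _ _), hψf]
    congr 1
    apply image_congr
    intro x hx
    exact hup x (mem_insert_of_mem hx)

end Pool.Agent.Lib.MP_47458b_co.DU
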