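import Pool.Agent.Lib.MP_47458b_co.DU.Stm

/-!
Project DU, piece SNK: sinks and vertices with two neighbours.
-/

namespace Pool.Agent.Lib.MP_47458b_co.DU

open Finset

theorem snk_sum {W : Type} [Fintype W] [DecidableEq W] (T : Digraph W) (s : Bool)
    (hO : IsOrientedGraph T) (hT : (gr T).IsTree) :
    ∑ u, (nb T s u).card + 1 ≤ Fintype.card W := by
  classical
  have hc : (gr T).edgeFinset.card + 1 = Fintype.card W := hT.card_edgeFinset
  have hadj : ∀ u y, y ∈ nb T s u → (gr T).Adj u y := by
    intro u y hy
    have hxy : T.Adj u y ∨ T.Adj y u := by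
      cases s with
      | true => exact Or.inl (mem_nb_true.1 hy)
      | false => exact Or.inr (mem_nb_false.1 hy)
    show (SimpleGraph.fromRel T.Adj).Adj u y
    rw [SimpleGraph.fromRel_adj]
    refine ⟨?_, hxy⟩
    rintro rfl
    rcases hxy with h | h
    · exact hO.1 _ h
    · exact hO.1 _ h
  have hle : ((univ : Finset W).sigma (fun u => nb T s u)).card ≤ (gr T).edgeFinset.card := by
    apply Finset.card_le_card_of_injOn (fun x => s(x.1, x.2))
    · intro x hx
      rw [Finset.mem_coe, Finset.mem_sigma] at hx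
      rw [Finset.mem_coe, SimpleGraph.mem_edgeFinset, SimpleGraph.mem_edgeSet]
      exact hadj _ _ hx.2
    · rintro ⟨u, y⟩ hx ⟨u', y'⟩ hx' h
      rw [Finset.mem_coe, Finset.mem_sigma] at hx hx'
      simp only [Sym2.eq_iff] at h
      rcases h with ⟨h1, h2⟩ | ⟨h1, h2⟩
      · subst h1; subst h2; rfl
      · exfalso
        subst h1; subst h2
        have h3 := hx.2
        have h4 := hx'.2
        simp only at h3 h4
        cases s with
        | true => exact hO.2 _ _ (mem_nb_true.1 h3) (mem_nb_true.1 h4)
        | false => exact hO.2 _ _ (mem_nb_false.1 h3) (mem_nb_false.1 h4)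
  rw [Finset.card_sigma] at hle
  omega

theorem p_snk : S_snk := by
  intro W _ _ T k s hT _
  classical
  have h1 := snk_sum T s hT.1 hT.2.1
  have h2 : ∑ u : W, (1 + (if 2 ≤ (nb T s u).card then 1 else 0)) ≤
      ∑ u : W, ((nb T s u).card + (if (nb T s u).card = 0 then 1 else 0)) := by
    apply Finset.sum_le_sum
    intro u _
    split_ifs <;> omega
  rw [Finset.sum_add_distrib, Finset.sum_add_distrib, ← Finset.card_filter,
    ← Finset.card_filter, Finset.sum_const, smul_eq_mul, mul_one, Finset.card_univ] at h2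
  omega

end Pool.Agent.Lib.MP_47458b_co.DU
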