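import Pool.Agent.Lib.MP_47458b_co.DU.Stm

/-!
[DU SPI] Lemma E: spiders in rooted trees with many vertices.
-/

namespace Pool.Agent.Lib.MP_47458b_co.DU

open Finset

variable {W : Type} [Fintype W] [DecidableEq W]

/-- a spider from legs that start at different children -/
lemma spi_spider {T : Digraph W} {r : W} (R : Up.Rooted T r) (X : Finset W) (c : W) (b h : ℕ)
    (leg : ℕ → ℕ → W) (hz : ∀ i < b, leg i 0 = c) (hm : ∀ i < b, ∀ j ≤ h, leg i j ∈ X) (hc : c ∈ X)
    (hp : ∀ i < b, ∀ j < h, leg i (j + 1) ≠ r ∧ R.par (leg i (j + 1)) = leg i j)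
    (h1 : ∀ i < b, ∀ i' < b, leg i 1 = leg i' 1 → i = i') : Spider R X c b h leg := by
  have hdep : ∀ i < b, ∀ j < h, R.dep c < R.dep (leg i (j + 1)) := by
    intro i hi j
    induction j with
    | zero =>
      intro hj
      obtain ⟨h2, h3⟩ := hp i hi 0 hj
      have h4 := R.dep_par _ h2
      rw [h3, hz i hi] at h4
      exact h4
    | succ j ih =>
      intro hj
      obtain ⟨h2, h3⟩ := hp i hi (j + 1) hj
      have h4 := R.dep_par _ h2
      rw [h3] at h4
      exact (ih (by omega)).trans h4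
  refine ⟨hz, hm, hc, hp, ?_⟩
  intro i hi i' hi' j
  induction j with
  | zero =>
    intro hj j' hj' heq
    rcases j' with _ | j'
    · exact ⟨h1 i hi i' hi' heq, rfl⟩
    · exfalso
      have h2 := (hp i hi 0 hj).2
      have h3 := (hp i' hi' (j' + 1) hj').2
      have heq' : leg i (0 + 1) = leg i' (j' + 1 + 1) := heq
      rw [heq', h3, hz i hi] at h2
      have h4 := hdep i' hi' j' (by omega)
      rw [h2] at h4
      exact lt_irrefl _ h4
  | succ j ih =>
    intro hj j' hj' heq
    have h2 := (hp i hi (j + 1) hj).2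
    rcases j' with _ | j'
    · exfalso
      have h3 := (hp i' hi' 0 hj').2
      have heq' : leg i (j + 1 + 1) = leg i' (0 + 1) := heq
      rw [heq', h3, hz i' hi'] at h2
      have h4 := hdep i hi j (by omega)
      rw [← h2] at h4
      exact lt_irrefl _ h4
    · have h3 := (hp i' hi' (j' + 1) hj').2
      rw [heq, h3] at h2
      obtain ⟨h5, h6⟩ := ih (by omega) j' (by omega) h2.symm
      exact ⟨h5, by omega⟩

/-- the children in `X` -/
def spiKids {T : Digraph W} {r : W} (R : Up.Rooted T r) (X : Finset W) (x0 : W) (y : W) :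
    Finset W := (X.erase x0).filter (fun z => R.par z = y)

/-- the vertices at depth `j` below `y` -/
def spiLev {T : Digraph W} {r : W} (R : Up.Rooted T r) (X : Finset W) (x0 : W) : ℕ → W → Finset W
  | 0, y => {y}
  | j + 1, y => (spiKids R X x0 y).biUnion (spiLev R X x0 j)

lemma spi_mem_kids {T : Digraph W} {r : W} {R : Up.Rooted T r} {X : Finset W} {x0 y z : W} :
    z ∈ spiKids R X x0 y ↔ z ∈ X.erase x0 ∧ R.par z = y := by
  unfold spiKids
  rw [Finset.mem_filter]

/-- one more step down -/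
lemma spi_lev_succ {T : Digraph W} {r : W} (R : Up.Rooted T r) (X : Finset W) (x0 x y : W)
    (hx : x ∈ spiKids R X x0 y) : ∀ (j : ℕ) (s : W), y ∈ spiLev R X x0 j s →
    x ∈ spiLev R X x0 (j + 1) s := by
  intro j
  induction j with
  | zero =>
    intro s hs
    have hs' : y = s := by
      have h : y ∈ ({s} : Finset W) := hs
      exact Finset.mem_singleton.1 h
    subst hs'
    show x ∈ (spiKids R X x0 y).biUnion (spiLev R X x0 0)
    rw [Finset.mem_biUnion]
    exact ⟨x, hx, Finset.mem_singleton_self x⟩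
  | succ j ih =>
    intro s hs
    have h : y ∈ (spiKids R X x0 s).biUnion (spiLev R X x0 j) := hs
    rw [Finset.mem_biUnion] at h
    obtain ⟨z, hz, hyz⟩ := h
    show x ∈ (spiKids R X x0 s).biUnion (spiLev R X x0 (j + 1))
    rw [Finset.mem_biUnion]
    exact ⟨z, hz, ih z hyz⟩

/-- a descending chain -/
lemma spi_chain {T : Digraph W} {r : W} (R : Up.Rooted T r) (X : Finset W) (x0 : W) :
    ∀ (j : ℕ) (z : W), z ∈ X.erase x0 → (spiLev R X x0 j z).Nonempty →
    ∃ g : ℕ → W, g 0 = z ∧ (∀ i ≤ j, g i ∈ X.erase x0) ∧ ∀ i < j, R.par (g (i + 1)) = g i := by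
  intro j
  induction j with
  | zero =>
    intro z hz _
    refine ⟨fun _ => z, rfl, fun i _ => hz, fun i hi => absurd hi (Nat.not_lt_zero i)⟩
  | succ j ih =>
    intro z hz hne
    obtain ⟨w, hw⟩ := hne
    have h : w ∈ (spiKids R X x0 z).biUnion (spiLev R X x0 j) := hw
    rw [Finset.mem_biUnion] at h
    obtain ⟨z', hz', hwz⟩ := h
    rw [spi_mem_kids] at hz'
    obtain ⟨g, hg0, hg1, hg2⟩ := ih z' hz'.1 ⟨w, hwz⟩
    refine ⟨fun i => Nat.casesOn i z g, rfl, ?_, ?_⟩
    · intro i hi
      cases i with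
      | zero => exact hz
      | succ i => exact hg1 i (by omega)
    · intro i hi
      cases i with
      | zero =>
        show R.par (g 0) = z
        rw [hg0]; exact hz'.2
      | succ i => exact hg2 i (by omega)

/-- children with long chains give a spider -/
lemma spi_kids {T : Digraph W} {r : W} (R : Up.Rooted T r) (X : Finset W) (x0 c : W)
    (hr : r ∉ X.erase x0) (hc : c ∈ X) (j : ℕ) :
    ∃ leg : ℕ → ℕ → W, Spider R X c
      ((spiKids R X x0 c).filter (fun z => (spiLev R X x0 j z).Nonempty)).card (j + 1) leg := by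
  classical
  obtain ⟨S, hS⟩ : ∃ S, S = (spiKids R X x0 c).filter (fun z => (spiLev R X x0 j z).Nonempty) :=
    ⟨_, rfl⟩
  rw [← hS]
  have hSmem : ∀ z ∈ S, z ∈ X.erase x0 ∧ R.par z = c ∧ (spiLev R X x0 j z).Nonempty := by
    intro z hz
    rw [hS, Finset.mem_filter, spi_mem_kids] at hz
    exact ⟨hz.1.1, hz.1.2, hz.2⟩
  have hch : ∀ z : W, ∃ g : ℕ → W, z ∈ S → g 0 = z ∧ (∀ i ≤ j, g i ∈ X.erase x0) ∧
      ∀ i < j, R.par (g (i + 1)) = g i := by
    intro z
    by_cases hz : z ∈ S
    · obtain ⟨g, hg⟩ := spi_chain R X x0 j z (hSmem z hz).1 (hSmem z hz).2.2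
      exact ⟨g, fun _ => hg⟩
    · exact ⟨fun _ => z, fun h => absurd h hz⟩
  choose G hG using hch
  have en : Fin S.card ≃ S := S.equivFin.symm
  obtain ⟨f, hf⟩ : ∃ f : ℕ → W, ∀ i (hi : i < S.card), f i = (en ⟨i, hi⟩ : W) :=
    ⟨fun i => if hi : i < S.card then (en ⟨i, hi⟩ : W) else c, fun i hi => dif_pos hi⟩
  have hfS : ∀ i < S.card, f i ∈ S := by
    intro i hi
    rw [hf i hi]; exact (en ⟨i, hi⟩).2
  have hfinj : ∀ i < S.card, ∀ i' < S.card, f i = f i' → i = i' := by
    intro i hi i' hi' h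
    rw [hf i hi, hf i' hi'] at h
    have h2 := en.injective (Subtype.ext h)
    exact congrArg Fin.val h2
  refine ⟨fun i t => Nat.casesOn t c (G (f i)), ?_⟩
  apply spi_spider
  · intro i _
    rfl
  · intro i hi t ht
    cases t with
    | zero => exact hc
    | succ t => exact Finset.mem_of_mem_erase ((hG (f i) (hfS i hi)).2.1 t (by omega))
  · exact hc
  · intro i hi t ht
    have h1 := hG (f i) (hfS i hi)
    refine ⟨?_, ?_⟩
    · intro h
      have h2 := h1.2.1 t (by omega)
      have h3 : G (f i) t = r := h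
      rw [h3] at h2
      exact hr h2
    · cases t with
      | zero =>
        show R.par (G (f i) 0) = c
        rw [h1.1]
        exact (hSmem _ (hfS i hi)).2.1
      | succ t => exact h1.2.2 t (by omega)
  · intro i hi i' hi' h
    have h1 := (hG (f i) (hfS i hi)).1
    have h2 := (hG (f i') (hfS i' hi')).1
    have h3 : G (f i) 0 = G (f i') 0 := h
    rw [h1, h2] at h3
    exact hfinj i hi i' hi' h3

theorem p_spi : S_spi := by
  intro W _ _ T r R X x0 M hx0 hbel hexp
  classical
  by_contra hcon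
  push Not at hcon
  have hfree : ∀ (c : W) (b h : ℕ) (leg : ℕ → ℕ → W), Spider R X c b h leg → b * h ≤ M := by
    intro c b h leg hs
    by_contra hlt
    push Not at hlt
    exact hcon c b h leg hlt hs
  obtain ⟨-, hr, hpar⟩ := hbel
  -- the levels
  have hlev : ∀ (j : ℕ) (s : W), s ∈ X →
      ((spiLev R X x0 j s).card : ℝ) ≤ (M : ℝ) ^ j / (j.factorial : ℝ) := by
    intro j
    induction j with
    | zero =>
      intro s _
      show ((({s} : Finset W)).card : ℝ) ≤ _
      rw [Finset.card_singleton]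
      simp
    | succ j ih =>
      intro s hs
      obtain ⟨S, hS⟩ : ∃ S, S = (spiKids R X x0 s).filter
          (fun z => (spiLev R X x0 j z).Nonempty) := ⟨_, rfl⟩
      obtain ⟨leg, hleg⟩ := spi_kids R X x0 s hr hs j
      have h1 := hfree _ _ _ _ hleg
      rw [← hS] at h1
      have h1' : (S.card : ℝ) * ((j : ℝ) + 1) ≤ M := by exact_mod_cast h1
      have h2 : spiLev R X x0 (j + 1) s ⊆ S.biUnion (spiLev R X x0 j) := by
        intro x hx
        have hx' : x ∈ (spiKids R X x0 s).biUnion (spiLev R X x0 j) := hx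
        rw [Finset.mem_biUnion] at hx' ⊢
        obtain ⟨z, hz, hxz⟩ := hx'
        refine ⟨z, ?_, hxz⟩
        rw [hS, Finset.mem_filter]
        exact ⟨hz, ⟨x, hxz⟩⟩
      have h3 : ((spiLev R X x0 (j + 1) s).card : ℝ) ≤
          ∑ z ∈ S, ((spiLev R X x0 j z).card : ℝ) := by
        have h4 : (spiLev R X x0 (j + 1) s).card ≤ ∑ z ∈ S, (spiLev R X x0 j z).card :=
          (Finset.card_le_card h2).trans Finset.card_biUnion_le
        exact_mod_cast h4
      have h5 : ∑ z ∈ S, ((spiLev R X x0 j z).card : ℝ) ≤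
          ∑ z ∈ S, (M : ℝ) ^ j / (j.factorial : ℝ) := by
        apply Finset.sum_le_sum
        intro z hz
        apply ih z
        rw [hS, Finset.mem_filter, spi_mem_kids] at hz
        exact Finset.mem_of_mem_erase hz.1.1
      rw [Finset.sum_const, nsmul_eq_mul] at h5
      have hj : (0 : ℝ) < (j : ℝ) + 1 := by positivity
      have hf : (0 : ℝ) < (j.factorial : ℝ) := by exact_mod_cast Nat.factorial_pos j
      have h6 : (M : ℝ) ^ (j + 1) / ((j + 1).factorial : ℝ) =
          (M : ℝ) / ((j : ℝ) + 1) * ((M : ℝ) ^ j / (j.factorial : ℝ)) := by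
        rw [Nat.factorial_succ]
        push_cast
        field_simp
        try ring
      rw [h6]
      have h7 : (S.card : ℝ) ≤ (M : ℝ) / ((j : ℝ) + 1) := by
        rw [le_div_iff₀ hj]; exact h1'
      have h8 : (0 : ℝ) ≤ (M : ℝ) ^ j / (j.factorial : ℝ) := by positivity
      calc ((spiLev R X x0 (j + 1) s).card : ℝ) ≤ S.card * ((M : ℝ) ^ j / (j.factorial : ℝ)) :=
            h3.trans h5
        _ ≤ _ := mul_le_mul_of_nonneg_right h7 h8
  -- every vertex is in some level
  have hcov : ∀ (d : ℕ) (x : W), R.dep x ≤ d → x ∈ X → ∃ j, x ∈ spiLev R X x0 j x0 := by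
    intro d
    induction d with
    | zero =>
      intro x hd hx
      by_cases hxx : x = x0
      · exact ⟨0, by rw [hxx]; exact Finset.mem_singleton_self x0⟩
      · exfalso
        have hxe : x ∈ X.erase x0 := Finset.mem_erase.2 ⟨hxx, hx⟩
        have hxr : x ≠ r := fun h => hr (h ▸ hxe)
        have := R.dep_par x hxr
        omega
    | succ d ih =>
      intro x hd hx
      by_cases hxx : x = x0
      · exact ⟨0, by rw [hxx]; exact Finset.mem_singleton_self x0⟩
      · have hxe : x ∈ X.erase x0 := Finset.mem_erase.2 ⟨hxx, hx⟩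
        have hxr : x ≠ r := fun h => hr (h ▸ hxe)
        have h1 := R.dep_par x hxr
        have h2 : R.par x ∈ X := by
          have h3 := hpar x hxe
          rw [Finset.insert_erase hx0] at h3
          exact h3
        obtain ⟨j, hj⟩ := ih (R.par x) (by omega) h2
        exact ⟨j + 1, spi_lev_succ R X x0 x (R.par x) (spi_mem_kids.2 ⟨hxe, rfl⟩) j x0 hj⟩
  have hcov2 : ∀ x : W, ∃ j, x ∈ X → x ∈ spiLev R X x0 j x0 := by
    intro x
    by_cases hx : x ∈ X
    · obtain ⟨j, hj⟩ := hcov (R.dep x) x le_rfl hx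
      exact ⟨j, fun _ => hj⟩
    · exact ⟨0, fun h => absurd h hx⟩
  choose jf hjf using hcov2
  have hsub : X ⊆ (range (X.sup jf + 1)).biUnion (fun j => spiLev R X x0 j x0) := by
    intro x hx
    rw [Finset.mem_biUnion]
    refine ⟨jf x, ?_, hjf x hx⟩
    rw [Finset.mem_range]
    have := Finset.le_sup (f := jf) hx
    omega
  have hcard : (X.card : ℝ) ≤ ∑ j ∈ range (X.sup jf + 1), ((spiLev R X x0 j x0).card : ℝ) := by
    have h4 : X.card ≤ ∑ j ∈ range (X.sup jf + 1), (spiLev R X x0 j x0).card :=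
      (Finset.card_le_card hsub).trans Finset.card_biUnion_le
    exact_mod_cast h4
  have hsum : ∑ j ∈ range (X.sup jf + 1), ((spiLev R X x0 j x0).card : ℝ) ≤
      ∑ j ∈ range (X.sup jf + 1), (M : ℝ) ^ j / (j.factorial : ℝ) :=
    Finset.sum_le_sum fun j _ => hlev j x0 hx0
  have hexp2 := Real.sum_le_exp_of_nonneg (x := (M : ℝ)) (by positivity) (X.sup jf + 1)
  linarith

end Pool.Agent.Lib.MP_47458b_co.DU
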