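import Pool.Agent.Lib.MP_47458b_co.DU.Stm

/-!
# [DU SPT] truncation of a spider (helper98)
-/

set_option autoImplicit false

namespace Pool.Agent.Lib.MP_47458b_co.DU

open Finset

theorem p_spt : S_spt := by
  intro W _ _ T r R X c b h M leg hM hbh hS
  have hb : 1 ≤ b := by
    rcases Nat.eq_zero_or_pos b with h0 | h0
    · subst h0; omega
    · exact h0
  have hh : 1 ≤ h := by
    rcases Nat.eq_zero_or_pos h with h0 | h0
    · subst h0; omega
    · exact h0
  refine ⟨min b M, min h M, ?_, ?_, min_le_right _ _, min_le_right _ _⟩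
  · have e1 : ∀ i, i < min b M → i < b := fun i hi => lt_of_lt_of_le hi (min_le_left _ _)
    have e2 : ∀ j, j < min h M → j < h := fun j hj => lt_of_lt_of_le hj (min_le_left _ _)
    have e3 : ∀ j, j ≤ min h M → j ≤ h := fun j hj => hj.trans (min_le_left _ _)
    exact {
      zero := fun i hi => hS.zero i (e1 i hi)
      mem := fun i hi j hj => hS.mem i (e1 i hi) j (e3 j hj)
      ctr := hS.ctr
      par := fun i hi j hj => hS.par i (e1 i hi) j (e2 j hj)
      inj := fun i hi i' hi' j hj j' hj' => hS.inj i (e1 i hi) i' (e1 i' hi') j (e2 j hj) j'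
        (e2 j' hj') }
  · rcases le_total b M with h1 | h1
    · rcases le_total h M with h2 | h2
      · rw [min_eq_left h1, min_eq_left h2]
        exact hbh
      · rw [min_eq_left h1, min_eq_right h2]
        nlinarith
    · rw [min_eq_right h1]
      have h3 : 1 ≤ min h M := le_min hh hM
      nlinarith

end Pool.Agent.Lib.MP_47458b_co.DU
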