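import Pool.Agent.Lib.MP_47458b_co.DU.Stm

/-!
Project DU, piece STAR: the star lemma (helper36).
-/

namespace Pool.Agent.Lib.MP_47458b_co.DU

open Finset

section

variable {W : Type} [Fintype W] [DecidableEq W] {T : Digraph W} {r : W}

theorem star_adj (hT : IsOrientedGraph T) (R : Up.Rooted T r) {a b : W} :
    (gr T).Adj a b ↔ (a ≠ r ∧ R.par a = b) ∨ (b ≠ r ∧ R.par b = a) := by
  have h1 : (gr T).Adj a b ↔ a ≠ b ∧ (T.Adj a b ∨ T.Adj b a) := by
    rw [gr, Digraph.toSimpleGraphInclusive, SimpleGraph.fromRel_adj]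
  rw [h1]
  constructor
  · rintro ⟨-, h | h⟩
    · exact R.edge a b h
    · exact (R.edge b a h).symm
  · rintro (⟨h, rfl⟩ | ⟨h, rfl⟩)
    · refine ⟨fun he => ?_, (R.adj_par a h).symm⟩
      have := R.dep_par a h
      rw [← he] at this
      exact lt_irrefl _ this
    · refine ⟨fun he => ?_, R.adj_par b h⟩
      have := R.dep_par b h
      rw [he] at this
      exact lt_irrefl _ this

theorem star_cn (hT : IsOrientedGraph T) (R : Up.Rooted T r) {S : Finset W} (hS : R.Closed S) :
    Cn (gr T) S := by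
  apply Cn.of_root (r := r)
  have key : ∀ n : ℕ, ∀ a ∈ S, R.dep a = n → ∃ p : (gr T).Walk a r, ∀ x ∈ p.support, x ∈ S := by
    intro n
    induction n using Nat.strong_induction_on with
    | _ n ih =>
      intro a ha hn
      by_cases har : a = r
      · subst har
        exact ⟨SimpleGraph.Walk.nil, by simpa using ha⟩
      · have h1 := R.dep_par a har
        obtain ⟨p, hp⟩ := ih (R.dep (R.par a)) (by omega) (R.par a) (hS.2 a ha har) rfl
        refine ⟨SimpleGraph.Walk.cons ((star_adj hT R).2 (Or.inl ⟨har, rfl⟩)) p, fun x hx => ?_⟩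
        rw [SimpleGraph.Walk.support_cons, List.mem_cons] at hx
        rcases hx with rfl | hx
        · exact ha
        · exact hp x hx
  intro a ha
  exact key _ a ha rfl

theorem star_desc_root (R : Up.Rooted T r) {c : W} (hc : c ≠ r) : ¬ Desc R c r := by
  intro h
  cases h with
  | refl => exact hc rfl
  | step h1 _ => exact h1 rfl

theorem star_desc_inv (R : Up.Rooted T r) {c x : W} (h : Desc R c x) :
    x = c ∨ (x ≠ r ∧ Desc R c (R.par x)) := by
  cases h with
  | refl => exact Or.inl rfl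
  | step h1 h2 => exact Or.inr ⟨h1, h2⟩

theorem star_desc_ne (R : Up.Rooted T r) {c x : W} (hc : c ≠ r) (h : Desc R c x) : x ≠ r := by
  rintro rfl
  exact star_desc_root R hc h

theorem star_desc_dep (R : Up.Rooted T r) {c x : W} (h : Desc R c x) :
    x = c ∨ R.dep c < R.dep x := by
  induction h with
  | refl => exact Or.inl rfl
  | @step y h1 _ ih =>
    right
    have := R.dep_par y h1
    rcases ih with h | h
    · rw [h] at this; exact this
    · omega

theorem star_desc_trans (R : Up.Rooted T r) {a b x : W} (hab : Desc R a b) (h : Desc R b x) :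
    Desc R a x := by
  induction h with
  | refl => exact hab
  | step h1 _ ih => exact Desc.step h1 ih

theorem star_desc_unique (R : Up.Rooted T r) {c c' x : W} (hc : c ≠ r) (hc' : c' ≠ r)
    (hp : R.par c = r) (hp' : R.par c' = r) (h : Desc R c x) (h' : Desc R c' x) : c = c' := by
  induction h with
  | refl =>
    rcases star_desc_inv R h' with h1 | ⟨-, h1⟩
    · exact h1
    · rw [hp] at h1
      exact absurd h1 (star_desc_root R hc')
  | @step y h1 h2 ih =>
    rcases star_desc_inv R h' with h3 | ⟨-, h3⟩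
    · rw [h3, hp'] at h2
      exact absurd h2 (star_desc_root R hc)
    · exact ih h3

/-- no children -/
def StarLf (R : Up.Rooted T r) (x : W) : Prop := ∀ y, y ≠ r → R.par y ≠ x

theorem star_lf_desc (R : Up.Rooted T r) {x y : W} (hx : StarLf R x) (h : Desc R x y) : y = x := by
  induction h with
  | refl => rfl
  | @step y h1 _ ih => exact absurd ih (hx y h1)

/-- a childless descendant -/
theorem star_leaf (R : Up.Rooted T r) (c : W) : ∃ x, Desc R c x ∧ StarLf R x := by
  classical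
  obtain ⟨x, hx, hmax⟩ := Finset.exists_max_image (univ.filter (fun x => Desc R c x)) R.dep
    ⟨c, mem_filter.2 ⟨mem_univ _, Desc.refl⟩⟩
  refine ⟨x, (mem_filter.1 hx).2, ?_⟩
  intro y hy hyx
  have h1 : Desc R c y := Desc.step hy (by rw [hyx]; exact (mem_filter.1 hx).2)
  have h2 := hmax y (mem_filter.2 ⟨mem_univ _, h1⟩)
  have h3 := R.dep_par y hy
  rw [hyx] at h3
  omega

/-- Pigeonhole for two signs. -/
theorem star_php (N : Finset W) (f : W → Bool) (n : ℕ) (h : 2 * n ≤ N.card + 1) :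
    ∃ (s : Bool) (C : Finset W), C ⊆ N ∧ C.card = n ∧ ∀ c ∈ C, f c = s := by
  classical
  have h1 : (N.filter (fun c => f c = true)).card + (N.filter (fun c => f c = false)).card =
      N.card := by
    have := Finset.card_filter_add_card_filter_not (s := N) (fun c => f c = true)
    have h2 : N.filter (fun c => ¬ f c = true) = N.filter (fun c => f c = false) := by
      apply Finset.filter_congr
      intro c _
      simp
    rw [h2] at this
    exact this
  by_cases hn : n ≤ (N.filter (fun c => f c = true)).card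
  · obtain ⟨C, hC, hCn⟩ := Finset.exists_subset_card_eq hn
    exact ⟨true, C, hC.trans (filter_subset _ _), hCn, fun c hc => (mem_filter.1 (hC hc)).2⟩
  · have hn' : n ≤ (N.filter (fun c => f c = false)).card := by omega
    obtain ⟨C, hC, hCn⟩ := Finset.exists_subset_card_eq hn'
    exact ⟨false, C, hC.trans (filter_subset _ _), hCn, fun c hc => (mem_filter.1 (hC hc)).2⟩

end

theorem p_star : S_star := by
  intro hall V W _ _ _ _ D T k m hT hD hκ hm hk v hv hno
  classical
  intro t
  by_contra hcon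
  have hN : 2 * (m * m + m) + 2 * m < (nbT T t).card := not_le.1 hcon
  obtain ⟨R⟩ := Up.exists_rooted hT t
  have hTo := hT.1
  have hG : (gr T).IsAcyclic := hT.2.1.isAcyclic
  have hcardW : Fintype.card W = k + 1 := by rw [← Nat.card_eq_fintype_card]; exact hT.2.2
  have hNmem : ∀ c ∈ nbT T t, c ≠ t ∧ R.par c = t ∧ (gr T).Adj t c := by
    intro c hc
    have h1 : (gr T).Adj t c := (mem_filter.1 hc).2
    rcases (star_adj hTo R).1 h1 with ⟨h2, -⟩ | ⟨h2, h3⟩
    · exact absurd rfl h2
    · exact ⟨h2, h3, h1⟩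
  -- leaves
  choose ℓ hℓ1 hℓ2 using fun c => star_leaf R c
  obtain ⟨s, C1, hC1N, hC1c, hC1s⟩ := star_php (nbT T t) (fun c => sg T (R.par (ℓ c)) (ℓ c))
    (m * m + m) (by omega)
  have hN2 : 2 * (m + 1) ≤ (nbT T t \ C1).card + 1 := by
    have := Finset.card_sdiff_add_card_eq_card hC1N
    omega
  obtain ⟨e, C2, hC2N, hC2c, hC2s⟩ := star_php (nbT T t \ C1) (fun c => sg T t c) (m + 1) hN2
  have hC2N' : ∀ c ∈ C2, c ∈ nbT T t := fun c hc => (mem_sdiff.1 (hC2N hc)).1
  have hC2C1 : ∀ c ∈ C2, c ∉ C1 := fun c hc => (mem_sdiff.1 (hC2N hc)).2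
  have hℓinj : ∀ c ∈ C1, ∀ c' ∈ C1, ℓ c = ℓ c' → c = c' := by
    intro c hc c' hc' h
    obtain ⟨a1, a2, -⟩ := hNmem c (hC1N hc)
    obtain ⟨b1, b2, -⟩ := hNmem c' (hC1N hc')
    exact star_desc_unique R a1 b1 a2 b2 (hℓ1 c) (by rw [h]; exact hℓ1 c')
  set L := C1.image ℓ with hL
  have hLc : L.card = m * m + m := by
    rw [hL, Finset.card_image_of_injOn (fun c hc c' hc' h => hℓinj c hc c' hc' h), hC1c]
  have hLmem : ∀ l ∈ L, l ≠ t ∧ StarLf R l ∧ ∃ c ∈ C1, Desc R c l ∧ ℓ c = l := by
    intro l hl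
    obtain ⟨c, hc, rfl⟩ := mem_image.1 hl
    exact ⟨star_desc_ne R (hNmem c (hC1N hc)).1 (hℓ1 c), hℓ2 c, c, hc, hℓ1 c, rfl⟩
  have hLeafs : Leafs T s L R.par := by
    constructor
    · intro l hl
      exact ((star_adj hTo R).2 (Or.inl ⟨(hLmem l hl).1, rfl⟩)).symm
    · intro l hl a ha
      rcases (star_adj hTo R).1 ha with ⟨h1, h2⟩ | ⟨h1, h2⟩
      · exact absurd h2 ((hLmem l hl).2.1 a h1)
      · exact h2.symm
    · intro l hl hpl
      exact (hLmem _ hpl).2.1 l (hLmem l hl).1 rfl
    · intro l hl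
      obtain ⟨c, hc, rfl⟩ := mem_image.1 hl
      exact hC1s c hc
  -- the ancestors of the leaves
  set S0 : Finset W := univ.filter (fun x => x = t ∨ ∃ l ∈ L, x ≠ l ∧ Desc R x l) with hS0
  have htS0 : t ∈ S0 := mem_filter.2 ⟨mem_univ _, Or.inl rfl⟩
  have hS0cl : R.Closed S0 := by
    refine ⟨htS0, ?_⟩
    intro x hx hxt
    rcases (mem_filter.1 hx).2 with h | ⟨l, hl, hxl, hd⟩
    · exact absurd h hxt
    · refine mem_filter.2 ⟨mem_univ _, Or.inr ⟨l, hl, ?_, ?_⟩⟩
      · intro h
        have h1 := R.dep_par x hxt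
        rcases star_desc_dep R hd with h2 | h2
        · exact hxl h2.symm
        · rw [h] at h1; omega
      · exact star_desc_trans R (Desc.step hxt Desc.refl) hd
  have hparS0 : ∀ l ∈ L, R.par l ∈ S0 := by
    intro l hl
    have hlt := (hLmem l hl).1
    refine mem_filter.2 ⟨mem_univ _, Or.inr ⟨l, hl, ?_, Desc.step hlt Desc.refl⟩⟩
    intro h
    have h1 := R.dep_par l hlt
    rw [h] at h1
    exact lt_irrefl _ h1
  have hLcl : R.Closed Lᶜ := by
    refine ⟨mem_compl.2 (fun h => (hLmem t h).1 rfl), ?_⟩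
    intro x _ hxt
    exact mem_compl.2 (fun h => (hLmem _ h).2.1 x hxt rfl)
  have hS0L : S0 ⊆ Lᶜ := by
    intro x hx
    rw [mem_compl]
    intro hxL
    rcases (mem_filter.1 hx).2 with h | ⟨l, hl, hxl, hd⟩
    · exact (hLmem x hxL).1 h
    · exact hxl (star_lf_desc R (hLmem x hxL).2.1 hd).symm
  have hC2S0 : ∀ c ∈ C2, c ∉ S0 := by
    intro c hc hcS
    obtain ⟨a1, a2, -⟩ := hNmem c (hC2N' c hc)
    rcases (mem_filter.1 hcS).2 with h | ⟨l, hl, hcl, hd⟩
    · exact a1 h
    · obtain ⟨-, -, c1, hc1, hd1, -⟩ := hLmem l hl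
      obtain ⟨b1, b2, -⟩ := hNmem c1 (hC1N hc1)
      have := star_desc_unique R a1 b1 a2 b2 hd hd1
      exact hC2C1 c hc (this ▸ hc1)
  have hC2L : C2 ⊆ Lᶜ := by
    intro c hc
    rw [mem_compl]
    intro hcL
    obtain ⟨a1, a2, -⟩ := hNmem c (hC2N' c hc)
    obtain ⟨-, -, c1, hc1, hd1, -⟩ := hLmem c hcL
    obtain ⟨b1, b2, -⟩ := hNmem c1 (hC1N hc1)
    have := star_desc_unique R a1 b1 a2 b2 Desc.refl hd1
    exact hC2C1 c hc (this ▸ hc1)
  have hcompl : Lᶜ.card = k + 1 - (m * m + m) := by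
    rw [Finset.card_compl, hcardW, hLc]
  have hmm : m ≤ m * m := Nat.le_mul_self m
  have hκ' : ∀ s x, k - m ≤ (nb D s x).card := fun s x => by have := hκ s x; omega
  have hLccard : Lᶜ.card ≤ (k - m) + 1 := by rw [hcompl]; omega
  -- the first embedding
  have hcnS0 : Cn (gr T) S0 := star_cn hTo R hS0cl
  obtain ⟨φ0, hφ0, hφ0t⟩ := IsEmb.greedy hD hκ' hTo hG hcnS0
    ((Finset.card_le_card hS0L).trans hLccard) _ {t} (fun _ => v) rfl ⟨t, mem_singleton_self t⟩
    (Finset.singleton_subset_iff.2 htS0) (Cn.single t) (IsEmb.single hTo.1 t v)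
  have hφ0v : φ0 t = v := hφ0t t (mem_singleton_self t)
  set J := Jset D m s L (fun l => φ0 (R.par l)) with hJ
  have hJeq : ∀ ψ : W → V, (∀ x ∈ S0, ψ x = φ0 x) → Jset D m s L (fun l => ψ (R.par l)) = J := by
    intro ψ hψ
    rw [hJ]
    unfold Jset
    apply Finset.filter_congr
    intro w _
    have : L.filter (fun l => w ∈ nb D s (ψ (R.par l))) =
        L.filter (fun l => w ∈ nb D s (φ0 (R.par l))) := by
      apply Finset.filter_congr
      intro l hl
      rw [hψ _ (hparS0 l hl)]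
    simp only [this]
  -- every partial embedding extends
  have hcnC : ∀ C' ⊆ C2, Cn (gr T) (S0 ∪ C') := by
    intro C' hC'
    apply star_cn hTo R
    refine ⟨mem_union_left _ htS0, ?_⟩
    intro x hx hxt
    rcases mem_union.1 hx with h | h
    · exact mem_union_left _ (hS0cl.2 x h hxt)
    · rw [(hNmem x (hC2N' x (hC' h))).2.1]
      exact mem_union_left _ htS0
  have hext : ∀ C' ⊆ C2, ∀ φ : W → V, IsEmb T D (S0 ∪ C') φ → (∀ x ∈ S0, φ x = φ0 x) →
      (((S0 ∪ C').image φ) \ J).card + J.card ≤ k ∧ k ≤ J.card + m := by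
    intro C' hC' φ hφ hφ0'
    have hsub : S0 ∪ C' ⊆ Lᶜ := Finset.union_subset hS0L (hC'.trans hC2L)
    obtain ⟨ψ, hψ, hψφ⟩ := IsEmb.greedy hD hκ' hTo hG (star_cn hTo R hLcl) hLccard _ (S0 ∪ C') φ
      rfl ⟨t, mem_union_left _ htS0⟩ hsub (hcnC C' hC') hφ
    have h1 := hall V W D T k m hT hD hκ hno (by omega) hm s L R.par hLeafs (by omega) (by omega)
      ψ hψ
    rw [hJeq ψ (fun x hx => by rw [hψφ x (mem_union_left _ hx), hφ0' x hx])] at h1
    refine ⟨?_, h1.1⟩
    have h2 : ((S0 ∪ C').image φ) \ J ⊆ (Lᶜ.image ψ) \ J := by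
      apply Finset.sdiff_subset_sdiff _ (Finset.Subset.refl _)
      intro y hy
      obtain ⟨x, hx, rfl⟩ := mem_image.1 hy
      exact mem_image.2 ⟨x, hsub hx, hψφ x hx⟩
    have h3 := Finset.card_le_card h2
    omega
  -- a maximal set of vertices outside `J`
  let P : Finset W → Prop := fun C' => ∃ φ : W → V, IsEmb T D (S0 ∪ C') φ ∧
    (∀ x ∈ S0, φ x = φ0 x) ∧ ∀ c ∈ C', φ c ∉ J
  obtain ⟨C', hC', hmax⟩ := Finset.exists_max_image (C2.powerset.filter P) Finset.card
    ⟨∅, mem_filter.2 ⟨mem_powerset.2 (empty_subset _), φ0, by rw [union_empty]; exact hφ0,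
      fun _ _ => rfl, fun c hc => absurd hc (notMem_empty c)⟩⟩
  obtain ⟨hC'2, φ, hφ, hφφ0, hφJ⟩ := mem_filter.1 hC'
  rw [mem_powerset] at hC'2
  obtain ⟨h1, h2⟩ := hext C' hC'2 φ hφ hφφ0
  by_cases hfull : C' = C2
  · -- all vertices of `C2` are outside `J`
    have h3 : C'.image φ ⊆ ((S0 ∪ C').image φ) \ J := by
      intro y hy
      obtain ⟨x, hx, rfl⟩ := mem_image.1 hy
      exact mem_sdiff.2 ⟨mem_image_of_mem φ (mem_union_right _ hx), hφJ x hx⟩
    have h4 := Finset.card_le_card h3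
    rw [Finset.card_image_of_injOn (fun a ha b hb hab => hφ.inj a (mem_union_right _ ha) b
      (mem_union_right _ hb) hab), hfull, hC2c] at h4
    rw [hfull] at h1
    omega
  · obtain ⟨c, hc, hcC'⟩ : ∃ c ∈ C2, c ∉ C' := by
      by_contra hcon2
      push Not at hcon2
      exact hfull (Finset.Subset.antisymm hC'2 hcon2)
    obtain ⟨a1, a2, a3⟩ := hNmem c (hC2N' c hc)
    have hφt : φ t = v := by rw [hφφ0 t htS0, hφ0v]
    have hcS : c ∉ S0 ∪ C' := by
      rw [mem_union, not_or]
      exact ⟨hC2S0 c hc, hcC'⟩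
    have hused : ∀ y ∈ nb D e v, y ∉ J → y ∈ (S0 ∪ C').image φ := by
      intro y hy hyJ
      by_contra hyI
      have h5 := hφ.extend hTo hG (hcnC C' hC'2) (mem_union_left _ htS0) hcS a3
        (y := y) (by rw [hC2s c hc, hφt]; exact hy) hyI
      have h6 : insert c C' ∈ C2.powerset.filter P := by
        refine mem_filter.2 ⟨mem_powerset.2 (Finset.insert_subset hc hC'2),
          Function.update φ c y, ?_, ?_, ?_⟩
        · rw [Finset.union_insert]; exact h5
        · intro x hx
          rw [Function.update_of_ne (fun h => hC2S0 c hc (by rw [← h]; exact hx))]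
          exact hφφ0 x hx
        · intro x hx
          rcases mem_insert.1 hx with h | h
          · rw [h, Function.update_self]; exact hyJ
          · rw [Function.update_of_ne (fun h' => hcC' (by rw [← h']; exact h))]
            exact hφJ x h
      have h7 := hmax _ h6
      rw [Finset.card_insert_of_notMem hcC'] at h7
      omega
    have hX : (insert v (nb D e v)) \ J ⊆ ((S0 ∪ C').image φ) \ J := by
      intro y hy
      obtain ⟨hy1, hyJ⟩ := mem_sdiff.1 hy
      refine mem_sdiff.2 ⟨?_, hyJ⟩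
      rcases mem_insert.1 hy1 with h | h
      · rw [h, ← hφt]
        exact mem_image_of_mem φ (mem_union_left _ htS0)
      · exact hused y h hyJ
    have h8 := Finset.card_le_card hX
    have h9 : (insert v (nb D e v)).card = (nb D e v).card + 1 :=
      Finset.card_insert_of_notMem (notMem_nb_self hD e v)
    have h10 := Finset.le_card_sdiff J (insert v (nb D e v))
    have h11 := hv e
    omega

end Pool.Agent.Lib.MP_47458b_co.DU
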