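import Pool.Agent.Lib.MP_47458b_co.DU.Stm2

/-!
# MP_47458b_co, project DU, piece TAB: tree data for both signs (section 11)
-/

namespace Pool.Agent.Lib.MP_47458b_co.DU

open Finset

section tools

variable {W : Type} [Fintype W] [DecidableEq W] {T : Digraph W} {r : W}

omit [Fintype W] [DecidableEq W] in
theorem tab_adj (hT : IsOrientedGraph T) (R : Up.Rooted T r) {a b : W} :
    (gr T).Adj a b ↔ (a ≠ r ∧ R.par a = b) ∨ (b ≠ r ∧ R.par b = a) := by
  have h0 : (gr T).Adj a b ↔ a ≠ b ∧ (T.Adj a b ∨ T.Adj b a) := by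
    simp only [gr, Digraph.toSimpleGraphInclusive, SimpleGraph.fromRel_adj]
  rw [h0]
  constructor
  · rintro ⟨-, h | h⟩
    · exact R.edge a b h
    · exact (R.edge b a h).symm
  · rintro (⟨h1, h2⟩ | ⟨h1, h2⟩)
    · have h3 := R.dep_par a h1
      refine ⟨fun h => ?_, ?_⟩
      · rw [h2, ← h] at h3
        exact lt_irrefl _ h3
      · have := R.adj_par a h1
        rw [h2] at this
        exact this.symm
    · have h3 := R.dep_par b h1
      refine ⟨fun h => ?_, ?_⟩
      · rw [h2, h] at h3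
        exact lt_irrefl _ h3
      · have := R.adj_par b h1
        rw [h2] at this
        exact this

omit [Fintype W] [DecidableEq W] in
theorem tab_sg (hT : IsOrientedGraph T) (R : Up.Rooted T r) {x : W} (hx : x ≠ r) :
    sg T x (R.par x) = !(sg T (R.par x) x) := by
  unfold sg
  rcases R.adj_par x hx with h | h
  · have h' := hT.2 _ _ h
    simp [h, h']
  · have h' := hT.2 _ _ h
    simp [h, h']

theorem tab_nb (hT : IsOrientedGraph T) {a b : W} (h : (gr T).Adj a b) : b ∈ nb T (sg T a b) a := by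
  have h0 : (gr T).Adj a b ↔ a ≠ b ∧ (T.Adj a b ∨ T.Adj b a) := by
    simp only [gr, Digraph.toSimpleGraphInclusive, SimpleGraph.fromRel_adj]
  rw [h0] at h
  by_cases hab : T.Adj a b
  · have : sg T a b = true := by simp [sg, hab]
    rw [this, mem_nb_true]
    exact hab
  · have h1 : sg T a b = false := by simp [sg, hab]
    rw [h1, mem_nb_false]
    exact h.2.resolve_left hab

omit [Fintype W] [DecidableEq W] in
theorem tab_trans (R : Up.Rooted T r) {a b x : W} (hab : Desc R a b) (h : Desc R b x) :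
    Desc R a x := by
  induction h with
  | refl => exact hab
  | step hx _ ih => exact Desc.step hx ih

omit [Fintype W] [DecidableEq W] in
theorem tab_ne_root (R : Up.Rooted T r) {a x : W} (ha : a ≠ r) (h : Desc R a x) : x ≠ r := by
  cases h with
  | refl => exact ha
  | step hx _ => exact hx

omit [Fintype W] [DecidableEq W] in
theorem tab_root (R : Up.Rooted T r) (x : W) : Desc R r x := by
  induction hd : R.dep x using Nat.strong_induction_on generalizing x with
  | _ n ih =>
    by_cases hx : x = r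
    · rw [hx]
      exact Desc.refl
    · exact Desc.step hx (ih (R.dep (R.par x)) (hd ▸ R.dep_par x hx) (R.par x) rfl)

omit [Fintype W] [DecidableEq W] in
theorem tab_child (R : Up.Rooted T r) {x : W} (hx : x ≠ r) : Desc R (R.par x) x :=
  Desc.step hx Desc.refl

theorem tab_mem_dsc {R : Up.Rooted T r} {X : Finset W} {a x : W} :
    x ∈ dsc R X a ↔ x ∈ X ∧ Desc R a x := by
  classical
  unfold dsc
  rw [mem_filter]

theorem tab_mem_sdsc {R : Up.Rooted T r} {X : Finset W} {a x : W} :
    x ∈ sdsc R X a ↔ x ≠ a ∧ x ∈ X ∧ Desc R a x := by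
  unfold sdsc
  rw [mem_erase, tab_mem_dsc]

/-- descendants inside the set of descendants -/
theorem tab_dsc_dsc (R : Up.Rooted T r) (X : Finset W) {a b : W} (hab : Desc R a b) :
    dsc R (dsc R X a) b = dsc R X b := by
  ext x
  rw [tab_mem_dsc, tab_mem_dsc, tab_mem_dsc]
  exact ⟨fun h => ⟨h.1.1, h.2⟩, fun h => ⟨⟨h.1, tab_trans R hab h.2⟩, h.2⟩⟩

/-- a set closed under parents up to its top is connected -/
theorem tab_cn (hT : IsOrientedGraph T) (R : Up.Rooted T r) (M : Finset W) (x0 : W) (h0 : x0 ∈ M)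
    (h : ∀ x ∈ M, x ≠ x0 → x ≠ r ∧ R.par x ∈ M) : Cn (gr T) M := by
  apply Cn.of_root (r := x0)
  intro a ha
  induction hd : R.dep a using Nat.strong_induction_on generalizing a with
  | _ n ih =>
    by_cases hax : a = x0
    · subst hax
      exact ⟨SimpleGraph.Walk.nil, by simpa using ha⟩
    · obtain ⟨h1, h2⟩ := h a ha hax
      obtain ⟨p, hp⟩ := ih (R.dep (R.par a)) (hd ▸ R.dep_par a h1) (R.par a) h2 rfl
      refine ⟨SimpleGraph.Walk.cons ((tab_adj hT R).mpr (Or.inl ⟨h1, rfl⟩)) p, ?_⟩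
      intro x hx
      rw [SimpleGraph.Walk.support_cons, List.mem_cons] at hx
      rcases hx with rfl | hx
      · exact ha
      · exact hp x hx

/-- at most `Δ` children -/
theorem tab_kids (hT : IsOrientedGraph T) (R : Up.Rooted T r) {Δ : ℕ} (hΔ : DegLe T Δ)
    (S Y : Finset W) (h : ∀ x ∈ S, x ≠ r ∧ R.par x ∈ Y) : S.card ≤ Δ * Y.card := by
  classical
  have h1 : S ⊆ Y.biUnion (fun y => nbT T y) := by
    intro x hx
    obtain ⟨h1, h2⟩ := h x hx
    refine mem_biUnion.mpr ⟨R.par x, h2, ?_⟩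
    unfold nbT
    exact mem_filter.mpr ⟨mem_univ _, (tab_adj hT R).mpr (Or.inr ⟨h1, rfl⟩)⟩
  refine (card_le_card h1).trans ?_
  rw [mul_comm]
  exact card_biUnion_le_card_mul _ _ _ fun y _ => hΔ y

/-- the first step of a chain -/
theorem tab_first (R : Up.Rooted T r) (H : Finset W) (b : W)
    (hH : ∀ x ∈ H, Desc R b x → x ≠ b → R.par x ∈ H) {x : W} (hd : Desc R b x) :
    x ∈ H → x ≠ b → ∃ f ∈ H, f ≠ r ∧ R.par f = b ∧ Desc R f x := by
  induction hd with
  | refl => exact fun _ h => absurd rfl h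
  | @step x hx hd ih =>
    intro hxH hxb
    by_cases hp : R.par x = b
    · exact ⟨x, hxH, hx, hp, Desc.refl⟩
    · obtain ⟨f, h1, h2, h3, h4⟩ := ih (hH x hxH (Desc.step hx hd) hxb) hp
      exact ⟨f, h1, h2, h3, Desc.step hx h4⟩

end tools

/-- the positions -/
theorem tab_pos {W : Type} [Fintype W] [DecidableEq W] {T : Digraph W} {r : W}
    (R : Up.Rooted T r) (A B : Finset W) (hdep : ∀ x y : W, Desc R x y → x = y ∨ R.dep x < R.dep y)
    (hA : R.Closed A) (hB : Below R B r) (hAB : Disjoint A B)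
    (hX : ∀ x ∈ insert r B, Below R (sdsc R (insert r B) x) x) {b f : W} (hb : b ∈ B) (hf : f ∈ B)
    (hfb : R.par f = b) :
    Pos T both R A (A ∪ B) (A ∪ (B \ sdsc R (insert r B) b)) b
      (insert f (sdsc R (insert r B) f)) ∧
    Pos T both R A (A ∪ B) (insert f (A ∪ (B \ sdsc R (insert r B) b))) f
      (sdsc R (insert r B) f) ∧
    R.Closed ((A ∪ (B \ sdsc R (insert r B) b)).erase b) := by
  have hBr : ∀ x ∈ B, x ≠ r := fun x hx h => hB.2.1 (h ▸ hx)
  have hbr := hBr b hb
  have hfr := hBr f hf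
  have hdbf : Desc R b f := by
    rw [← hfb]
    exact tab_child R hfr
  have hnb : f ≠ b := by
    intro h
    have := R.dep_par f hfr
    rw [hfb, h] at this
    exact lt_irrefl _ this
  set SB := sdsc R (insert r B) b with hSB
  set SF := sdsc R (insert r B) f with hSF
  have hSBB : ∀ x ∈ SB, x ∈ B := by
    intro x hx
    obtain ⟨h1, h2, h3⟩ := tab_mem_sdsc.mp hx
    exact (mem_insert.mp h2).resolve_left (tab_ne_root R hbr h3)
  have hSFSB : ∀ x ∈ SF, x ∈ SB := by
    intro x hx
    obtain ⟨h1, h2, h3⟩ := tab_mem_sdsc.mp hx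
    refine tab_mem_sdsc.mpr ⟨?_, h2, tab_trans R hdbf h3⟩
    rintro rfl
    have h4 := R.dep_par f hfr
    rw [hfb] at h4
    rcases hdep f x h3 with h5 | h5
    · exact h1 h5.symm
    · omega
  have hfSB : f ∈ SB := tab_mem_sdsc.mpr ⟨hnb, mem_insert_of_mem hf, hdbf⟩
  have hbSB : b ∉ SB := fun h => (tab_mem_sdsc.mp h).1 rfl
  have hfSF : f ∉ SF := fun h => (tab_mem_sdsc.mp h).1 rfl
  have hbP : b ∈ A ∪ (B \ SB) := mem_union_right _ (mem_sdiff.mpr ⟨hb, hbSB⟩)
  -- the children of `b` in `B` are in `SB`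
  have hchild : ∀ x ∈ B, R.par x = b → x ∈ SB := by
    intro x hx hxb
    have hxr := hBr x hx
    refine tab_mem_sdsc.mpr ⟨?_, mem_insert_of_mem hx, ?_⟩
    · intro h
      have := R.dep_par x hxr
      rw [hxb, h] at this
      exact lt_irrefl _ this
    · rw [← hxb]
      exact tab_child R hxr
  have hclosed : R.Closed (A ∪ (B \ SB)) := by
    refine ⟨mem_union_left _ hA.1, ?_⟩
    intro x hx hxr
    rcases mem_union.mp hx with hx | hx
    · exact mem_union_left _ (hA.2 x hx hxr)
    · obtain ⟨h1, h2⟩ := mem_sdiff.mp hx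
      rcases mem_insert.mp (hB.2.2 x h1) with h3 | h3
      · rw [h3]
        exact mem_union_left _ hA.1
      · refine mem_union_right _ (mem_sdiff.mpr ⟨h3, fun h4 => ?_⟩)
        obtain ⟨h5, h6, h7⟩ := tab_mem_sdsc.mp h4
        by_cases hxb : x = b
        · rw [hxb] at h7 h5
          have h8 := R.dep_par b hbr
          rcases hdep b _ h7 with h9 | h9
          · exact h5 h9.symm
          · omega
        · exact h2 (tab_mem_sdsc.mpr ⟨hxb, mem_insert_of_mem h1, Desc.step hxr h7⟩)
  have hbelowF : Below R SF f := hX f (mem_insert_of_mem hf)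
  refine ⟨⟨hclosed, subset_union_left, hbP, ?_, ?_, ?_, fun _ _ => trivial⟩,
    ⟨?_, ?_, mem_insert_self _ _, ?_, ?_, hbelowF, fun _ _ => trivial⟩, ?_⟩
  · rw [disjoint_left]
    intro x hx hx'
    have hxSB : x ∈ SB := by
      rcases mem_insert.mp hx' with rfl | h
      · exact hfSB
      · exact hSFSB x h
    rcases mem_union.mp hx with h | h
    · exact (disjoint_left.mp hAB h) (hSBB x hxSB)
    · exact (mem_sdiff.mp h).2 hxSB
  · intro x hx
    rcases mem_union.mp hx with h | h
    · rcases mem_union.mp h with h | h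
      · exact mem_union_left _ h
      · exact mem_union_right _ (mem_sdiff.mp h).1
    · rcases mem_insert.mp h with rfl | h
      · exact mem_union_right _ hf
      · exact mem_union_right _ (hSBB x (hSFSB x h))
  · refine ⟨?_, ?_, ?_⟩
    · intro h
      rcases mem_insert.mp h with h | h
      · exact hnb h.symm
      · exact hbSB (hSFSB b h)
    · intro h
      rcases mem_insert.mp h with h | h
      · exact hfr h.symm
      · exact hBr r (hSBB r (hSFSB r h)) rfl
    · intro x hx
      rcases mem_insert.mp hx with rfl | hx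
      · rw [hfb]
        exact mem_insert_self _ _
      · exact mem_insert_of_mem (hbelowF.2.2 x hx)
  · exact Up.Closed.insert R hclosed (by rw [hfb]; exact hbP)
  · exact subset_union_left.trans (subset_insert _ _)
  · rw [disjoint_left]
    intro x hx hx'
    rcases mem_insert.mp hx with rfl | hx
    · exact hfSF hx'
    · have hxSB := hSFSB x hx'
      rcases mem_union.mp hx with h | h
      · exact (disjoint_left.mp hAB h) (hSBB x hxSB)
      · exact (mem_sdiff.mp h).2 hxSB
  · intro x hx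
    rcases mem_union.mp hx with h | h
    · rcases mem_insert.mp h with rfl | h
      · exact mem_union_right _ hf
      · rcases mem_union.mp h with h | h
        · exact mem_union_left _ h
        · exact mem_union_right _ (mem_sdiff.mp h).1
    · exact mem_union_right _ (hSBB x (hSFSB x h))
  · refine ⟨mem_erase.mpr ⟨hbr.symm, hclosed.1⟩, ?_⟩
    intro x hx hxr
    obtain ⟨h1, h2⟩ := mem_erase.mp hx
    refine mem_erase.mpr ⟨fun h3 => ?_, hclosed.2 x h2 hxr⟩
    rcases mem_union.mp h2 with h4 | h4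
    · have := hA.2 x h4 hxr
      rw [h3] at this
      exact (disjoint_left.mp hAB this) hb
    · obtain ⟨h5, h6⟩ := mem_sdiff.mp h4
      exact h6 (hchild x h5 h3)

theorem p_tab : S_tab := by
  intro hclo hcnt W _ _ k T hT r R A B Δ g n M1 hΔ hΔ1 hg hA hB hAB hcard
  classical
  obtain ⟨-, -, hsub, hdep⟩ := hclo W k T hT r R
  set X := insert r B with hXdef
  have hBr : ∀ x ∈ B, x ≠ r := fun x hx h => hB.2.1 (h ▸ hx)
  have hXe : X.erase r = B := erase_insert hB.1
  obtain ⟨hX1, hX2, hX3, hX4⟩ := hcnt hclo W k T hT r R Δ hΔ X r (mem_insert_self _ _)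
    (by rw [hXe]; exact hB)
  have hXcard : X.card = B.card + 1 := card_insert_of_notMem hB.1
  set nr := (g + 1) * (1 + Δ * g) with hnr
  set c0 := n + 2 + Δ * (Δ + 1) + Δ * (M1 * (Δ + 1) + 1) with hc0
  set W1 := c0 * (1 + Δ * nr) with hW1
  have hnr1 : g + 1 ≤ nr := Nat.le_mul_of_pos_right _ (by omega)
  have hc01 : 2 ≤ c0 := by omega
  have hW1nr : nr ≤ W1 := by
    calc nr ≤ Δ * nr := Nat.le_mul_of_pos_left _ hΔ1
      _ ≤ 1 + Δ * nr := by omega
      _ ≤ c0 * (1 + Δ * nr) := Nat.le_mul_of_pos_left _ (by omega)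
  have hW1pos : 1 ≤ W1 := by omega
  have hW1le : W1 ≤ W1 * Δ := Nat.le_mul_of_pos_right _ hΔ1
  have hW1B : W1 * Δ + n + 2 ≤ B.card := hcard
  obtain ⟨b0, hb0X, hb01, hb02⟩ := hX3 W1 hW1pos (by omega)
  have hb0le : (dsc R X b0).card + n + 1 ≤ B.card := by
    have h1 : Δ * (W1 - 1) ≤ W1 * Δ := by
      rw [mul_comm]
      exact Nat.mul_le_mul_right _ (Nat.sub_le _ _)
    omega
  have hb0r : b0 ≠ r := by
    rintro rfl
    have h1 : dsc R X b0 = X := by
      ext x
      rw [tab_mem_dsc]
      exact ⟨fun h => h.1, fun h => ⟨h, tab_root R x⟩⟩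
    rw [h1] at hb0le
    omega
  set Y := dsc R X b0 with hY
  have hYB : ∀ x ∈ Y, x ∈ B := by
    intro x hx
    obtain ⟨h1, h2⟩ := tab_mem_dsc.mp hx
    exact (mem_insert.mp h1).resolve_left (tab_ne_root R hb0r h2)
  have hb0Y : b0 ∈ Y := tab_mem_dsc.mpr ⟨hb0X, Desc.refl⟩
  -- the size of `P`
  have hPcard : ∀ b ∈ Y, n ≤ (A ∪ (B \ sdsc R X b)).card := by
    intro b hb
    have h1 : sdsc R X b ⊆ Y := by
      intro x hx
      obtain ⟨-, h2, h3⟩ := tab_mem_sdsc.mp hx
      exact tab_mem_dsc.mpr ⟨h2, tab_trans R (tab_mem_dsc.mp hb).2 h3⟩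
    have h2 := card_le_card h1
    have h3 := le_card_sdiff (sdsc R X b) B
    have h4 := card_le_card (subset_union_right : B \ sdsc R X b ⊆ A ∪ (B \ sdsc R X b))
    omega
  by_cases hcase : ∃ b ∈ Y, ∃ f ∈ B, R.par f = b ∧ nr ≤ (dsc R X f).card ∧
      sg T (R.par b) b = sg T b f
  · obtain ⟨b, hb, f, hf, hfb, hwf, hsg⟩ := hcase
    left
    obtain ⟨h1, h2, h3⟩ := tab_pos R A B hdep hA hB hAB hX1 (hYB b hb) hf hfb
    exact ⟨A ∪ (B \ sdsc R X b), b, f, sdsc R X f, h1, h2, hfb, hBr b (hYB b hb), h3, hsg,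
      hX4 g f (mem_insert_of_mem hf) hwf, hPcard b hb⟩
  · right
    push Not at hcase
    -- the antidirected part
    set H := Y.filter (fun x => nr ≤ (dsc R X x).card) with hH
    have hYY : ∀ x ∈ Y, dsc R Y x = dsc R X x := fun x hx =>
      tab_dsc_dsc R X (tab_mem_dsc.mp hx).2
    have hYe : Below R (Y.erase b0) b0 := hX1 b0 hb0X
    obtain ⟨-, hY2, -, -⟩ := hcnt hclo W k T hT r R Δ hΔ Y b0 hb0Y hYe
    have hHeq : Y.filter (fun x => nr ≤ (dsc R Y x).card) = H := by
      apply filter_congr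
      intro x hx
      rw [hYY x hx]
    obtain ⟨hH1, hH2, hH3⟩ := hY2 nr (by omega) (by omega)
    rw [hHeq] at hH1 hH2 hH3
    have hHcard : c0 ≤ H.card := by
      have h1 : c0 * (1 + Δ * nr) ≤ H.card * (1 + Δ * nr) := by
        calc c0 * (1 + Δ * nr) ≤ Y.card := hb01
          _ ≤ H.card * (1 + Δ * (nr - 1)) := hH1
          _ ≤ H.card * (1 + Δ * nr) := by
            refine Nat.mul_le_mul_left _ (Nat.add_le_add_left (Nat.mul_le_mul_left _ ?_) _)
            exact Nat.sub_le _ _
      exact Nat.le_of_mul_le_mul_right h1 (by omega)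
    have hHY : ∀ x ∈ H, x ∈ Y := fun x hx => (mem_filter.mp hx).1
    have hHB : ∀ x ∈ H, x ∈ B := fun x hx => hYB x (hHY x hx)
    have hHpar : ∀ x ∈ H, x ≠ b0 → R.par x ∈ H := by
      intro x hx hxb
      have h1 := hH3.2.2 x (mem_erase.mpr ⟨hxb, hx⟩)
      rcases mem_insert.mp h1 with h2 | h2
      · rw [h2]
        exact hH2
      · exact (mem_erase.mp h2).2
    -- alternating signs
    have halt : ∀ x ∈ Y, ∀ f ∈ H, f ≠ r → R.par f = x → sg T x f = !(sg T (R.par x) x) := by
      intro x hx f hf _ hfx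
      have h1 := hcase x hx f (hHB f hf) hfx (mem_filter.mp hf).2
      revert h1
      cases sg T x f <;> cases sg T (R.par x) x <;> simp
    obtain ⟨-, -, hHH3, -⟩ := hcnt hclo W k T hT r R Δ hΔ H b0 hH2 hH3
    have hΔ2 : Δ ≤ Δ * (Δ + 1) := Nat.le_mul_of_pos_right _ (by omega)
    obtain ⟨b, hbH, hb1, hb2⟩ := hHH3 (Δ + 2) (by omega) (by omega)
    have hbY := hHY b hbH
    have hbB := hHB b hbH
    have hbr := hBr b hbB
    -- no `b0` strictly below `b`
    have hnb0 : ∀ x, Desc R b x → x ≠ b → x ≠ b0 := by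
      rintro x h1 h2 rfl
      rcases hdep _ _ h1 with h3 | h3
      · exact h2 h3.symm
      · rcases hdep _ _ (tab_mem_dsc.mp hbY).2 with h4 | h4
        · exact h2 h4
        · omega
    -- the grandchild
    have hex : ∃ x ∈ dsc R H b, x ≠ b ∧ R.par x ≠ b := by
      by_contra hno
      push Not at hno
      have h1 : ((dsc R H b).erase b).card ≤ Δ * ({b} : Finset W).card := by
        refine tab_kids hT.1 R hΔ _ _ ?_
        intro x hx
        obtain ⟨h2, h3⟩ := mem_erase.mp hx
        refine ⟨hBr x (hHB x (tab_mem_dsc.mp h3).1), ?_⟩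
        rw [mem_singleton]
        exact hno x h3 h2
      rw [card_singleton, mul_one] at h1
      have h2 := pred_card_le_card_erase (s := dsc R H b) (a := b)
      omega
    obtain ⟨x, hx, hxb, hpx⟩ := hex
    obtain ⟨hxH, hbx⟩ := tab_mem_dsc.mp hx
    obtain ⟨f, hfH, hfr, hfb, hfx⟩ := tab_first R H b
      (fun y hy h1 h2 => hHpar y hy (hnb0 y h1 h2)) hbx hxH hxb
    have hbf : Desc R b f := by
      rw [← hfb]
      exact tab_child R hfr
    have hfnb : f ≠ b := by
      intro h
      have := R.dep_par f hfr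
      rw [hfb, h] at this
      exact lt_irrefl _ this
    have hxf : x ≠ f := by
      rintro rfl
      exact hpx hfb
    have hnf : ∀ y, Desc R f y → y ≠ b := by
      intro y h1 h2
      rw [h2] at h1
      have := R.dep_par f hfr
      rw [hfb] at this
      rcases hdep _ _ h1 with h3 | h3
      · exact hfnb h3
      · omega
    obtain ⟨f2, hf2H, hf2r, hf2f, -⟩ := tab_first R H f
      (fun y hy h1 h2 => hHpar y hy (hnb0 y (tab_trans R hbf h1) (hnf y h1))) hfx hxH hxf
    have hff2 : Desc R f f2 := by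
      rw [← hf2f]
      exact tab_child R hf2r
    have hf2nf : f2 ≠ f := by
      intro h
      have := R.dep_par f2 hf2r
      rw [hf2f, h] at this
      exact lt_irrefl _ this
    have hf2X : f2 ∈ X := mem_insert_of_mem (hHB f2 hf2H)
    obtain ⟨hP1, hP2, -⟩ := tab_pos R A B hdep hA hB hAB hX1 hbB (hHB f hfH) hfb
    -- types
    set ty : W → Bool := fun x => !(sg T (R.par x) x) with hty
    have hty' : ∀ x ∈ Y, ∀ f ∈ H, f ≠ r → R.par f = x → sg T x f = ty x := halt
    have htyc : ∀ x ∈ Y, ∀ f ∈ H, f ≠ r → R.par f = x → ty f = !(ty x) := by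
      intro x hx f hf hfr hfx
      show (!(sg T (R.par f) f)) = !(ty x)
      rw [hfx, hty' x hx f hf hfr hfx]
    -- the part `M`
    set M := H \ sdsc R X b with hM
    have hbM : b ∈ M := mem_sdiff.mpr ⟨hbH, fun h => (tab_mem_sdsc.mp h).1 rfl⟩
    have hb0M : b0 ∈ M := by
      refine mem_sdiff.mpr ⟨hH2, fun h => ?_⟩
      obtain ⟨h1, -, h3⟩ := tab_mem_sdsc.mp h
      exact hnb0 b0 h3 h1 rfl
    have hMpar : ∀ x ∈ M, x ≠ b0 → x ≠ r ∧ R.par x ∈ M := by
      intro x hx hxb0
      obtain ⟨h1, h2⟩ := mem_sdiff.mp hx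
      have hxr := hBr x (hHB x h1)
      refine ⟨hxr, mem_sdiff.mpr ⟨hHpar x h1 hxb0, fun h3 => ?_⟩⟩
      obtain ⟨h4, h5, h6⟩ := tab_mem_sdsc.mp h3
      by_cases hxb : x = b
      · rw [hxb] at h6 h4
        have h8 := R.dep_par b hbr
        rcases hdep b _ h6 with h9 | h9
        · exact h4 h9.symm
        · omega
      · exact h2 (tab_mem_sdsc.mpr ⟨hxb, mem_insert_of_mem (hHB x h1), Desc.step hxr h6⟩)
    have hMcn : Cn (gr T) M := tab_cn hT.1 R M b0 hb0M hMpar
    have hMcard : n ≤ M.card := by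
      have h1 : H \ sdsc R X b = H \ (dsc R H b).erase b := by
        ext y
        rw [mem_sdiff, mem_sdiff, tab_mem_sdsc, mem_erase, tab_mem_dsc]
        constructor
        · rintro ⟨h1, h2⟩
          exact ⟨h1, fun h3 => h2 ⟨h3.1, mem_insert_of_mem (hHB y h1), h3.2.2⟩⟩
        · rintro ⟨h1, h2⟩
          exact ⟨h1, fun h3 => h2 ⟨h3.1, h1, h3.2.2⟩⟩
      rw [hM, h1]
      have h2 := le_card_sdiff ((dsc R H b).erase b) H
      have h3 := card_erase_le (s := dsc R H b) (a := b)
      have h4 : Δ + 2 - 1 = Δ + 1 := by omega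
      rw [h4] at hb2
      omega
    refine ⟨A ∪ (B \ sdsc R X b), M, b, f, f2, sdsc R X f, ty, hP1, hP2, hfb,
      tab_mem_sdsc.mpr ⟨hf2nf, hf2X, hff2⟩, hf2f, hX4 g f (mem_insert_of_mem (hHB f hfH))
        (mem_filter.mp hfH).2, ?_, ?_, hbM, hMcn, hMcard, ?_, hty' b hbY f hfH hfr hfb,
      hty' f (hHY f hfH) f2 hf2H hf2r hf2f, htyc b hbY f hfH hfr hfb, ?_⟩
    · -- room
      have h1 : nr ≤ (dsc R X f2).card := (mem_filter.mp hf2H).2
      have h2 : g ≤ (sdsc R X f2).card := by
        have := pred_card_le_card_erase (s := dsc R X f2) (a := f2)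
        unfold sdsc
        omega
      obtain ⟨E, hE1, hE2, hE3⟩ := hsub _ _ g (hX1 f2 hf2X) h2
      refine ⟨E, fun y hy => ?_, hE2, hE3⟩
      obtain ⟨h3, h4, h5⟩ := tab_mem_sdsc.mp (hE1 hy)
      refine tab_mem_sdsc.mpr ⟨?_, h4, tab_trans R hff2 h5⟩
      rintro rfl
      have := R.dep_par f2 hf2r
      rw [hf2f] at this
      rcases hdep _ _ h5 with h6 | h6
      · exact hf2nf h6
      · omega
    · intro y hy
      obtain ⟨h1, h2⟩ := mem_sdiff.mp hy
      exact mem_union_right _ (mem_sdiff.mpr ⟨hHB y h1, h2⟩)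
    · intro y hy y' hy' hadj
      have hyH := (mem_sdiff.mp hy).1
      have hyH' := (mem_sdiff.mp hy').1
      rcases (tab_adj hT.1 R).mp hadj with ⟨h1, h2⟩ | ⟨h1, h2⟩
      · rw [← h2]
        exact tab_sg hT.1 R h1
      · exact hty' y (hHY y hyH) y' hyH' h1 h2
    · -- many vertices with two neighbours of the same sign
      intro s
      set I : Bool → Finset W := fun σ => (H.erase b0).filter
        (fun x => ty x = σ ∧ ∃ c ∈ H, c ≠ r ∧ R.par c = x) with hI
      have hIsub : ∀ σ, I σ ⊆ univ.filter (fun u => 2 ≤ (nb T σ u).card) := by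
        intro σ x hx
        obtain ⟨h1, h2, c, h3, h4, h5⟩ := mem_filter.mp hx
        obtain ⟨h6, h7⟩ := mem_erase.mp h1
        have hxr := hBr x (hHB x h7)
        refine mem_filter.mpr ⟨mem_univ _, ?_⟩
        have hp : R.par x ∈ nb T σ x := by
          have h8 := tab_nb hT.1 ((tab_adj hT.1 R).mpr (Or.inl ⟨hxr, rfl⟩) :
            (gr T).Adj x (R.par x))
          rw [tab_sg hT.1 R hxr] at h8
          rw [← h2]
          exact h8
        have hc : c ∈ nb T σ x := by
          have h8 := tab_nb hT.1 ((tab_adj hT.1 R).mpr (Or.inr ⟨h4, h5⟩) : (gr T).Adj x c)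
          rw [hty' x (hHY x h7) c h3 h4 h5, h2] at h8
          exact h8
        have hne : R.par x ≠ c := by
          intro h
          have h8 := R.dep_par x hxr
          have h9 := R.dep_par c h4
          rw [h] at h8
          rw [h5] at h9
          omega
        have h10 : ({R.par x, c} : Finset W) ⊆ nb T σ x := by
          intro y hy
          rcases mem_insert.mp hy with h | h
          · rw [h]
            exact hp
          · rw [mem_singleton.mp h]
            exact hc
        have h11 := card_le_card h10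
        rwa [card_pair hne] at h11
      have hcard1 : (H.erase b0).card ≤ Δ * (insert b0 (I s ∪ I (!s))).card := by
        refine tab_kids hT.1 R hΔ _ _ ?_
        intro x hx
        obtain ⟨h1, h2⟩ := mem_erase.mp hx
        have hxr := hBr x (hHB x h2)
        refine ⟨hxr, ?_⟩
        have h3 := hHpar x h2 h1
        by_cases h4 : R.par x = b0
        · rw [h4]
          exact mem_insert_self _ _
        · refine mem_insert_of_mem (mem_union.mpr ?_)
          have h5 : R.par x ∈ H.erase b0 := mem_erase.mpr ⟨h4, h3⟩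
          rcases Bool.eq_or_eq_not (ty (R.par x)) s with h6 | h6
          · exact Or.inl (mem_filter.mpr ⟨h5, h6, x, h2, hxr, rfl⟩)
          · exact Or.inr (mem_filter.mpr ⟨h5, h6, x, h2, hxr, rfl⟩)
      have hcard2 : (I (!s)).card ≤ Δ * (insert b0 (I s)).card := by
        refine tab_kids hT.1 R hΔ _ _ ?_
        intro x hx
        obtain ⟨h1', h2', -⟩ := mem_filter.mp hx
        obtain ⟨h1, h2⟩ := mem_erase.mp h1'
        have hxr := hBr x (hHB x h2)
        refine ⟨hxr, ?_⟩
        have h3 := hHpar x h2 h1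
        by_cases h4 : R.par x = b0
        · rw [h4]
          exact mem_insert_self _ _
        · refine mem_insert_of_mem (mem_filter.mpr ⟨mem_erase.mpr ⟨h4, h3⟩, ?_, x, h2, hxr, rfl⟩)
          have h6 := htyc (R.par x) (hHY _ h3) x h2 hxr rfl
          rw [h2'] at h6
          exact (Bool.not_inj h6).symm
      have h1 := card_le_card (hIsub s)
      have h2 := card_insert_le b0 (I s ∪ I (!s))
      have h3 := card_union_le (I s) (I (!s))
      have h4 := card_insert_le b0 (I s)
      have h5 := pred_card_le_card_erase (s := H) (a := b0)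
      by_contra hlt
      rw [not_le] at hlt
      set i := (I s).card with hi
      have h6 : (I (!s)).card ≤ Δ * (i + 1) := hcard2.trans (Nat.mul_le_mul_left _ h4)
      have h7 : (H.erase b0).card ≤ Δ * (i + Δ * (i + 1) + 1) :=
        hcard1.trans (Nat.mul_le_mul_left _ (by omega))
      have h8 : i + 1 ≤ M1 := by omega
      have h9 : Δ * (i + Δ * (i + 1) + 1) ≤ Δ * (M1 * (Δ + 1) + 1) := by
        refine Nat.mul_le_mul_left _ ?_
        have : (i + 1) * (Δ + 1) ≤ M1 * (Δ + 1) := Nat.mul_le_mul_right _ h8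
        have h10 : i + Δ * (i + 1) + 1 = (i + 1) * (Δ + 1) := by ring
        omega
      omega

end Pool.Agent.Lib.MP_47458b_co.DU
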