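import Pool.Agent.Lib.MP_47458b_co.DU.Stm2

/-!
Piece TR1 of project DU: tree data for one available sign.
-/

namespace Pool.Agent.Lib.MP_47458b_co.DU

open Finset

section

variable {W : Type} {T : Digraph W} {r : W}

theorem tr1_trans (R : Up.Rooted T r) {a b c : W} (h1 : Desc R a b) (h2 : Desc R b c) :
    Desc R a c := by
  induction h2 with
  | refl => exact h1
  | step hx _ ih => exact Desc.step hx ih

theorem tr1_dep (R : Up.Rooted T r) {a b : W} (h : Desc R a b) : a = b ∨ R.dep a < R.dep b := by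
  induction h with
  | refl => exact Or.inl rfl
  | @step x hx _ ih =>
    right
    have h1 := R.dep_par x hx
    rcases ih with h | h
    · rw [h]; exact h1
    · omega

theorem tr1_top [DecidableEq W] (R : Up.Rooted T r) {X : Finset W} {x0 : W} (h0 : x0 ∈ X)
    (hB : Below R (X.erase x0) x0) : ∀ (n : ℕ) (y : W), R.dep y ≤ n → y ∈ X →
      R.dep x0 ≤ R.dep y := by
  intro n
  induction n with
  | zero =>
    intro y hy hyX
    by_cases hyx : y = x0
    · rw [hyx]
    · exfalso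
      have hyr : y ≠ r := by
        rintro rfl
        exact hB.2.1 (Finset.mem_erase.2 ⟨hyx, hyX⟩)
      have := R.dep_par y hyr
      omega
  | succ n ih =>
    intro y hy hyX
    by_cases hyx : y = x0
    · rw [hyx]
    · have hyr : y ≠ r := by
        rintro rfl
        exact hB.2.1 (Finset.mem_erase.2 ⟨hyx, hyX⟩)
      have h1 := R.dep_par y hyr
      have h2 := hB.2.2 y (Finset.mem_erase.2 ⟨hyx, hyX⟩)
      have h3 : R.par y ∈ X := by
        rcases Finset.mem_insert.1 h2 with h | h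
        · rw [h]; exact h0
        · exact Finset.mem_of_mem_erase h
      have := ih (R.par y) (by omega) h3
      omega

/-- the piece cut out by the bad vertices -/
theorem tr1_piece [Fintype W] [DecidableEq W] (R : Up.Rooted T r) (B Bad : Finset W)
    (hsub : Bad ⊆ B) (hr : r ∉ B) (hpar : ∀ y ∈ B, y ∉ Bad → R.par y ∈ B) (x c : ℕ)
    (hx : Bad.card ≤ x) (hc : c * x < B.card) :
    ∃ (X : Finset W) (x1 : W), x1 ∈ X ∧ X ⊆ B ∧ c < X.card ∧
      (∀ y ∈ X, y ≠ x1 → y ∉ Bad ∧ R.par y ∈ X) := by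
  classical
  set φ : W → W := fun y => if y ∈ Bad then y else R.par y with hφ
  have hφb : ∀ y, y ∈ Bad → φ y = y := fun y hy => by simp [hφ, hy]
  have hφn : ∀ y, y ∉ Bad → φ y = R.par y := fun y hy => by simp [hφ, hy]
  have hit : ∀ n y, y ∈ Bad → φ^[n] y = y := fun n y hy =>
    Function.iterate_fixed (hφb y hy) n
  have hbad : ∀ n y, y ∈ B → R.dep y ≤ n → φ^[n] y ∈ Bad := by
    intro n
    induction n with
    | zero =>
      intro y hy hd
      exfalso
      have hyr : y ≠ r := fun h => hr (h ▸ hy)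
      have := R.dep_par y hyr
      omega
    | succ n ih =>
      intro y hy hd
      by_cases hyb : y ∈ Bad
      · rw [hit _ _ hyb]; exact hyb
      · rw [Function.iterate_succ_apply, hφn y hyb]
        have hyr : y ≠ r := fun h => hr (h ▸ hy)
        have := R.dep_par y hyr
        exact ih _ (hpar y hy hyb) (by omega)
  obtain ⟨M, hM⟩ : ∃ M, ∀ y, R.dep y ≤ M :=
    ⟨∑ y, R.dep y, fun y => Finset.single_le_sum (fun _ _ => Nat.zero_le _) (Finset.mem_univ y)⟩
  set top : W → W := φ^[M] with htop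
  have ht1 : ∀ y ∈ B, top y ∈ Bad := fun y hy => hbad M y hy (hM y)
  have ht2 : ∀ y ∈ Bad, top y = y := fun y hy => hit M y hy
  have ht3 : ∀ y ∈ B, y ∉ Bad → top (R.par y) = top y := by
    intro y hy hyb
    have h1 : φ^[M + 1] y = φ^[M] (R.par y) := by
      rw [Function.iterate_succ_apply, hφn y hyb]
    have h2 : φ^[M + 1] y = φ^[M] y := by
      rw [Function.iterate_succ_apply', hφb _ (ht1 y hy)]
    rw [htop, ← h1, h2]
  obtain ⟨x1, hx1, hx1c⟩ : ∃ x1 ∈ Bad, c < (B.filter (fun y => top y = x1)).card := by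
    by_contra hcon
    push Not at hcon
    have h1 : B.card = ∑ z ∈ Bad, (B.filter (fun y => top y = z)).card :=
      Finset.card_eq_sum_card_fiberwise (fun y hy => ht1 y hy)
    have h2 : ∑ z ∈ Bad, (B.filter (fun y => top y = z)).card ≤ Bad.card • c :=
      Finset.sum_le_card_nsmul _ _ _ hcon
    rw [smul_eq_mul] at h2
    have h3 : Bad.card * c ≤ c * x := by
      rw [mul_comm]; exact Nat.mul_le_mul_left _ hx
    omega
  refine ⟨B.filter (fun y => top y = x1), x1, ?_, Finset.filter_subset _ _, hx1c, ?_⟩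
  · rw [Finset.mem_filter]
    exact ⟨hsub hx1, ht2 _ hx1⟩
  · intro y hy hne
    rw [Finset.mem_filter] at hy
    have hyb : y ∉ Bad := by
      intro h
      apply hne
      rw [← hy.2, ht2 y h]
    refine ⟨hyb, ?_⟩
    rw [Finset.mem_filter]
    exact ⟨hpar y hy.1 hyb, by rw [ht3 y hy.1 hyb]; exact hy.2⟩

theorem tr1_mem_dsc [DecidableEq W] (R : Up.Rooted T r) {F : Finset W} {u y : W} :
    y ∈ dsc R F u ↔ y ∈ F ∧ Desc R u y := by
  simp only [dsc, Finset.mem_filter]

theorem tr1_mem_sdsc [DecidableEq W] (R : Up.Rooted T r) {F : Finset W} {u y : W} :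
    y ∈ sdsc R F u ↔ y ≠ u ∧ y ∈ F ∧ Desc R u y := by
  unfold sdsc
  rw [Finset.mem_erase, tr1_mem_dsc]

end

theorem p_tr1 : S_tr1 := by
  classical
  intro hclo hcnt W _ _ k T hT r R A B s0 Δ g N x hΔ hΔ1 hg hA hB hAB hbad hsz
  set nr := (g + 1) * (1 + Δ * g) with hnr
  set W2 := (g + 1) * (1 + Δ * nr) with hW2
  set Bad := B.filter (fun y => R.par y = r ∨ sg T (R.par y) y = !s0) with hBad
  have hrB : r ∉ B := hB.2.1
  have hBpar : ∀ y ∈ B, R.par y = r ∨ R.par y ∈ B := by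
    intro y hy
    exact Finset.mem_insert.1 (hB.2.2 y hy)
  obtain ⟨X0, x1, hx1, hX0B, hX0c, hX0⟩ := tr1_piece R B Bad (Finset.filter_subset _ _) hrB
    (by
      intro y hy hyb
      rcases hBpar y hy with h | h
      · exact absurd (Finset.mem_filter.2 ⟨hy, Or.inl h⟩) hyb
      · exact h) x _ hbad hsz
  have hX0r : ∀ y ∈ X0, y ≠ r := fun y hy h => hrB (h ▸ hX0B hy)
  have hX0s : ∀ y ∈ X0, y ≠ x1 → sg T (R.par y) y = s0 := by
    intro y hy hne
    have h := (hX0 y hy hne).1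
    by_contra hs
    apply h
    rw [hBad, Finset.mem_filter]
    refine ⟨hX0B hy, Or.inr ?_⟩
    cases hh : sg T (R.par y) y <;> cases s0 <;> simp_all
  have hBX0 : Below R (X0.erase x1) x1 := by
    refine ⟨Finset.notMem_erase _ _, fun h => hrB (hX0B (Finset.mem_of_mem_erase h)), ?_⟩
    intro y hy
    obtain ⟨h1, h2⟩ := Finset.mem_erase.1 hy
    rw [Finset.insert_erase hx1]
    exact (hX0 y h2 h1).2
  have hdep1 : ∀ y ∈ X0, R.dep x1 ≤ R.dep y := fun y hy =>
    tr1_top R hx1 hBX0 (R.dep y) y le_rfl hy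
  obtain ⟨c1, c2, c3, c4⟩ := hcnt hclo W k T hT r R Δ hΔ X0 x1 hx1 hBX0
  have hW21 : 1 ≤ W2 := by
    rw [hW2]; exact Nat.mul_pos (by omega) (by omega)
  have hnr1 : 1 ≤ nr := by
    rw [hnr]; exact Nat.mul_pos (by omega) (by omega)
  have hnrW : nr ≤ W2 := by
    have h1 : 1 * nr ≤ Δ * nr := Nat.mul_le_mul_right _ hΔ1
    have h2 : 1 * (1 + Δ * nr) ≤ (g + 1) * (1 + Δ * nr) := Nat.mul_le_mul_right _ (by omega)
    rw [hW2]; omega
  have hΔW : W2 ≤ Δ * W2 := by
    have h1 : 1 * W2 ≤ Δ * W2 := Nat.mul_le_mul_right _ hΔ1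
    omega
  obtain ⟨b, hbX, hb1, hb2⟩ := c3 W2 hW21 (by omega)
  have hbB : b ∈ B := hX0B hbX
  have hbr : b ≠ r := hX0r b hbX
  have hFbelow : Below R (sdsc R X0 b) b := c1 b hbX
  -- parents of elements which are descendants of b
  have hx1F : x1 ∉ sdsc R X0 b := by
    intro h
    obtain ⟨h1, h2, h3⟩ := (tr1_mem_sdsc R).1 h
    rcases tr1_dep R h3 with h4 | h4
    · exact h1 h4.symm
    · have := hdep1 b hbX
      omega
  -- the set of the descendants of b
  set X' := dsc R X0 b with hX'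
  have hbX' : b ∈ X' := (tr1_mem_dsc R).2 ⟨hbX, Desc.refl⟩
  have hX'e : X'.erase b = sdsc R X0 b := rfl
  have hBX' : Below R (X'.erase b) b := by rw [hX'e]; exact hFbelow
  obtain ⟨d1, d2, d3, d4⟩ := hcnt hclo W k T hT r R Δ hΔ X' b hbX' hBX'
  obtain ⟨e1, e2, e3⟩ := d2 nr hnr1 (by omega)
  set H := X'.filter (fun y => nr ≤ (dsc R X' y).card) with hH
  have hHc : g + 1 ≤ H.card := by
    by_contra hlt
    rw [not_le] at hlt
    have h1 : H.card * (1 + Δ * (nr - 1)) ≤ g * (1 + Δ * nr) :=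
      Nat.mul_le_mul (by omega) (Nat.add_le_add_left (Nat.mul_le_mul_left _ (by omega)) _)
    have h2 : W2 = g * (1 + Δ * nr) + (1 + Δ * nr) := by rw [hW2]; ring
    omega
  have hsd : ∀ t ∈ sdsc R X0 b, sdsc R (sdsc R X0 b) t = sdsc R X' t := by
    intro t ht
    obtain ⟨t1, t2, t3⟩ := (tr1_mem_sdsc R).1 ht
    ext y
    rw [tr1_mem_sdsc, tr1_mem_sdsc, tr1_mem_sdsc, hX', tr1_mem_dsc]
    constructor
    · rintro ⟨h1, ⟨_, h2, h3⟩, h4⟩
      exact ⟨h1, ⟨h2, h3⟩, h4⟩
    · rintro ⟨h1, ⟨h2, h3⟩, h4⟩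
      refine ⟨h1, ⟨?_, h2, h3⟩, h4⟩
      rintro rfl
      rcases tr1_dep R t3 with h5 | h5
      · exact t1 h5.symm
      · rcases tr1_dep R h4 with h6 | h6
        · exact h1 h6.symm
        · omega
  refine ⟨A ∪ (B \ sdsc R B b), b, sdsc R X0 b, X0 \ sdsc R X0 b, x1, ?_, ?_, ?_, ?_, ?_, ?_, ?_⟩
  · refine ⟨?_, Finset.subset_union_left, ?_, ?_, ?_, hFbelow, ?_⟩
    · -- closed
      refine ⟨Finset.mem_union_left _ hA.1, ?_⟩
      intro y hy hyr
      rcases Finset.mem_union.1 hy with h | h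
      · exact Finset.mem_union_left _ (hA.2 y h hyr)
      · obtain ⟨h1, h2⟩ := Finset.mem_sdiff.1 h
        rcases hBpar y h1 with h3 | h3
        · rw [h3]; exact Finset.mem_union_left _ hA.1
        · refine Finset.mem_union_right _ (Finset.mem_sdiff.2 ⟨h3, fun h4 => h2 ?_⟩)
          obtain ⟨h5, _, h7⟩ := (tr1_mem_sdsc R).1 h4
          refine (tr1_mem_sdsc R).2 ⟨?_, h1, Desc.step hyr h7⟩
          rintro rfl
          have h8 := R.dep_par y hyr
          rcases tr1_dep R h7 with h9 | h9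
          · exact h5 h9.symm
          · omega
    · -- b in P
      refine Finset.mem_union_right _ (Finset.mem_sdiff.2 ⟨hbB, fun h => ?_⟩)
      exact ((tr1_mem_sdsc R).1 h).1 rfl
    · -- disjoint
      rw [Finset.disjoint_left]
      intro y hy hyF
      obtain ⟨h1, h2, h3⟩ := (tr1_mem_sdsc R).1 hyF
      rcases Finset.mem_union.1 hy with h | h
      · exact Finset.disjoint_left.1 hAB h (hX0B h2)
      · exact (Finset.mem_sdiff.1 h).2 ((tr1_mem_sdsc R).2 ⟨h1, hX0B h2, h3⟩)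
    · -- near
      intro y hy
      rcases Finset.mem_union.1 hy with h | h
      · rcases Finset.mem_union.1 h with h | h
        · exact Finset.mem_union_left _ h
        · exact Finset.mem_union_right _ (Finset.mem_sdiff.1 h).1
      · exact Finset.mem_union_right _ (hX0B ((tr1_mem_sdsc R).1 h).2.1)
    · -- signs
      intro y hy
      obtain ⟨h1, h2, h3⟩ := (tr1_mem_sdsc R).1 hy
      exact hX0s y h2 (fun h => hx1F (h ▸ hy))
  · -- strongly rich
    refine ⟨H.erase b, ?_, e3, ?_, ?_⟩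
    · intro y hy
      obtain ⟨h1, h2⟩ := Finset.mem_erase.1 hy
      rw [← hX'e]
      exact Finset.mem_erase.2 ⟨h1, (Finset.mem_filter.1 h2).1⟩
    · rw [Finset.card_erase_of_mem e2]; omega
    · intro t ht
      obtain ⟨h1, h2⟩ := Finset.mem_erase.1 ht
      obtain ⟨h3, h4⟩ := Finset.mem_filter.1 h2
      have ht' : t ∈ sdsc R X0 b := by
        rw [← hX'e]
        exact Finset.mem_erase.2 ⟨h1, h3⟩
      rw [hsd t ht']
      exact d4 g t h3 h4
  · -- X in P
    intro y hy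
    obtain ⟨h1, h2⟩ := Finset.mem_sdiff.1 hy
    refine Finset.mem_union_right _ (Finset.mem_sdiff.2 ⟨hX0B h1, fun h => h2 ?_⟩)
    obtain ⟨h3, _, h5⟩ := (tr1_mem_sdsc R).1 h
    exact (tr1_mem_sdsc R).2 ⟨h3, h1, h5⟩
  · exact Finset.mem_sdiff.2 ⟨hx1, hx1F⟩
  · -- below x1
    refine ⟨Finset.notMem_erase _ _, ?_, ?_⟩
    · intro h
      exact hX0r r (Finset.mem_sdiff.1 (Finset.mem_of_mem_erase h)).1 rfl
    · intro y hy
      rw [Finset.insert_erase (Finset.mem_sdiff.2 ⟨hx1, hx1F⟩)]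
      obtain ⟨h1, h2⟩ := Finset.mem_erase.1 hy
      obtain ⟨h3, h4⟩ := Finset.mem_sdiff.1 h2
      refine Finset.mem_sdiff.2 ⟨(hX0 y h3 h1).2, fun h => h4 ?_⟩
      obtain ⟨h5, h6, h7⟩ := (tr1_mem_sdsc R).1 h
      have hyr := hX0r y h3
      refine (tr1_mem_sdsc R).2 ⟨?_, h3, Desc.step hyr h7⟩
      rintro rfl
      have h8 := R.dep_par y hyr
      rcases tr1_dep R h7 with h9 | h9
      · exact h5 h9.symm
      · omega
  · -- signs in X
    intro y hy hyr hpy
    have h1 := (Finset.mem_sdiff.1 hy).1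
    apply hX0s y h1
    rintro rfl
    have h2 := hdep1 _ (Finset.mem_sdiff.1 hpy).1
    have h3 := R.dep_par y hyr
    omega
  · -- size
    have h1 : (sdsc R X0 b).card ≤ X'.card := by
      rw [← hX'e]; exact Finset.card_le_card (Finset.erase_subset _ _)
    have h2 : X0.card - (sdsc R X0 b).card ≤ (X0 \ sdsc R X0 b).card :=
      Finset.le_card_sdiff _ _
    have h3 : Δ * (W2 - 1) ≤ Δ * W2 := Nat.mul_le_mul_left _ (by omega)
    omega

end Pool.Agent.Lib.MP_47458b_co.DU
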