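import Pool.Agent.Lib.MP_47458b_co.DU.Stm2

/-!
[DU TRA] Section 9, the trap property in case A.
-/

namespace Pool.Agent.Lib.MP_47458b_co.DU

open Finset

variable {V W : Type} [Fintype V] [DecidableEq V] [Fintype W] [DecidableEq W]

omit [Fintype V] [DecidableEq V] [Fintype W] [DecidableEq W] in
theorem trA_mono {T : Digraph W} {D : Digraph V} {S S' : Finset W} {φ : W → V}
    (h : IsEmb T D S' φ) (hs : S ⊆ S') : IsEmb T D S φ :=
  ⟨fun a ha b hb hab => h.inj a (hs ha) b (hs hb) hab,
    fun a ha b hb hab => h.hom a (hs ha) b (hs hb) hab⟩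

omit [Fintype W] [DecidableEq W] in
theorem trA_adj {T : Digraph W} {r : W} (R : Up.Rooted T r) {x : W} (hx : x ≠ r)
    (hne : R.par x ≠ x) : (gr T).Adj (R.par x) x := by
  simp only [gr, Digraph.toSimpleGraphInclusive, SimpleGraph.fromRel_adj]
  exact ⟨hne, R.adj_par x hx⟩

theorem trA_grow {T : Digraph W} {D : Digraph V} (hT : IsOrientedGraph T)
    (hG : (gr T).IsAcyclic) {r : W} (R : Up.Rooted T r)
    (hcn : ∀ S : Finset W, R.Closed S → Cn (gr T) S) (J Z : Finset V) (S' : Finset W)
    (hS' : R.Closed S') :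
    ∀ (n : ℕ) (S : Finset W) (φ : W → V), (S' \ S).card = n → R.Closed S → S ⊆ S' →
      IsEmb T D S φ →
      (∀ t ∈ S' \ S, R.par t ∈ S →
        S'.card ≤ (nb D (sg T (R.par t) t) (φ (R.par t)) ∩ Z).card) →
      (∀ t ∈ S' \ S, R.par t ∉ S → ∀ x ∈ Z,
        S'.card ≤ (nb D (sg T (R.par t) t) x ∩ Z).card) →
      ∃ ψ : W → V, IsEmb T D S' ψ ∧ (∀ x ∈ S, ψ x = φ x) ∧ (∀ x ∈ S' \ S, ψ x ∈ Z) ∧
        ∀ t ∈ S' \ S, ψ t ∈ J →
          (nb D (sg T (R.par t) t) (ψ (R.par t)) ∩ Z) \ J ⊆ S'.image ψ := by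
  intro n
  induction n with
  | zero =>
    intro S φ hn hS hSS h h1 h2
    rw [card_eq_zero, sdiff_eq_empty_iff_subset] at hn
    obtain rfl := Subset.antisymm hSS hn
    refine ⟨φ, h, fun _ _ => rfl, fun t ht => ?_, fun t ht => ?_⟩
    · rw [sdiff_self] at ht
      exact absurd ht (notMem_empty _)
    · rw [sdiff_self] at ht
      exact absurd ht (notMem_empty _)
  | succ n ih =>
    intro S φ hn hS hSS h h1 h2
    have hns : ¬ S' ⊆ S := by
      intro hcon
      rw [← sdiff_eq_empty_iff_subset, ← card_eq_zero] at hcon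
      omega
    obtain ⟨x, hx, hxS, hp⟩ := Up.Closed.next R hS hS' hns
    have hxd : x ∈ S' \ S := mem_sdiff.2 ⟨hx, hxS⟩
    have hxr : x ≠ r := fun h => hxS (h ▸ hS.1)
    have hpx : R.par x ≠ x := fun h => hxS (h ▸ hp)
    have hadj := trA_adj R hxr hpx
    have hlt : S.card < S'.card := by
      apply card_lt_card
      rw [Finset.ssubset_iff_of_subset hSS]
      exact ⟨x, hx, hxS⟩
    have hcard := h1 x hxd hp
    -- the choice
    obtain ⟨y, hy, hyS, hyJ⟩ : ∃ y ∈ nb D (sg T (R.par x) x) (φ (R.par x)) ∩ Z,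
        y ∉ S.image φ ∧
        (y ∈ J → (nb D (sg T (R.par x) x) (φ (R.par x)) ∩ Z) \ J ⊆ S.image φ) := by
      by_cases hc : (nb D (sg T (R.par x) x) (φ (R.par x)) ∩ Z) \ J ⊆ S.image φ
      · have hex : ∃ y ∈ nb D (sg T (R.par x) x) (φ (R.par x)) ∩ Z, y ∉ S.image φ := by
          by_contra hcon
          push Not at hcon
          have h4 := card_le_card (fun y hy => hcon y hy :
            nb D (sg T (R.par x) x) (φ (R.par x)) ∩ Z ⊆ S.image φ)
          rw [h.card_image] at h4
          omega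
        obtain ⟨y, hy, hyS⟩ := hex
        exact ⟨y, hy, hyS, fun _ => hc⟩
      · rw [Finset.not_subset] at hc
        obtain ⟨y, hy, hyS⟩ := hc
        rw [mem_sdiff] at hy
        exact ⟨y, hy.1, hyS, fun hJ => absurd hJ hy.2⟩
    have hy' := mem_inter.1 hy
    have hext := h.extend hT hG (hcn S hS) hp hxS hadj hy'.1 hyS
    have hsub : S' \ insert x S ⊆ S' \ S :=
      sdiff_subset_sdiff (Subset.refl _) (subset_insert _ _)
    have hne' : ∀ p ∈ S, p ≠ x := fun p hp h => hxS (h ▸ hp)
    have hup : ∀ p ∈ S, Function.update φ x y p = φ p := fun p hp =>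
      Function.update_of_ne (hne' p hp) _ _
    obtain ⟨ψ, hψ, hψ1, hψ2, hψ3⟩ := ih (insert x S) (Function.update φ x y) (by
        have : S' \ insert x S = (S' \ S).erase x := by
          ext z
          simp only [mem_sdiff, mem_insert, mem_erase]
          tauto
        rw [this, card_erase_of_mem hxd]
        omega) (Up.Closed.insert R hS hp) (insert_subset hx hSS) hext
      (by
        intro t ht hpt
        rw [mem_insert] at hpt
        by_cases hpS : R.par t ∈ S
        · rw [hup _ hpS]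
          exact h1 t (hsub ht) hpS
        · rcases hpt with hpt | hpt
          · rw [hpt, Function.update_self, ← hpt]
            exact h2 t (hsub ht) hpS y hy'.2
          · exact absurd hpt hpS)
      (by
        intro t ht hpt z hz
        exact h2 t (hsub ht) (fun hc => hpt (mem_insert_of_mem hc)) z hz)
    have hψS : ∀ p ∈ S, ψ p = φ p := fun p hp => by
      rw [hψ1 p (mem_insert_of_mem hp), hup p hp]
    have hψx : ψ x = y := by rw [hψ1 x (mem_insert_self _ _), Function.update_self]
    refine ⟨ψ, hψ, hψS, fun z hz => ?_, fun t ht hJ => ?_⟩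
    · by_cases hzx : z = x
      · rw [hzx, hψx]; exact hy'.2
      · apply hψ2
        rw [mem_sdiff] at hz ⊢
        refine ⟨hz.1, fun hz' => ?_⟩
        rcases mem_insert.1 hz' with hz' | hz'
        · exact hzx hz'
        · exact hz.2 hz'
    · by_cases htx : t = x
      · subst htx
        rw [hψx] at hJ
        rw [hψS _ hp]
        intro z hz
        have := hyJ hJ hz
        rw [mem_image] at this ⊢
        obtain ⟨p, hp', hpz⟩ := this
        exact ⟨p, hSS hp', by rw [hψS p hp']; exact hpz⟩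
      · apply hψ3 t _ hJ
        rw [mem_sdiff] at ht ⊢
        refine ⟨ht.1, fun hz' => ?_⟩
        rcases mem_insert.1 hz' with hz' | hz'
        · exact htx hz'
        · exact ht.2 hz'

theorem p_trA : S_trA := by
  intro hclo hhall hclA V W _ _ _ _ D T k m hT hD hκ hC hm hkm sL L pl hL hLc hLk r R A B hA hpl
    hdis hAB hABd hsz Sg hSg Z S S' φ hAS hSS hSAB hSc hS'c hg hφ h1 h2
  have hcn := (hclo W k T hT r R).1
  have hφA : IsEmb T D A φ := trA_mono hφ hAS
  set J : Finset V := Jset D m sL L (fun l => φ (pl l)) with hJdef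
  obtain ⟨ψ, hψ, hψ1, hψ2, hψ3⟩ := trA_grow hT.1 hT.2.1.isAcyclic R hcn J Z S' hS'c _ S φ rfl
    hSc hSS hφ h1 h2
  -- the complement of the leaves is closed
  have hLcl : R.Closed Lᶜ := by
    constructor
    · rw [mem_compl]
      exact fun h => disjoint_left.1 hdis h (mem_union_left _ hA.1)
    · intro y hy hyr
      rw [mem_compl] at hy ⊢
      intro hl
      have hne : R.par y ≠ y := fun h => hy (h ▸ hl)
      have h3 := (trA_adj R hyr hne).symm
      have h4 := hL.only (R.par y) hl y h3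
      have h5 : y ∈ A := by rw [h4]; exact hpl _ hl
      exact disjoint_left.1 hdis hl (mem_union_left _ (hA.2 y h5 hyr))
  have hS'L : S' ⊆ Lᶜ := by
    intro y hy
    rw [mem_compl]
    exact fun hl => disjoint_left.1 hdis hl (hSAB hy)
  have hW : Fintype.card W = k + 1 := by rw [← Nat.card_eq_fintype_card]; exact hT.2.2
  have hmm : m ≤ L.card := by nlinarith
  have hLcard : Lᶜ.card ≤ (k - m) + 1 := by
    rw [card_compl, hW]
    omega
  obtain ⟨θ, hθ, hθ1⟩ := IsEmb.greedy (κ := k - m) hD (fun s x => by have := hκ s x; omega) hT.1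
    hT.2.1.isAcyclic (hcn _ hLcl) hLcard _ S' ψ rfl ⟨r, hS'c.1⟩ hS'L (hcn _ hS'c) hψ
  obtain ⟨hJ1, hJ2, hJ3⟩ := hhall V W D T k m hT hD hκ hC (by omega) hm sL L pl hL hLc hLk θ hθ
  have hJeq : Jset D m sL L (fun l => θ (pl l)) = J := by
    rw [hJdef]
    unfold Jset
    ext w
    simp only [mem_filter, mem_univ, true_and]
    have : L.filter (fun l => w ∈ nb D sL (θ (pl l))) = L.filter (fun l => w ∈ nb D sL (φ (pl l))) := by
      apply filter_congr
      intro l hl
      have h5 : pl l ∈ S := hAS (hpl l hl)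
      rw [hθ1 _ (hSS h5), hψ1 _ h5]
    rw [this]
  rw [hJeq] at hJ1 hJ2 hJ3
  have hex : ((S'.image ψ) \ J).card ≤ m := by
    have hsub : (S'.image ψ) \ J ⊆ (Lᶜ.image θ) \ J := by
      apply sdiff_subset_sdiff _ (Subset.refl _)
      intro z hz
      rw [mem_image] at hz ⊢
      obtain ⟨p, hp, hpz⟩ := hz
      exact ⟨p, hS'L hp, by rw [hθ1 p hp]; exact hpz⟩
    have := card_le_card hsub
    omega
  -- the cluster
  have hcl : Clus D k m m Sg J := by
    classical
    refine ⟨hJ1, hJ2, ?_⟩
    have hone : ∀ s, 200 * (J.filter (fun x => Sg s ∧ m < ((nb D s x) \ J).card)).card ≤ k := by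
      intro s
      by_cases hs : Sg s
      · have h3 : ClS D k m s J := hclA hclo hhall V W D T k m hT hD hκ hC hm hkm sL L pl hL hLc
          hLk r R A B hA hpl hdis hAB hABd hsz s (hSg s hs) φ hφA
        unfold ClS at h3
        refine le_trans (Nat.mul_le_mul_left _ (card_le_card ?_)) h3
        intro x hx
        rw [mem_filter] at hx ⊢
        exact ⟨hx.1, hx.2.2⟩
      · have h3 : J.filter (fun x => Sg s ∧ m < ((nb D s x) \ J).card) = ∅ := by
          rw [filter_eq_empty_iff]
          exact fun x _ hc => hs hc.1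
        rw [h3]
        simp
    have hsub : J \ core D m Sg J ⊆
        J.filter (fun x => Sg true ∧ m < ((nb D true x) \ J).card) ∪
        J.filter (fun x => Sg false ∧ m < ((nb D false x) \ J).card) := by
      intro x hx
      rw [mem_sdiff] at hx
      obtain ⟨hxJ, hxc⟩ := hx
      unfold core at hxc
      rw [mem_filter] at hxc
      push Not at hxc
      obtain ⟨s, hs, hs'⟩ := hxc hxJ
      rw [mem_union, mem_filter, mem_filter]
      cases s with
      | true => exact Or.inl ⟨hxJ, hs, hs'⟩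
      | false => exact Or.inr ⟨hxJ, hs, hs'⟩
    have h3 := (card_le_card hsub).trans (card_union_le _ _)
    have h4 := hone true
    have h5 := hone false
    omega
  refine ⟨ψ, J, hψ, hψ1, hψ2, hcl, hex, ?_⟩
  -- an element inside
  have hex2 : ∃ t ∈ S' \ S, ψ t ∈ J := by
    by_contra hcon
    push Not at hcon
    have h3 : ((S' \ S).image ψ) ⊆ (S'.image ψ) \ J := by
      intro z hz
      rw [mem_image] at hz
      obtain ⟨t, ht, rfl⟩ := hz
      rw [mem_sdiff]
      exact ⟨mem_image_of_mem ψ (mem_sdiff.1 ht).1, hcon t ht⟩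
    have h4 := card_le_card h3
    rw [(trA_mono hψ sdiff_subset).card_image] at h4
    omega
  obtain ⟨t, ht, htJ⟩ := hex2
  refine ⟨t, ht, ?_⟩
  have h3 := hψ3 t ht htJ
  have h4 : (nb D (sg T (R.par t) t) (ψ (R.par t)) ∩ Z) \ J ⊆ (S'.image ψ) \ J := by
    intro z hz
    exact mem_sdiff.2 ⟨h3 hz, (mem_sdiff.1 hz).2⟩
  have h5 := card_le_card h4
  omega

end Pool.Agent.Lib.MP_47458b_co.DU
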