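import Pool.Agent.Lib.MP_47458b_co.DU.Stm2

/-!
Piece [DU TRB]: the trap property in case B (section 10).
-/

set_option autoImplicit false

namespace Pool.Agent.Lib.MP_47458b_co.DU

open Finset

section path

variable {W : Type} [Fintype W] [DecidableEq W] {T : Digraph W} {r : W}

/-- The first `i + 1` vertices of the path. -/
private def trB_P (π : ℕ → W) (i : ℕ) : Finset W := (range (i + 1)).image π

private theorem trB_mem {π : ℕ → W} {i : ℕ} {x : W} : x ∈ trB_P π i ↔ ∃ j ≤ i, π j = x := by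
  unfold trB_P
  rw [mem_image]
  constructor
  · rintro ⟨j, hj, rfl⟩
    exact ⟨j, by rw [mem_range] at hj; omega, rfl⟩
  · rintro ⟨j, hj, rfl⟩
    exact ⟨j, mem_range.mpr (by omega), rfl⟩

private theorem trB_card (π : ℕ → W) (i : ℕ) : (trB_P π i).card ≤ i + 1 := by
  unfold trB_P
  exact card_image_le.trans (by rw [card_range])

private theorem trB_succ (π : ℕ → W) (i : ℕ) : trB_P π (i + 1) = insert (π (i + 1)) (trB_P π i) := by
  unfold trB_P
  rw [range_add_one, image_insert]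

private theorem trB_dep {R : Up.Rooted T r} {Rm : Finset W} {h : ℕ} {π : ℕ → W}
    (hπ : PathR R Rm h π) (i : ℕ) : ∀ j, i + 1 + j ≤ h → R.dep (π i) < R.dep (π (i + 1 + j)) := by
  intro j
  induction j with
  | zero =>
    intro hj
    have h1 := hπ.par i (by omega)
    have h2 := R.dep_par _ h1.1
    rw [h1.2] at h2
    exact h2
  | succ j ih =>
    intro hj
    have h1 := hπ.par (i + 1 + j) (by omega)
    have h2 := R.dep_par _ h1.1
    rw [h1.2] at h2
    exact (ih (by omega)).trans h2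

private theorem trB_inj {R : Up.Rooted T r} {Rm : Finset W} {h : ℕ} {π : ℕ → W}
    (hπ : PathR R Rm h π) {i j : ℕ} (hi : i ≤ h) (hj : j ≤ h) (hij : π i = π j) : i = j := by
  rcases Nat.lt_trichotomy i j with h1 | h1 | h1
  · obtain ⟨d, rfl⟩ := Nat.exists_eq_add_of_lt h1
    have h2 := trB_dep hπ i d (by omega)
    rw [show i + 1 + d = i + d + 1 from by omega, ← hij] at h2
    exact absurd h2 (lt_irrefl _)
  · exact h1
  · obtain ⟨d, rfl⟩ := Nat.exists_eq_add_of_lt h1
    have h2 := trB_dep hπ j d (by omega)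
    rw [show j + 1 + d = j + d + 1 from by omega, hij] at h2
    exact absurd h2 (lt_irrefl _)

private theorem trB_notMem {R : Up.Rooted T r} {Rm : Finset W} {h : ℕ} {π : ℕ → W}
    (hπ : PathR R Rm h π) {i : ℕ} (hi : i + 1 ≤ h) : π (i + 1) ∉ trB_P π i := by
  rw [trB_mem]
  rintro ⟨j, hj, hj2⟩
  have := trB_inj hπ (by omega : j ≤ h) hi hj2
  omega

private theorem trB_closed {R : Up.Rooted T r} {Rm : Finset W} {h : ℕ} {π : ℕ → W}
    (hπ : PathR R Rm h π) {i : ℕ} (hi : i ≤ h) : R.Closed (trB_P π i) := by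
  constructor
  · rw [trB_mem]
    exact ⟨0, Nat.zero_le _, hπ.zero⟩
  · intro x hx hxr
    rw [trB_mem] at hx
    obtain ⟨j, hj, rfl⟩ := hx
    rcases Nat.eq_zero_or_pos j with h0 | h0
    · rw [h0, hπ.zero] at hxr
      exact absurd rfl hxr
    · obtain ⟨j', rfl⟩ : ∃ j', j = j' + 1 := ⟨j - 1, by omega⟩
      rw [(hπ.par j' (by omega)).2, trB_mem]
      exact ⟨j', by omega, rfl⟩

private theorem trB_adj {R : Up.Rooted T r} {Rm : Finset W} {h : ℕ} {π : ℕ → W}
    (hπ : PathR R Rm h π) {i : ℕ} (hi : i < h) : (gr T).Adj (π i) (π (i + 1)) := by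
  have h1 := hπ.par i hi
  have h2 := R.adj_par _ h1.1
  rw [h1.2] at h2
  have h3 : π i ≠ π (i + 1) := by
    intro h4
    have := trB_inj hπ (by omega) (by omega) h4
    omega
  unfold gr Digraph.toSimpleGraphInclusive
  rw [SimpleGraph.fromRel_adj]
  exact ⟨h3, h2⟩

/-- Closed sets inside the path are initial segments. -/
private theorem trB_init {R : Up.Rooted T r} {Rm : Finset W} {h : ℕ} {π : ℕ → W}
    (hπ : PathR R Rm h π) {h1 : ℕ} (hh : h1 ≤ h) {S : Finset W} (hS : R.Closed S)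
    (hsub : S ⊆ trB_P π h1) : ∃ j0 ≤ h1, S = trB_P π j0 := by
  classical
  set J := (range (h1 + 1)).filter (fun j => π j ∈ S) with hJ
  have hne : J.Nonempty := ⟨0, by
    rw [hJ, mem_filter, mem_range, hπ.zero]
    exact ⟨by omega, hS.1⟩⟩
  have hmx := J.max'_mem hne
  set j0 := J.max' hne with hj0
  have hj1 : j0 < h1 + 1 ∧ π j0 ∈ S := by
    rw [hJ, mem_filter, mem_range] at hmx
    exact hmx
  have hdown : ∀ d, d ≤ j0 → π (j0 - d) ∈ S := by
    intro d
    induction d with
    | zero => intro _; exact hj1.2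
    | succ d ih =>
      intro hd
      have h2 := ih (by omega)
      obtain ⟨e, he⟩ : ∃ e, j0 - d = e + 1 := ⟨j0 - d - 1, by omega⟩
      rw [he] at h2
      have h3 := hπ.par e (by omega)
      have h4 := hS.2 _ h2 h3.1
      rw [h3.2] at h4
      rw [show j0 - (d + 1) = e from by omega]
      exact h4
  refine ⟨j0, by omega, Subset.antisymm ?_ ?_⟩
  · intro x hx
    have h2 := hsub hx
    rw [trB_mem] at h2
    obtain ⟨j, hj, rfl⟩ := h2
    rw [trB_mem]
    refine ⟨j, ?_, rfl⟩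
    exact J.le_max' j (by rw [hJ, mem_filter, mem_range]; exact ⟨by omega, hx⟩)
  · intro x hx
    rw [trB_mem] at hx
    obtain ⟨j, hj, rfl⟩ := hx
    have := hdown (j0 - j) (by omega)
    rwa [show j0 - (j0 - j) = j from by omega] at this

end path

section step

variable {V W : Type} [Fintype V] [DecidableEq V] [Fintype W] [DecidableEq W]

open Classical in
/-- The number of the pair positions before `i` which are dangerous for `N`. -/
private noncomputable def trB_c (D : Digraph V) (k K : ℕ) (σ : ℕ → Bool) (pr : Finset ℕ) (i : ℕ)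
    (N : Finset V) : ℕ :=
  (pr.filter (fun j => j < i ∧ ¬ ClS D k K (σ j) N)).card

/-- The state after `i` steps along the path. -/
private structure trB_St (D : Digraph V) (T : Digraph W) (k m K E : ℕ) (π : ℕ → W) (pr : Finset ℕ)
    (F : Finset (Finset V)) (w0 : Finset V → ℝ) (S' : Finset W) (ψ : W → V) (i : ℕ) (φ : W → V)
    (wt : Finset V → ℝ) : Prop where
  emb : IsEmb T D (trB_P π i) φ
  ext : ∀ x ∈ S', φ x = ψ x
  nonneg : ∀ N ∈ F, 0 ≤ wt N
  sum : ∑ N ∈ F, wt N ≤ F.card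
  low : ∀ N ∈ F, (((trB_P π i).image φ) \ N).card ≤ m →
    (1 / 2 : ℝ) ^ (((trB_P π i).image φ) \ N).card * w0 N *
      (2 * E / (2 * E - 1) : ℝ) ^ trB_c D k K (fun j => sg T (π j) (π (j + 1))) pr i N ≤ wt N

private theorem trB_c_le (D : Digraph V) (k K : ℕ) (σ : ℕ → Bool) (pr : Finset ℕ) (i : ℕ)
    (N : Finset V) (hi : i ∉ pr) :
    trB_c D k K σ pr (i + 1) N ≤ trB_c D k K σ pr i N := by
  classical
  unfold trB_c
  apply card_le_card
  intro j hj
  rw [mem_filter] at hj ⊢
  refine ⟨hj.1, ?_, hj.2.2⟩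
  have : j ≠ i := fun h => hi (h ▸ hj.1)
  omega

private theorem trB_c_le2 (D : Digraph V) (k K : ℕ) (σ : ℕ → Bool) (pr : Finset ℕ) (i : ℕ)
    (N : Finset V) : trB_c D k K σ pr (i + 1) N ≤ trB_c D k K σ pr i N + 1 := by
  classical
  unfold trB_c
  have h1 : pr.filter (fun j => j < i + 1 ∧ ¬ ClS D k K (σ j) N) ⊆
      insert i (pr.filter (fun j => j < i ∧ ¬ ClS D k K (σ j) N)) := by
    intro j hj
    rw [mem_filter] at hj
    rw [mem_insert, mem_filter]
    by_cases h : j = i
    · exact Or.inl h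
    · exact Or.inr ⟨hj.1, by omega, hj.2.2⟩
  exact (card_le_card h1).trans (card_insert_le _ _)

private theorem trB_c_le3 (D : Digraph V) (k K : ℕ) (σ : ℕ → Bool) (pr : Finset ℕ) (i : ℕ)
    (N : Finset V) (h : ClS D k K (σ i) N) :
    trB_c D k K σ pr (i + 1) N ≤ trB_c D k K σ pr i N := by
  classical
  unfold trB_c
  apply card_le_card
  intro j hj
  rw [mem_filter] at hj ⊢
  refine ⟨hj.1, ?_, hj.2.2⟩
  have : j ≠ i := fun h' => hj.2.2 (h' ▸ h)
  omega

private theorem trB_one_le {E : ℕ} (hE : 1000 ≤ E) : (1 : ℝ) ≤ (2 * E / (2 * E - 1) : ℝ) := by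
  have h1 : (1000 : ℝ) ≤ E := by exact_mod_cast hE
  rw [le_div_iff₀ (by linarith)]
  linarith

/-- A greedy step. -/
private theorem trB_greedy {D : Digraph V} {T : Digraph W} {k m K E : ℕ} (hT : IsOrientedTree k T)
    (hD : Loopless D) (hκ : ∀ s x, k ≤ (nb D s x).card + m) {r : W} {R : Up.Rooted T r}
    {Rm : Finset W} {h : ℕ} {π : ℕ → W} (hπ : PathR R Rm h π) {pr : Finset ℕ}
    {F : Finset (Finset V)} {w0 : Finset V → ℝ} (hw0 : ∀ N, 0 ≤ w0 N) {S' : Finset W} {ψ : W → V}
    {i : ℕ} (hi : i < h) (hip : i ∉ pr) (hk : 500 * (m + h + 3) ≤ k) (hE : 1000 ≤ E)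
    (hcn : ∀ S : Finset W, R.Closed S → Cn (gr T) S) (hS' : S' ⊆ trB_P π i)
    {φ : W → V} {wt : Finset V → ℝ} (hst : trB_St D T k m K E π pr F w0 S' ψ i φ wt) :
    ∃ φ' wt', trB_St D T k m K E π pr F w0 S' ψ (i + 1) φ' wt' := by
  have hcl := trB_closed hπ (by omega : i ≤ h)
  have hn := trB_notMem hπ (by omega : i + 1 ≤ h)
  have hmem : π i ∈ trB_P π i := trB_mem.mpr ⟨i, le_refl _, rfl⟩
  obtain ⟨y, hy, hyS⟩ := exists_free hD (κ := k - m) (fun s x => by have := hκ s x; omega)
    hst.emb hmem (by have := trB_card π i; omega) (sg T (π i) (π (i + 1)))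
  have hext := hst.emb.extend hT.1 hT.2.1.isAcyclic (hcn _ hcl) hmem hn (trB_adj hπ hi) hy hyS
  have himg := image_update (φ := φ) hn y
  rw [← trB_succ] at hext himg
  refine ⟨Function.update φ (π (i + 1)) y, wt, hext, ?_, hst.nonneg, hst.sum, ?_⟩
  · intro x hx
    rw [Function.update_of_ne, hst.ext x hx]
    rintro rfl
    exact hn (hS' hx)
  · intro N hN hNm
    rw [himg] at hNm ⊢
    have h1 : ((trB_P π i).image φ \ N).card ≤ (insert y ((trB_P π i).image φ) \ N).card :=
      card_le_card (sdiff_subset_sdiff (subset_insert _ _) (subset_refl _))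
    refine le_trans ?_ (hst.low N hN (h1.trans hNm))
    have h2 := trB_one_le hE
    have h3 : (1 / 2 : ℝ) ^ (insert y ((trB_P π i).image φ) \ N).card ≤
        (1 / 2 : ℝ) ^ ((trB_P π i).image φ \ N).card :=
      pow_le_pow_of_le_one (by norm_num) (by norm_num) h1
    have h4 := trB_c_le D k K (fun j => sg T (π j) (π (j + 1))) pr i N hip
    have h5 := hw0 N
    gcongr

/-- A pair step. -/
private theorem trB_pair (hpar : S_par) {D : Digraph V} {T : Digraph W} {k m K E : ℕ}
    (hT : IsOrientedTree k T)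
    (hD : Loopless D) (hκ : ∀ s x, k ≤ (nb D s x).card + m) {r : W} {R : Up.Rooted T r}
    {Rm : Finset W} {h : ℕ} {π : ℕ → W} (hπ : PathR R Rm h π) {pr : Finset ℕ}
    {F : Finset (Finset V)} (hF : ∀ N ∈ F, N.card ≤ k) {w0 : Finset V → ℝ} (hw0 : ∀ N, 0 ≤ w0 N)
    {S' : Finset W} {ψ : W → V}
    {i : ℕ} (hi : i + 1 < h) (hip : i ∉ pr) (hk : 500 * (m + h + 3) ≤ k) (hE : 1000 ≤ E)
    (hmK : m ≤ K) (hKE : 1000 * k ≤ (K - m) * E)
    (hcn : ∀ S : Finset W, R.Closed S → Cn (gr T) S) (hS' : S' ⊆ trB_P π i)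
    {φ : W → V} {wt : Finset V → ℝ} (hst : trB_St D T k m K E π pr F w0 S' ψ i φ wt) :
    ∃ φ' wt', trB_St D T k m K E π pr F w0 S' ψ (i + 2) φ' wt' := by
  classical
  have hcl := trB_closed hπ (by omega : i ≤ h)
  have hn := trB_notMem hπ (by omega : i + 1 ≤ h)
  have hn2 := trB_notMem hπ (by omega : i + 1 + 1 ≤ h)
  have hmem : π i ∈ trB_P π i := trB_mem.mpr ⟨i, le_refl _, rfl⟩
  set U := (trB_P π i).image φ with hU
  have hUc : U.card ≤ i + 1 := card_image_le.trans (trB_card π i)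
  obtain ⟨x, hx, hxU, y, hy, hyU, hyx, hsum⟩ := hpar V D k m K E hD hκ hE hmK hKE U (φ (π i))
    (sg T (π i) (π (i + 1))) (sg T (π (i + 1)) (π (i + 1 + 1))) F wt (by omega)
    (fun N hN => ⟨hF N hN, hst.nonneg N hN⟩)
  have hext := hst.emb.extend hT.1 hT.2.1.isAcyclic (hcn _ hcl) hmem hn
    (trB_adj hπ (by omega : i < h)) hx hxU
  have himg := image_update (φ := φ) hn x
  rw [← trB_succ] at hext himg
  have hmem2 : π (i + 1) ∈ trB_P π (i + 1) := trB_mem.mpr ⟨i + 1, le_refl _, rfl⟩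
  have hcl2 := trB_closed hπ (by omega : i + 1 ≤ h)
  have hy' : y ∈ nb D (sg T (π (i + 1)) (π (i + 1 + 1)))
      (Function.update φ (π (i + 1)) x (π (i + 1))) := by
    rw [Function.update_self]
    exact hy
  have hext2 := hext.extend hT.1 hT.2.1.isAcyclic (hcn _ hcl2) hmem2 hn2
    (trB_adj hπ (by omega : i + 1 < h)) hy' (by
      rw [himg, mem_insert, not_or]
      exact ⟨hyx, hyU⟩)
  have himg2 := image_update (φ := Function.update φ (π (i + 1)) x) hn2 y
  rw [← trB_succ] at hext2 himg2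
  rw [himg, ← hU] at himg2
  refine ⟨Function.update (Function.update φ (π (i + 1)) x) (π (i + 1 + 1)) y,
    fun N => wt N * (if (U \ N).card ≤ m ∧ ¬ ClS D k K (sg T (π (i + 1)) (π (i + 1 + 1))) N then
        (2 * E / (2 * E - 1) : ℝ) else 1) * (if x ∈ N ∧ y ∈ N then 1 else 1 / 2),
    hext2, ?_, ?_, hsum.trans hst.sum, ?_⟩
  · intro z hz
    have hz2 := hS' hz
    rw [Function.update_of_ne, Function.update_of_ne, hst.ext z hz]
    · rintro rfl
      exact hn hz2
    · rintro rfl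
      apply hn2
      rw [trB_succ]
      exact mem_insert_of_mem hz2
  · intro N hN
    have h1 := hst.nonneg N hN
    have h2 := trB_one_le hE
    refine mul_nonneg (mul_nonneg h1 ?_) ?_
    · split_ifs
      · linarith
      · norm_num
    · split_ifs <;> norm_num
  · intro N hN hNm
    rw [show i + 2 = i + 1 + 1 from rfl, himg2] at hNm ⊢
    have h1 : (U \ N).card ≤ (insert y (insert x U) \ N).card :=
      card_le_card (sdiff_subset_sdiff ((subset_insert _ _).trans (subset_insert _ _))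
        (subset_refl _))
    have hUm := h1.trans hNm
    have h2 := trB_one_le hE
    have h0 := hw0 N
    have hlow := hst.low N hN hUm
    rw [← hU] at hlow
    set c : ℝ := (2 * E / (2 * E - 1) : ℝ) with hc
    set σ : ℕ → Bool := fun j => sg T (π j) (π (j + 1)) with hσ
    -- the first factor
    have h3 : (1 / 2 : ℝ) ^ (insert y (insert x U) \ N).card ≤
        (1 / 2 : ℝ) ^ (U \ N).card * (if x ∈ N ∧ y ∈ N then 1 else 1 / 2) := by
      by_cases hxy : x ∈ N ∧ y ∈ N
      · rw [if_pos hxy, mul_one]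
        exact pow_le_pow_of_le_one (by norm_num) (by norm_num) h1
      · rw [if_neg hxy, ← pow_succ]
        apply pow_le_pow_of_le_one (by norm_num) (by norm_num)
        rw [Nat.succ_le_iff]
        apply card_lt_card
        rw [Finset.ssubset_iff_of_subset (sdiff_subset_sdiff
          ((subset_insert _ _).trans (subset_insert _ _)) (subset_refl _))]
        by_cases hxN : x ∈ N
        · have hyN : y ∉ N := fun h => hxy ⟨hxN, h⟩
          exact ⟨y, mem_sdiff.2 ⟨mem_insert_self _ _, hyN⟩, fun h => hyU (mem_sdiff.1 h).1⟩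
        · exact ⟨x, mem_sdiff.2 ⟨mem_insert_of_mem (mem_insert_self _ _), hxN⟩,
            fun h => hxU (mem_sdiff.1 h).1⟩
    -- the second factor
    have h4 : c ^ trB_c D k K σ pr (i + 1 + 1) N ≤ c ^ trB_c D k K σ pr i N *
        (if (U \ N).card ≤ m ∧ ¬ ClS D k K (sg T (π (i + 1)) (π (i + 1 + 1))) N then c else 1) := by
      have h5 := trB_c_le D k K σ pr i N hip
      by_cases hcs : ClS D k K (sg T (π (i + 1)) (π (i + 1 + 1))) N
      · rw [if_neg (fun h => h.2 hcs), mul_one]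
        exact pow_le_pow_right₀ h2 ((trB_c_le3 D k K σ pr (i + 1) N hcs).trans h5)
      · rw [if_pos ⟨hUm, hcs⟩, ← pow_succ]
        exact pow_le_pow_right₀ h2 ((trB_c_le2 D k K σ pr (i + 1) N).trans (by omega))
    have h5 : (0 : ℝ) ≤ (if x ∈ N ∧ y ∈ N then 1 else 1 / 2) := by
      split_ifs <;> norm_num
    have h6 : (0 : ℝ) ≤ (if (U \ N).card ≤ m ∧
        ¬ ClS D k K (sg T (π (i + 1)) (π (i + 1 + 1))) N then c else 1) := by
      split_ifs
      · linarith
      · norm_num
    have h7 : (0 : ℝ) ≤ c ^ trB_c D k K σ pr (i + 1 + 1) N := pow_nonneg (by linarith) _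
    calc (1 / 2 : ℝ) ^ (insert y (insert x U) \ N).card * w0 N *
          c ^ trB_c D k K σ pr (i + 1 + 1) N
        ≤ ((1 / 2 : ℝ) ^ (U \ N).card * (if x ∈ N ∧ y ∈ N then 1 else 1 / 2)) * w0 N *
          (c ^ trB_c D k K σ pr i N * (if (U \ N).card ≤ m ∧
            ¬ ClS D k K (sg T (π (i + 1)) (π (i + 1 + 1))) N then c else 1)) := by
          apply mul_le_mul (mul_le_mul_of_nonneg_right h3 h0) h4 h7
          exact mul_nonneg (mul_nonneg (by positivity) h5) h0
      _ = ((1 / 2 : ℝ) ^ (U \ N).card * w0 N * c ^ trB_c D k K σ pr i N) *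
          (if (U \ N).card ≤ m ∧
            ¬ ClS D k K (sg T (π (i + 1)) (π (i + 1 + 1))) N then c else 1) *
          (if x ∈ N ∧ y ∈ N then 1 else 1 / 2) := by ring
      _ ≤ _ := mul_le_mul_of_nonneg_right (mul_le_mul_of_nonneg_right hlow h6) h5

end step

private theorem trB_num {m n : ℕ} {a b L : ℝ} (hb : 0 < b) (h : (1 / 2 : ℝ) ^ m * (a / b) ^ n ≤ L) :
    a ^ n ≤ 2 ^ m * L * b ^ n := by
  rw [div_pow a b, one_div, inv_pow, inv_mul_le_iff₀ (by positivity), div_le_iff₀ (pow_pos hb n)] at h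
  exact h

theorem p_trB : S_trB := by
  classical
  intro hclo _ hphA hpar V W _ _ _ _ D T k m K g E n1 h h1 Sg hT hD hκ hnC r R Rm π pr hrRm hc1 hc2
    hRm1 hRm2 hπ hh1 hpr hgap hn1 hk hE hmK hKE hg1 hg2
  intro Z S S' φ hrS hSS' hS'N hScl hS'cl hg hφ hz1 hz2
  have hcn : ∀ S : Finset W, R.Closed S → Cn (gr T) S := (hclo W k T hT r R).1
  have hW : Fintype.card W = k + 1 := by rw [← Nat.card_eq_fintype_card]; exact hT.2.2
  set u := φ r with hu
  -- the family
  set B := ball D k u (2 * m + 1) with hB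
  set F : Finset (Finset V) := ((B.image (nb D true)) ∪ (B.image (nb D false))).filter
    (fun N => N.card ≤ k) with hF
  have hFk : ∀ N ∈ F, N.card ≤ k := fun N hN => (mem_filter.1 hN).2
  have hFcard : F.card ≤ 2 * (2 * k + 3) ^ (2 * m + 1) := by
    calc F.card ≤ ((B.image (nb D true)) ∪ (B.image (nb D false))).card := card_filter_le _ _
      _ ≤ (B.image (nb D true)).card + (B.image (nb D false)).card := card_union_le _ _
      _ ≤ B.card + B.card := Nat.add_le_add card_image_le card_image_le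
      _ ≤ 2 * (2 * k + 3) ^ (2 * m + 1) := by
          have := ball_card (D := D) k u (2 * m + 1)
          rw [← hB] at this
          omega
  have hS'P : S' ⊆ trB_P π h1 := hS'N
  obtain ⟨j0, hj0, hS'j⟩ := trB_init hπ (by omega : h1 ≤ h) hS'cl hS'P
  have hS'c : S'.card ≤ h1 + 1 := (card_le_card hS'P).trans (trB_card π h1)
  obtain ⟨ψ, hψ, hψφ, hψZ, hsum⟩ := hphA hclo V W D T k hT hD r R Z S S' φ hScl hS'cl hSS'
    (by omega) hφ hz1 hz2 F hFk
  set w0 : Finset V → ℝ := fun N => (400 / 399 : ℝ) ^ ((S' \ S).filter (fun t =>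
        k < 100 * ((nb D (sg T (R.par t) t) (ψ (R.par t)) ∩ Z) \ N).card)).card with hw0d
  have hw0 : ∀ N, 0 ≤ w0 N := fun N => by
    rw [hw0d]
    positivity
  -- the states
  have hbase : trB_St D T k m K E π pr F w0 S' ψ j0 ψ
      (fun N => (1 / 2 : ℝ) ^ ((S'.image ψ) \ N).card * w0 N) := by
    refine ⟨?_, fun _ _ => rfl, ?_, hsum, ?_⟩
    · rw [← hS'j]
      exact hψ
    · intro N _
      exact mul_nonneg (by positivity) (hw0 N)
    · intro N _ _
      rw [← hS'j]
      have h2 : trB_c D k K (fun j => sg T (π j) (π (j + 1))) pr j0 N = 0 := by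
        unfold trB_c
        rw [card_eq_zero, filter_eq_empty_iff]
        intro j hj hj2
        have := (hpr j hj).1
        omega
      rw [h2, pow_zero, mul_one]
  have hall : ∀ n i, i ≤ n → j0 ≤ i → i ≤ h → i ∉ pr →
      ∃ φ' wt, trB_St D T k m K E π pr F w0 S' ψ i φ' wt := by
    intro n
    induction n with
    | zero =>
      intro i hin hij _ _
      have h2 : i = j0 := by omega
      rw [h2]
      exact ⟨_, _, hbase⟩
    | succ n ih =>
      intro i hin hij hih hip
      by_cases h2 : i = j0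
      · rw [h2]
        exact ⟨_, _, hbase⟩
      · obtain ⟨i', rfl⟩ : ∃ i', i = i' + 1 := ⟨i - 1, by omega⟩
        by_cases h3 : i' ∈ pr
        · have h4 := hpr i' h3
          obtain ⟨i'', rfl⟩ : ∃ i'', i' = i'' + 1 := ⟨i' - 1, by omega⟩
          have h5 : i'' ∉ pr := by
            intro h5
            have := hgap i'' h5 (i'' + 1) h3 (by omega)
            omega
          obtain ⟨φ', wt, hst⟩ := ih i'' (by omega) (by omega) (by omega) h5
          refine trB_pair hpar hT hD hκ hπ hFk hw0 (by omega) h5 hk hE hmK hKE hcn ?_ hst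
          rw [hS'j]
          intro z hz
          rw [trB_mem] at hz ⊢
          obtain ⟨j, hj, hjz⟩ := hz
          exact ⟨j, by omega, hjz⟩
        · obtain ⟨φ', wt, hst⟩ := ih i' (by omega) (by omega) (by omega) h3
          refine trB_greedy hT hD hκ hπ hw0 (by omega) h3 hk hE hcn ?_ hst
          rw [hS'j]
          intro z hz
          rw [trB_mem] at hz ⊢
          obtain ⟨j, hj, hjz⟩ := hz
          exact ⟨j, by omega, hjz⟩
  obtain ⟨φ1, wt, hst⟩ := hall h h (le_refl _) (by omega) (le_refl _)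
    (fun hh => lt_irrefl _ (hpr h hh).2)
  -- everything outside `Rm`
  have hPh : trB_P π h ⊆ Rmᶜ := by
    intro x hx
    rw [trB_mem] at hx
    obtain ⟨j, hj, rfl⟩ := hx
    exact mem_compl.2 (hπ.out j hj)
  have hrP : r ∈ trB_P π h := (trB_closed hπ (le_refl h)).1
  obtain ⟨ξ, hξ, hξφ⟩ := IsEmb.greedy hD (κ := k - m) (fun s x => by have := hκ s x; omega)
    hT.1 hT.2.1.isAcyclic hc2 (by rw [card_compl]; omega) _ (trB_P π h) φ1 rfl ⟨r, hrP⟩ hPh
    (hcn _ (trB_closed hπ (le_refl h))) hst.emb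
  have hrS' : r ∈ S' := hS'cl.1
  have hrS2 : r ∈ S := hScl.1
  have hξr : ξ r = u := by
    rw [hξφ r hrP, hst.ext r hrS', hψφ r hrS2]
  -- a set with few exits
  obtain ⟨N, hNF, hNs, hNm⟩ : ∃ N ∈ F, (∃ s y, N = nb D s y) ∧ ((Rmᶜ.image ξ) \ N).card ≤ m := by
    by_contra hcon
    push Not at hcon
    apply hnC
    refine last_part hκ hT.1 hT.2.1.isAcyclic hW hrRm hc1 hc2 hRm2 (u := u) (φ := ξ) hξ hξr ?_ _ ∅
      rfl (empty_subset _) ?_ ξ ?_ (fun _ _ => rfl) ?_
    · intro y hy s hys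
      have h5 : nb D s y ∈ F := by
        rw [hF, mem_filter, mem_union]
        refine ⟨?_, hys⟩
        cases s
        · exact Or.inr (mem_image_of_mem _ hy)
        · exact Or.inl (mem_image_of_mem _ hy)
      exact hcon _ h5 ⟨s, y, rfl⟩
    · exact Cn.single r
    · rw [union_empty]; exact hξ
    · intro x hx
      simp only [mem_insert, notMem_empty, or_false] at hx
      subst hx
      rw [hξr]
      simp [ball]
  obtain ⟨s1, y1, hN1⟩ := hNs
  have hNk := hFk N hNF
  have himh : ((trB_P π h).image φ1 \ N).card ≤ m := by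
    refine le_trans (card_le_card (sdiff_subset_sdiff ?_ (subset_refl _))) hNm
    intro z hz
    obtain ⟨w, hw, rfl⟩ := mem_image.1 hz
    exact mem_image.2 ⟨w, hPh hw, hξφ w hw⟩
  have hlow := hst.low N hNF himh
  have hwN : wt N ≤ 2 * (2 * k + 3) ^ (2 * m + 1) := by
    have h2 : wt N ≤ ∑ N ∈ F, wt N := single_le_sum (f := wt) (fun N hN => hst.nonneg N hN) hNF
    have h3 : (F.card : ℝ) ≤ 2 * (2 * k + 3) ^ (2 * m + 1) := by exact_mod_cast hFcard
    linarith [hst.sum]
  set c : ℝ := (2 * E / (2 * E - 1) : ℝ) with hc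
  have hc1' : 1 ≤ c := trB_one_le hE
  have hhalf : (1 / 2 : ℝ) ^ m ≤ (1 / 2 : ℝ) ^ ((trB_P π h).image φ1 \ N).card :=
    pow_le_pow_of_le_one (by norm_num) (by norm_num) himh
  have hw01 : 1 ≤ w0 N := by
    rw [hw0d]
    exact one_le_pow₀ (by norm_num)
  have hcp : (1 : ℝ) ≤ c ^ trB_c D k K (fun j => sg T (π j) (π (j + 1))) pr h N :=
    one_le_pow₀ hc1'
  have h2m : (0 : ℝ) < (1 / 2 : ℝ) ^ m := by positivity
  -- all available signs are closed
  have hClS : ∀ s, Sg s → ClS D k K s N := by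
    intro s hs
    by_contra hcon
    have h2 : n1 ≤ trB_c D k K (fun j => sg T (π j) (π (j + 1))) pr h N := by
      refine (hn1 s hs).trans ?_
      unfold trB_c
      apply card_le_card
      intro j hj
      rw [mem_filter] at hj ⊢
      refine ⟨hj.1, (hpr j hj.1).2, ?_⟩
      beta_reduce
      rw [hj.2]
      exact hcon
    have h3 : c ^ n1 ≤ c ^ trB_c D k K (fun j => sg T (π j) (π (j + 1))) pr h N :=
      pow_le_pow_right₀ hc1' h2
    have h4 : (1 / 2 : ℝ) ^ m * c ^ n1 ≤ 2 * (2 * k + 3) ^ (2 * m + 1) := by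
      refine le_trans ?_ (hlow.trans hwN)
      have h5 : (1 / 2 : ℝ) ^ m * 1 * c ^ n1 ≤ (1 / 2 : ℝ) ^ ((trB_P π h).image φ1 \ N).card *
          w0 N * c ^ trB_c D k K (fun j => sg T (π j) (π (j + 1))) pr h N := by
        gcongr
      rwa [mul_one] at h5
    have hE1 : (1000 : ℝ) ≤ E := by exact_mod_cast hE
    have h5 : ((2 ^ m * (2 * (2 * k + 3) ^ (2 * m + 1)) * (2 * E - 1) ^ n1 : ℕ) : ℝ) <
        ((2 * E) ^ n1 : ℕ) := by exact_mod_cast hg2
    rw [Nat.cast_mul, Nat.cast_pow (2 * E - 1), Nat.cast_sub (by omega)] at h5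
    push_cast at h5
    have h6 := trB_num (by linarith : (0 : ℝ) < 2 * (E : ℝ) - 1) h4
    linarith
  -- some vertex is good
  obtain ⟨t, ht, ht2⟩ : ∃ t ∈ S' \ S,
      100 * ((nb D (sg T (R.par t) t) (ψ (R.par t)) ∩ Z) \ N).card ≤ k := by
    by_contra hcon
    push Not at hcon
    have h2 : (S' \ S).filter (fun t =>
        k < 100 * ((nb D (sg T (R.par t) t) (ψ (R.par t)) ∩ Z) \ N).card) = S' \ S :=
      filter_eq_self.mpr hcon
    have h3 : (400 / 399 : ℝ) ^ g ≤ w0 N := by
      rw [hw0d]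
      beta_reduce
      rw [h2]
      exact pow_le_pow_right₀ (by norm_num) hg
    have h4 : (1 / 2 : ℝ) ^ m * (400 / 399 : ℝ) ^ g ≤ 2 * (2 * k + 3) ^ (2 * m + 1) := by
      refine le_trans ?_ (hlow.trans hwN)
      have h5 : (1 / 2 : ℝ) ^ m * (400 / 399 : ℝ) ^ g * 1 ≤
          (1 / 2 : ℝ) ^ ((trB_P π h).image φ1 \ N).card *
          w0 N * c ^ trB_c D k K (fun j => sg T (π j) (π (j + 1))) pr h N := by
        have := hw0 N
        gcongr
      rwa [mul_one] at h5
    have h5 : ((2 ^ m * (2 * (2 * k + 3) ^ (2 * m + 1)) * 399 ^ g : ℕ) : ℝ) <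
        (400 ^ g : ℕ) := by exact_mod_cast hg1
    push_cast at h5
    have h6 := trB_num (by norm_num : (0 : ℝ) < 399) h4
    linarith
  refine ⟨ψ, N, hψ, hψφ, hψZ, ⟨?_, hNk, ?_⟩, ?_, t, ht, ht2⟩
  · rw [hN1]
    exact hκ s1 y1
  · -- the core
    have h2 : N \ core D K Sg N ⊆
        (univ.filter (fun s => Sg s)).biUnion
          (fun s => N.filter (fun x => K < ((nb D s x) \ N).card)) := by
      intro x hx
      rw [mem_sdiff] at hx
      have h3 : ¬ ∀ s, Sg s → ((nb D s x) \ N).card ≤ K := by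
        intro h3
        apply hx.2
        unfold core
        rw [mem_filter]
        exact ⟨hx.1, h3⟩
      push Not at h3
      obtain ⟨s, hs, hs2⟩ := h3
      rw [mem_biUnion]
      exact ⟨s, mem_filter.2 ⟨mem_univ _, hs⟩, mem_filter.2 ⟨hx.1, hs2⟩⟩
    have h3 : ∀ s : Bool, Sg s →
        200 * (N.filter (fun x => K < ((nb D s x) \ N).card)).card ≤ k := hClS
    have h4 : (N \ core D K Sg N).card ≤
        ∑ s ∈ univ.filter (fun s => Sg s), (N.filter (fun x => K < ((nb D s x) \ N).card)).card :=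
      (card_le_card h2).trans card_biUnion_le
    have h5 : ∑ s ∈ univ.filter (fun s => Sg s),
        200 * (N.filter (fun x => K < ((nb D s x) \ N).card)).card ≤ 2 * k := by
      calc ∑ s ∈ univ.filter (fun s => Sg s),
            200 * (N.filter (fun x => K < ((nb D s x) \ N).card)).card
          ≤ ∑ s ∈ univ.filter (fun s => Sg s), k :=
            sum_le_sum (fun s hs => h3 s (mem_filter.1 hs).2)
        _ = (univ.filter (fun s => Sg s)).card * k := by rw [sum_const, smul_eq_mul]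
        _ ≤ (univ : Finset Bool).card * k := Nat.mul_le_mul_right _ (card_filter_le _ _)
        _ = 2 * k := by rw [card_univ, Fintype.card_bool]
    rw [← mul_sum] at h5
    omega
  · refine le_trans (card_le_card (sdiff_subset_sdiff ?_ (subset_refl _))) hNm
    intro z hz
    obtain ⟨w, hw, rfl⟩ := mem_image.1 hz
    have hwh : w ∈ trB_P π h := by
      rw [hS'j, trB_mem] at hw
      obtain ⟨j, hj, hjw⟩ := hw
      rw [trB_mem]
      exact ⟨j, by omega, hjw⟩
    refine mem_image.2 ⟨w, hPh hwh, ?_⟩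
    rw [hξφ w hwh, hst.ext w hw]

end Pool.Agent.Lib.MP_47458b_co.DU
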