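import Pool.Agent.Lib.MP_47458b_co.DU.Stm

/-!
# MP_47458b_co, project DU, piece WALK: disjoint forward paths, by counting walks
-/

namespace Pool.Agent.Lib.MP_47458b_co.DU

open Finset

section walk

variable {V : Type}

/-- put `x` in front of the sequence `w` -/
def walk_cons (x : V) (w : ℕ → V) : ℕ → V
  | 0 => x
  | i + 1 => w i

/-- the number of walks of length `n` from `x` (with the out-neighbourhoods `out`) with the property
`Q`; a walk is continued by its last vertex -/
noncomputable def walk_cnt (out : V → Finset V) : ℕ → V → ((ℕ → V) → Prop) → ℕ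
  | 0, x, Q => open Classical in if Q (fun _ => x) then 1 else 0
  | n + 1, x, Q => ∑ y ∈ out x, walk_cnt out n y (fun w => Q (walk_cons x w))

theorem walk_cnt_succ (out : V → Finset V) (n : ℕ) (x : V) (Q : (ℕ → V) → Prop) :
    walk_cnt out (n + 1) x Q = ∑ y ∈ out x, walk_cnt out n y (fun w => Q (walk_cons x w)) := rfl

theorem walk_cnt_le_add (out : V → Finset V) (n : ℕ) : ∀ (x : V) (Q Q₁ Q₂ : (ℕ → V) → Prop),
    (∀ w, Q w → Q₁ w ∨ Q₂ w) → walk_cnt out n x Q ≤ walk_cnt out n x Q₁ + walk_cnt out n x Q₂ := by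
  induction n with
  | zero =>
    intro x Q Q₁ Q₂ h
    simp only [walk_cnt]
    by_cases h0 : Q (fun _ => x)
    · rcases h _ h0 with h1 | h1
      · rw [if_pos h0, if_pos h1]
        exact Nat.le_add_right _ _
      · rw [if_pos h0, if_pos h1]
        exact Nat.le_add_left _ _
    · rw [if_neg h0]
      exact Nat.zero_le _
  | succ n ih =>
    intro x Q Q₁ Q₂ h
    rw [walk_cnt_succ, walk_cnt_succ, walk_cnt_succ, ← sum_add_distrib]
    exact sum_le_sum fun y _ => ih y _ _ _ fun w hw => h _ hw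

theorem walk_cnt_false (out : V → Finset V) (n : ℕ) : ∀ (x : V) (Q : (ℕ → V) → Prop),
    (∀ w, ¬ Q w) → walk_cnt out n x Q = 0 := by
  induction n with
  | zero =>
    intro x Q h
    simp only [walk_cnt]
    rw [if_neg (h _)]
  | succ n ih =>
    intro x Q h
    rw [walk_cnt_succ]
    exact sum_eq_zero fun y _ => ih y _ fun w => h _

theorem walk_cnt_le_sum {ι : Type} (out : V → Finset V) (n : ℕ) (x : V) (E : Finset ι)
    (Qe : ι → (ℕ → V) → Prop) : ∀ (Q : (ℕ → V) → Prop), (∀ w, Q w → ∃ e ∈ E, Qe e w) →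
    walk_cnt out n x Q ≤ ∑ e ∈ E, walk_cnt out n x (Qe e) := by
  classical
  induction E using Finset.induction_on with
  | empty =>
    intro Q h
    rw [walk_cnt_false out n x Q]
    · exact Nat.zero_le _
    · intro w hw
      obtain ⟨e, he, -⟩ := h w hw
      exact absurd he (notMem_empty e)
  | insert a s ha ih =>
    intro Q h
    rw [sum_insert ha]
    refine (walk_cnt_le_add out n x Q (Qe a) (fun w => ∃ e ∈ s, Qe e w) ?_).trans
      (Nat.add_le_add_left (ih _ fun w hw => hw) _)
    intro w hw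
    obtain ⟨e, he, h1⟩ := h w hw
    rcases mem_insert.mp he with rfl | he
    · exact Or.inl h1
    · exact Or.inr ⟨e, he, h1⟩

theorem walk_cnt_exists (out : V → Finset V) (n : ℕ) : ∀ (x : V) (Q : (ℕ → V) → Prop),
    0 < walk_cnt out n x Q → ∃ w : ℕ → V, w 0 = x ∧ (∀ i < n, w (i + 1) ∈ out (w i)) ∧ Q w := by
  induction n with
  | zero =>
    intro x Q h
    simp only [walk_cnt] at h
    by_cases h0 : Q (fun _ => x)
    · exact ⟨fun _ => x, rfl, fun i hi => absurd hi (Nat.not_lt_zero i), h0⟩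
    · rw [if_neg h0] at h
      exact absurd h (lt_irrefl 0)
  | succ n ih =>
    intro x Q h
    rw [walk_cnt_succ] at h
    obtain ⟨y, hy, h1⟩ := exists_ne_zero_of_sum_ne_zero h.ne'
    obtain ⟨w, hw0, hw1, hw2⟩ := ih y _ (Nat.pos_of_ne_zero h1)
    refine ⟨walk_cons x w, rfl, ?_, hw2⟩
    intro i hi
    cases i with
    | zero =>
      show w 0 ∈ out x
      rw [hw0]
      exact hy
    | succ i => exact hw1 i (by omega)

/-- the number of all walks -/
noncomputable def walk_W (out : V → Finset V) (n : ℕ) (x : V) : ℕ := walk_cnt out n x (fun _ => True)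

theorem walk_W_succ (out : V → Finset V) (n : ℕ) (x : V) :
    walk_W out (n + 1) x = ∑ y ∈ out x, walk_W out n y := rfl

theorem walk_W_zero (out : V → Finset V) (x : V) : walk_W out 0 x = 1 := by
  simp [walk_W, walk_cnt]

theorem walk_start (out : V → Finset V) (n : ℕ) (x u : V) :
    walk_cnt out n x (fun w => w 0 = u) ≤ (open Classical in if x = u then walk_W out n x else 0) := by
  cases n with
  | zero =>
    simp only [walk_cnt, walk_W]
    by_cases h : x = u
    · rw [if_pos h, if_pos h]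
      simp
    · rw [if_neg h, if_neg h]
  | succ n =>
    rw [walk_W_succ, walk_cnt_succ]
    by_cases h : x = u
    · rw [if_pos h]
      refine sum_le_sum fun y _ => ?_
      have := walk_cnt_le_add out n y (fun w => walk_cons x w 0 = u) (fun _ => True) (fun _ => False)
        (fun w _ => Or.inl trivial)
      rwa [walk_cnt_false out n y (fun _ => False) (fun _ h => h), add_zero] at this
    · rw [if_neg h]
      refine (sum_eq_zero fun y _ => ?_).le
      exact walk_cnt_false out n y _ fun w hw => h hw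

end walk

section main

variable {V : Type} [DecidableEq V] (O : Finset V) (d : ℕ) (inn : V → Finset V)

/-- the out-neighbours -/
def walk_out (x : V) : Finset V := O.filter (fun y => x ∈ inn y)

theorem walk_A (hin : ∀ w ∈ O, inn w ⊆ O ∧ (inn w).card = d) (f : V → ℕ) :
    ∑ x ∈ O, ∑ y ∈ walk_out O inn x, f y = d * ∑ y ∈ O, f y := by
  unfold walk_out
  simp_rw [sum_filter]
  rw [sum_comm, mul_sum]
  refine sum_congr rfl fun y hy => ?_
  rw [← sum_filter, sum_const, smul_eq_mul]
  have : O.filter (fun x => x ∈ inn y) = inn y := by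
    ext x
    rw [mem_filter]
    exact ⟨fun h => h.2, fun h => ⟨(hin y hy).1 h, h⟩⟩
  rw [this, (hin y hy).2]

theorem walk_sumW (hin : ∀ w ∈ O, inn w ⊆ O ∧ (inn w).card = d) (n : ℕ) :
    ∑ x ∈ O, walk_W (walk_out O inn) n x = d ^ n * O.card := by
  induction n with
  | zero =>
    rw [sum_congr rfl fun x _ => walk_W_zero (walk_out O inn) x, pow_zero, one_mul, card_eq_sum_ones]
  | succ n ih =>
    simp_rw [walk_W_succ]
    rw [walk_A O d inn hin, ih]
    ring

theorem walk_sumE (hin : ∀ w ∈ O, inn w ⊆ O ∧ (inn w).card = d) (u : V) (hu : u ∈ O) (i : ℕ) :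
    ∀ n, ∑ x ∈ O, walk_cnt (walk_out O inn) (n + i) x (fun w => w i = u) ≤
      d ^ i * walk_W (walk_out O inn) n u := by
  induction i with
  | zero =>
    intro n
    refine (sum_le_sum fun x _ => walk_start (walk_out O inn) (n + 0) x u).trans ?_
    rw [pow_zero, one_mul, add_zero]
    rw [sum_eq_single u]
    · rw [if_pos rfl]
    · intro b _ hb
      rw [if_neg hb]
    · exact fun h => absurd hu h
  | succ i ih =>
    intro n
    have h1 : ∀ x ∈ O, walk_cnt (walk_out O inn) (n + (i + 1)) x (fun w => w (i + 1) = u) =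
        ∑ y ∈ walk_out O inn x, walk_cnt (walk_out O inn) (n + i) y (fun w => w i = u) := by
      intro x _
      rfl
    rw [sum_congr rfl h1, walk_A O d inn hin, pow_succ]
    calc d * ∑ y ∈ O, walk_cnt (walk_out O inn) (n + i) y (fun w => w i = u)
        ≤ d * (d ^ i * walk_W (walk_out O inn) n u) := Nat.mul_le_mul_left _ (ih n)
      _ = d ^ i * d * walk_W (walk_out O inn) n u := by ring

theorem walk_E (hin : ∀ w ∈ O, inn w ⊆ O ∧ (inn w).card = d) (u : V) (hu : u ∈ O) (i n : ℕ)
    (x : V) : walk_cnt (walk_out O inn) (n + (i + 1)) x (fun w => w (i + 1) = u) ≤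
      d ^ i * walk_W (walk_out O inn) n u := by
  have h1 : walk_cnt (walk_out O inn) (n + (i + 1)) x (fun w => w (i + 1) = u) =
        ∑ y ∈ walk_out O inn x, walk_cnt (walk_out O inn) (n + i) y (fun w => w i = u) := rfl
  rw [h1]
  exact (sum_le_sum_of_subset (filter_subset _ _)).trans (walk_sumE O d inn hin u hu i n)

theorem walk_C (hin : ∀ w ∈ O, inn w ⊆ O ∧ (inn w).card = d) (r : ℕ) (i : ℕ) :
    ∀ (n : ℕ), ∀ x ∈ O, walk_cnt (walk_out O inn) (n + (i + (r + 1))) x
      (fun w => w i = w (i + (r + 1))) ≤ d ^ r * walk_W (walk_out O inn) (n + i) x := by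
  induction i with
  | zero =>
    intro n x hx
    refine le_trans ?_ (walk_E O d inn hin x hx r n x)
    have h1 : ∀ m, walk_cnt (walk_out O inn) m x (fun w => w 0 = w (0 + (r + 1))) ≤
        walk_cnt (walk_out O inn) m x (fun w => w (r + 1) = x) := by
      intro m
      cases m with
      | zero =>
        simp [walk_cnt]
      | succ m =>
        rw [walk_cnt_succ, walk_cnt_succ]
        refine sum_le_sum fun y _ => ?_
        have := walk_cnt_le_add (walk_out O inn) m y
          (fun w => walk_cons x w 0 = walk_cons x w (0 + (r + 1)))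
          (fun w => walk_cons x w (r + 1) = x) (fun _ => False)
          (fun w h => Or.inl (by
            rw [zero_add] at h
            exact h.symm))
        rwa [walk_cnt_false (walk_out O inn) m y (fun _ => False) (fun _ h => h), add_zero] at this
    rw [zero_add]
    have := h1 (n + (r + 1))
    rwa [zero_add] at this
  | succ i ih =>
    intro n x hx
    have h1 : walk_cnt (walk_out O inn) (n + (i + 1 + (r + 1))) x
        (fun w => w (i + 1) = w (i + 1 + (r + 1))) =
        ∑ y ∈ walk_out O inn x, walk_cnt (walk_out O inn) (n + (i + (r + 1))) y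
          (fun w => w i = w (i + (r + 1))) := by
      have e1 : n + (i + 1 + (r + 1)) = n + (i + (r + 1)) + 1 := by omega
      have e2 : i + 1 + (r + 1) = i + (r + 1) + 1 := by omega
      rw [e1, e2, walk_cnt_succ]
      rfl
    rw [h1]
    have h2 : n + (i + 1) = n + i + 1 := by omega
    rw [h2, walk_W_succ, mul_sum]
    exact sum_le_sum fun y hy => ih n y (mem_filter.mp hy).1

/-- a good level -/
theorem walk_level (M : ℕ → ℕ) (d c h : ℕ) (hd : 0 < d) (h1 : ∀ n, d ^ n ≤ M n)
    (h2 : ∀ n, M n ≤ d ^ n * c) : ∃ N, h ≤ N ∧ ∀ i, 1 ≤ i → i ≤ h → M (N - i) * d ^ i ≤ 2 * M N := by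
  by_contra hno
  push Not at hno
  have key : ∀ K N, K * h ≤ N → ∃ N', N' ≤ N ∧ 2 ^ K * M N ≤ M N' * d ^ (N - N') := by
    intro K
    induction K with
    | zero =>
      intro N _
      exact ⟨N, le_rfl, by simp⟩
    | succ K ih =>
      intro N hN
      rw [add_mul, one_mul] at hN
      obtain ⟨i, hi1, hi2, hi3⟩ := hno N (by omega)
      obtain ⟨N', hN', h3⟩ := ih (N - i) (by omega)
      refine ⟨N', by omega, ?_⟩
      calc 2 ^ (K + 1) * M N = 2 ^ K * (2 * M N) := by ring
        _ ≤ 2 ^ K * (M (N - i) * d ^ i) := Nat.mul_le_mul_left _ hi3.le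
        _ = (2 ^ K * M (N - i)) * d ^ i := by ring
        _ ≤ (M N' * d ^ (N - i - N')) * d ^ i := Nat.mul_le_mul_right _ h3
        _ = M N' * d ^ (N - N') := by
          rw [mul_assoc, ← pow_add]
          congr 2
          omega
  obtain ⟨N', hN', h3⟩ := key c (c * h) le_rfl
  have h4 : 2 ^ c * d ^ (c * h) ≤ c * d ^ (c * h) := by
    calc 2 ^ c * d ^ (c * h) ≤ 2 ^ c * M (c * h) := Nat.mul_le_mul_left _ (h1 _)
      _ ≤ M N' * d ^ (c * h - N') := h3
      _ ≤ (d ^ N' * c) * d ^ (c * h - N') := Nat.mul_le_mul_right _ (h2 _)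
      _ = c * d ^ (N' + (c * h - N')) := by
        rw [pow_add]
        ring
      _ = c * d ^ (c * h) := by
        congr 2
        omega
  have h5 : 2 ^ c ≤ c := Nat.le_of_mul_le_mul_right h4 (Nat.pow_pos hd)
  exact absurd h5 (not_le.mpr Nat.lt_two_pow_self)

/-- one path -/
theorem walk_one (hin : ∀ w ∈ O, inn w ⊆ O ∧ (inn w).card = d) (h N : ℕ) (x : V) (hx : x ∈ O)
    (hN : h ≤ N) (M : ℕ) (hM : 0 < M) (hxM : walk_W (walk_out O inn) N x = M)
    (hlev : ∀ i, 1 ≤ i → i ≤ h → ∀ u ∈ O, walk_W (walk_out O inn) (N - i) u * d ^ i ≤ 2 * M)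
    (Z : Finset V) (hZ : Z ⊆ O) (hcard : 2 * Z.card * h + (h + 1) ^ 2 < d) :
    ∃ w : ℕ → V, w 0 = x ∧ (∀ i < N, w (i + 1) ∈ walk_out O inn (w i)) ∧
      (∀ i, 1 ≤ i → i ≤ h → w i ∉ Z) ∧ ∀ j ≤ h, ∀ i < j, w i ≠ w j := by
  set out := walk_out O inn with hout
  have hd : 0 < d := by omega
  have hdM : d ^ h * walk_W out (N - h) x ≤ 2 * M ∨ h = 0 := by
    rcases Nat.eq_zero_or_pos h with h0 | h0
    · exact Or.inr h0
    · left
      have := hlev h h0 le_rfl x hx
      rwa [mul_comm] at this
  apply walk_cnt_exists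
  by_contra hc
  rw [not_lt, Nat.le_zero] at hc
  -- union bound
  have hE : ∀ i, 1 ≤ i → i ≤ h → ∀ u ∈ Z, d * walk_cnt out N x (fun w => w i = u) ≤ 2 * M := by
    intro i hi1 hi2 u hu
    obtain ⟨i, rfl⟩ : ∃ i', i = i' + 1 := ⟨i - 1, by omega⟩
    have h1 := walk_E O d inn hin u (hZ hu) i (N - (i + 1)) x
    rw [Nat.sub_add_cancel (by omega : i + 1 ≤ N)] at h1
    calc d * walk_cnt out N x (fun w => w (i + 1) = u)
        ≤ d * (d ^ i * walk_W out (N - (i + 1)) u) := Nat.mul_le_mul_left _ h1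
      _ = walk_W out (N - (i + 1)) u * d ^ (i + 1) := by ring
      _ ≤ 2 * M := hlev (i + 1) hi1 hi2 u (hZ hu)
  have hC : ∀ j ≤ h, ∀ i < j, d * walk_cnt out N x (fun w => w i = w j) ≤ 2 * M := by
    intro j hj i hi
    obtain ⟨r, rfl⟩ : ∃ r, j = i + (r + 1) := ⟨j - i - 1, by omega⟩
    have h1 := walk_C O d inn hin r i (N - (i + (r + 1))) x hx
    rw [Nat.sub_add_cancel (by omega : i + (r + 1) ≤ N)] at h1
    have h2 : N - (i + (r + 1)) + i = N - (r + 1) := by omega
    rw [h2] at h1
    calc d * walk_cnt out N x (fun w => w i = w (i + (r + 1)))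
        ≤ d * (d ^ r * walk_W out (N - (r + 1)) x) := Nat.mul_le_mul_left _ h1
      _ = walk_W out (N - (r + 1)) x * d ^ (r + 1) := by ring
      _ ≤ 2 * M := hlev (r + 1) (by omega) (by omega) x hx
  have hsum1 : walk_cnt out N x (fun w => ∃ i, 1 ≤ i ∧ i ≤ h ∧ w i ∈ Z) ≤
      ∑ e ∈ (Icc 1 h) ×ˢ Z, walk_cnt out N x (fun w => w e.1 = e.2) := by
    refine walk_cnt_le_sum out N x ((Icc 1 h) ×ˢ Z) (fun e w => w e.1 = e.2) _ ?_
    rintro w ⟨i, hi1, hi2, hi3⟩
    exact ⟨(i, w i), mem_product.mpr ⟨mem_Icc.mpr ⟨hi1, hi2⟩, hi3⟩, rfl⟩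
  have hsum2 : walk_cnt out N x (fun w => ∃ j ≤ h, ∃ i < j, w i = w j) ≤
      ∑ j ∈ range (h + 1), ∑ i ∈ range j, walk_cnt out N x (fun w => w i = w j) := by
    refine (walk_cnt_le_sum out N x (range (h + 1)) (fun j w => ∃ i ∈ range j, w i = w j) _
      ?_).trans (sum_le_sum fun j _ => walk_cnt_le_sum out N x (range j)
        (fun i w => w i = w j) _ fun w hw => hw)
    rintro w ⟨j, hj, i, hi, h3⟩
    exact ⟨j, mem_range.mpr (by omega), i, mem_range.mpr hi, h3⟩
  have htot : M ≤ walk_cnt out N x (fun w => ∃ i, 1 ≤ i ∧ i ≤ h ∧ w i ∈ Z) +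
      walk_cnt out N x (fun w => ∃ j ≤ h, ∃ i < j, w i = w j) := by
    have h1 := walk_cnt_le_add out N x (fun _ => True)
      (fun w => (∀ i, 1 ≤ i → i ≤ h → w i ∉ Z) ∧ ∀ j ≤ h, ∀ i < j, w i ≠ w j)
      (fun w => (∃ i, 1 ≤ i ∧ i ≤ h ∧ w i ∈ Z) ∨ ∃ j ≤ h, ∃ i < j, w i = w j) (by
        intro w _
        by_contra hcon
        push Not at hcon
        obtain ⟨hc1, hc2, hc3⟩ := hcon
        obtain ⟨j, hj, i, hi, hij⟩ := hc1 hc2
        exact hc3 j hj i hi hij)
    have h2 := walk_cnt_le_add out N x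
      (fun w => (∃ i, 1 ≤ i ∧ i ≤ h ∧ w i ∈ Z) ∨ ∃ j ≤ h, ∃ i < j, w i = w j)
      (fun w => ∃ i, 1 ≤ i ∧ i ≤ h ∧ w i ∈ Z) (fun w => ∃ j ≤ h, ∃ i < j, w i = w j)
      (fun w hw => hw)
    have h3 : walk_cnt out N x (fun _ => True) = M := hxM
    rw [h3, hc, zero_add] at h1
    exact h1.trans h2
  have h1 : d * (∑ e ∈ (Icc 1 h) ×ˢ Z, walk_cnt out N x (fun w => w e.1 = e.2)) ≤
      h * Z.card * (2 * M) := by
    rw [mul_sum]
    refine (sum_le_sum (g := fun _ => 2 * M) fun e he => ?_).trans ?_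
    · obtain ⟨h3, h4⟩ := mem_product.mp he
      obtain ⟨h5, h6⟩ := mem_Icc.mp h3
      exact hE e.1 h5 h6 e.2 h4
    · rw [sum_const, smul_eq_mul, card_product, Nat.card_Icc, Nat.add_sub_cancel]
  have h2 : d * (∑ j ∈ range (h + 1), ∑ i ∈ range j, walk_cnt out N x (fun w => w i = w j)) ≤
      (∑ j ∈ range (h + 1), j) * (2 * M) := by
    rw [mul_sum, sum_mul]
    refine sum_le_sum fun j hj => ?_
    rw [mul_sum]
    refine (sum_le_sum (g := fun _ => 2 * M) fun i hi => ?_).trans ?_
    · exact hC j (by have := mem_range.mp hj; omega) i (mem_range.mp hi)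
    · rw [sum_const, smul_eq_mul, card_range]
  have h3 : (∑ j ∈ range (h + 1), j) * 2 = (h + 1) * h := by
    have := sum_range_id_mul_two (h + 1)
    rwa [Nat.add_sub_cancel] at this
  have h4 : d * M ≤ (2 * Z.card * h + (h + 1) * h) * M := by
    calc d * M ≤ d * (walk_cnt out N x (fun w => ∃ i, 1 ≤ i ∧ i ≤ h ∧ w i ∈ Z) +
          walk_cnt out N x (fun w => ∃ j ≤ h, ∃ i < j, w i = w j)) := Nat.mul_le_mul_left _ htot
      _ ≤ d * ((∑ e ∈ (Icc 1 h) ×ˢ Z, walk_cnt out N x (fun w => w e.1 = e.2)) +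
          ∑ j ∈ range (h + 1), ∑ i ∈ range j, walk_cnt out N x (fun w => w i = w j)) :=
        Nat.mul_le_mul_left _ (Nat.add_le_add hsum1 hsum2)
      _ ≤ h * Z.card * (2 * M) + (∑ j ∈ range (h + 1), j) * (2 * M) := by
        rw [mul_add]
        exact Nat.add_le_add h1 h2
      _ = (2 * Z.card * h) * M + ((∑ j ∈ range (h + 1), j) * 2) * M := by ring
      _ = (2 * Z.card * h + (h + 1) * h) * M := by
        rw [h3]
        ring
  have h5 := Nat.le_of_mul_le_mul_right h4 hM
  have h6 : (h + 1) * h ≤ (h + 1) ^ 2 := by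
    rw [pow_two]
    exact Nat.mul_le_mul_left _ (Nat.le_succ h)
  omega

end main

theorem p_walk : S_walk := by
  classical
  intro V _ _ rel _ O d b h hO hdeg hnum
  -- exactly `d` in-neighbours
  have hex : ∀ w : V, ∃ s : Finset V, w ∈ O → s ⊆ O.filter (fun u => rel u w) ∧ s.card = d := by
    intro w
    by_cases hw : w ∈ O
    · obtain ⟨s, hs1, hs2⟩ := exists_subset_card_eq (hdeg w hw)
      exact ⟨s, fun _ => ⟨hs1, hs2⟩⟩
    · exact ⟨∅, fun h => absurd h hw⟩
  choose inn hinn using hex
  have hin : ∀ w ∈ O, inn w ⊆ O ∧ (inn w).card = d := fun w hw =>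
    ⟨(hinn w hw).1.trans (filter_subset _ _), (hinn w hw).2⟩
  have hrel : ∀ x y, y ∈ walk_out O inn x → y ∈ O ∧ rel x y := by
    intro x y hy
    obtain ⟨h1, h2⟩ := mem_filter.mp hy
    exact ⟨h1, (mem_filter.mp ((hinn y h1).1 h2)).2⟩
  have hd : 0 < d := by omega
  -- the maximum
  set M : ℕ → ℕ := fun n => O.sup (walk_W (walk_out O inn) n) with hMdef
  have hle : ∀ n, ∀ x ∈ O, walk_W (walk_out O inn) n x ≤ M n := fun n x hx =>
    le_sup (f := walk_W (walk_out O inn) n) hx
  have hM1 : ∀ n, d ^ n ≤ M n := by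
    intro n
    have h1 := walk_sumW O d inn hin n
    have h2 : d ^ n * O.card ≤ M n * O.card := by
      rw [← h1, mul_comm, ← smul_eq_mul, ← sum_const]
      exact sum_le_sum fun x hx => hle n x hx
    exact Nat.le_of_mul_le_mul_right h2 (card_pos.mpr hO)
  have hM2 : ∀ n, M n ≤ d ^ n * O.card := by
    intro n
    rw [← walk_sumW O d inn hin n]
    exact Finset.sup_le fun x hx => single_le_sum (f := walk_W (walk_out O inn) n)
      (fun _ _ => Nat.zero_le _) hx
  obtain ⟨N, hN, hlev⟩ := walk_level M d O.card h hd hM1 hM2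
  obtain ⟨z, hz, hzM⟩ := exists_mem_eq_sup O hO (walk_W (walk_out O inn) N)
  have hMpos : 0 < M N := lt_of_lt_of_le (Nat.pow_pos hd) (hM1 N)
  have hlev' : ∀ i, 1 ≤ i → i ≤ h → ∀ u ∈ O,
      walk_W (walk_out O inn) (N - i) u * d ^ i ≤ 2 * M N := fun i h1 h2 u hu =>
    (Nat.mul_le_mul_right _ (hle (N - i) u hu)).trans (hlev i h1 h2)
  -- the legs, one after the other
  have key : ∀ c, c ≤ b → ∃ leg : ℕ → ℕ → V, (∀ i < c, leg i 0 = z) ∧
      (∀ i < c, ∀ j ≤ h, leg i j ∈ O) ∧ (∀ i < c, ∀ j < h, rel (leg i j) (leg i (j + 1))) ∧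
      (∀ i < c, ∀ j < h, leg i (j + 1) ≠ z) ∧
      (∀ i < c, ∀ i' < c, ∀ j < h, ∀ j' < h, leg i (j + 1) = leg i' (j' + 1) → i = i' ∧ j = j') := by
    intro c
    induction c with
    | zero =>
      intro _
      exact ⟨fun _ _ => z, fun i hi => absurd hi (Nat.not_lt_zero i),
        fun i hi => absurd hi (Nat.not_lt_zero i), fun i hi => absurd hi (Nat.not_lt_zero i),
        fun i hi => absurd hi (Nat.not_lt_zero i), fun i hi => absurd hi (Nat.not_lt_zero i)⟩
    | succ c ih =>
      intro hc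
      obtain ⟨leg, g1, g2, g3, g4, g5⟩ := ih (by omega)
      set Z : Finset V := (range c ×ˢ range h).image (fun e => leg e.1 (e.2 + 1)) with hZdef
      have hZO : Z ⊆ O := by
        intro v hv
        obtain ⟨e, he, rfl⟩ := mem_image.mp hv
        obtain ⟨h1, h2⟩ := mem_product.mp he
        exact g2 e.1 (mem_range.mp h1) (e.2 + 1) (mem_range.mp h2)
      have hZc : Z.card ≤ b * h := by
        refine card_image_le.trans ?_
        rw [card_product, card_range, card_range]
        exact Nat.mul_le_mul_right _ (by omega)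
      have hnum' : 2 * Z.card * h + (h + 1) ^ 2 < d := by
        refine lt_of_le_of_lt ?_ hnum
        refine Nat.add_le_add_right ?_ _
        calc 2 * Z.card * h ≤ 2 * (b * h) * h := Nat.mul_le_mul_right _ (Nat.mul_le_mul_left _ hZc)
          _ = 2 * b * h * h := by ring
      obtain ⟨w, hw0, hw1, hw2, hw3⟩ := walk_one O d inn hin h N z hz hN (M N) hMpos hzM.symm hlev'
        Z hZO hnum'
      have hwO : ∀ j ≤ h, w j ∈ O := by
        intro j hj
        cases j with
        | zero =>
          rw [hw0]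
          exact hz
        | succ j => exact (hrel _ _ (hw1 j (by omega))).1
      have hne : ∀ i < c, i ≠ c := fun i hi => hi.ne
      refine ⟨fun i => if i = c then w else leg i, ?_, ?_, ?_, ?_, ?_⟩
      · intro i hi
        by_cases hic : i = c
        · simp only [if_pos hic]
          exact hw0
        · simp only [if_neg hic]
          exact g1 i (by omega)
      · intro i hi j hj
        by_cases hic : i = c
        · simp only [if_pos hic]
          exact hwO j hj
        · simp only [if_neg hic]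
          exact g2 i (by omega) j hj
      · intro i hi j hj
        by_cases hic : i = c
        · simp only [if_pos hic]
          exact (hrel _ _ (hw1 j (by omega))).2
        · simp only [if_neg hic]
          exact g3 i (by omega) j hj
      · intro i hi j hj
        by_cases hic : i = c
        · simp only [if_pos hic]
          intro he
          exact hw3 (j + 1) hj 0 (by omega) (hw0.trans he.symm)
        · simp only [if_neg hic]
          exact g4 i (by omega) j hj
      · intro i hi i' hi' j hj j' hj' he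
        by_cases hic : i = c
        · by_cases hic' : i' = c
          · simp only [if_pos hic, if_pos hic'] at he
            refine ⟨hic.trans hic'.symm, ?_⟩
            by_contra hjj
            rcases lt_or_gt_of_ne hjj with hlt | hlt
            · exact hw3 (j' + 1) hj' (j + 1) (by omega) he
            · exact hw3 (j + 1) hj (j' + 1) (by omega) he.symm
          · simp only [if_pos hic, if_neg hic'] at he
            exfalso
            refine hw2 (j + 1) (by omega) hj ?_
            rw [he]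
            exact mem_image.mpr ⟨(i', j'), mem_product.mpr ⟨mem_range.mpr (by omega),
              mem_range.mpr hj'⟩, rfl⟩
        · by_cases hic' : i' = c
          · simp only [if_neg hic, if_pos hic'] at he
            exfalso
            refine hw2 (j' + 1) (by omega) hj' ?_
            rw [← he]
            exact mem_image.mpr ⟨(i, j), mem_product.mpr ⟨mem_range.mpr (by omega),
              mem_range.mpr hj⟩, rfl⟩
          · simp only [if_neg hic, if_neg hic'] at he
            exact g5 i (by omega) i' (by omega) j hj j' hj' he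
  obtain ⟨leg, h1, h2, h3, h4, h5⟩ := key b le_rfl
  exact ⟨z, hz, leg, h1, h2, h3, h4, h5⟩

end Pool.Agent.Lib.MP_47458b_co.DU
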