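import Pool.Agent.Lib.MP_47458b_co.DU.Final
import Pool.Agent.Lib.MP_47458b_co.DU.P_clo
import Pool.Agent.Lib.MP_47458b_co.DU.P_gz
import Pool.Agent.Lib.MP_47458b_co.DU.P_hall
import Pool.Agent.Lib.MP_47458b_co.DU.P_star
import Pool.Agent.Lib.MP_47458b_co.DU.P_eq
import Pool.Agent.Lib.MP_47458b_co.DU.P_sl0
import Pool.Agent.Lib.MP_47458b_co.DU.P_sl1
import Pool.Agent.Lib.MP_47458b_co.DU.P_sl2
import Pool.Agent.Lib.MP_47458b_co.DU.P_sl3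
import Pool.Agent.Lib.MP_47458b_co.DU.P_sl4
import Pool.Agent.Lib.MP_47458b_co.DU.P_out
import Pool.Agent.Lib.MP_47458b_co.DU.P_s2
import Pool.Agent.Lib.MP_47458b_co.DU.P_s3
import Pool.Agent.Lib.MP_47458b_co.DU.P_sh
import Pool.Agent.Lib.MP_47458b_co.DU.P_s1
import Pool.Agent.Lib.MP_47458b_co.DU.P_walk
import Pool.Agent.Lib.MP_47458b_co.DU.P_spi
import Pool.Agent.Lib.MP_47458b_co.DU.P_spt
import Pool.Agent.Lib.MP_47458b_co.DU.P_s1f
import Pool.Agent.Lib.MP_47458b_co.DU.P_ncl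
import Pool.Agent.Lib.MP_47458b_co.DU.P_sel
import Pool.Agent.Lib.MP_47458b_co.DU.P_low
import Pool.Agent.Lib.MP_47458b_co.DU.P_snk
import Pool.Agent.Lib.MP_47458b_co.DU.P_nc
import Pool.Agent.Lib.MP_47458b_co.DU.P_adx
import Pool.Agent.Lib.MP_47458b_co.DU.P_cnc
import Pool.Agent.Lib.MP_47458b_co.DU.P_cnt
import Pool.Agent.Lib.MP_47458b_co.DU.P_tab
import Pool.Agent.Lib.MP_47458b_co.DU.P_tr1
import Pool.Agent.Lib.MP_47458b_co.DU.P_av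
import Pool.Agent.Lib.MP_47458b_co.DU.P_clA
import Pool.Agent.Lib.MP_47458b_co.DU.P_trA
import Pool.Agent.Lib.MP_47458b_co.DU.P_phA
import Pool.Agent.Lib.MP_47458b_co.DU.P_par
import Pool.Agent.Lib.MP_47458b_co.DU.P_trB
import Pool.Agent.Lib.MP_47458b_co.DU.P_psel
import Pool.Agent.Lib.MP_47458b_co.DU.P_pth
import Pool.Agent.Lib.MP_47458b_co.DU.P_ptb
import Pool.Agent.Lib.MP_47458b_co.DU.P_dich
import Pool.Agent.Lib.MP_47458b_co.DU.P_conn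
import Pool.Agent.Lib.MP_47458b_co.DU.P_num

/-!
Project DU: all pieces together.
-/

namespace Pool.Agent.Lib.MP_47458b_co.DU

theorem all : All :=
  ⟨p_clo, p_gz, p_hall, p_star, p_eq, p_sl0, p_sl1, p_sl2, p_sl3, p_sl4, p_out, p_s2, p_s3, p_sh,
    p_s1, p_walk, p_spi, p_spt, p_s1f, p_ncl, p_sel, p_low, p_snk, p_nc, p_adx, p_cnc, p_cnt,
    p_tab, p_tr1, p_av, p_clA, p_trA, p_phA, p_par, p_trB, p_psel, p_pth, p_ptb, p_dich, p_conn,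
    p_num⟩

end Pool.Agent.Lib.MP_47458b_co.DU
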