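import Pool.Agent.Lib.MP_47458b_co.Upper.ManyInner
import Pool.Agent.Lib.MP_47458b_co.Upper.Leaves
import Pool.Agent.Lib.MP_47458b_co.Up.Tree

/-!
Definitions for the digraph upper bound `f(k) ≤ k - (log k) / 5` (project DU). Complete proof in
words: `MP_47458b_DU.md` in the team store; the statements are in `DU/Stm.lean`.

Signs are `Bool`s: `nb D true x` = out-neighbours, `nb D false x` = in-neighbours;
`sg T a b = true` iff `a → b` in the tree, so the image of `b` must be in
`nb D (sg T a b) (φ a)`. `Up.Rooted T r` is a parent function of the tree for the root `r`.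
-/

namespace Pool.Agent.Lib.MP_47458b_co.DU

open Finset

variable {V W : Type} [Fintype V] [DecidableEq V] [Fintype W] [DecidableEq W]

/-- The underlying tree. -/
abbrev gr (T : Digraph W) : SimpleGraph W := T.toSimpleGraphInclusive

/-- `D` is connected: a nonempty set closed under adjacency is everything. -/
def Conn (D : Digraph V) : Prop :=
  ∀ S : Finset V, S.Nonempty → (∀ x ∈ S, ∀ e, ∀ y ∈ nb D e x, y ∈ S) → S = univ

/-- Neighbours in the tree. -/
noncomputable def nbT (T : Digraph W) (x : W) : Finset W :=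
  open Classical in univ.filter (fun y => (gr T).Adj x y)

/-- All degrees of the tree are at most `Δ`. -/
def DegLe (T : Digraph W) (Δ : ℕ) : Prop := ∀ x, (nbT T x).card ≤ Δ

/-- The core of `N`: the elements which are closed for all available signs. -/
noncomputable def core (D : Digraph V) (K : ℕ) (Sg : Bool → Prop) (N : Finset V) : Finset V :=
  open Classical in N.filter (fun x => ∀ s, Sg s → ((nb D s x) \ N).card ≤ K)

/-- Clusters. -/
structure Clus (D : Digraph V) (k m K : ℕ) (Sg : Bool → Prop) (N : Finset V) : Prop where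
  lo : k ≤ N.card + m
  hi : N.card ≤ k
  cr : 100 * (N \ core D K Sg N).card ≤ k

/-- Two clusters with a large intersection. -/
def Eqv (k : ℕ) (N N' : Finset V) : Prop := k < 50 * (N ∩ N').card

/-- Vertices with many `s`-neighbours in the core of `J`. -/
noncomputable def PP (D : Digraph V) (k K : ℕ) (Sg : Bool → Prop) (s : Bool) (J : Finset V) :
    Finset V :=
  open Classical in univ.filter (fun y => k ≤ 10 * (nb D s y ∩ core D K Sg J).card)

/-- The trap property. `r` is the root, `A` the anchor, `Nr` the near region. -/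
def Trap (T : Digraph W) (D : Digraph V) (k m K g : ℕ) (Sg : Bool → Prop) {r : W}
    (R : Up.Rooted T r) (A Nr : Finset W) : Prop :=
  ∀ (Z : Finset V) (S S' : Finset W) (φ : W → V),
    A ⊆ S → S ⊆ S' → S' ⊆ Nr → R.Closed S → R.Closed S' → g ≤ (S' \ S).card → IsEmb T D S φ →
    (∀ t ∈ S' \ S, R.par t ∈ S →
      S'.card ≤ (nb D (sg T (R.par t) t) (φ (R.par t)) ∩ Z).card) →
    (∀ t ∈ S' \ S, R.par t ∉ S → ∀ x ∈ Z, S'.card ≤ (nb D (sg T (R.par t) t) x ∩ Z).card) →
    ∃ (ψ : W → V) (N : Finset V), IsEmb T D S' ψ ∧ (∀ x ∈ S, ψ x = φ x) ∧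
      (∀ x ∈ S' \ S, ψ x ∈ Z) ∧ Clus D k m K Sg N ∧ ((S'.image ψ) \ N).card ≤ m ∧
      ∃ t ∈ S' \ S, 100 * ((nb D (sg T (R.par t) t) (ψ (R.par t)) ∩ Z) \ N).card ≤ k

/-- The general situation in sections 3 - 7. -/
structure Base (T : Digraph W) (D : Digraph V) (k m K g : ℕ) (Sg : Bool → Prop) {r : W}
    (R : Up.Rooted T r) (A Nr : Finset W) : Prop where
  hT : IsOrientedTree k T
  hD : Loopless D
  hκ : ∀ s x, k ≤ (nb D s x).card + m
  hNr : 200 * Nr.card ≤ k
  hnum : 1000 * (m + 30 * K + 1) ≤ k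
  hg : 1 ≤ g
  hSg : ∃ s, Sg s
  trap : Trap T D k m K g Sg R A Nr

/-- `F` hangs below `b`. -/
def Below {T : Digraph W} {r : W} (R : Up.Rooted T r) (F : Finset W) (b : W) : Prop :=
  b ∉ F ∧ r ∉ F ∧ ∀ x ∈ F, R.par x ∈ insert b F

/-- There are `g` further vertices of `F` below `t`. -/
def Room {T : Digraph W} {r : W} (R : Up.Rooted T r) (F : Finset W) (t : W) (g : ℕ) : Prop :=
  ∃ E ⊆ F, E.card = g ∧ Below R E t

/-- Many roomy vertices below `b`. -/
def Rich {T : Digraph W} {r : W} (R : Up.Rooted T r) (F : Finset W) (b : W) (g : ℕ) : Prop :=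
  ∃ F' ⊆ F, Below R F' b ∧ g ≤ F'.card ∧ ∀ t ∈ F', Room R F t g

/-- `x` is a descendant of `b` (or equal to `b`). -/
inductive Desc {T : Digraph W} {r : W} (R : Up.Rooted T r) (b : W) : W → Prop
  | refl : Desc R b b
  | step {x : W} : x ≠ r → Desc R b (R.par x) → Desc R b x

/-- Descendants of `u` in `F`, `u` included if it is in `F`. -/
noncomputable def dsc {T : Digraph W} {r : W} (R : Up.Rooted T r) (F : Finset W) (u : W) :
    Finset W :=
  open Classical in F.filter (fun x => Desc R u x)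

/-- Strict descendants of `u` in `F`. -/
noncomputable def sdsc {T : Digraph W} {r : W} (R : Up.Rooted T r) (F : Finset W) (u : W) :
    Finset W :=
  (dsc R F u).erase u

/-- Many rich vertices below `b`. -/
def SRich {T : Digraph W} {r : W} (R : Up.Rooted T r) (F : Finset W) (b : W) (g : ℕ) : Prop :=
  ∃ F' ⊆ F, Below R F' b ∧ g ≤ F'.card ∧ ∀ t ∈ F', Rich R (sdsc R F t) t g

/-- Positions: `P` is the part on the side of the anchor, `F` the far part below `b`. -/
structure Pos (T : Digraph W) (Sg : Bool → Prop) {r : W} (R : Up.Rooted T r)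
    (A Nr P : Finset W) (b : W) (F : Finset W) : Prop where
  closed : R.Closed P
  sub : A ⊆ P
  mem : b ∈ P
  disj : Disjoint P F
  near : P ∪ F ⊆ Nr
  below : Below R F b
  sgn : ∀ x ∈ F, Sg (sg T (R.par x) x)

/-- From `(b, F)` the vertex `y` sees `N` along `(Q, ψ)`. -/
def Sees (T : Digraph W) (D : Digraph V) (K g : ℕ) (Sg : Bool → Prop) {r : W}
    (R : Up.Rooted T r) (F : Finset W) (b : W) (y : V) (N : Finset V) (Q : Finset W)
    (ψ : W → V) : Prop :=
  Q ⊆ F ∧ Below R Q b ∧ IsEmb T D (insert b Q) ψ ∧ ψ b = y ∧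
    ∃ t ∈ insert b Q, ψ t ∈ core D K Sg N ∧ ∃ E ⊆ F, E.card = g ∧ Below R E t ∧ Disjoint E Q

/-- Both signs. -/
def both : Bool → Prop := fun _ => True

/-- The vertices adjacent to at least `m` of the leaf parents: `x l` is the image of the parent of
the leaf `l`, `s` the common sign of the leaves. -/
noncomputable def Jset (D : Digraph V) (m : ℕ) (s : Bool) (L : Finset W) (x : W → V) :
    Finset V :=
  open Classical in univ.filter (fun w => m ≤ (L.filter (fun l => w ∈ nb D s (x l))).card)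

/-- A set of leaves of sign `s` and their parents `pl`. -/
structure Leafs (T : Digraph W) (s : Bool) (L : Finset W) (pl : W → W) : Prop where
  adj : ∀ l ∈ L, (gr T).Adj (pl l) l
  only : ∀ l ∈ L, ∀ a, (gr T).Adj a l → a = pl l
  out : ∀ l ∈ L, pl l ∉ L
  sign : ∀ l ∈ L, sg T (pl l) l = s

/-- A spider in the rooted tree: centre `c = leg i 0`, legs `leg i 1, ..., leg i h` for `i < b`,
inside `X`. -/
structure Spider {T : Digraph W} {r : W} (R : Up.Rooted T r) (X : Finset W) (c : W) (b h : ℕ)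
    (leg : ℕ → ℕ → W) : Prop where
  zero : ∀ i < b, leg i 0 = c
  mem : ∀ i < b, ∀ j ≤ h, leg i j ∈ X
  ctr : c ∈ X
  par : ∀ i < b, ∀ j < h, leg i (j + 1) ≠ r ∧ R.par (leg i (j + 1)) = leg i j
  inj : ∀ i < b, ∀ i' < b, ∀ j < h, ∀ j' < h, leg i (j + 1) = leg i' (j' + 1) → i = i' ∧ j = j'

/-- Pairwise distance at least three inside `S`. -/
def Sep (T : Digraph W) (S : Finset W) : Prop :=
  ∀ a ∈ S, ∀ b ∈ S, a ≠ b → ¬ (gr T).Adj a b ∧ ∀ c, (gr T).Adj a c → ¬ (gr T).Adj b c

end Pool.Agent.Lib.MP_47458b_co.DU
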