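import Pool.Agent.Lib.MP_47458b_co.DU.Main

/-!
Project DU: the admissible function `k - (log k) / 5` for large `k` (from the pieces).
-/

namespace Pool.Agent.Lib.MP_47458b_co.DU

open Finset

/-- The function `k - (log k) / 5` for `k ≥ k0` (and `k` for `k < k0`) is admissible. -/
theorem admissible (H : All) : ∃ k0 : ℕ,
    AdmissibleForDigraphs (fun k => (k : ℝ) - if k0 ≤ k then Real.log k / 5 else 0) := by
  classical
  obtain ⟨k0, hk0⟩ := main_nb H
  refine ⟨max k0 (⌈Real.exp 5⌉₊ + 1), ?_⟩
  intro k V _ D hD hhost W _ T hT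
  obtain ⟨hdeg, v, hv1, hv2⟩ := hhost
  have : Fintype V := Fintype.ofFinite V
  have : Fintype W := Fintype.ofFinite W
  have hv : ∀ s, k ≤ (nb D s v).card := by
    intro s
    cases s
    · rw [card_nb_false]; exact hv2
    · rw [card_nb_true]; exact hv1
  by_cases hk : max k0 (⌈Real.exp 5⌉₊ + 1) ≤ k
  · have hdeg' : ∀ s x, (k : ℝ) - Real.log k / 5 < ((nb D s x).card : ℝ) := by
      intro s x
      have h := hdeg x
      simp only [hk, if_true] at h
      cases s
      · rw [card_nb_false]; exact h.2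
      · rw [card_nb_true]; exact h.1
    have hk1 : k0 ≤ k := (le_max_left _ _).trans hk
    have hk2 : Real.exp 5 ≤ k := by
      have h1 : ⌈Real.exp 5⌉₊ + 1 ≤ k := (le_max_right _ _).trans hk
      have h2 : (⌈Real.exp 5⌉₊ : ℝ) ≤ k := by exact_mod_cast (Nat.le_succ _).trans h1
      exact (Nat.le_ceil _).trans h2
    have hlog : 5 ≤ Real.log k := by
      rw [Real.le_log_iff_exp_le (lt_of_lt_of_le (Real.exp_pos 5) hk2)]
      exact hk2
    set m := ⌊Real.log k / 5⌋₊ with hm
    have hm1 : (m : ℝ) ≤ Real.log k / 5 := Nat.floor_le (by linarith)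
    have hm2 : Real.log k / 5 < m + 1 := Nat.lt_floor_add_one _
    have hm3 : 1 ≤ m := by
      rw [hm, Nat.one_le_floor_iff]
      linarith
    refine hk0 k m hk1 hm3 hm1 V W D T hT hD ?_ v hv
    intro s x
    have h1 := hdeg' s x
    have h2 : (k : ℝ) < ((nb D s x).card + m + 1 : ℕ) := by
      push_cast
      linarith
    have h3 : k < (nb D s x).card + m + 1 := by exact_mod_cast h2
    omega
  · have hκ : ∀ s x, k ≤ (nb D s x).card := by
      intro s x
      have h := hdeg x
      simp only [hk, if_false, sub_zero] at h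
      cases s
      · rw [card_nb_false]; exact_mod_cast h.2.le
      · rw [card_nb_true]; exact_mod_cast h.1.le
    obtain ⟨hTo, hTt, hTc⟩ := hT
    have hW : Fintype.card W = k + 1 := by rw [← Nat.card_eq_fintype_card]; exact hTc
    obtain ⟨r⟩ := hTt.connected.nonempty
    obtain ⟨φ, hφ, -⟩ := IsEmb.greedy hD hκ hTo hTt.isAcyclic (Cn.univ hTt.connected)
      (by rw [Finset.card_univ]; omega) _ {r} (fun _ => v) rfl (Finset.singleton_nonempty r)
      (Finset.subset_univ _) (Cn.single r) (IsEmb.single hTo.1 r v)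
    exact hφ.contains

end Pool.Agent.Lib.MP_47458b_co.DU
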