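import Pool.Agent.Lib.MP_47458b_co.DU.Stm2

/-!
Assembly of project DU from the pieces.
-/

namespace Pool.Agent.Lib.MP_47458b_co.DU

open Finset

/-- All the pieces. -/
structure All : Prop where
  clo : S_clo
  gz : S_gz
  hall : S_hall
  star : S_star
  eq : S_eq
  sl0 : S_sl0
  sl1 : S_sl1
  sl2 : S_sl2
  sl3 : S_sl3
  sl4 : S_sl4
  out : S_out
  s2 : S_s2
  s3 : S_s3
  sh : S_sh
  s1 : S_s1
  walk : S_walk
  spi : S_spi
  spt : S_spt
  s1f : S_s1f
  ncl : S_ncl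
  sel : S_sel
  low : S_low
  snk : S_snk
  nc : S_nc
  adx : S_adx
  cnc : S_cnc
  cnt : S_cnt
  tab : S_tab
  tr1 : S_tr1
  av : S_av
  clA : S_clA
  trA : S_trA
  phA : S_phA
  par : S_par
  trB : S_trB
  psel : S_psel
  pth : S_pth
  ptb : S_ptb
  dich : S_dich
  conn : S_conn
  num : S_num

variable {V W : Type} [Fintype V] [DecidableEq V] [Fintype W] [DecidableEq W]

theorem card_of_v {D : Digraph V} {k : ℕ} (hD : Loopless D) {v : V}
    (hv : ∀ s, k ≤ (nb D s v).card) : k + 1 ≤ Fintype.card V := by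
  have h1 : nb D true v ⊆ univ.erase v := by
    intro x hx
    refine mem_erase.2 ⟨?_, mem_univ x⟩
    rintro rfl
    exact notMem_nb_self hD _ _ hx
  have h2 := card_le_card h1
  rw [card_erase_of_mem (mem_univ v), card_univ] at h2
  have h3 := hv true
  have h4 : 0 < Fintype.card V := Fintype.card_pos_iff.2 ⟨v⟩
  omega

/-- Both signs available. -/
theorem two_sign (H : All) {D : Digraph V} {T : Digraph W} {k m K g Δ : ℕ} {r : W}
    {R : Up.Rooted T r} {A B : Finset W} (hB : Base T D k m K g both R A (A ∪ B))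
    (hC : Conn D) {v : V} (hv : ∀ s, k ≤ (nb D s v).card) (hΔ : DegLe T Δ) (hΔ1 : 1 ≤ Δ)
    (hA : R.Closed A) (hbel : Below R B r) (hdis : Disjoint A B)
    (htab : tabN Δ g (4 * m + 4 * K + 10) ((50 * (K + m) + 10) * (1 + Δ + Δ * Δ)) ≤ B.card)
    (hnc : 2 * (4 * (20 * K + m) + 1) * (1 + Δ + Δ * Δ) ≤ k)
    (had : 200 * (K + m + 1) * (1 + Δ + Δ * Δ) ≤ k) : Contains D T := by
  classical
  have hT := hB.hT
  have hV := card_of_v hB.hD hv
  have hV0 : Nonempty V := ⟨v⟩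
  rcases H.tab H.clo H.cnt W k T hT r R A B Δ g (4 * m + 4 * K + 10)
    ((50 * (K + m) + 10) * (1 + Δ + Δ * Δ)) hΔ hΔ1 hB.hg hA hbel hdis htab with
    ⟨P, b, f, F2, h1, h2, h3, h4, h5, h6, h7, h8⟩ |
    ⟨P, M, b, f, f2, F2, ty, h1, h2, h3, h4, h5, h6, h7, h8, h9, h10, h11, h12, h13, h14, h15, h16⟩
  · have hc := H.s2 H.clo H.gz H.eq (H.sl1 ) (H.sl2 ) (H.sl3 ) H.sl4 H.out
      V W D T k m K g r R A (A ∪ B) P b f F2 hB hC hV0 h1 h2 h3 h4 h5 h6 h7 h8
    exact H.nc H.ncl H.sel H.low V W D T k m K Δ hT hB.hD hB.hκ hΔ hV hc hnc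
  · obtain ⟨J, hJ, hvJ, hyy⟩ := H.s3 H.clo H.gz H.eq H.sl1 H.sl2 H.sl3 H.sl4 H.out
      V W D T k m K g r R A (A ∪ B) P M b f f2 F2 ty hB h1 h2 h3 h4 h5 h6 h7 h8 h9 h10 h11 h12
      h13 h14 h15 v
    have hk1 : 1 ≤ k := by
      have := hB.hnum
      omega
    refine H.adx H.ncl H.sel H.low H.out V W D T k m K Δ (ty b) J v hT hB.hD hB.hκ hΔ hv hB.hnum
      hJ hvJ hyy ?_ had
    intro s
    exact (h16 s).trans (H.snk W T k s hT hk1)

/-- One sign available. -/
theorem one_sign (H : All) {D : Digraph V} {T : Digraph W} {k m K g Δ : ℕ} {s0 : Bool} {r : W}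
    {R : Up.Rooted T r} {A Nr : Finset W} (hB : Base T D k m K g (fun s => s = s0) R A Nr)
    (hC : Conn D) {v : V} (hv : ∀ s, k ≤ (nb D s v).card) (hΔ : DegLe T Δ)
    {P : Finset W} {b : W} {F : Finset W} (hP : Pos T (fun s => s = s0) R A Nr P b F)
    (hS : SRich R F b g) (hc : 4 * m + 4 * K + 10 ≤ P.card)
    {X : Finset W} {c : W} {b' h' : ℕ} {leg : ℕ → ℕ → W} (hX : X ⊆ P)
    (hsp : Spider R X c b' h' leg)
    (hsg : ∀ i < b', ∀ j < h', sg T (leg i j) (leg i (j + 1)) = s0)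
    (hbh : 2 * m + 2 * K ≤ b' * h') (hnum : 2 * (2 * b' * h' * h' + (h' + 1) ^ 2) < k)
    (hnc : 2 * (4 * (20 * K + m) + 1) * (1 + Δ + Δ * Δ) ≤ k) : Contains D T := by
  classical
  have hT := hB.hT
  have hV := card_of_v hB.hD hv
  have hV0 : Nonempty V := ⟨v⟩
  obtain ⟨J, hJ, hφ⟩ := H.s1 H.clo H.gz H.eq H.sh H.sl1 H.sl2 H.sl3 H.sl4 V W D T k m K g s0 r R A
    Nr P b F hB hC hV0 hP hS hc
  have hcard := H.s1f H.clo H.gz H.out H.walk V W D T k m K g s0 r R A Nr P X c b' h' leg J hB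
    hP.closed (subset_union_left.trans hP.near) hX hsp hsg hbh hnum hJ hφ
  exact H.nc H.ncl H.sel H.low V W D T k m K Δ hT hB.hD hB.hκ hΔ hV (by omega) hnc

/-- Case A. -/
theorem caseA (H : All) {D : Digraph V} {T : Digraph W} {k m Δ h0 N : ℕ}
    (hN : NumA k m Δ h0 N) (hT : IsOrientedTree k T) (hD : Loopless D) (hC : Conn D)
    (hκ : ∀ s x, k ≤ (nb D s x).card + m) {v : V} (hv : ∀ s, k ≤ (nb D s v).card)
    (hΔ : DegLe T Δ) (hΔ1 : 1 ≤ Δ) {r : W} {R : Up.Rooted T r} {A C L : Finset W} {sL : Bool}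
    {pl : W → W} (hL : Leafs T sL L pl) (hLc : L.card = m * m + m) (hA : R.Closed A)
    (hpl : ∀ l ∈ L, pl l ∈ A) (hCr : Below R C r)
    (htop : (C.filter (fun y => R.par y = r)).card ≤ 1) (hAC : Disjoint A C)
    (hLAC : Disjoint L (A ∪ C)) (hAc : A.card ≤ 2 * (m * m + m) * Δ * (3 * h0 + 1))
    (hCc : k ≤ 2 * C.card) : Contains D T := by
  classical
  by_contra hno
  have hm := hN.m0
  have hkm := hN.km
  obtain ⟨B, hBC, hBc, hBr⟩ := (H.clo W k T hT r R).2.2.1 C r (k / 800) hCr (by omega)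
  have hAB : Disjoint A B := disjoint_of_subset_right hBC hAC
  have hLAB : Disjoint L (A ∪ B) := disjoint_of_subset_right (union_subset_union_right hBC) hLAC
  have hAc' : A.card ≤ k / 800 := hAc.trans hN.szA
  have hcard : 400 * (A ∪ B).card ≤ k := by
    have h1 := card_union_le A B
    omega
  have hclAB : R.Closed (A ∪ B) := by
    refine ⟨mem_union_left _ hA.1, ?_⟩
    intro x hx hxr
    rcases mem_union.1 hx with hx | hx
    · exact mem_union_left _ (hA.2 x hx hxr)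
    · rcases mem_insert.1 (hBr.2.2 x hx) with h | h
      · rw [h]; exact mem_union_left _ hA.1
      · exact mem_union_right _ h
  have hst := hN.st
  have hLk : L.card ≤ k := by omega
  have htrap : ∀ Sg : Bool → Prop, (∀ s, Sg s → Av R B m s) →
      Trap T D k m m (m + 1) Sg R A (A ∪ B) :=
    fun Sg hSg => H.trA H.clo H.hall H.clA V W D T k m hT hD hκ hno hm hkm sL L pl hL hLc.ge hLk
      r R A B hA hpl hLAB hclAB hAB hcard Sg hSg
  have hbase : ∀ Sg : Bool → Prop, (∃ s, Sg s) → (∀ s, Sg s → Av R B m s) →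
      Base T D k m m (m + 1) Sg R A (A ∪ B) := by
    intro Sg h1 h2
    exact ⟨hT, hD, hκ, by omega, hN.b0, by omega, h1, htrap Sg h2⟩
  by_cases hav : ∀ s, Av R B m s
  · exact hno (two_sign H (hbase both ⟨true, trivial⟩ (fun s _ => hav s)) hC hv hΔ hΔ1 hA hBr hAB
      (by rw [hBc]; exact hN.tab) hN.nc hN.ad)
  · push Not at hav
    obtain ⟨s1, hs1⟩ := hav
    have h2 := H.av W k T hT r R B Δ m s1 hΔ hBr hs1
    -- the number of bad vertices for a sign
    have hbad : ∀ s, (B.filter (fun y => R.par y = r ∨ sg T (R.par y) y = s)).card ≤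
        1 + (B.filter (fun x => R.par x ∈ B ∧ sg T (R.par x) x = s)).card := by
      intro s
      have h3 : B.filter (fun y => R.par y = r ∨ sg T (R.par y) y = s) ⊆
          C.filter (fun y => R.par y = r) ∪
            B.filter (fun x => R.par x ∈ B ∧ sg T (R.par x) x = s) := by
        intro y hy
        rw [mem_filter] at hy
        rw [mem_union, mem_filter, mem_filter]
        rcases mem_insert.1 (hBr.2.2 y hy.1) with h | h
        · exact Or.inl ⟨hBC hy.1, h⟩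
        · right
          refine ⟨hy.1, h, ?_⟩
          rcases hy.2 with h' | h'
          · exact absurd (h' ▸ h) hBr.2.1
          · exact h'
      have h4 := (card_le_card h3).trans (card_union_le _ _)
      omega
    have hs0 : Av R B m (!s1) := by
      by_contra hs0
      have h3 := H.av W k T hT r R B Δ m (!s1) hΔ hBr hs0
      have h4 : B ⊆ B.filter (fun y => R.par y = r ∨ sg T (R.par y) y = s1) ∪
          B.filter (fun y => R.par y = r ∨ sg T (R.par y) y = !s1) := by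
        intro y hy
        rw [mem_union, mem_filter, mem_filter]
        by_cases h : sg T (R.par y) y = s1
        · exact Or.inl ⟨hy, Or.inr h⟩
        · right
          refine ⟨hy, Or.inr ?_⟩
          revert h
          cases sg T (R.par y) y <;> cases s1 <;> simp
      have h5 := (card_le_card h4).trans (card_union_le _ _)
      have h6 := hbad s1
      have h7 := hbad (!s1)
      have h8 := hN.tr1
      have h9 := hN.pN
      have h10 : (2 : ℕ) * (1 + 2 * m * Δ) ≤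
          (N + 1 + Δ * ((m + 1 + 1) * (1 + Δ * ((m + 1 + 1) * (1 + Δ * (m + 1)))))) *
            (1 + 2 * m * Δ) := Nat.mul_le_mul_right _ (by omega)
      omega
    have hB1 := hbase (fun s => s = !s1) ⟨_, rfl⟩ (fun s hs => by rw [hs]; exact hs0)
    obtain ⟨P, b, F, X, x1, hP, hS, hXP, hx1, hXb, hXs, hNX⟩ := H.tr1 H.clo H.cnt W k T hT r R A B
      (!s1) Δ (m + 1) N (1 + 2 * m * Δ) hΔ hΔ1 (by omega) hA hBr hAB
      (by
        have := hbad s1
        rw [Bool.not_not]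
        omega) (by rw [hBc]; exact hN.tr1)
    obtain ⟨c, b', h', leg, hbh, hsp⟩ := H.spi W T r R X x1 (4 * m) hx1 hXb
      (lt_of_lt_of_le hN.ex (by exact_mod_cast hNX))
    obtain ⟨b'', h'', hsp', hbh', hb', hh'⟩ := H.spt W T r R X c b' h' (4 * m) leg (by omega)
      hbh.le hsp
    refine hno (one_sign H hB1 hC hv hΔ hP hS (hN.pN.trans (hNX.trans (card_le_card hXP))) hXP
      hsp' ?_ (by omega) ?_ hN.nc)
    · intro i hi j hj
      obtain ⟨h3, h4⟩ := hsp'.par i hi j hj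
      have h5 := hXs (leg i (j + 1)) (hsp'.mem i hi (j + 1) hj) h3
        (by rw [h4]; exact hsp'.mem i hi j hj.le)
      rwa [h4] at h5
    · refine lt_of_le_of_lt ?_ hN.sp
      gcongr

/-- Case B. -/
theorem caseB (H : All) {D : Digraph V} {T : Digraph W} {k m Δ g h0 E1 E2 K1 K2 n1 n2 : ℕ}
    (hN : NumB k m Δ g h0 E1 E2 K1 K2 n1 n2) (hT : IsOrientedTree k T) (hD : Loopless D)
    (hC : Conn D) (hκ : ∀ s x, k ≤ (nb D s x).card + m) {v : V}
    (hv : ∀ s, k ≤ (nb D s v).card) (hΔ : DegLe T Δ) (hΔ1 : 1 ≤ Δ) {r : W} {R : Up.Rooted T r}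
    {Rm : Finset W} {π : ℕ → W} (hr : r ∉ Rm) (h1 : Cn (gr T) (insert r Rm))
    (h2 : Cn (gr T) Rmᶜ) (h3 : m + 1 ≤ Rm.card) (h4 : Rm.card ≤ 2 * m + 1)
    (hπ : PathR R Rm (3 * h0) π) : Contains D T := by
  classical
  by_contra hno
  have hsel2 := hN.sel2
  have hn1 := hN.n1p
  have hhk := hN.hk
  rcases H.psel (fun i => sg T (π i) (π (i + 1))) h0 n1 n2 (2 * m + 2 * K1 + 3 * g) hN.sel1
    hN.sel2 hN.n1p with ⟨pr, hp1, hp2, hp3⟩ | ⟨s0, i1, pr, hi1, hi2, hrun, hp1, hp2, hp3⟩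
  · obtain ⟨q1, q2, q3, q4, q5⟩ := H.ptb W k T hT r R Rm π (3 * h0) h0 hπ (by omega)
    have htrap : Trap T D k m K2 g both R {r} ((range (h0 + 1)).image π) :=
      H.trB H.clo H.cnc H.phA H.par V W D T k m K2 g E2 n1 (3 * h0) h0 both hT hD hκ hno r R Rm π
        pr hr h1 h2 h3 h4 hπ (by omega) hp1 hp2 (fun s _ => hp3 s) hN.hk hN.e2 hN.mK2 hN.c2 hN.tg
        hN.t2
    have hcard : ((range (h0 + 1)).image π).card ≤ h0 + 1 := by
      have := card_image_le (s := range (h0 + 1)) (f := π)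
      rwa [card_range] at this
    have hbase : Base T D k m K2 g both R {r} ({r} ∪ (range h0).image (fun i => π (i + 1))) := by
      rw [q4]
      exact ⟨hT, hD, hκ, by omega, hN.b2, hN.g1, ⟨true, trivial⟩, htrap⟩
    exact hno (two_sign H hbase hC hv hΔ hΔ1 q1 q2 q3 (by rw [q5]; exact hN.tab) hN.nc2 hN.ad2)
  · have htrap : Trap T D k m K1 g (fun s => s = s0) R {r} ((range (2 * h0 + 1)).image π) :=
      H.trB H.clo H.cnc H.phA H.par V W D T k m K1 g E1 n2 (3 * h0) (2 * h0) (fun s => s = s0) hT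
        hD hκ hno r R Rm π pr hr h1 h2 h3 h4 hπ (by omega) hp1 hp2
        (fun s hs => by rw [hs]; exact hp3) hN.hk hN.e1 hN.mK1 hN.c1 hN.tg hN.t1
    have hcard : ((range (2 * h0 + 1)).image π).card ≤ 2 * h0 + 1 := by
      have := card_image_le (s := range (2 * h0 + 1)) (f := π)
      rwa [card_range] at this
    have hbase : Base T D k m K1 g (fun s => s = s0) R {r} ((range (2 * h0 + 1)).image π) :=
      ⟨hT, hD, hκ, by omega, hN.b1, hN.g1, ⟨s0, rfl⟩, htrap⟩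
    obtain ⟨P, b, F, leg, hP, hS, hsp, hsg, hPc⟩ := H.pth W k T hT r R Rm π (3 * h0) (2 * h0) i1
      (2 * m + 2 * K1) g s0 hπ (by omega) (by omega)
      (fun i hi hi' => hrun i hi (by omega))
    have hp := hN.p1
    refine hno (one_sign H hbase hC hv hΔ hP hS (by omega) (Subset.refl P) hsp ?_ (by omega)
      hN.sp hN.nc1)
    intro i hi j hj
    have : i = 0 := by omega
    subst this
    exact hsg j hj

/-- The theorem for connected hosts. -/
theorem main_conn (H : All) {k0 : ℕ}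
    (hk0 : ∀ k m : ℕ, k0 ≤ k → 1 ≤ m → (m : ℝ) ≤ Real.log k / 5 →
      ∃ g h0 E1 E2 K1 K2 n1 n2 N : ℕ,
        NumB k m (2 * (m * m + m) + 2 * m) g h0 E1 E2 K1 K2 n1 n2 ∧
        NumA k m (2 * (m * m + m) + 2 * m) h0 N)
    {k m : ℕ} (hk : k0 ≤ k) (hm : 1 ≤ m) (hmk : (m : ℝ) ≤ Real.log k / 5) {T : Digraph W}
    (hT : IsOrientedTree k T) {D : Digraph V} (hD : Loopless D) (hC : Conn D)
    (hκ : ∀ s x, k ≤ (nb D s x).card + m) {v : V} (hv : ∀ s, k ≤ (nb D s v).card) :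
    Contains D T := by
  classical
  by_contra hno
  obtain ⟨g, h0, E1, E2, K1, K2, n1, n2, N, hB, hA⟩ := hk0 k m hk hm hmk
  have hΔ := H.star H.hall V W D T k m hT hD hκ hm hA.st v hv hno
  have hΔ1 : 1 ≤ 2 * (m * m + m) + 2 * m := by omega
  rcases H.dich H.clo H.cnc W k m (3 * h0) (2 * (m * m + m) + 2 * m) T hT hΔ hm hA.hm hΔ1 hA.dich
    with ⟨r, R, Rm, π, h1, h2, h3, h4, h5, h6⟩ |
    ⟨r, R, A, C, L, sL, pl, h1, h2, h3, h4, h5, h6, h7, h8, h9, h10⟩
  · exact hno (caseB H hB hT hD hC hκ hv hΔ hΔ1 h1 h2 h3 h4 h5 h6)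
  · exact hno (caseA H hA hT hD hC hκ hv hΔ hΔ1 h1 h2 h3 h4 h5 h6 h7 h8 h9 h10)

/-- The theorem in terms of `nb`. -/
theorem main_nb (H : All) : ∃ k0 : ℕ, ∀ k m : ℕ, k0 ≤ k → 1 ≤ m → (m : ℝ) ≤ Real.log k / 5 →
    ∀ (V : Type) [Fintype V] [DecidableEq V] (W : Type) [Fintype W] [DecidableEq W]
    (D : Digraph V) (T : Digraph W), IsOrientedTree k T → Loopless D →
    (∀ s x, k ≤ (nb D s x).card + m) → ∀ v : V, (∀ s, k ≤ (nb D s v).card) →
    Contains D T := by
  obtain ⟨k0, hk0⟩ := H.num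
  refine ⟨k0, ?_⟩
  intro k m hk hm hmk V _ _ W _ _ D T hT hD hκ v hv
  exact H.conn k m W T hT
    (fun V _ _ D hD hC hκ v hv => main_conn H hk0 hk hm hmk hT hD hC hκ hv) V D hD hκ v hv

end Pool.Agent.Lib.MP_47458b_co.DU
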