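import Pool.Agent.Lib.MP_47458b_co.DU.Stm2

set_option autoImplicit false

/-!
[DU AV] If there are no `m + 1` disjoint edges of sign `s` in `B` then there are at most `2 m Δ`
edges of sign `s` in `B`. (helper78)
-/

namespace Pool.Agent.Lib.MP_47458b_co.DU

open Finset

theorem av_adj {W : Type} {T : Digraph W} {r : W} (R : Up.Rooted T r) {x : W} (hx : x ≠ r) :
    (gr T).Adj (R.par x) x ∧ (gr T).Adj x (R.par x) := by
  have h1 : (gr T).Adj (R.par x) x := by
    rw [gr, Digraph.toSimpleGraphInclusive, SimpleGraph.fromRel_adj]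
    refine ⟨?_, R.adj_par x hx⟩
    intro h
    have := R.dep_par x hx
    rw [h] at this
    exact lt_irrefl _ this
  exact ⟨h1, h1.symm⟩

theorem av_deg {W : Type} [Fintype W] [DecidableEq W] {T : Digraph W} {r : W}
    (R : Up.Rooted T r) (E : Finset W) (hE : ∀ x ∈ E, x ≠ r) (z : W) :
    (E.filter (fun x => x = z ∨ R.par x = z)).card ≤ (nbT T z).card := by
  classical
  apply card_le_card_of_injOn (fun x => if x = z then R.par z else x)
  · intro x hx
    rw [mem_coe, mem_filter] at hx
    rw [mem_coe]
    unfold nbT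
    rw [mem_filter]
    refine ⟨mem_univ _, ?_⟩
    by_cases h : x = z
    · simp only [h, if_true]
      have hz : z ≠ r := h ▸ hE x hx.1
      exact (av_adj R hz).2
    · simp only [h, if_false]
      have h2 : R.par x = z := hx.2.resolve_left h
      have h3 := (av_adj R (hE x hx.1)).1
      rw [h2] at h3
      exact h3
  · intro x hx y hy hxy
    rw [mem_coe, mem_filter] at hx hy
    have key : ∀ a ∈ E, a ≠ z → R.par a = z → z ≠ r → R.par z = a → False := by
      intro a ha _ h1 h2 h3
      have h4 := R.dep_par a (hE a ha)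
      have h5 := R.dep_par z h2
      rw [h1] at h4
      rw [h3] at h5
      omega
    by_cases h1 : x = z <;> by_cases h2 : y = z
    · rw [h1, h2]
    · simp only [h1, h2, if_true, if_false] at hxy
      exact (key y hy.1 h2 (hy.2.resolve_left h2) (h1 ▸ hE x hx.1) hxy).elim
    · simp only [h1, h2, if_true, if_false] at hxy
      exact (key x hx.1 h1 (hx.2.resolve_left h1) (h2 ▸ hE y hy.1) hxy.symm).elim
    · simp only [h1, h2, if_false] at hxy
      exact hxy

theorem p_av : S_av := by
  classical
  intro W _ _ k T _ r R B Δ m s hΔ hB hAv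
  set E := B.filter (fun x => R.par x ∈ B ∧ sg T (R.par x) x = s) with hEdef
  have hEr : ∀ x ∈ E, x ≠ r := by
    intro x hx h
    rw [hEdef, mem_filter] at hx
    exact hB.2.1 (h ▸ hx.1)
  let good : Finset W → Prop := fun M =>
    ∀ x ∈ M, ∀ y ∈ M, x ≠ y → R.par x ≠ R.par y ∧ R.par x ≠ y
  obtain ⟨M, hM, hmax⟩ := exists_max_image (E.powerset.filter good) card
    ⟨∅, by
      rw [mem_filter]
      refine ⟨empty_mem_powerset _, ?_⟩
      intro x hx
      exact absurd hx (notMem_empty x)⟩
  rw [mem_filter, mem_powerset] at hM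
  obtain ⟨hME, hgood⟩ := hM
  have hcardM : M.card ≤ m := by
    by_contra hcon
    push Not at hcon
    obtain ⟨M', hM', hc⟩ := exists_subset_card_eq (Nat.succ_le_of_lt hcon)
    apply hAv
    refine ⟨M', ?_, hc, ?_, ?_⟩
    · intro x hx
      have := hME (hM' hx)
      rw [hEdef, mem_filter] at this
      exact this.1
    · intro x hx
      have := hME (hM' hx)
      rw [hEdef, mem_filter] at this
      exact this.2
    · intro x hx y hy hxy
      exact hgood x (hM' hx) y (hM' hy) hxy
  have hcov : E ⊆ M.biUnion (fun y => (E.filter (fun x => x = y ∨ R.par x = y)) ∪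
      (E.filter (fun x => x = R.par y ∨ R.par x = R.par y))) := by
    intro x hx
    by_contra hcon
    have hno : ∀ y ∈ M, ¬ (x = y ∨ R.par x = y) ∧ ¬ (x = R.par y ∨ R.par x = R.par y) := by
      intro y hy
      constructor
      · intro h
        apply hcon
        rw [mem_biUnion]
        exact ⟨y, hy, mem_union_left _ (mem_filter.2 ⟨hx, h⟩)⟩
      · intro h
        apply hcon
        rw [mem_biUnion]
        exact ⟨y, hy, mem_union_right _ (mem_filter.2 ⟨hx, h⟩)⟩
    have hxM : x ∉ M := fun h => (hno x h).1 (Or.inl rfl)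
    have hins : insert x M ∈ E.powerset.filter good := by
      rw [mem_filter, mem_powerset]
      refine ⟨insert_subset hx hME, ?_⟩
      intro a ha b hb hab
      rw [mem_insert] at ha hb
      rcases ha with rfl | ha <;> rcases hb with rfl | hb
      · exact absurd rfl hab
      · have := hno b hb
        exact ⟨fun h => this.2 (Or.inr h), fun h => this.1 (Or.inr h)⟩
      · have := hno a ha
        exact ⟨fun h => this.2 (Or.inr h.symm), fun h => this.2 (Or.inl h.symm)⟩
      · exact hgood a ha b hb hab
    have h1 := hmax _ hins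
    rw [card_insert_of_notMem hxM] at h1
    omega
  calc E.card ≤ _ := card_le_card hcov
    _ ≤ ∑ y ∈ M, ((E.filter (fun x => x = y ∨ R.par x = y)) ∪
      (E.filter (fun x => x = R.par y ∨ R.par x = R.par y))).card := card_biUnion_le
    _ ≤ ∑ _y ∈ M, 2 * Δ := by
        apply sum_le_sum
        intro y _
        refine (card_union_le _ _).trans ?_
        have h1 := (av_deg R E hEr y).trans (hΔ y)
        have h2 := (av_deg R E hEr (R.par y)).trans (hΔ (R.par y))
        omega
    _ = M.card * (2 * Δ) := by rw [sum_const, smul_eq_mul]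
    _ ≤ m * (2 * Δ) := Nat.mul_le_mul_right _ hcardM
    _ = 2 * m * Δ := by ring

end Pool.Agent.Lib.MP_47458b_co.DU
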