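import Pool.Agent.Lib.MP_47458b_co.DU.Stm2

/-! [DU CONN] reduction to connected hosts. -/

namespace Pool.Agent.Lib.MP_47458b_co.DU

open Finset

/-- the digraph induced on a subtype -/
def conn_sub {V : Type} (D : Digraph V) (P : V → Prop) : Digraph {x : V // P x} :=
  ⟨fun a b => D.Adj a.1 b.1⟩

theorem conn_adj {V : Type} (D : Digraph V) (P : V → Prop) (a b : {x : V // P x}) :
    (conn_sub D P).Adj a b ↔ D.Adj a.1 b.1 := Iff.rfl

theorem conn_mem_nb {V : Type} [Fintype V] [DecidableEq V] (D : Digraph V) (s : Bool) (x y : V) :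
    y ∈ nb D s x ↔ (if s then D.Adj x y else D.Adj y x) := by
  simp [nb]

theorem p_conn : S_conn := by
  intro k m W _ _ T _hT hmain V _ _ D hD hκ v hv
  classical
  set Rel : V → V → Prop := fun a b => D.Adj a b ∨ D.Adj b a with hRel
  have hsymm : ∀ a b, Relation.ReflTransGen Rel a b → Relation.ReflTransGen Rel b a := by
    intro a b hab
    induction hab with
    | refl => exact Relation.ReflTransGen.refl
    | tail _ h2 ih => exact Relation.ReflTransGen.head h2.symm ih
  set P : V → Prop := fun x => Relation.ReflTransGen Rel v x with hP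
  have hPv : P v := Relation.ReflTransGen.refl
  have hstep : ∀ x y s, P x → y ∈ nb D s x → P y := by
    intro x y s hx hy
    rw [conn_mem_nb] at hy
    refine Relation.ReflTransGen.tail hx ?_
    cases s
    · exact Or.inr (by simpa using hy)
    · exact Or.inl (by simpa using hy)
  have hcard : ∀ (s : Bool) (x : {x : V // P x}),
      (nb (conn_sub D P) s x).card = (nb D s x.1).card := by
    intro s x
    rw [← Finset.card_map (Function.Embedding.subtype P)]
    congr 1
    ext y
    simp only [Finset.mem_map, Function.Embedding.coe_subtype]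
    constructor
    · rintro ⟨z, hz, rfl⟩
      rw [conn_mem_nb] at hz ⊢
      exact hz
    · intro hy
      refine ⟨⟨y, hstep x.1 y s x.2 hy⟩, ?_, rfl⟩
      rw [conn_mem_nb] at hy ⊢
      exact hy
  have hconn : Conn (conn_sub D P) := by
    intro S hS hcl
    obtain ⟨x0, hx0⟩ := hS
    have hreach : ∀ y, Relation.ReflTransGen Rel x0.1 y → ∃ hy : P y, (⟨y, hy⟩ : {x : V // P x}) ∈ S := by
      intro y hy
      induction hy with
      | refl => exact ⟨x0.2, hx0⟩
      | @tail b c _ hbc ih =>
        obtain ⟨hb, hbS⟩ := ih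
        have hc : P c := Relation.ReflTransGen.tail hb hbc
        refine ⟨hc, ?_⟩
        rcases hbc with h1 | h1
        · exact hcl _ hbS true _ ((conn_mem_nb _ _ _ _).mpr h1)
        · exact hcl _ hbS false _ ((conn_mem_nb _ _ _ _).mpr (by simp only [Bool.false_eq_true, if_false]; exact h1))
    ext y
    simp only [Finset.mem_univ, iff_true]
    obtain ⟨hy, hyS⟩ := hreach y.1 ((hsymm _ _ x0.2).trans y.2)
    exact hyS
  have hloop : Loopless (conn_sub D P) := fun x => hD x.1
  obtain ⟨φ, hinj, hhom⟩ := hmain {x : V // P x} (conn_sub D P) hloop hconn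
    (fun s x => by rw [hcard]; exact hκ s x.1) ⟨v, hPv⟩ (fun s => by rw [hcard]; exact hv s)
  exact ⟨fun w => (φ w).1, fun a b hab => hinj (Subtype.ext hab), fun a b hab => hhom a b hab⟩

end Pool.Agent.Lib.MP_47458b_co.DU
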