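import Pool.Agent.Lib.MP_47458b_co.DU.Stm

/-!
[DU NCL] Section 8, nearly complete hosts.
-/

namespace Pool.Agent.Lib.MP_47458b_co.DU

open Finset

variable {V W : Type} [Fintype V] [DecidableEq V] [Fintype W] [DecidableEq W]

omit [Fintype W] [DecidableEq W] in
theorem ncl_adj {T : Digraph W} {D : Digraph V} (hT : IsOrientedGraph T) {x t : W} {y z : V}
    (hz : z ∈ nb D (sg T x t) y) : (T.Adj x t → D.Adj y z) ∧ (T.Adj t x → D.Adj z y) := by
  constructor
  · intro h
    have hs : sg T x t = true := by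
      simp only [sg, decide_eq_true_eq]
      exact h
    rw [hs, mem_nb_true] at hz
    exact hz
  · intro h
    have hs : sg T x t = false := by
      simp only [sg, decide_eq_false_iff_not]
      exact fun h' => hT.2 _ _ h' h
    rw [hs, mem_nb_false] at hz
    exact hz

omit [Fintype W] [DecidableEq W] in
theorem ncl_gr {T : Digraph W} (hT : IsOrientedGraph T) {a b : W} :
    (gr T).Adj a b ↔ T.Adj a b ∨ T.Adj b a := by
  simp only [gr, Digraph.toSimpleGraphInclusive, SimpleGraph.fromRel_adj]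
  constructor
  · exact fun h => h.2
  · intro h
    refine ⟨?_, h⟩
    rintro rfl
    rcases h with h | h <;> exact hT.1 _ h

/-- An embedding of `U` in `Q` which fits the images of `SW`. -/
structure NclGood (T : Digraph W) (D : Digraph V) (Q : Finset V) (SW : Finset W) (om : W → V)
    (U : Finset W) (φ : W → V) : Prop where
  inj : ∀ a ∈ U, ∀ b ∈ U, φ a = φ b → a = b
  mem : ∀ a ∈ U, φ a ∈ Q
  hom : ∀ a ∈ U, ∀ b ∈ U, T.Adj a b → D.Adj (φ a) (φ b)
  sw : ∀ a ∈ U, ∀ c ∈ SW, (gr T).Adj c a → φ a ∈ nb D (sg T c a) (om c)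

omit [Fintype W] in
theorem ncl_greedy {T : Digraph W} {D : Digraph V} {κ : ℕ} (hT : IsOrientedGraph T)
    {Q : Finset V} {SW I : Finset W} {om : W → V}
    (hQ : ∀ x ∈ Q, ∀ s, (Q \ nb D s x).card ≤ κ)
    (hom : ∀ a ∈ SW, ∀ b, (gr T).Adj a b → (Q \ nb D (sg T a b) (om a)).card ≤ κ)
    (hsep : Sep T (SW ∪ I)) {r : W} (R : Up.Rooted T r) {q : ℕ} (hq : q + 2 * κ ≤ Q.card) :
    ∀ (n : ℕ) (U : Finset W), U.card = n → n ≤ q →
      ∃ φ : W → V, NclGood T D Q SW om U φ := by
  intro n
  induction n with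
  | zero =>
    intro U hU _
    rw [card_eq_zero] at hU
    subst hU
    exact ⟨om, ⟨by simp, by simp, by simp, by simp⟩⟩
  | succ n ih =>
    intro U hU hn
    obtain ⟨t, ht, hmax⟩ := Finset.exists_max_image U R.dep (card_pos.1 (by omega))
    have hU' : (U.erase t).card = n := by
      rw [card_erase_of_mem ht]
      omega
    obtain ⟨φ, hφ⟩ := ih (U.erase t) hU' (by omega)
    -- the bad sets
    obtain ⟨B1, hB1, hB1'⟩ : ∃ B1 : Finset V, B1.card ≤ κ ∧
        (R.par t ∈ U.erase t → Q \ nb D (sg T (R.par t) t) (φ (R.par t)) ⊆ B1) := by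
      by_cases h : R.par t ∈ U.erase t
      · exact ⟨_, hQ _ (hφ.mem _ h) _, fun _ => subset_rfl⟩
      · exact ⟨∅, by simp, fun h' => absurd h' h⟩
    obtain ⟨B2, hB2, hB2'⟩ : ∃ B2 : Finset V, B2.card ≤ κ ∧
        (∀ c ∈ SW, (gr T).Adj c t → Q \ nb D (sg T c t) (om c) ⊆ B2) := by
      by_cases h : ∃ c ∈ SW, (gr T).Adj c t
      · obtain ⟨c, hc, hct⟩ := h
        refine ⟨_, hom c hc t hct, ?_⟩
        intro c' hc' hct'
        have : c' = c := by
          by_contra hne
          exact (hsep c' (mem_union_left _ hc') c (mem_union_left _ hc) hne).2 t hct' hct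
        rw [this]
      · exact ⟨∅, by simp, fun c hc hct => absurd ⟨c, hc, hct⟩ h⟩
    obtain ⟨z, hzQ, hz⟩ : ∃ z ∈ Q, z ∉ B1 ∪ B2 ∪ (U.erase t).image φ := by
      by_contra hcon
      push Not at hcon
      have h1 : Q ⊆ B1 ∪ B2 ∪ (U.erase t).image φ := fun z hz => hcon z hz
      have h2 := card_le_card h1
      have h3 := card_union_le (B1 ∪ B2) ((U.erase t).image φ)
      have h4 := card_union_le B1 B2
      have h5 : ((U.erase t).image φ).card ≤ (U.erase t).card := card_image_le
      omega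
    rw [mem_union, mem_union, not_or, not_or] at hz
    obtain ⟨⟨hz1, hz2⟩, hz3⟩ := hz
    have hval : ∀ a, a ≠ t → Function.update φ t z a = φ a := fun a ha =>
      Function.update_of_ne ha _ _
    have hvt : Function.update φ t z t = z := Function.update_self _ _ _
    have hzne : ∀ a ∈ U, a ≠ t → φ a ≠ z := by
      intro a ha hat h
      exact hz3 (mem_image.2 ⟨a, mem_erase.2 ⟨hat, ha⟩, h⟩)
    -- the edge to the parent
    have hedge : ∀ b ∈ U, b ≠ t → (T.Adj t b ∨ T.Adj b t) → z ∈ nb D (sg T b t) (φ b) := by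
      intro b hb hbt h
      have hpar : R.par t = b := by
        rcases h with h | h
        · rcases R.edge _ _ h with ⟨-, h'⟩ | ⟨hbr, h'⟩
          · exact h'
          · have h1 := R.dep_par b hbr
            have h2 := hmax b hb
            rw [h'] at h1
            omega
        · rcases R.edge _ _ h with ⟨hbr, h'⟩ | ⟨-, h'⟩
          · have h1 := R.dep_par b hbr
            have h2 := hmax b hb
            rw [h'] at h1
            omega
          · exact h'
      have hb' : b ∈ U.erase t := mem_erase.2 ⟨hbt, hb⟩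
      by_contra hcon
      apply hz1
      have h1 := hB1' (by rw [hpar]; exact hb')
      rw [hpar] at h1
      exact h1 (mem_sdiff.2 ⟨hzQ, hcon⟩)
    refine ⟨Function.update φ t z, ⟨?_, ?_, ?_, ?_⟩⟩
    · intro a ha b hb hab
      by_cases hat : a = t <;> by_cases hbt : b = t
      · rw [hat, hbt]
      · rw [hat, hvt, hval b hbt] at hab
        exact absurd hab.symm (hzne b hb hbt)
      · rw [hbt, hvt, hval a hat] at hab
        exact absurd hab (hzne a ha hat)
      · rw [hval a hat, hval b hbt] at hab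
        exact hφ.inj a (mem_erase.2 ⟨hat, ha⟩) b (mem_erase.2 ⟨hbt, hb⟩) hab
    · intro a ha
      by_cases hat : a = t
      · rw [hat, hvt]
        exact hzQ
      · rw [hval a hat]
        exact hφ.mem a (mem_erase.2 ⟨hat, ha⟩)
    · intro a ha b hb hab
      by_cases hat : a = t <;> by_cases hbt : b = t
      · rw [hat, hbt] at hab
        exact absurd hab (hT.1 _)
      · rw [hat] at hab
        rw [hat, hvt, hval b hbt]
        exact (ncl_adj hT (hedge b hb hbt (Or.inl hab))).2 hab
      · rw [hbt] at hab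
        rw [hbt, hvt, hval a hat]
        exact (ncl_adj hT (hedge a ha hat (Or.inr hab))).1 hab
      · rw [hval a hat, hval b hbt]
        exact hφ.hom a (mem_erase.2 ⟨hat, ha⟩) b (mem_erase.2 ⟨hbt, hb⟩) hab
    · intro a ha c hc hca
      by_cases hat : a = t
      · rw [hat] at hca
        rw [hat, hvt]
        by_contra hcon
        exact hz2 (hB2' c hc hca (mem_sdiff.2 ⟨hzQ, hcon⟩))
      · rw [hval a hat]
        exact hφ.sw a (mem_erase.2 ⟨hat, ha⟩) c hc hca

/-- [DU NCL] -/
theorem p_ncl : S_ncl := by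
  intro V W _ _ _ _ D T k κ hT hD Q SW I om hQ homi homQ homn hdisj hsep hdeg hI hcard
  classical
  have hTo := hT.1
  have hWcard : Fintype.card W = k + 1 := by
    rw [← Nat.card_eq_fintype_card]
    exact hT.2.2
  -- a root
  obtain ⟨r⟩ : Nonempty W := by
    rw [← Fintype.card_pos_iff]
    omega
  obtain ⟨R⟩ := Up.exists_rooted hT r
  have hU : ((SW ∪ I)ᶜ : Finset W).card + SW.card + I.card = k + 1 := by
    rw [card_compl, hWcard, card_union_of_disjoint hdisj]
    have h1 : (SW ∪ I).card ≤ Fintype.card W := card_le_univ _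
    rw [card_union_of_disjoint hdisj, hWcard] at h1
    omega
  obtain ⟨φ, hφ⟩ := ncl_greedy hTo hQ homn hsep R (q := ((SW ∪ I)ᶜ : Finset W).card)
    (by omega) _ ((SW ∪ I)ᶜ) rfl le_rfl
  -- neighbours of `I`
  have hnbI : ∀ u ∈ I, ∀ x, (gr T).Adj x u → x ∈ ((SW ∪ I)ᶜ : Finset W) := by
    intro u hu x hxu
    rw [mem_compl]
    intro hx
    exact (hsep x hx u (mem_union_right _ hu) hxu.ne).1 hxu
  -- free vertices
  set Fr : Finset V := Q \ ((SW ∪ I)ᶜ : Finset W).image φ with hFr
  have hFrI : I.card ≤ Fr.card := by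
    have h1 := le_card_sdiff (((SW ∪ I)ᶜ : Finset W).image φ) Q
    have h2 : (((SW ∪ I)ᶜ : Finset W).image φ).card ≤ ((SW ∪ I)ᶜ : Finset W).card :=
      card_image_le
    rw [hFr]
    omega
  -- the candidates
  let N : W → Finset V := fun u => Fr.filter fun z => ∀ x ∈ nbT T u, z ∈ nb D (sg T x u) (φ x)
  have hmemN : ∀ u z, z ∈ N u ↔ z ∈ Fr ∧ ∀ x ∈ nbT T u, z ∈ nb D (sg T x u) (φ x) := by
    intro u z
    simp only [N, mem_filter]
  have hmemT : ∀ u x, x ∈ nbT T u ↔ (gr T).Adj u x := by
    intro u x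
    simp only [nbT, mem_filter, mem_univ, true_and]
  -- a vertex of `I` misses few free vertices
  have hmiss1 : ∀ u ∈ I, Fr.card ≤ (N u).card + 2 * κ := by
    intro u hu
    have h1 : Fr \ N u ⊆ (nbT T u).biUnion fun x => Q \ nb D (sg T x u) (φ x) := by
      intro z hz
      rw [mem_sdiff, hmemN, not_and] at hz
      have h2 := hz.2 hz.1
      push Not at h2
      obtain ⟨x, hx, hzx⟩ := h2
      rw [mem_biUnion]
      exact ⟨x, hx, mem_sdiff.2 ⟨(mem_sdiff.1 hz.1).1, hzx⟩⟩
    have h2 := card_le_card h1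
    have h3 : ((nbT T u).biUnion fun x => Q \ nb D (sg T x u) (φ x)).card ≤
        (nbT T u).card * κ := by
      apply card_biUnion_le_card_mul
      intro x hx
      refine hQ _ (hφ.mem x (hnbI u hu x ?_)) _
      exact ((hmemT u x).1 hx).symm
    have h4 : (nbT T u).card * κ ≤ 2 * κ := Nat.mul_le_mul_right _ (hdeg u hu)
    have h5 : (Fr \ N u).card + (N u).card = Fr.card :=
      card_sdiff_add_card_eq_card (filter_subset _ _)
    omega
  -- a free vertex misses few vertices of `I`
  have hmiss2 : ∀ z ∈ Fr, (I.filter fun u => z ∉ N u).card ≤ 2 * κ := by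
    intro z hz
    have hzQ : z ∈ Q := (mem_sdiff.1 hz).1
    have hex : ∀ u ∈ I.filter (fun u => z ∉ N u), ∃ x, (gr T).Adj x u ∧
        z ∉ nb D (sg T x u) (φ x) := by
      intro u hu
      rw [mem_filter, hmemN, not_and] at hu
      have h2 := hu.2 hz
      push Not at h2
      obtain ⟨x, hx, hzx⟩ := h2
      exact ⟨x, ((hmemT u x).1 hx).symm, hzx⟩
    choose! f hf1 hf2 using hex
    have h1 : ((I.filter fun u => z ∉ N u).image fun u => φ (f u)) ⊆
        (Q \ nb D true z) ∪ (Q \ nb D false z) := by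
      intro w hw
      rw [mem_image] at hw
      obtain ⟨u, hu, rfl⟩ := hw
      have huI : u ∈ I := (mem_filter.1 hu).1
      have hfQ : φ (f u) ∈ Q := hφ.mem _ (hnbI u huI _ (hf1 u hu))
      have h3 := hf2 u hu
      rw [mem_union, mem_sdiff, mem_sdiff]
      cases hs : sg T (f u) u with
      | true =>
        right
        refine ⟨hfQ, ?_⟩
        rw [hs, mem_nb_true] at h3
        rw [mem_nb_false]
        exact h3
      | false =>
        left
        refine ⟨hfQ, ?_⟩
        rw [hs, mem_nb_false] at h3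
        rw [mem_nb_true]
        exact h3
    have h2 : ((I.filter fun u => z ∉ N u).image fun u => φ (f u)).card =
        (I.filter fun u => z ∉ N u).card := by
      apply card_image_of_injOn
      intro u hu u' hu' huu'
      rw [mem_coe] at hu hu'
      have huI : u ∈ I := (mem_filter.1 hu).1
      have huI' : u' ∈ I := (mem_filter.1 hu').1
      have h3 : f u = f u' := hφ.inj _ (hnbI u huI _ (hf1 u hu)) _ (hnbI u' huI' _ (hf1 u' hu'))
        huu'
      by_contra hne
      refine (hsep u (mem_union_right _ huI) u' (mem_union_right _ huI') hne).2 (f u)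
        (hf1 u hu).symm ?_
      rw [h3]
      exact (hf1 u' hu').symm
    have h3 := card_le_card h1
    have h4 := card_union_le (Q \ nb D true z) (Q \ nb D false z)
    have h5 := hQ z hzQ true
    have h6 := hQ z hzQ false
    omega
  -- Hall
  have hall : ∀ s : Finset {u // u ∈ I}, s.card ≤ (s.biUnion fun u => N u.1).card := by
    intro s
    have hsI : s.card ≤ I.card := by
      have h1 := card_le_univ s
      rwa [Fintype.card_coe] at h1
    by_cases hs : s.card ≤ 2 * κ
    · rcases s.eq_empty_or_nonempty with h0 | ⟨u, hu⟩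
      · rw [h0]
        simp
      · have h1 : N u.1 ⊆ s.biUnion fun u => N u.1 :=
          subset_biUnion_of_mem (fun u : {u // u ∈ I} => N u.1) hu
        have h2 := card_le_card h1
        have h3 := hmiss1 u.1 u.2
        omega
    · have h1 : Fr ⊆ s.biUnion fun u => N u.1 := by
        intro z hz
        by_contra hcon
        rw [mem_biUnion] at hcon
        push Not at hcon
        have h2 := hmiss2 z hz
        have h3 : s.image Subtype.val ⊆ I.filter fun u => z ∉ N u := by
          intro u hu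
          rw [mem_image] at hu
          obtain ⟨u', hu', rfl⟩ := hu
          rw [mem_filter]
          exact ⟨u'.2, hcon u' hu'⟩
        have h4 := card_le_card h3
        rw [card_image_of_injective _ Subtype.val_injective] at h4
        omega
      have h2 := card_le_card h1
      omega
  obtain ⟨f, hf, hfN⟩ := (Finset.all_card_le_biUnion_card_iff_exists_injective
    (fun u : {u // u ∈ I} => N u.1)).1 hall
  -- the embedding
  let ψ : W → V := fun x => if x ∈ SW then om x else if h : x ∈ I then f ⟨x, h⟩ else φ x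
  have hψ1 : ∀ x ∈ SW, ψ x = om x := by
    intro x hx
    simp only [ψ, if_pos hx]
  have hψ2 : ∀ (x : W) (h : x ∈ I), ψ x = f ⟨x, h⟩ := by
    intro x h
    have hx : x ∉ SW := fun h' => (Finset.disjoint_left.1 hdisj) h' h
    simp only [ψ, if_neg hx, dif_pos h]
  have hψ3 : ∀ x ∈ ((SW ∪ I)ᶜ : Finset W), ψ x = φ x := by
    intro x hx
    rw [mem_compl, mem_union, not_or] at hx
    simp only [ψ, if_neg hx.1, dif_neg hx.2]
  have hcases : ∀ x : W, x ∈ SW ∨ x ∈ I ∨ x ∈ ((SW ∪ I)ᶜ : Finset W) := by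
    intro x
    rw [mem_compl, mem_union]
    tauto
  have hfFr : ∀ (x : W) (h : x ∈ I), f ⟨x, h⟩ ∈ Fr := fun x h =>
    ((hmemN _ _).1 (hfN ⟨x, h⟩)).1
  have hfnb : ∀ (x : W) (h : x ∈ I) (y : W), (gr T).Adj y x →
      f ⟨x, h⟩ ∈ nb D (sg T y x) (φ y) := fun x h y hy =>
    ((hmemN _ _).1 (hfN ⟨x, h⟩)).2 y ((hmemT _ _).2 hy.symm)
  refine ⟨ψ, ?_, ?_⟩
  · intro a b hab
    rcases hcases a with ha | ha | ha <;> rcases hcases b with hb | hb | hb
    · rw [hψ1 a ha, hψ1 b hb] at hab
      exact homi a ha b hb hab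
    · rw [hψ1 a ha, hψ2 b hb] at hab
      exact absurd (hab ▸ (mem_sdiff.1 (hfFr b hb)).1) (homQ a ha)
    · rw [hψ1 a ha, hψ3 b hb] at hab
      exact absurd (hab ▸ hφ.mem b hb) (homQ a ha)
    · rw [hψ2 a ha, hψ1 b hb] at hab
      exact absurd (hab ▸ (mem_sdiff.1 (hfFr a ha)).1) (homQ b hb)
    · rw [hψ2 a ha, hψ2 b hb] at hab
      have := hf hab
      exact congrArg Subtype.val this
    · rw [hψ2 a ha, hψ3 b hb] at hab
      exact absurd (mem_image.2 ⟨b, hb, hab.symm⟩) (mem_sdiff.1 (hfFr a ha)).2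
    · rw [hψ3 a ha, hψ1 b hb] at hab
      exact absurd (hab ▸ hφ.mem a ha) (homQ b hb)
    · rw [hψ3 a ha, hψ2 b hb] at hab
      exact absurd (mem_image.2 ⟨a, ha, hab⟩) (mem_sdiff.1 (hfFr b hb)).2
    · rw [hψ3 a ha, hψ3 b hb] at hab
      exact hφ.inj a ha b hb hab
  · intro a b hab
    have hne : a ≠ b := by
      rintro rfl
      exact hTo.1 _ hab
    have hG : (gr T).Adj a b := (ncl_gr hTo).2 (Or.inl hab)
    have hno : ¬ (a ∈ SW ∪ I ∧ b ∈ SW ∪ I) := fun h => (hsep a h.1 b h.2 hne).1 hG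
    rcases hcases a with ha | ha | ha <;> rcases hcases b with hb | hb | hb
    · exact absurd ⟨mem_union_left _ ha, mem_union_left _ hb⟩ hno
    · exact absurd ⟨mem_union_left _ ha, mem_union_right _ hb⟩ hno
    · rw [hψ1 a ha, hψ3 b hb]
      exact (ncl_adj hTo (hφ.sw b hb a ha hG)).1 hab
    · exact absurd ⟨mem_union_right _ ha, mem_union_left _ hb⟩ hno
    · exact absurd ⟨mem_union_right _ ha, mem_union_right _ hb⟩ hno
    · rw [hψ2 a ha, hψ3 b hb]
      exact (ncl_adj hTo (hfnb a ha b hG.symm)).2 hab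
    · rw [hψ3 a ha, hψ1 b hb]
      exact (ncl_adj hTo (hφ.sw a ha b hb hG.symm)).2 hab
    · rw [hψ3 a ha, hψ2 b hb]
      exact (ncl_adj hTo (hfnb b hb a hG)).1 hab
    · rw [hψ3 a ha, hψ3 b hb]
      exact hφ.hom a ha b hb hab

end Pool.Agent.Lib.MP_47458b_co.DU
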