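import Pool.Agent.Lib.MP_47458b_co.DU.Stm

/-!
Project DU, piece SL3: uniqueness of the cluster seen from `(b, F)`.
-/

namespace Pool.Agent.Lib.MP_47458b_co.DU

open Finset

theorem p_sl3 : S_sl3 := by
  intro hclo hgz hsl2 heq V W _ _ _ _ D T k m K g Sg r R A Nr P b F hB hPos hP y N N' Q Q' ψ ψ'
    hN hN' hS hS'
  by_contra hcon
  unfold Eqv at hcon
  push Not at hcon
  have hSees := hS
  have hSees' := hS'
  obtain ⟨hQF, hQb, hQe, hQy, -⟩ := hS
  obtain ⟨hQF', hQb', hQe', hQy', -⟩ := hS'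
  have hNr := hB.hNr
  have hnum := hB.hnum
  have hPN : P ⊆ Nr := fun x hx => hPos.near (mem_union_left _ hx)
  have hFN : F ⊆ Nr := fun x hx => hPos.near (mem_union_right _ hx)
  have hPc : P.card ≤ Nr.card := card_le_card hPN
  have hQc : Q.card ≤ Nr.card := card_le_card (hQF.trans hFN)
  have hQc' : Q'.card ≤ Nr.card := card_le_card (hQF'.trans hFN)
  have hT := hB.hT
  have hac : (gr T).IsAcyclic := hT.2.1.isAcyclic
  have hCn := (hclo W k T hT r R).1 P hPos.closed
  set B : Finset V := (N ∩ N') ∪ (Q.image ψ ∪ Q'.image ψ') with hBdef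
  have hBc : B.card ≤ (N ∩ N').card + (Q.card + Q'.card) := by
    refine (card_union_le _ _).trans (Nat.add_le_add_left ?_ _)
    exact (card_union_le _ _).trans (Nat.add_le_add card_image_le card_image_le)
  have hdeg : ∀ s x, P.card ≤ (nb D s x ∩ (univ \ B)).card := by
    intro s x
    have h1 : (nb D s x).card ≤ (nb D s x ∩ (univ \ B)).card + B.card := by
      have : nb D s x ⊆ (nb D s x ∩ (univ \ B)) ∪ B := by
        intro z hz
        by_cases hzB : z ∈ B
        · exact mem_union_right _ hzB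
        · exact mem_union_left _ (mem_inter.2 ⟨hz, mem_sdiff.2 ⟨mem_univ _, hzB⟩⟩)
      exact (card_le_card this).trans (card_union_le _ _)
    have h2 := hB.hκ s x
    omega
  obtain ⟨φ, hφ, hφb, hφr⟩ := hgz V W D T hT.1 hac {b} P (fun _ => y) (fun _ => univ \ B)
    (Cn.single b) hCn ⟨b, mem_singleton_self b⟩ (singleton_subset_iff.2 hPos.mem)
    (IsEmb.single hT.1.1 b y) (fun p _ t _ _ => hdeg _ _) (fun p _ t _ _ x _ => hdeg _ _)
  have hφy : φ b = y := hφb b (mem_singleton_self b)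
  have hout : ∀ x ∈ P, x ≠ b → φ x ∉ B := by
    intro x hx hxb
    have := hφr x (mem_sdiff.2 ⟨hx, fun h => hxb (mem_singleton.1 h)⟩)
    exact (mem_sdiff.1 this).2
  have hdis : Disjoint (P.image φ) (Q.image ψ) := by
    rw [disjoint_left]
    intro z hz hzQ
    obtain ⟨x, hx, rfl⟩ := mem_image.1 hz
    by_cases hxb : x = b
    · obtain ⟨q, hq, hqe⟩ := mem_image.1 hzQ
      rw [hxb, hφy, ← hQy] at hqe
      have := hQe.inj q (mem_insert_of_mem hq) b (mem_insert_self _ _) hqe
      exact hQb.1 (this ▸ hq)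
    · exact hout x hx hxb (mem_union_right _ (mem_union_left _ hzQ))
  have hdis' : Disjoint (P.image φ) (Q'.image ψ') := by
    rw [disjoint_left]
    intro z hz hzQ
    obtain ⟨x, hx, rfl⟩ := mem_image.1 hz
    by_cases hxb : x = b
    · obtain ⟨q, hq, hqe⟩ := mem_image.1 hzQ
      rw [hxb, hφy, ← hQy'] at hqe
      have := hQe'.inj q (mem_insert_of_mem hq) b (mem_insert_self _ _) hqe
      exact hQb'.1 (this ▸ hq)
    · exact hout x hx hxb (mem_union_right _ (mem_union_right _ hzQ))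
  have h1 := hsl2 heq V W D T k m K g Sg r R A Nr P b F hB hPos φ N Q ψ hφ hN
    (by rw [hφy]; exact hSees) hdis
  have h2 := hsl2 heq V W D T k m K g Sg r R A Nr P b F hB hPos φ N' Q' ψ' hφ hN'
    (by rw [hφy]; exact hSees') hdis'
  have h3 : (P.image φ).erase y ⊆ ((P.image φ) \ N) ∪ ((P.image φ) \ N') := by
    intro z hz
    obtain ⟨hzy, hz⟩ := mem_erase.1 hz
    obtain ⟨x, hx, rfl⟩ := mem_image.1 hz
    have hxb : x ≠ b := fun h => hzy (by rw [h, hφy])
    have hnB := hout x hx hxb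
    by_cases hzN : φ x ∈ N
    · refine mem_union_right _ (mem_sdiff.2 ⟨hz, fun hzN' => hnB ?_⟩)
      exact mem_union_left _ (mem_inter.2 ⟨hzN, hzN'⟩)
    · exact mem_union_left _ (mem_sdiff.2 ⟨hz, hzN⟩)
  have h4 := (card_le_card h3).trans (card_union_le _ _)
  have h5 : (P.image φ).card = P.card := hφ.card_image
  have h6 : y ∈ P.image φ := mem_image.2 ⟨b, hPos.mem, hφy⟩
  rw [card_erase_of_mem h6, h5] at h4
  omega

end Pool.Agent.Lib.MP_47458b_co.DU
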