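import Pool.Agent.Lib.MP_47458b_co.DU.Defs

/-!
Statements of project DU (digraph upper bound), part 1: sections 0 - 8 of `MP_47458b_DU.md`.
Everything is independent: dependencies are hypotheses (`S_gz` etc.).
-/

namespace Pool.Agent.Lib.MP_47458b_co.DU

open Finset

/-- [DU CLO] A set closed under parents is connected; chains. (1) `R.Closed S → Cn (gr T) S`
(walk up to the root: induction on `R.dep`). (2) the set of ancestors: for `F` below `b` and
`t ∈ F` there is `Q ⊆ F` with `t ∈ Q`, `Below R Q b`, all elements of `Q` different from `t` have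
smaller depth than `t` and are ancestors of `t` (take `{x ∈ F : Desc R x t}`). (3) subsets below
`b` of every smaller size (remove an element of largest depth). (4) descendants are deeper. -/
def S_clo : Prop := ∀ (W : Type) [Fintype W] [DecidableEq W] (k : ℕ) (T : Digraph W),
  IsOrientedTree k T → ∀ (r : W) (R : Up.Rooted T r),
  (∀ S : Finset W, R.Closed S → Cn (gr T) S) ∧
  (∀ (F : Finset W) (b t : W), Below R F b → t ∈ F →
    ∃ Q ⊆ F, t ∈ Q ∧ Below R Q b ∧ (∀ x ∈ Q, Desc R x t) ∧ (∀ x ∈ Q, x ≠ t → R.dep x < R.dep t)) ∧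
  (∀ (F : Finset W) (b : W) (n : ℕ), Below R F b → n ≤ F.card →
    ∃ E ⊆ F, E.card = n ∧ Below R E b) ∧
  (∀ x y : W, Desc R x y → x = y ∨ R.dep x < R.dep y)

/-- [DU GZ] Greedy extension with prescribed regions. Copy of `IsEmb.greedy`
(`Upper/Emb.lean`): `S'.boundary` gives `x ∈ S`, `t ∈ S' \ S` adjacent; the set
`nb D (sg T x t) (φ x) ∩ reg t` has at least `S'.card` elements and the image has fewer; extend by
`IsEmb.extend`; the hypotheses survive for `insert t S` (the image of `t` is in `reg t`). -/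
def S_gz : Prop := ∀ (V W : Type) [Fintype V] [DecidableEq V] [Fintype W] [DecidableEq W]
  (D : Digraph V) (T : Digraph W), IsOrientedGraph T → (gr T).IsAcyclic →
  ∀ (S S' : Finset W) (φ : W → V) (reg : W → Finset V),
  Cn (gr T) S → Cn (gr T) S' → S.Nonempty → S ⊆ S' → IsEmb T D S φ →
  (∀ p ∈ S, ∀ t ∈ S' \ S, (gr T).Adj p t → S'.card ≤ (nb D (sg T p t) (φ p) ∩ reg t).card) →
  (∀ p ∈ S' \ S, ∀ t ∈ S' \ S, (gr T).Adj p t → ∀ x ∈ reg p,
    S'.card ≤ (nb D (sg T p t) x ∩ reg t).card) →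
  ∃ ψ : W → V, IsEmb T D S' ψ ∧ (∀ x ∈ S, ψ x = φ x) ∧ ∀ t ∈ S' \ S, ψ t ∈ reg t

/-- [DU HALL] Section 1, the Hall lemma with the robust set `J = Jset D m s L (φ ∘ pl)`. If `T`
is not in `D` then `k - m ≤ |J| ≤ k` and the image of every embedding of `T - L` has at most
`k - |J|` vertices outside `J`. (`Finset.all_card_le_biUnion_card_iff_exists_injective` as in
`violator` of `Upper/Leaves.lean`.) -/
def S_hall : Prop := ∀ (V W : Type) [Fintype V] [DecidableEq V] [Fintype W] [DecidableEq W]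
  (D : Digraph V) (T : Digraph W) (k m : ℕ), IsOrientedTree k T → Loopless D →
  (∀ s x, k ≤ (nb D s x).card + m) → ¬ Contains D T → m ≤ k → 1 ≤ m →
  ∀ (s : Bool) (L : Finset W) (pl : W → W), Leafs T s L pl → m * m + m ≤ L.card → L.card ≤ k →
  ∀ φ : W → V, IsEmb T D Lᶜ φ →
    k ≤ (Jset D m s L (fun l => φ (pl l))).card + m ∧
    (Jset D m s L (fun l => φ (pl l))).card ≤ k ∧
    ((Lᶜ.image φ) \ Jset D m s L (fun l => φ (pl l))).card +
      (Jset D m s L (fun l => φ (pl l))).card ≤ k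

/-- [DU STAR] Section 2: a vertex of degree at least `2 (m² + m) + 2 m` goes on `v`. -/
def S_star : Prop := S_hall → ∀ (V W : Type) [Fintype V] [DecidableEq V] [Fintype W]
  [DecidableEq W]
  (D : Digraph V) (T : Digraph W) (k m : ℕ), IsOrientedTree k T → Loopless D →
  (∀ s x, k ≤ (nb D s x).card + m) → 1 ≤ m → 10 * (m * m + m) ≤ k →
  ∀ v : V, (∀ s, k ≤ (nb D s v).card) → ¬ Contains D T → DegLe T (2 * (m * m + m) + 2 * m)

/-- [DU EQ] (3.1): equivalent clusters differ in at most `m + 2K` elements, `Eqv` is symmetric and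
transitive on clusters, and reflexive. -/
def S_eq : Prop := ∀ (V : Type) [Fintype V] [DecidableEq V] (D : Digraph V) (k m K : ℕ)
  (Sg : Bool → Prop), (∀ s x, k ≤ (nb D s x).card + m) → (∃ s, Sg s) →
  1000 * (m + 30 * K + 1) ≤ k →
  (∀ N N' : Finset V, Clus D k m K Sg N → Clus D k m K Sg N' → Eqv k N N' →
    (N \ N').card ≤ m + 2 * K) ∧
  (∀ N : Finset V, Clus D k m K Sg N → Eqv k N N) ∧
  (∀ N N' : Finset V, Eqv k N N' → Eqv k N' N) ∧
  (∀ N N' N'' : Finset V, Clus D k m K Sg N → Clus D k m K Sg N' → Clus D k m K Sg N'' →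
    Eqv k N N' → Eqv k N' N'' → Eqv k N N'')

/-- [DU SL0] Section 4, the proof of (SL1). `Trap` with `Z = univ`, `S = P`, `S' = P ∪ F'`; the
chain `Q` from `b` to `t` (`S_clo` part 2 for `F'`); `t` is moved to an element of
`nb (..) (ψ (par t)) ∩ core N` outside the image of `S'` (there is one: at least `k - m` neighbours,
at most `k / 100` outside `N`, `k / 100` in `N` outside the core, `k / 200` used). -/
def S_sl0 : Prop := S_clo → ∀ (V W : Type) [Fintype V] [DecidableEq V] [Fintype W]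
  [DecidableEq W]
  (D : Digraph V) (T : Digraph W) (k m K g : ℕ) (Sg : Bool → Prop) (r : W)
  (R : Up.Rooted T r) (A Nr P : Finset W) (b : W) (F : Finset W),
  Base T D k m K g Sg R A Nr → Pos T Sg R A Nr P b F →
  ∀ F' ⊆ F, Below R F' b → g ≤ F'.card → ∀ φ : W → V, IsEmb T D P φ →
  ∃ (N : Finset V) (Q : Finset W) (ψ : W → V) (t : W), Clus D k m K Sg N ∧ Q ⊆ F' ∧
    Below R Q b ∧ t ∈ Q ∧ (∀ x ∈ Q, Desc R x t) ∧ (∀ x ∈ Q, x ≠ t → R.dep x < R.dep t) ∧
    IsEmb T D (insert b Q) ψ ∧ ψ b = φ b ∧ ψ t ∈ core D K Sg N ∧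
    Disjoint (P.image φ) (Q.image ψ) ∧ ((P.image φ) \ N).card ≤ m

/-- [DU SL1] Section 4 (SL1), from `S_sl0` (the set `E` of `Room F t g` is disjoint from `Q` by
the depths). -/
def S_sl1 : Prop := S_clo → S_sl0 → ∀ (V W : Type) [Fintype V] [DecidableEq V] [Fintype W]
  [DecidableEq W]
  (D : Digraph V) (T : Digraph W) (k m K g : ℕ) (Sg : Bool → Prop) (r : W)
  (R : Up.Rooted T r) (A Nr P : Finset W) (b : W) (F : Finset W),
  Base T D k m K g Sg R A Nr → Pos T Sg R A Nr P b F → Rich R F b g →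
  ∀ φ : W → V, IsEmb T D P φ →
  ∃ (N : Finset V) (Q : Finset W) (ψ : W → V), Clus D k m K Sg N ∧
    Sees T D K g Sg R F b (φ b) N Q ψ ∧ Disjoint (P.image φ) (Q.image ψ) ∧
    ((P.image φ) \ N).card ≤ m

/-- [DU SL2] Section 4 (SL2). Glue `φ` on `P` and `ψ` on `Q`; `Trap` with `Z = core N`,
`S = P ∪ Q`, `S' = S ∪ E`. -/
def S_sl2 : Prop := S_eq → ∀ (V W : Type) [Fintype V] [DecidableEq V] [Fintype W]
  [DecidableEq W]
  (D : Digraph V) (T : Digraph W) (k m K g : ℕ) (Sg : Bool → Prop) (r : W)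
  (R : Up.Rooted T r) (A Nr P : Finset W) (b : W) (F : Finset W),
  Base T D k m K g Sg R A Nr → Pos T Sg R A Nr P b F →
  ∀ (φ : W → V) (N : Finset V) (Q : Finset W) (ψ : W → V), IsEmb T D P φ →
    Clus D k m K Sg N → Sees T D K g Sg R F b (φ b) N Q ψ →
    Disjoint (P.image φ) (Q.image ψ) → ((P.image φ) \ N).card ≤ 2 * m + 2 * K

/-- [DU SL3] Section 4 (SL3), uniqueness of the cluster seen from `(b, F)`. -/
def S_sl3 : Prop := S_clo → S_gz → S_sl2 → S_eq → ∀ (V W : Type) [Fintype V] [DecidableEq V]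
  [Fintype W] [DecidableEq W]
  (D : Digraph V) (T : Digraph W) (k m K g : ℕ) (Sg : Bool → Prop) (r : W)
  (R : Up.Rooted T r) (A Nr P : Finset W) (b : W) (F : Finset W),
  Base T D k m K g Sg R A Nr → Pos T Sg R A Nr P b F → 4 * m + 4 * K + 4 ≤ P.card →
  ∀ (y : V) (N N' : Finset V) (Q Q' : Finset W) (ψ ψ' : W → V),
    Clus D k m K Sg N → Clus D k m K Sg N' →
    Sees T D K g Sg R F b y N Q ψ → Sees T D K g Sg R F b y N' Q' ψ' → Eqv k N N'

/-- [DU SL4] Section 4 (SL4): prepend `b ↦ y`. -/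
def S_sl4 : Prop := ∀ (V W : Type) [Fintype V] [DecidableEq V] [Fintype W] [DecidableEq W]
  (D : Digraph V) (T : Digraph W) (k m K g : ℕ) (Sg : Bool → Prop) (r : W)
  (R : Up.Rooted T r) (F F2 : Finset W) (b f : W), IsOrientedTree k T → Below R F b →
  f ∈ F → R.par f = b → F2 ⊆ F → Below R F2 f →
  ∀ (y z : V) (N : Finset V) (Q : Finset W) (ψ : W → V), z ∈ nb D (sg T b f) y → z ≠ y →
    Sees T D K g Sg R F2 f z N Q ψ → (∀ x ∈ Q, ψ x ≠ y) →
    ∃ (Q' : Finset W) (ψ' : W → V), Sees T D K g Sg R F b y N Q' ψ' ∧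
      Q'.image ψ' = insert z (Q.image ψ)

/-- [DU OUT] Counting: few vertices outside a cluster are in `PP`. If `-s` is available then
`|PP s J \ J| ≤ 10 K`. -/
def S_out : Prop := ∀ (V : Type) [Fintype V] [DecidableEq V] (D : Digraph V) (k m K : ℕ)
  (Sg : Bool → Prop) (s : Bool) (J : Finset V), 1 ≤ k → Sg (!s) → Clus D k m K Sg J →
  (PP D k K Sg s J \ J).card ≤ 10 * K

/-- [DU S2] Section 5. The directed path `a = par b`, `b`, `f`. Details (helper96):
(R1') if `y ∈ PP (sg T b a) J` and `y' ∈ nb (sg T b a) y` then `y` sees some `N` equivalent to `J`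
along some `(Q, ψ)` with `y' ∉ ψ(Q)`: apply `S_sl1` to an embedding of `P` with `b ↦ y`,
`a ↦ y'`. (R2') if `y ∈ PP (sg T b f) J` choose `z ≠ y'` in `nb (sg T b f) y ∩ core J`. -/
def S_s2 : Prop := S_clo → S_gz → S_eq → S_sl1 → S_sl2 → S_sl3 → S_sl4 → S_out →
  ∀ (V W : Type) [Fintype V] [DecidableEq V] [Fintype W] [DecidableEq W]
  (D : Digraph V) (T : Digraph W) (k m K g : ℕ) (r : W)
  (R : Up.Rooted T r) (A Nr P : Finset W) (b f : W) (F2 : Finset W),
  Base T D k m K g both R A Nr → Conn D → Nonempty V →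
  Pos T both R A Nr P b (insert f F2) → Pos T both R A Nr (insert f P) f F2 →
  R.par f = b → b ≠ r → R.Closed (P.erase b) → sg T (R.par b) b = sg T b f →
  Rich R F2 f g → 4 * m + 4 * K + 10 ≤ P.card →
  Fintype.card V ≤ k + 20 * K

/-- [DU S3] Section 6, the antidirected part (the conclusion is the last statement there; then `T` is in
`D` by section 8). -/
def S_s3 : Prop := S_clo → S_gz → S_eq → S_sl1 → S_sl2 → S_sl3 → S_sl4 → S_out →
  ∀ (V W : Type) [Fintype V] [DecidableEq V] [Fintype W] [DecidableEq W]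
  (D : Digraph V) (T : Digraph W) (k m K g : ℕ) (r : W)
  (R : Up.Rooted T r) (A Nr P M : Finset W) (b f f2 : W) (F2 : Finset W) (ty : W → Bool),
  Base T D k m K g both R A Nr →
  Pos T both R A Nr P b (insert f F2) → Pos T both R A Nr (insert f P) f F2 →
  R.par f = b → f2 ∈ F2 → R.par f2 = f → Rich R F2 f g → Room R F2 f2 g →
  M ⊆ P → b ∈ M → Cn (gr T) M → 4 * m + 4 * K + 10 ≤ M.card →
  (∀ x ∈ M, ∀ x' ∈ M, (gr T).Adj x x' → sg T x x' = ty x) →
  sg T b f = ty b → sg T f f2 = ty f → ty f = !(ty b) →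
  ∀ v : V, ∃ J, Clus D k m K both J ∧ v ∈ PP D k K both (ty b) J ∧
    ∀ y y', y' ∈ nb D (ty b) y →
      (y ∈ PP D k K both (ty b) J ↔ y' ∈ PP D k K both (!(ty b)) J)

/-- [DU SH] (7.1), the shifted path. `t ∈ F'` of `S_sl0` for the set `F'` of `SRich`; `u ∈ Q` is
the element with `par u = b`; `t'` is a child of `t` with room below it (an element of smallest
depth of the set in `Rich R (sdsc R F t) t g`); `Q' = (Q ∪ {t'}) \ {u}`, `ψ' x = ψ (par x)`. -/
def S_sh : Prop := S_clo → S_sl0 → ∀ (V W : Type) [Fintype V] [DecidableEq V] [Fintype W]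
  [DecidableEq W]
  (D : Digraph V) (T : Digraph W) (k m K g : ℕ) (s0 : Bool) (r : W)
  (R : Up.Rooted T r) (A Nr P : Finset W) (b : W) (F : Finset W),
  Base T D k m K g (fun s => s = s0) R A Nr →
  Pos T (fun s => s = s0) R A Nr P b F → SRich R F b g →
  ∀ φ : W → V, IsEmb T D P φ →
  ∃ (N : Finset V) (u : W) (Q Q' : Finset W) (ψ ψ' : W → V),
    Clus D k m K (fun s => s = s0) N ∧ u ∈ F ∧ R.par u = b ∧
    Sees T D K g (fun s => s = s0) R F b (φ b) N Q ψ ∧
    Sees T D K g (fun s => s = s0) R (sdsc R F u) u (φ b) N Q' ψ' ∧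
    Rich R (sdsc R F u) u g ∧
    Pos T (fun s => s = s0) R A Nr (insert u P) u (sdsc R F u)

/-- [DU S1] Section 7, (7.2), (7.3): one sign, one cluster for all vertices. For an arc
`z ∈ nb s0 y` take `u` for `z` from `S_sh`; the clusters seen from `y` and `z` are equivalent; by
`Conn` there is one class. Every vertex sees something: `S_sl1` for the embedding of `P` with
`b ↦ y` (greedy; `Rich R F b g` follows from `SRich R F b g`). -/
def S_s1 : Prop := S_clo → S_gz → S_eq → S_sh → S_sl1 → S_sl2 → S_sl3 → S_sl4 →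
  ∀ (V W : Type) [Fintype V] [DecidableEq V] [Fintype W] [DecidableEq W]
  (D : Digraph V) (T : Digraph W) (k m K g : ℕ) (s0 : Bool) (r : W)
  (R : Up.Rooted T r) (A Nr P : Finset W) (b : W) (F : Finset W),
  Base T D k m K g (fun s => s = s0) R A Nr → Conn D → Nonempty V →
  Pos T (fun s => s = s0) R A Nr P b F → SRich R F b g → 4 * m + 4 * K + 10 ≤ P.card →
  ∃ J, Clus D k m K (fun s => s = s0) J ∧
    ∀ φ : W → V, IsEmb T D P φ → ((P.image φ) \ J).card ≤ 2 * m + 2 * K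

/-- [DU WALK] Lemma P. Disjoint forward paths in a finite relation with large in-degrees, by
counting walks. `leg i 0 = z`. -/
def S_walk : Prop := ∀ (V : Type) [Fintype V] [DecidableEq V] (rel : V → V → Prop)
  [DecidableRel rel] (O : Finset V) (d b h : ℕ), O.Nonempty →
  (∀ w ∈ O, d ≤ (O.filter (fun u => rel u w)).card) → 2 * b * h * h + (h + 1) ^ 2 < d →
  ∃ z ∈ O, ∃ leg : ℕ → ℕ → V, (∀ i < b, leg i 0 = z) ∧ (∀ i < b, ∀ j ≤ h, leg i j ∈ O) ∧
    (∀ i < b, ∀ j < h, rel (leg i j) (leg i (j + 1))) ∧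
    (∀ i < b, ∀ j < h, leg i (j + 1) ≠ z) ∧
    (∀ i < b, ∀ i' < b, ∀ j < h, ∀ j' < h, leg i (j + 1) = leg i' (j' + 1) → i = i' ∧ j = j')

/-- [DU SPI] Lemma E. Spiders in a rooted tree with many vertices: `X` hangs below `x0 ∈ X`. -/
def S_spi : Prop := ∀ (W : Type) [Fintype W] [DecidableEq W] (T : Digraph W) (r : W)
  (R : Up.Rooted T r) (X : Finset W) (x0 : W) (M : ℕ), x0 ∈ X →
  Below R (X.erase x0) x0 → Real.exp M < X.card →
  ∃ (c : W) (b h : ℕ) (leg : ℕ → ℕ → W), M < b * h ∧ Spider R X c b h leg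

/-- [DU SPT] Truncation of a spider: `M ≤ b' h' ≤ 2 M` for some smaller spider. -/
def S_spt : Prop := ∀ (W : Type) [Fintype W] [DecidableEq W] (T : Digraph W) (r : W)
  (R : Up.Rooted T r) (X : Finset W) (c : W) (b h M : ℕ) (leg : ℕ → ℕ → W), 1 ≤ M →
  M ≤ b * h → Spider R X c b h leg →
  ∃ b' h', Spider R X c b' h' leg ∧ M ≤ b' * h' ∧ b' ≤ M ∧ h' ≤ M

/-- [DU S1F] (7.4): a spider in `P` and the cluster `J` of `S_s1` give `|V| ≤ k + 10 K`. -/
def S_s1f : Prop := S_clo → S_gz → S_out → S_walk →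
  ∀ (V W : Type) [Fintype V] [DecidableEq V] [Fintype W] [DecidableEq W]
  (D : Digraph V) (T : Digraph W) (k m K g : ℕ) (s0 : Bool) (r : W)
  (R : Up.Rooted T r) (A Nr P X : Finset W) (c : W) (b h : ℕ) (leg : ℕ → ℕ → W)
  (J : Finset V),
  Base T D k m K g (fun s => s = s0) R A Nr → R.Closed P → P ⊆ Nr → X ⊆ P →
  Spider R X c b h leg → (∀ i < b, ∀ j < h, sg T (leg i j) (leg i (j + 1)) = s0) →
  2 * m + 2 * K ≤ b * h → 2 * (2 * b * h * h + (h + 1) ^ 2) < k →
  Clus D k m K (fun s => s = s0) J →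
  (∀ φ : W → V, IsEmb T D P φ → ((P.image φ) \ J).card ≤ 2 * m + 2 * K) →
  Fintype.card V ≤ k + 10 * K

/-- [DU NCL] Section 8, nearly complete hosts. -/
def S_ncl : Prop := ∀ (V W : Type) [Fintype V] [DecidableEq V] [Fintype W] [DecidableEq W]
  (D : Digraph V) (T : Digraph W) (k κ : ℕ), IsOrientedTree k T → Loopless D →
  ∀ (Q : Finset V) (SW I : Finset W) (om : W → V),
  (∀ x ∈ Q, ∀ s, (Q \ nb D s x).card ≤ κ) →
  (∀ a ∈ SW, ∀ b ∈ SW, om a = om b → a = b) → (∀ a ∈ SW, om a ∉ Q) →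
  (∀ a ∈ SW, ∀ b, (gr T).Adj a b → (Q \ nb D (sg T a b) (om a)).card ≤ κ) →
  Disjoint SW I → Sep T (SW ∪ I) → (∀ u ∈ I, (nbT T u).card ≤ 2) → 4 * κ + 1 ≤ I.card →
  k + 1 ≤ Q.card + SW.card → Contains D T

/-- [DU SEL] Choice of well separated vertices: if `|C| ≥ (n + |S|) (1 + Δ + Δ²)` then `n` elements
of `C` can be added to the separated set `S`. -/
def S_sel : Prop := ∀ (W : Type) [Fintype W] [DecidableEq W] (T : Digraph W) (Δ n : ℕ),
  DegLe T Δ → ∀ (S C : Finset W), Sep T S → (n + S.card) * (1 + Δ + Δ * Δ) ≤ C.card →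
  ∃ I ⊆ C, I.card = n ∧ Disjoint S I ∧ Sep T (S ∪ I)

/-- [DU LOW] More than half of the vertices have degree at most 2. -/
def S_low : Prop := ∀ (W : Type) [Fintype W] [DecidableEq W] (T : Digraph W) (k : ℕ),
  IsOrientedTree k T → k + 1 ≤ 2 * (univ.filter (fun u => (nbT T u).card ≤ 2)).card

/-- [DU SNK] There are at least as many sinks (vertices without `s`-neighbours) as vertices with
two `s`-neighbours. -/
def S_snk : Prop := ∀ (W : Type) [Fintype W] [DecidableEq W] (T : Digraph W) (k : ℕ) (s : Bool),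
  IsOrientedTree k T → 1 ≤ k →
  (univ.filter (fun u => 2 ≤ (nb T s u).card)).card ≤
    (univ.filter (fun u => (nb T s u).card = 0)).card

/-- [DU NC] (8.1): a slightly larger host. -/
def S_nc : Prop := S_ncl → S_sel → S_low →
  ∀ (V W : Type) [Fintype V] [DecidableEq V] [Fintype W] [DecidableEq W]
  (D : Digraph V) (T : Digraph W) (k m K Δ : ℕ), IsOrientedTree k T → Loopless D →
  (∀ s x, k ≤ (nb D s x).card + m) → DegLe T Δ →
  k + 1 ≤ Fintype.card V → Fintype.card V ≤ k + 20 * K →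
  2 * (4 * (20 * K + m) + 1) * (1 + Δ + Δ * Δ) ≤ k → Contains D T

/-- [DU ADX] (8.2): the conclusion of `S_s3` for a vertex `v` of degrees `≥ k`. -/
def S_adx : Prop := S_ncl → S_sel → S_low → S_out →
  ∀ (V W : Type) [Fintype V] [DecidableEq V] [Fintype W] [DecidableEq W]
  (D : Digraph V) (T : Digraph W) (k m K Δ : ℕ) (σ : Bool) (J : Finset V) (v : V),
  IsOrientedTree k T → Loopless D → (∀ s x, k ≤ (nb D s x).card + m) → DegLe T Δ →
  (∀ s, k ≤ (nb D s v).card) → 1000 * (m + 30 * K + 1) ≤ k →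
  Clus D k m K both J → v ∈ PP D k K both σ J →
  (∀ y y', y' ∈ nb D σ y → (y ∈ PP D k K both σ J ↔ y' ∈ PP D k K both (!σ) J)) →
  (∀ s, (50 * (K + m) + 10) * (1 + Δ + Δ * Δ) ≤
    (univ.filter (fun u => (nb T s u).card = 0)).card) →
  200 * (K + m + 1) * (1 + Δ + Δ * Δ) ≤ k → Contains D T

end Pool.Agent.Lib.MP_47458b_co.DU
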