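import Pool.Agent.Lib.MP_47458b_co.DU.Stm

/-!
Statements of project DU (digraph upper bound), part 2: sections 9 - 11 of `MP_47458b_DU.md`
(tree data, the trap property in the two cases, dichotomy, connectedness).
-/

namespace Pool.Agent.Lib.MP_47458b_co.DU

open Finset

/-- Case A: there are `m + 1` pairwise disjoint edges `(par x, x)` of sign `s` inside `B`. -/
def Av {W : Type} [Fintype W] [DecidableEq W] {T : Digraph W} {r : W} (R : Up.Rooted T r)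
    (B : Finset W) (m : ℕ) (s : Bool) : Prop :=
  ∃ M ⊆ B, M.card = m + 1 ∧ (∀ x ∈ M, R.par x ∈ B ∧ sg T (R.par x) x = s) ∧
    ∀ x ∈ M, ∀ y ∈ M, x ≠ y → R.par x ≠ R.par y ∧ R.par x ≠ y

/-- All but `k / 200` vertices of `N` are `s`-closed. -/
def ClS {V : Type} [Fintype V] [DecidableEq V] (D : Digraph V) (k K : ℕ) (s : Bool)
    (N : Finset V) : Prop :=
  200 * (N.filter (fun x => K < ((nb D s x) \ N).card)).card ≤ k

/-- A descending path `π 0 = r, π 1, ..., π h` outside `Rm`. -/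
structure PathR {W : Type} [Fintype W] [DecidableEq W] {T : Digraph W} {r : W}
    (R : Up.Rooted T r) (Rm : Finset W) (h : ℕ) (π : ℕ → W) : Prop where
  zero : π 0 = r
  par : ∀ i < h, π (i + 1) ≠ r ∧ R.par (π (i + 1)) = π i
  out : ∀ i ≤ h, π i ∉ Rm

/-- [DU CNC] A connected set which contains the root is closed under parents (`T` is a tree; use
`Cn.unique` or `Cn.boundary` for `S` and the set of ancestors). -/
def S_cnc : Prop := ∀ (W : Type) [Fintype W] [DecidableEq W] (k : ℕ) (T : Digraph W),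
  IsOrientedTree k T → ∀ (r : W) (R : Up.Rooted T r) (S : Finset W), r ∈ S → Cn (gr T) S →
  R.Closed S

/-- [DU CNT] Section 11, weights `w x = |dsc R X x|` in a rooted tree `X` with top `x0`.
(2) `H = {w ≥ c}`: every element of `X \ H` lies in `dsc t` for some `t ∉ H` with `par t ∈ H`; there
are at most `Δ |H|` such `t`. (3) `b` with `w b ≥ c` and `w b` minimal: its children have
`w ≤ c - 1`. (4) (2) for `dsc R X x` and `c = g + 1`: `F'` = elements of `sdsc` with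
`w ≥ g + 1`. -/
def S_cnt : Prop := S_clo → ∀ (W : Type) [Fintype W] [DecidableEq W] (k : ℕ) (T : Digraph W),
  IsOrientedTree k T → ∀ (r : W) (R : Up.Rooted T r) (Δ : ℕ), DegLe T Δ →
  ∀ (X : Finset W) (x0 : W), x0 ∈ X → Below R (X.erase x0) x0 →
  (∀ x ∈ X, Below R (sdsc R X x) x) ∧
  (∀ c, 1 ≤ c → c ≤ X.card →
    X.card ≤ (X.filter (fun x => c ≤ (dsc R X x).card)).card * (1 + Δ * (c - 1)) ∧
    x0 ∈ X.filter (fun x => c ≤ (dsc R X x).card) ∧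
    Below R ((X.filter (fun x => c ≤ (dsc R X x).card)).erase x0) x0) ∧
  (∀ c, 1 ≤ c → c ≤ X.card →
    ∃ b ∈ X, c ≤ (dsc R X b).card ∧ (dsc R X b).card ≤ 1 + Δ * (c - 1)) ∧
  (∀ g x, x ∈ X → (g + 1) * (1 + Δ * g) ≤ (dsc R X x).card → Rich R (sdsc R X x) x g)

/-- [DU TAB] Section 11, both signs. `X = insert r B`, `nr = (g + 1) (1 + Δ g)`,
`W1 = (n + 2 + Δ (Δ + 1) + Δ (M1 (Δ + 1) + 1)) (1 + Δ nr)`; `b0` from (3) of `S_cnt` with `c = W1`
(`b0 ≠ r`). Case (I): some `b ∈ dsc b0` has a child `f ∈ B` with `w f ≥ nr` and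
`sg (par b) b = sg b f`: `P = A ∪ (B \ sdsc b)`, `F2 = sdsc f`. Otherwise
`H = {x ∈ dsc b0 : w x ≥ nr}` is antidirected with `ty x = !(sg (par x) x)`, `|H| ≥ W1 / (1 + Δ nr)`;
`b ∈ H` with at least `Δ + 2` and at most `1 + Δ (Δ + 1)` descendants in `H` (itself included), so
`b` has a grandchild `f2 ∈ H`; `M = H \ sdsc b`, `P`, `F2` as before. Last clause: the
`x ∈ H \ {b0}` with a child in `H` have two neighbours of sign `ty x`; let `I_σ` be those with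
`ty x = σ`: `|H| - 1 ≤ Δ (|I_+| + |I_-| + 1)` and `|I_{-σ}| ≤ Δ (|I_σ| + 1)`. -/
def S_tab : Prop := S_clo → S_cnt → ∀ (W : Type) [Fintype W] [DecidableEq W] (k : ℕ)
  (T : Digraph W), IsOrientedTree k T → ∀ (r : W) (R : Up.Rooted T r) (A B : Finset W)
  (Δ g n M1 : ℕ), DegLe T Δ → 1 ≤ Δ → 1 ≤ g → R.Closed A → Below R B r → Disjoint A B →
  ((n + 2 + Δ * (Δ + 1) + Δ * (M1 * (Δ + 1) + 1)) * (1 + Δ * ((g + 1) * (1 + Δ * g)))) * Δ +
    n + 2 ≤ B.card →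
  (∃ (P : Finset W) (b f : W) (F2 : Finset W), Pos T both R A (A ∪ B) P b (insert f F2) ∧
    Pos T both R A (A ∪ B) (insert f P) f F2 ∧ R.par f = b ∧ b ≠ r ∧ R.Closed (P.erase b) ∧
    sg T (R.par b) b = sg T b f ∧ Rich R F2 f g ∧ n ≤ P.card) ∨
  (∃ (P M : Finset W) (b f f2 : W) (F2 : Finset W) (ty : W → Bool),
    Pos T both R A (A ∪ B) P b (insert f F2) ∧ Pos T both R A (A ∪ B) (insert f P) f F2 ∧
    R.par f = b ∧ f2 ∈ F2 ∧ R.par f2 = f ∧ Rich R F2 f g ∧ Room R F2 f2 g ∧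
    M ⊆ P ∧ b ∈ M ∧ Cn (gr T) M ∧ n ≤ M.card ∧
    (∀ x ∈ M, ∀ x' ∈ M, (gr T).Adj x x' → sg T x x' = ty x) ∧
    sg T b f = ty b ∧ sg T f f2 = ty f ∧ ty f = !(ty b) ∧
    ∀ s, M1 ≤ (univ.filter (fun u => 2 ≤ (nb T s u).card)).card)

/-- [DU TR1] One sign, tree data. Cut `B` at the bad vertices (`par y = r` or wrong sign); one piece
`X0` (with top `x1`) has at least `N + 1 + Δ W2` elements, `W2 = (g + 1) (1 + Δ nr)`,
`nr = (g + 1) (1 + Δ g)`; `b ∈ X0` from `S_cnt` (3) with `c = W2`, `F = sdsc R X0 b`,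
`X = X0 \ F`, `P = A ∪ (B \ sdsc R B b)`; `SRich` by `F' = {t ∈ F : w t ≥ nr}` and (4). -/
def S_tr1 : Prop := S_clo → S_cnt → ∀ (W : Type) [Fintype W] [DecidableEq W] (k : ℕ)
  (T : Digraph W), IsOrientedTree k T → ∀ (r : W) (R : Up.Rooted T r) (A B : Finset W)
  (s0 : Bool) (Δ g N x : ℕ), DegLe T Δ → 1 ≤ Δ → 1 ≤ g → R.Closed A → Below R B r →
  Disjoint A B →
  (B.filter (fun y => R.par y = r ∨ sg T (R.par y) y = !s0)).card ≤ x →
  (N + 1 + Δ * ((g + 1) * (1 + Δ * ((g + 1) * (1 + Δ * g))))) * x < B.card →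
  ∃ (P : Finset W) (b : W) (F X : Finset W) (x1 : W),
    Pos T (fun s => s = s0) R A (A ∪ B) P b F ∧ SRich R F b g ∧ X ⊆ P ∧ x1 ∈ X ∧
    Below R (X.erase x1) x1 ∧ (∀ y ∈ X, y ≠ r → R.par y ∈ X → sg T (R.par y) y = s0) ∧
    N ≤ X.card

/-- [DU AV] Section 9: if there are no `m + 1` disjoint edges of sign `s` in `B` then there are at
most `2 m Δ` edges of sign `s` in `B` (maximal disjoint family). -/
def S_av : Prop := ∀ (W : Type) [Fintype W] [DecidableEq W] (k : ℕ) (T : Digraph W),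
  IsOrientedTree k T → ∀ (r : W) (R : Up.Rooted T r) (B : Finset W) (Δ m : ℕ) (s : Bool),
  DegLe T Δ → Below R B r → ¬ Av R B m s →
  (B.filter (fun x => R.par x ∈ B ∧ sg T (R.par x) x = s)).card ≤ 2 * m * Δ

/-- [DU CLA] Section 9, closedness of `J`. Suppose more than `k / 200` elements of `J` are not
`s`-closed. Claim for all `j ≤ m + 1`: there is an embedding `ψ` (extending `φ`) of a closed `S`
with `A ⊆ S ⊆ A ∪ B`, at least `j` images outside `J` and at least `m + 1 - j` elements `x` of the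
set `M` of `Av` with `par x ∉ S`. Step: `x` with `dep (par x)` minimal; embed the proper ancestors
of `par x` greedily; if there are still exactly `j ≤ m` exits, put `par x` on an unused element of
`nb` which is outside `J` or not `s`-closed (there is one: `k - m - |A ∪ B|` choices, at most
`k - k / 200` elements of `J` are `s`-closed), and, if it is in `J`, put `x` outside `J` (`≥ m + 1`
choices, at most `m` of them used). `j = m + 1` contradicts `S_hall` after a greedy extension to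
`Lᶜ` (`Lᶜ` is closed, `|Lᶜ| ≤ k - m + 1`; `J` only depends on the images of `pl l ∈ A`). -/
def S_clA : Prop := S_clo → S_hall → ∀ (V W : Type) [Fintype V] [DecidableEq V] [Fintype W]
  [DecidableEq W]
  (D : Digraph V) (T : Digraph W) (k m : ℕ), IsOrientedTree k T → Loopless D →
  (∀ s x, k ≤ (nb D s x).card + m) → ¬ Contains D T → 1 ≤ m → 400 * (m + 1) ≤ k →
  ∀ (sL : Bool) (L : Finset W) (pl : W → W), Leafs T sL L pl → m * m + m ≤ L.card →
  L.card ≤ k → ∀ (r : W) (R : Up.Rooted T r) (A B : Finset W), R.Closed A →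
  (∀ l ∈ L, pl l ∈ A) → Disjoint L (A ∪ B) → R.Closed (A ∪ B) → Disjoint A B →
  400 * (A ∪ B).card ≤ k → ∀ (s : Bool), Av R B m s →
  ∀ φ : W → V, IsEmb T D A φ →
    ClS D k m s (Jset D m sL L (fun l => φ (pl l)))

/-- [DU TRA] Section 9, the trap property in case A with `K = m`, `g = m + 1`, `N = J`. While
embedding `S' \ S` choose an image outside `J` whenever `nb ∩ Z` has an unused element outside `J`;
at most `m` exits (`S_hall`), so for some `t ∈ S' \ S` there was none. -/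
def S_trA : Prop := S_clo → S_hall → S_clA → ∀ (V W : Type) [Fintype V] [DecidableEq V]
  [Fintype W] [DecidableEq W]
  (D : Digraph V) (T : Digraph W) (k m : ℕ), IsOrientedTree k T → Loopless D →
  (∀ s x, k ≤ (nb D s x).card + m) → ¬ Contains D T → 1 ≤ m → 400 * (m + 1) ≤ k →
  ∀ (sL : Bool) (L : Finset W) (pl : W → W), Leafs T sL L pl → m * m + m ≤ L.card →
  L.card ≤ k → ∀ (r : W) (R : Up.Rooted T r) (A B : Finset W), R.Closed A →
  (∀ l ∈ L, pl l ∈ A) → Disjoint L (A ∪ B) → R.Closed (A ∪ B) → Disjoint A B →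
  400 * (A ∪ B).card ≤ k → ∀ (Sg : Bool → Prop), (∀ s, Sg s → Av R B m s) →
  Trap T D k m m (m + 1) Sg R A (A ∪ B)

/-- [DU PHA] Section 10, the steps of `Trap` for the potential. One vertex `t` at a time (closed
order): the choice set `C = (nb ∩ Z) \ used` is not empty; if `k < 100 |(nb ∩ Z) \ N|` then
`|C \ N| ≥ |C| / 200` (`|C| ≤ k + |C \ N|`, `|used| ≤ k / 500`), so the average over `C` of
`2^{-[c ∉ N]} * 400 / 399` is at most one. -/
def S_phA : Prop := S_clo → ∀ (V W : Type) [Fintype V] [DecidableEq V] [Fintype W]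
  [DecidableEq W]
  (D : Digraph V) (T : Digraph W) (k : ℕ), IsOrientedTree k T → Loopless D →
  ∀ (r : W) (R : Up.Rooted T r) (Z : Finset V) (S S' : Finset W) (φ : W → V),
  R.Closed S → R.Closed S' → S ⊆ S' → 500 * S'.card ≤ k → IsEmb T D S φ →
  (∀ t ∈ S' \ S, R.par t ∈ S →
    S'.card ≤ (nb D (sg T (R.par t) t) (φ (R.par t)) ∩ Z).card) →
  (∀ t ∈ S' \ S, R.par t ∉ S → ∀ x ∈ Z, S'.card ≤ (nb D (sg T (R.par t) t) x ∩ Z).card) →
  ∀ F : Finset (Finset V), (∀ N ∈ F, N.card ≤ k) →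
  ∃ ψ : W → V, IsEmb T D S' ψ ∧ (∀ x ∈ S, ψ x = φ x) ∧ (∀ x ∈ S' \ S, ψ x ∈ Z) ∧
    ∑ N ∈ F, (1 / 2 : ℝ) ^ ((S'.image ψ) \ N).card *
      (400 / 399 : ℝ) ^ ((S' \ S).filter (fun t =>
        k < 100 * ((nb D (sg T (R.par t) t) (ψ (R.par t)) ∩ Z) \ N).card)).card ≤ F.card

/-- [DU PAR] Section 10, one pair step. `C1 = nb s1 q \ U`, `C2 x = nb s x \ U`; `x` uniform in
`C1`, then `y` uniform in `C2 x`. If `p = P(x ∉ N or y ∉ N) < 1 / E` and `|U \ N| ≤ m` then fewer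
than `|C1| / 400` of the `x` are outside `N` or have `E |C2 x \ N| > 400 |C2 x|`; the other `x` are
in `N` and satisfy `|nb s x \ N| ≤ m + (K - m)`; so `ClS`. -/
def S_par : Prop := ∀ (V : Type) [Fintype V] [DecidableEq V] (D : Digraph V)
  (k m K E : ℕ), Loopless D → (∀ s x, k ≤ (nb D s x).card + m) → 1000 ≤ E → m ≤ K →
  1000 * k ≤ (K - m) * E → ∀ (U : Finset V) (q : V) (s1 s : Bool) (F : Finset (Finset V))
  (w : Finset V → ℝ), 500 * (U.card + m + 2) ≤ k → (∀ N ∈ F, N.card ≤ k ∧ 0 ≤ w N) →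
  ∃ x ∈ nb D s1 q, x ∉ U ∧ ∃ y ∈ nb D s x, y ∉ U ∧ y ≠ x ∧
    ∑ N ∈ F, w N * (open Classical in if (U \ N).card ≤ m ∧ ¬ ClS D k K s N then
        (2 * E / (2 * E - 1) : ℝ) else 1) * (if x ∈ N ∧ y ∈ N then 1 else 1 / 2) ≤
      ∑ N ∈ F, w N

/-- [DU TRB] Section 10, the trap property in case B. `F` = the sets `nb D s y` with at most `k`
elements, `y ∈ ball D k (φ r) (2 m + 1)` (as in `many_inner`). Potential: `S_phA`, then greedy
steps along the path and the pair steps at `(π i, π (i + 1))`, `i ∈ pr` (`S_par`), then greedily to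
`Rmᶜ`; `last_part` gives `N ∈ F` with at most `m` exits. -/
def S_trB : Prop := S_clo → S_cnc → S_phA → S_par → ∀ (V W : Type) [Fintype V]
  [DecidableEq V] [Fintype W] [DecidableEq W]
  (D : Digraph V) (T : Digraph W) (k m K g E n1 h h1 : ℕ) (Sg : Bool → Prop),
  IsOrientedTree k T → Loopless D → (∀ s x, k ≤ (nb D s x).card + m) → ¬ Contains D T →
  ∀ (r : W) (R : Up.Rooted T r) (Rm : Finset W) (π : ℕ → W) (pr : Finset ℕ),
  r ∉ Rm → Cn (gr T) (insert r Rm) → Cn (gr T) Rmᶜ → m + 1 ≤ Rm.card → Rm.card ≤ 2 * m + 1 →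
  PathR R Rm h π → h1 < h → (∀ i ∈ pr, h1 < i ∧ i < h) →
  (∀ i ∈ pr, ∀ j ∈ pr, i < j → i + 2 ≤ j) →
  (∀ s, Sg s → n1 ≤ (pr.filter (fun i => sg T (π i) (π (i + 1)) = s)).card) →
  500 * (m + h + 3) ≤ k → 1000 ≤ E → m ≤ K → 1000 * k ≤ (K - m) * E →
  2 ^ m * (2 * (2 * k + 3) ^ (2 * m + 1)) * 399 ^ g < 400 ^ g →
  2 ^ m * (2 * (2 * k + 3) ^ (2 * m + 1)) * (2 * E - 1) ^ n1 < (2 * E) ^ n1 →
  Trap T D k m K g Sg R {r} ((range (h1 + 1)).image π)

/-- [DU PSEL] Choice of the pair positions. If both signs occur at least `4 n1` times in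
`(h0, 3 h0)`: first alternative (elements of the same parity, then remove neighbours of the first
set). Otherwise `!s0` occurs fewer than `4 n1` times: some window of length `len` in `(h0, 2 h0)` has
only `s0`, and `(2 h0, 3 h0)` contains `≥ 2 n2` positions of sign `s0`. -/
def S_psel : Prop := ∀ (σ : ℕ → Bool) (h0 n1 n2 len : ℕ), 4 * n1 * len + len + 1 ≤ h0 →
  4 * n1 + 2 * n2 + 1 ≤ h0 → 1 ≤ n1 →
  (∃ pr : Finset ℕ, (∀ i ∈ pr, h0 < i ∧ i < 3 * h0) ∧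
    (∀ i ∈ pr, ∀ j ∈ pr, i < j → i + 2 ≤ j) ∧
    ∀ s, n1 ≤ (pr.filter (fun i => σ i = s)).card) ∨
  (∃ (s0 : Bool) (i1 : ℕ) (pr : Finset ℕ), h0 < i1 ∧ i1 + len ≤ 2 * h0 ∧
    (∀ i, i1 ≤ i → i < i1 + len → σ i = s0) ∧ (∀ i ∈ pr, 2 * h0 < i ∧ i < 3 * h0) ∧
    (∀ i ∈ pr, ∀ j ∈ pr, i < j → i + 2 ≤ j) ∧
    n2 ≤ (pr.filter (fun i => σ i = s0)).card)

/-- [DU PTH] Position data on a path, one sign: `b = π (i1 + N)`, `P` = the path up to `b`, `F` =
the next `3 g` vertices, `leg 0 j = π (i1 + j)`. -/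
def S_pth : Prop := ∀ (W : Type) [Fintype W] [DecidableEq W] (k : ℕ) (T : Digraph W),
  IsOrientedTree k T → ∀ (r : W) (R : Up.Rooted T r) (Rm : Finset W) (π : ℕ → W)
  (h h1 i1 N g : ℕ) (s0 : Bool), PathR R Rm h π → h1 ≤ h → i1 + N + 3 * g ≤ h1 →
  (∀ i, i1 ≤ i → i < i1 + N + 3 * g → sg T (π i) (π (i + 1)) = s0) →
  ∃ (P : Finset W) (b : W) (F : Finset W) (leg : ℕ → ℕ → W),
    Pos T (fun s => s = s0) R {r} ((range (h1 + 1)).image π) P b F ∧ SRich R F b g ∧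
    Spider R P (π i1) 1 N leg ∧ (∀ j < N, sg T (leg 0 j) (leg 0 (j + 1)) = s0) ∧
    P.card = i1 + N + 1

/-- [DU PTB] Path data, both signs: `Below`, closedness and cardinalities on the path (used with
`S_tab`): `A = {r}`, `B` = the vertices `π 1, ..., π h1`. -/
def S_ptb : Prop := ∀ (W : Type) [Fintype W] [DecidableEq W] (k : ℕ) (T : Digraph W),
  IsOrientedTree k T → ∀ (r : W) (R : Up.Rooted T r) (Rm : Finset W) (π : ℕ → W)
  (h h1 : ℕ), PathR R Rm h π → h1 ≤ h →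
  R.Closed {r} ∧ Below R ((range h1).image (fun i => π (i + 1))) r ∧
  Disjoint {r} ((range h1).image (fun i => π (i + 1))) ∧
  {r} ∪ (range h1).image (fun i => π (i + 1)) = (range (h1 + 1)).image π ∧
  ((range h1).image (fun i => π (i + 1))).card = h1

/-- [DU DICH] Section 9, the two cases. `r`, `Rm` from `exists_part`. If some vertex outside `Rm` is
at least `h` steps below `r`: first alternative (its ancestors are outside `Rm` by `Cn.no_edge`).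
Otherwise every vertex is at most `h - 1` steps below `r` (for `Rm` because `|Rm| ≤ 2 m + 1 < h`).
`q = m² + m`; `u` = vertex with at least `2 q` leaves below it and fewest descendants; it has at most
`(2 q - 1) Δ` leaves below it, hence at most `(2 q - 1) Δ h` descendants, `u ≠ r`; root at `u`,
`L` = `q` leaves below `u` of the same sign, `A` = descendants of `u` (with `u`) which are no leaves,
`C` = all vertices which are not descendants of `u`. -/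
def S_dich : Prop := S_clo → S_cnc → ∀ (W : Type) [Fintype W] [DecidableEq W] (k m h Δ : ℕ)
  (T : Digraph W), IsOrientedTree k T → DegLe T Δ → 1 ≤ m → 2 * m + 2 ≤ h → 1 ≤ Δ →
  4 * (m * m + m) * Δ * (h + 1) ≤ k →
  (∃ (r : W) (R : Up.Rooted T r) (Rm : Finset W) (π : ℕ → W), r ∉ Rm ∧
    Cn (gr T) (insert r Rm) ∧ Cn (gr T) Rmᶜ ∧ m + 1 ≤ Rm.card ∧ Rm.card ≤ 2 * m + 1 ∧
    PathR R Rm h π) ∨
  (∃ (r : W) (R : Up.Rooted T r) (A C L : Finset W) (sL : Bool) (pl : W → W),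
    Leafs T sL L pl ∧ L.card = m * m + m ∧ R.Closed A ∧ (∀ l ∈ L, pl l ∈ A) ∧ Below R C r ∧
    (C.filter (fun y => R.par y = r)).card ≤ 1 ∧ Disjoint A C ∧ Disjoint L (A ∪ C) ∧
    A.card ≤ 2 * (m * m + m) * Δ * (h + 1) ∧ k ≤ 2 * C.card)

/-- [DU CONN] It suffices to treat connected hosts: take the subtype of the vertices reachable from
`v`. -/
def S_conn : Prop := ∀ (k m : ℕ) (W : Type) [Fintype W] [DecidableEq W] (T : Digraph W),
  IsOrientedTree k T →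
  (∀ (V : Type) [Fintype V] [DecidableEq V] (D : Digraph V), Loopless D → Conn D →
    (∀ s x, k ≤ (nb D s x).card + m) → ∀ v : V, (∀ s, k ≤ (nb D s v).card) →
    Contains D T) →
  ∀ (V : Type) [Fintype V] [DecidableEq V] (D : Digraph V), Loopless D →
    (∀ s x, k ≤ (nb D s x).card + m) → ∀ v : V, (∀ s, k ≤ (nb D s v).card) →
    Contains D T

/-- The parameter of `S_tab`. -/
def tabN (Δ g n M1 : ℕ) : ℕ :=
  ((n + 2 + Δ * (Δ + 1) + Δ * (M1 * (Δ + 1) + 1)) * (1 + Δ * ((g + 1) * (1 + Δ * g)))) * Δ + n + 2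

/-- All numerical conditions in case B (`N = 2 m + 2 K1` is the length of the leg). -/
structure NumB (k m Δ g h0 E1 E2 K1 K2 n1 n2 : ℕ) : Prop where
  g1 : 1 ≤ g
  tg : 2 ^ m * (2 * (2 * k + 3) ^ (2 * m + 1)) * 399 ^ g < 400 ^ g
  t1 : 2 ^ m * (2 * (2 * k + 3) ^ (2 * m + 1)) * (2 * E1 - 1) ^ n2 < (2 * E1) ^ n2
  t2 : 2 ^ m * (2 * (2 * k + 3) ^ (2 * m + 1)) * (2 * E2 - 1) ^ n1 < (2 * E2) ^ n1
  e1 : 1000 ≤ E1
  e2 : 1000 ≤ E2
  mK1 : m ≤ K1
  mK2 : m ≤ K2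
  c1 : 1000 * k ≤ (K1 - m) * E1
  c2 : 1000 * k ≤ (K2 - m) * E2
  hk : 500 * (m + 3 * h0 + 3) ≤ k
  n1p : 1 ≤ n1
  sel1 : 4 * n1 * (2 * m + 2 * K1 + 3 * g) + (2 * m + 2 * K1 + 3 * g) + 1 ≤ h0
  sel2 : 4 * n1 + 2 * n2 + 1 ≤ h0
  tab : tabN Δ g (4 * m + 4 * K2 + 10) ((50 * (K2 + m) + 10) * (1 + Δ + Δ * Δ)) ≤ h0
  b1 : 1000 * (m + 30 * K1 + 1) ≤ k
  b2 : 1000 * (m + 30 * K2 + 1) ≤ k
  p1 : 4 * m + 4 * K1 + 10 ≤ h0
  sp : 2 * (2 * 1 * (2 * m + 2 * K1) * (2 * m + 2 * K1) + (2 * m + 2 * K1 + 1) ^ 2) < k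
  nc1 : 2 * (4 * (20 * K1 + m) + 1) * (1 + Δ + Δ * Δ) ≤ k
  nc2 : 2 * (4 * (20 * K2 + m) + 1) * (1 + Δ + Δ * Δ) ≤ k
  ad2 : 200 * (K2 + m + 1) * (1 + Δ + Δ * Δ) ≤ k

/-- All numerical conditions in case A (`K = m`, `g = m + 1`, `|B| = k / 800`). -/
structure NumA (k m Δ h0 N : ℕ) : Prop where
  m0 : 1 ≤ m
  st : 10 * (m * m + m) ≤ k
  km : 400 * (m + 1) ≤ k
  hm : 2 * m + 2 ≤ 3 * h0
  dich : 4 * (m * m + m) * Δ * (3 * h0 + 1) ≤ k
  szA : 2 * (m * m + m) * Δ * (3 * h0 + 1) ≤ k / 800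
  tab : tabN Δ (m + 1) (4 * m + 4 * m + 10) ((50 * (m + m) + 10) * (1 + Δ + Δ * Δ)) ≤ k / 800
  tr1 : (N + 1 + Δ * ((m + 1 + 1) * (1 + Δ * ((m + 1 + 1) * (1 + Δ * (m + 1)))))) *
    (1 + 2 * m * Δ) < k / 800
  ex : Real.exp ((4 * m : ℕ) : ℝ) < N
  pN : 4 * m + 4 * m + 10 ≤ N
  sp : 2 * (2 * (4 * m) * (4 * m) * (4 * m) + (4 * m + 1) ^ 2) < k
  b0 : 1000 * (m + 30 * m + 1) ≤ k
  nc : 2 * (4 * (20 * m + m) + 1) * (1 + Δ + Δ * Δ) ≤ k
  ad : 200 * (m + m + 1) * (1 + Δ + Δ * Δ) ≤ k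

/-- [DU NUM] Choice of the parameters. Suggestion: `t` with `t ^ 20 ≤ k < (t + 1) ^ 20`,
`l = Nat.log 2 k + 1`, `s = 100 l`, `s ^ 40 ≤ t` for large `k`; `Λ = 10 l ^ 2`, so
`2 ^ m * (2 * (2 * k + 3) ^ (2 * m + 1)) ≤ 2 ^ Λ`; `g = 400 Λ` (Bernoulli:
`(400 / 399) ^ 400 > 2`), `E2 = t ^ 14`, `E1 = t ^ 18`, `h0 = t ^ 19`, `n1 = 2 E2 Λ`, `n2 = 2 E1 Λ`,
`K1 = m + 2000 t ^ 2`, `K2 = m + 2000 t ^ 6`; `m ≤ l`, `exp (4 m) ≤ k ^ (4 / 5) < (t + 1) ^ 16`,
`N = 2 t ^ 16`. -/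
def S_num : Prop := ∃ k0 : ℕ, ∀ k m : ℕ, k0 ≤ k → 1 ≤ m → (m : ℝ) ≤ Real.log k / 5 →
  ∃ g h0 E1 E2 K1 K2 n1 n2 N : ℕ,
    NumB k m (2 * (m * m + m) + 2 * m) g h0 E1 E2 K1 K2 n1 n2 ∧
    NumA k m (2 * (m * m + m) + 2 * m) h0 N

end Pool.Agent.Lib.MP_47458b_co.DU
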